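import Pool.Agent.Lib.MP_d3d358_ag.K.Lat
import Pool.Agent.Lib.MP_d3d358_ag.Bkr.Fm
import Pool.Agent.Lib.MP_d3d358_ag.Var.Q3G
import Pool.Agent.Lib.MP_d3d358_ag.Var.X2

set_option autoImplicit false

open CategoryTheory Limits Abelian

namespace Pool.Agent.Lib.MP_d3d358_ag.K

open Pool.Agent.Lib.MP_cd184e_ag.T Pool.Agent.Lib.MP_cd184e_ag.T.Coh Cy
open Pool.Agent.Lib.MP_d3d358_ag.Var (G sg chi ivt alt cix crd Equi)
open Pool.Agent.Lib.MP_d3d358_ag.Bkr (Fm)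

variable {F : Type} [Field F] [Algebra ℂ F]

section Model

variable (t : Fin 4 → F)

/-- The generators `x, y, xx, xy, yy` of the part of weight `ω`. -/
def covs : Fin 5 → F := ![t 0, t 1, t 2 ^ 2, t 2 * t 3, t 3 ^ 2]

/-- The alternants `d, a0, a3` of the three charts. -/
def alp (ν : Fin 3) : F := alt t (cix ν)

/-- The polynomial ring of the model. -/
def Pm : Subalgebra ℂ F := Algebra.adjoin ℂ (Set.range t)

/-- The invariant ring of the model. -/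
def Ai : Subalgebra ℂ F := Algebra.adjoin ℂ (Set.range (ivt t))

/-- The chart ring of the model. -/
def Om (ν : Fin 3) : Subalgebra ℂ F := Algebra.adjoin ℂ (Set.range (crd ν t))

end Model

variable [MulSemiringAction G F] [SMulCommClass G ℂ F]

/-- The elements of `R` that transform by the character `χ`. -/
def eig (R : Submodule ℂ F) (χ : G → ℂ) : Submodule ℂ F where
  carrier := {x | x ∈ R ∧ ∀ g : G, g • x = χ g • x}
  zero_mem' := ⟨zero_mem _, fun g => by rw [smul_zero, smul_zero]⟩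
  add_mem' hx hy := ⟨add_mem hx.1 hy.1, fun g => by rw [smul_add, hx.2, hy.2, smul_add]⟩
  smul_mem' r x hx := ⟨R.smul_mem r hx.1, fun g => by rw [smul_comm, hx.2, smul_comm]⟩

/-- The elements of `R` of weight `ω` for the rotation (the weight of `t 0`, `t 1`). -/
def wt (R : Submodule ℂ F) : Submodule ℂ F where
  carrier := {x | x ∈ R ∧ (DihedralGroup.r 1 : G)⁻¹ • x = chi 1 • x}
  zero_mem' := ⟨zero_mem _, by rw [smul_zero, smul_zero]⟩
  add_mem' hx hy := ⟨add_mem hx.1 hy.1, by rw [smul_add, hx.2, hy.2, smul_add]⟩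
  smul_mem' r x hx := ⟨R.smul_mem r hx.1, by rw [smul_comm, hx.2, smul_comm]⟩

/-- The algebraic data of a generalised Kummer fourfold: `R` is the space of theta functions of
level one, `X` is given by products of alternating and invariant theta functions. -/
structure Kum (F : Type) [Field F] [Algebra ℂ F] [MulSemiringAction G F] [SMulCommClass G ℂ F] where
  R : Submodule ℂ F
  fg : R.FG
  gR : ∀ (g : G), ∀ x ∈ R, g • x ∈ R
  RR : R * R ≤ eig R 1 * R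
  X : ProjVar ℂ F
  f : X.J → F
  g : X.J → F
  f_mem : ∀ j, f j ∈ eig R sg
  g_mem : ∀ j, g j ∈ eig R 1
  Xf : ∀ j : X.J, X.f j.1 = f j * g j
  span_f : Submodule.span ℂ (Set.range X.f) = eig R sg * eig R 1
  smooth : ∀ j : X.J, Algebra.Smooth ℂ (X.A {j.1})
  Pt : Type
  Sig : Pt → ℕ → Set F
  Sig_sub : ∀ w m, ∀ σ ∈ Sig w m, σ ∈ eig R 1 ^ m
  Sig_ne : ∀ w m, ∀ σ ∈ Sig w m, σ ≠ 0
  Sig_one : ∀ w, (1 : F) ∈ Sig w 0
  Sig_mul : ∀ w m n, ∀ σ ∈ Sig w m, ∀ σ' ∈ Sig w n, σ * σ' ∈ Sig w (m + n)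
  glob : ∀ I : ℕ → Submodule ℂ F, (∀ m, eig R 1 * I m ≤ I (m + 1)) →
    (∀ w, ∃ m, ∃ σ ∈ Sig w m, σ ∈ I m) → ∃ m, eig R 1 ^ m ≤ I m

namespace Kum

variable (Q : Kum F)

/-- Invariant theta functions. -/
abbrev U : Submodule ℂ F := eig Q.R 1
/-- Alternating theta functions. -/
abbrev V : Submodule ℂ F := eig Q.R sg
/-- Theta functions of weight `ω`. -/
abbrev W : Submodule ℂ F := wt Q.R

theorem fg_of_le {Y : Submodule ℂ F} (h : Y ≤ Q.R) : Y.FG :=
  have : Module.Finite ℂ Q.R := Module.Finite.iff_fg.2 Q.fg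
  Module.Finite.iff_fg.1 (Submodule.finiteDimensional_of_le h)

theorem U_le : Q.U ≤ Q.R := fun _ h => h.1
theorem V_le : Q.V ≤ Q.R := fun _ h => h.1
theorem W_le : Q.W ≤ Q.R := fun _ h => h.1

theorem f_ne (j : Q.X.J) : Q.f j ≠ 0 := left_ne_zero_of_mul (Q.Xf j ▸ Q.X.ne _ j.2)
theorem g_ne (j : Q.X.J) : Q.g j ≠ 0 := right_ne_zero_of_mul (Q.Xf j ▸ Q.X.ne _ j.2)

theorem mul_mem_Rd {v u : F} (hv : v ∈ Q.V) (hu : u ∈ Q.U) : v * u ∈ Q.X.Rd 1 := by
  rw [ProjVar.Rd, pow_one, Q.span_f]; exact Submodule.mul_mem_mul hv hu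

theorem div_mem_A {r : F} (hr : r ∈ Q.X.Rd 1) (j : Q.X.J) {s : Finset (Fin Q.X.n)} (hj : j.1 ∈ s) :
    r / Q.X.f j.1 ∈ Q.X.A s := by
  have := Q.X.Rd_le_Deg 1 hr (Q.X.one j)
  rw [ProjVar.fp_one, Nat.cast_one, zpow_one] at this
  exact Q.X.A_mono (Finset.singleton_subset_iff.2 hj) this

theorem U_div_mem {u : F} (hu : u ∈ Q.U) (j : Q.X.J) {s : Finset (Fin Q.X.n)} (hj : j.1 ∈ s) :
    u / Q.g j ∈ Q.X.A s := by
  have := Q.div_mem_A (Q.mul_mem_Rd (Q.f_mem j) hu) j hj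
  rwa [Q.Xf, mul_div_mul_left _ _ (Q.f_ne j)] at this

theorem V_div_mem {v : F} (hv : v ∈ Q.V) (j : Q.X.J) {s : Finset (Fin Q.X.n)} (hj : j.1 ∈ s) :
    v / Q.f j ∈ Q.X.A s := by
  have := Q.div_mem_A (Q.mul_mem_Rd hv (Q.g_mem j)) j hj
  rwa [Q.Xf, mul_div_mul_right _ _ (Q.g_ne j)] at this

/-- The pull back of `O(1)` from the quotient `N / S3`. -/
def Tg : Cy Q.X := ⟨Q.g, Q.g_ne, fun i j _ _ hj => Q.U_div_mem (Q.g_mem i) j hj⟩

/-- The relative `O(1)`. -/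
noncomputable def Lr : Cy Q.X := ⟨fun j => Q.f j / Q.g j, fun j => div_ne_zero (Q.f_ne j) (Q.g_ne j),
  fun i j s hi hj => by
    have := Q.g_ne i
    have := Q.g_ne j
    have := Q.f_ne j
    rw [show Q.f i / Q.g i / (Q.f j / Q.g j) = Q.f i / Q.f j * (Q.g j / Q.g i) by field_simp]
    exact mul_mem (Q.V_div_mem (Q.f_mem i) j hj) (Q.U_div_mem (Q.g_mem j) i hi)⟩

/-- The line bundle of bidegree `(k, n)`. -/
noncomputable def cy (k n : ℤ) : Cy Q.X := Q.Lr ^ k * Q.Tg ^ n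

theorem cy_add (k n k' n' : ℤ) : Q.cy k n * Q.cy k' n' = Q.cy (k + k') (n + n') := by
  rw [cy, cy, cy, zpow_add, zpow_add, mul_mul_mul_comm]

theorem cy_zero : Q.cy 0 0 = 1 := by simp [cy]

theorem reg_U {m : ℕ} {σ : F} (h : σ ∈ Q.U ^ m) : Reg σ 1 (Q.cy 0 m) := by
  induction h using Submodule.pow_induction_on_left' with
  | algebraMap r =>
    rw [Nat.cast_zero, cy_zero, Algebra.algebraMap_eq_smul_one]; exact (Reg.refl 1).smul r
  | add x y i _ _ hx hy => exact hx.add hy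
  | mem_mul u hu i x _ hx =>
    have h1 : Reg u 1 (Q.cy 0 1) := Reg.of_one fun j => by
      simpa [cy, Tg] using Q.U_div_mem hu j (Finset.mem_singleton_self _)
    have := h1.mul (hx.tw _)
    rwa [cy_add, add_zero, add_comm, ← Nat.cast_succ] at this

/-- The sheaf generated by a space `Y` of theta functions of level one. -/
noncomputable abbrev S (Y : Submodule ℂ F) (h : Y ≤ Q.R) : Coh Q.X := lat Y (Q.fg_of_le h) Q.Tg

/-- The rank six bundle. -/
noncomputable abbrev P : Coh Q.X := Q.S Q.R le_rfl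

/-- The invariant forms that do not vanish at `w`. -/
def mon (w : Q.Pt) : Submonoid (Fm Q.X) where
  carrier := {p | ∃ m : ℕ, p.r ∈ Q.Sig w m ∧ p.d = Q.cy 0 m}
  one_mem' := ⟨0, Q.Sig_one w, Q.cy_zero.symm⟩
  mul_mem' := fun {p q} ⟨m, h, e⟩ ⟨n, h', e'⟩ => ⟨m + n, Q.Sig_mul w m n _ h _ h', by
    rw [Fm.mul_d, e, e', cy_add, add_zero, Nat.cast_add]⟩

/-- An invariant form of degree `m`. -/
noncomputable def fmU {m : ℕ} {σ : F} (h : σ ∈ Q.U ^ m) : Fm Q.X := ⟨σ, Q.cy 0 m, Q.reg_U h⟩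

theorem fmU_mem {w : Q.Pt} {m : ℕ} {σ : F} (h : σ ∈ Q.Sig w m) :
    Q.fmU (Q.Sig_sub w m σ h) ∈ Q.mon w := ⟨m, h, rfl⟩

/-- The powers of the pull back of `O(1)`. -/
noncomputable abbrev DT : Subgroup (Cy Q.X) := Subgroup.zpowers Q.Tg

theorem inv_K0 {a : F} (ha : a ∈ K0 Q.X) (g : G) : g • a = a := by
  have h : ∀ l, g • Q.X.f l = sg g • Q.X.f l := fun l => by
    have : Q.X.f l ∈ Q.V * Q.U := Q.span_f ▸ Submodule.subset_span ⟨l, rfl⟩
    refine Submodule.mul_induction_on this (fun v hv u hu => ?_) fun x y hx hy => ?_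
    · rw [smul_mul', hv.2, hu.2, Pi.one_apply, one_smul, smul_mul_assoc]
    · rw [smul_add, hx, hy, smul_add]
  induction ha using IntermediateField.adjoin_induction with
  | mem x hx =>
    obtain ⟨l, j, rfl⟩ := hx
    have h0 : sg g ≠ 0 := left_ne_zero_of_mul_eq_one (Var.sg_mul_self g)
    rw [smul_div₀', h, h, Algebra.smul_def, Algebra.smul_def,
      mul_div_mul_left _ _ ((map_ne_zero _).2 h0)]
  | algebraMap r => rw [Algebra.algebraMap_eq_smul_one, smul_comm, smul_one]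
  | add x y _ _ hx hy => rw [smul_add, hx, hy]
  | inv x _ hx => rw [smul_inv'', hx]
  | mul x y _ _ hx hy => rw [smul_mul', hx, hy]

/-- A group element as a linear map over the function field. -/
def gL (g : G) : F →ₗ[K0 Q.X] F where
  toFun x := g • x
  map_add' := smul_add g
  map_smul' a x := by
    change g • ((a : F) * x) = (a : F) * g • x
    rw [smul_mul', Q.inv_K0 a.2]

@[simp] theorem gL_apply (g : G) (x : F) : Q.gL g x = g • x := rfl

/-- The local ring of `N / S3` at `w`. -/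
def Ow (w : Q.Pt) : Subalgebra ℂ F where
  carrier := {x | ∃ m, ∃ σ ∈ Q.Sig w m, x * σ ∈ Q.U ^ m}
  mul_mem' := fun {x y} ⟨m, σ, h, hx⟩ ⟨n, σ', h', hy⟩ => ⟨m + n, _, Q.Sig_mul w m n _ h _ h', by
    rw [mul_mul_mul_comm, pow_add]; exact Submodule.mul_mem_mul hx hy⟩
  add_mem' := fun {x y} ⟨m, σ, h, hx⟩ ⟨n, σ', h', hy⟩ => ⟨m + n, _, Q.Sig_mul w m n _ h _ h', by
    rw [show (x + y) * (σ * σ') = x * σ * σ' + σ * (y * σ') by ring, pow_add]
    exact add_mem (Submodule.mul_mem_mul hx (Q.Sig_sub w n _ h'))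
      (Submodule.mul_mem_mul (Q.Sig_sub w m _ h) hy)⟩
  algebraMap_mem' r := ⟨0, 1, Q.Sig_one w, by
    rw [mul_one, pow_zero]; exact Submodule.algebraMap_mem r⟩

/-- `Y` localised at `w`: the span of `Y / g` over the local ring. -/
noncomputable def Yw (w : Q.Pt) (g : F) (Y : Submodule ℂ F) : Submodule ℂ F :=
  (Q.Ow w).toSubmodule * (Submodule.span ℂ {g⁻¹} * Y)

/-- Equivariant local coordinates at the point `w`. -/
structure Loc (w : Q.Pt) where
  g : F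
  g_mem : g ∈ Q.Sig w 1
  t : Fin 4 → F
  equi : Equi t
  indep : AlgebraicIndependent ℂ t
  t_mem : ∀ i, t i ∈ Q.Yw w g Q.R
  gen : Q.Yw w g Q.R ≤ (Q.Ow w).toSubmodule * (Pm t).toSubmodule
  Ai_le : Ai t ≤ Q.Ow w
  flat : (Subalgebra.inclusion Ai_le).toRingHom.Flat
  reg : ∀ (m : ℕ) (z : F), alp t 1 ^ m * z ∈ Q.Yw w g Q.R → alp t 2 ^ m * z ∈ Q.Yw w g Q.R →
    z ∈ Q.Yw w g Q.R

variable {Q}

namespace Loc

variable {w : Q.Pt} (L : Q.Loc w)

/-- The semilocal ring of the orbit. -/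
noncomputable def Ot : Subalgebra ℂ F := Q.Ow w ⊔ Pm L.t

/-- The three chart rings over the local ring at `w`. -/
noncomputable def O (ν : Fin 3) : Subalgebra ℂ F := Q.Ow w ⊔ Om L.t ν

/-- The generator of the bundle of bidegree `(k, n)` on the chart `ν`. -/
noncomputable def gam (ν : Fin 3) (k n : ℤ) : F := alp L.t ν ^ k * L.g ^ n

/-- Sections over the chart `ν` of `S Y ⊗ cy k n`. -/
noncomputable def Lt (Y : Submodule ℂ F) (ν : Fin 3) (k n : ℤ) : Submodule ℂ F :=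
  Submodule.span ℂ {L.gam ν k n} * ((L.O ν).toSubmodule * Q.Yw w L.g Y)

/-- A common denominator of the alternants. -/
structure Nrm where
  e : ℕ
  σ : F
  σ_mem : σ ∈ Q.Sig w (e + 2)
  alt_mem : ∀ μ, σ * alt L.t μ ∈ Q.U ^ e * (Q.V * Q.U)
  cov_mem : ∀ μ, σ * covs L.t μ ∈ Q.U ^ (e + 1) * Q.W

/-- The global section that cuts out the chart `ν`. -/
def Nrm.u {L : Q.Loc w} (n : L.Nrm) (ν : Fin 3) : F := n.σ * alp L.t ν

theorem Nrm.reg_u {L : Q.Loc w} (n : L.Nrm) (ν : Fin 3) : Reg (n.u ν) 1 (Q.cy 1 (n.e + 2 : ℕ)) := by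
  refine Submodule.mul_induction_on (C := fun z => Reg z 1 (Q.cy 1 (n.e + 2 : ℕ)))
    (n.alt_mem (cix ν)) (fun a ha b hb => ?_) fun _ _ => Reg.add
  have hb' : b ∈ Q.X.Rd 1 := by rwa [ProjVar.Rd, pow_one, Q.span_f]
  have h := (Q.reg_U ha).mul (Reg.of_Rd hb' _)
  have e : Q.cy 0 n.e * O1 Q.X ^ 1 = Q.cy 1 (n.e + 2 : ℕ) := by
    ext j
    have := Q.g_ne j
    simp only [cy, Lr, Tg, O1, mul_l, pow_l, one_l, pow_one, zpow_zero, zpow_one, zpow_natCast, Q.Xf]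
    field_simp
    ring
  rwa [e] at h

/-- The form that cuts out the chart `ν`. -/
noncomputable def Nrm.fm {L : Q.Loc w} (n : L.Nrm) (ν : Fin 3) : Fm Q.X :=
  ⟨n.u ν, Q.cy 1 (n.e + 2 : ℕ), n.reg_u ν⟩

end Loc

end Kum

end Pool.Agent.Lib.MP_d3d358_ag.K
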