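import Pool.Agent.Lib.MP_cd184e_ag.T.Gen

/-! Smooth algebras over a field have finite global dimension; the bundles `O(-t)` generate. -/

set_option autoImplicit false

open CategoryTheory Limits Abelian TensorProduct

namespace Pool.Agent.Lib.MP_d3d358_ag.K

open Pool.Agent.Lib.MP_cd184e_ag.T Pool.Agent.Lib.MP_cd184e_ag.T.Coh

theorem hilb_etale {R L : Type} [CommRing R] [CommRing L] [Algebra R L] [Module.Flat R L]
    [Algebra.FormallyUnramified R L] [Algebra.EssFiniteType R L] {n : ℕ}
    (h : ∀ M : ModuleCat.{0} R, HasProjectiveDimensionLE M n) (M : ModuleCat.{0} L) :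
    HasProjectiveDimensionLE M n := by
  let : Module R M := Module.compHom M (algebraMap R L)
  have : IsScalarTower R L M := IsScalarTower.of_algebraMap_smul fun _ _ => rfl
  have h1 := hilb_baseChange L n M (h _)
  exact Retract.hasProjectiveDimensionLT (X := M) (Y := ModuleCat.of L (L ⊗[R] M))
    ⟨ModuleCat.ofHom (Algebra.FormallyUnramified.sec R L M), ModuleCat.ofHom _,
      ModuleCat.hom_ext (Algebra.FormallyUnramified.comp_sec R L M)⟩ (n + 1)

theorem glDim_smooth (k A : Type) [Field k] [CommRing A] [Algebra k A] [Algebra.Smooth k A] :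
    ∃ n : ℕ, ∀ M : ModuleCat.{0} A, Module.Finite A M → HasProjectiveDimensionLE M n := by
  have : IsNoetherianRing A := Algebra.FiniteType.isNoetherianRing k A
  obtain ⟨s, hs, H⟩ := Algebra.Smooth.exists_span_eq_top_isStandardSmooth k A
  obtain ⟨T, hT, hs'⟩ := (Ideal.span_eq_top_iff_finite s).1 hs
  have key : ∀ f : T, ∃ n : ℕ, ∀ M : ModuleCat.{0} (Localization.Away f.1),
      HasProjectiveDimensionLE M n := fun f => by
    have := H f.1 (hT f.2)
    obtain ⟨n, g, -, hg⟩ := RingHom.IsStandardSmooth.exists_etale_mvPolynomial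
      (f := algebraMap k (Localization.Away f.1)) (RingHom.isStandardSmooth_algebraMap.2 this)
    algebraize [g]
    exact ⟨n, hilb_etale (hilb_mv k n)⟩
  choose n hn using key
  refine ⟨Finset.univ.sup n, fun M _ => ?_⟩
  rw [ModuleCat.hasProjectiveDimensionLE_iff_forall_maximalSpectrum]
  intro m
  obtain ⟨f, hf, hfm⟩ : ∃ f ∈ T, f ∉ m.asIdeal := by
    by_contra! hc
    exact m.isMaximal.ne_top (top_le_iff.1 (hs' ▸ Ideal.span_le.2 hc))
  have hle : Submonoid.powers f ≤ m.asIdeal.primeCompl := Submonoid.powers_le.2 hfm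
  let := IsLocalization.localizationAlgebraOfSubmonoidLe (Localization.Away f)
    (Localization m.asIdeal.primeCompl) _ _ hle
  have := IsLocalization.localization_isScalarTower_of_submonoid_le (Localization.Away f)
    (Localization m.asIdeal.primeCompl) _ _ hle
  have := IsLocalization.isLocalization_of_submonoid_le (Localization.Away f)
    (Localization m.asIdeal.primeCompl) _ _ hle
  let S := m.asIdeal.primeCompl.map (algebraMap A (Localization.Away f))
  have : Module.Flat (Localization.Away f) (Localization m.asIdeal.primeCompl) :=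
    IsLocalization.flat _ S
  have : Algebra.FormallyUnramified (Localization.Away f) (Localization m.asIdeal.primeCompl) :=
    .of_isLocalization S
  have : Algebra.EssFiniteType (Localization.Away f) (Localization m.asIdeal.primeCompl) :=
    .of_isLocalization _ S
  have h1 := hilb_etale (hn ⟨f, hf⟩) (M.localizedModule m.asIdeal.primeCompl)
  exact hasProjectiveDimensionLT_of_ge _ (n ⟨f, hf⟩ + 1) _
    (Nat.succ_le_succ (Finset.le_sup (Finset.mem_univ _)))

theorem pd_mono {A : Type} [CommRing A] {M : ModuleCat.{0} A} {a b : ℕ}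
    (h : HasProjectiveDimensionLE M a) (hab : a ≤ b) : HasProjectiveDimensionLE M b :=
  hasProjectiveDimensionLT_of_ge M (a + 1) _ (Nat.succ_le_succ hab)

theorem projective_syzygy' {A : Type} [CommRing A] {n : ℕ} (Z P : ℕ → Type)
    [∀ m, AddCommGroup (Z m)] [∀ m, Module A (Z m)] [∀ m, AddCommGroup (P m)]
    [∀ m, Module A (P m)] [∀ m, Module.Projective A (P m)]
    (h : HasProjectiveDimensionLE (ModuleCat.of A (Z 0)) n) (i : ∀ m, Z (m + 1) →ₗ[A] P m)
    (p : ∀ m, P m →ₗ[A] Z m) (hi : ∀ m, Function.Injective (i m))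
    (he : ∀ m, Function.Exact (i m) (p m)) (hp : ∀ m, Function.Surjective (p m)) :
    Module.Projective A (Z n) := by
  have key : ∀ m d, m + d = n → HasProjectiveDimensionLE (ModuleCat.of A (Z m)) d := by
    intro m
    induction m with
    | zero =>
      intro d hd
      obtain rfl : d = n := by omega
      exact h
    | succ m ih =>
      exact fun d hd => (hilb_ses_iff (i m) (p m) (hi m) (he m) (hp m) d).1 (ih (d + 1) (by omega))
  exact (hilb_proj_iff _).1 (key n 0 rfl)

variable {k K : Type} [Field k] [Field K] [Algebra k K] {X : ProjVar k K}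

/-- On a smooth variety every coherent sheaf has a locally projective syzygy. -/
theorem exists_locProj_syzygy (hA : ∀ j : X.J, Algebra.Smooth k (X.A {j.1}))
    {Q : Coh X → Coh X} (π : ∀ M, Q M ⟶ M) (hL : ∀ M, LocProj (Q M))
    (hπ : ∀ M s, Function.Surjective ((π M).app s)) :
    ∃ n : ℕ, ∀ N : Coh X, LocProj (genZ π N n) := by
  have hd : ∀ j : X.J, ∃ n : ℕ, ∀ M : ModuleCat.{0} (X.A (X.one j).1),
      Module.Finite (X.A (X.one j).1) M → HasProjectiveDimensionLE M n := fun j =>
    have := hA j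
    glDim_smooth k (X.A {j.1})
  choose d hd using hd
  refine ⟨Finset.univ.sup d, fun N j => ?_⟩
  have : ∀ m, Module.Projective (X.A (X.one j).1) ((Q (genZ π N m)).obj (X.one j)) :=
    fun m => hL _ j
  have h0 := hd j (ModuleCat.of _ (N.obj (X.one j))) (N.fg _)
  exact projective_syzygy' (fun m => (genZ π N m).obj (X.one j))
    (fun m => (Q (genZ π N m)).obj (X.one j))
    (pd_mono h0 (Finset.le_sup (Finset.mem_univ j)))
    (fun m => (ker (π (genZ π N m))).ι.app _) (fun m => (π (genZ π N m)).app _)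
    (fun m => Subtype.val_injective)
    (fun m x => ⟨fun hx => ⟨⟨x, hx⟩, rfl⟩, by rintro ⟨y, rfl⟩; exact y.2⟩) fun m => hπ _ _

section Thick

variable {C : Type 1} [Category.{0} C] [Abelian C] [HasDerivedCategory.{1} C]
  (T : ObjectProperty (DerivedCategory C))

/-- The object `N` of the heart lies in `T`. -/
abbrev InT (N : C) : Prop := T ((DerivedCategory.singleFunctor C 0).obj N)

variable {T} [T.IsTriangulated] [T.IsStableUnderRetracts]

omit [T.IsTriangulated] in
theorem InT.retract {M N : C} (a : M ⟶ N) (b : N ⟶ M) (hab : a ≫ b = 𝟙 M) (h : InT T N) :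
    InT T M :=
  T.prop_of_retract (Retract.map ⟨a, b, hab⟩ (DerivedCategory.singleFunctor C 0)) h

omit [T.IsTriangulated] in
theorem InT.iso {M N : C} (e : M ≅ N) (h : InT T N) : InT T M :=
  h.retract e.hom e.inv e.hom_inv_id

theorem InT.mid {S : ShortComplex C} (hS : S.ShortExact) (h1 : InT T S.X₁) (h3 : InT T S.X₃) :
    InT T S.X₂ :=
  T.ext_of_isTriangulatedClosed₂ _ hS.singleTriangle_distinguished h1 h3

theorem InT.left {S : ShortComplex C} (hS : S.ShortExact) (h2 : InT T S.X₂) (h3 : InT T S.X₃) :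
    InT T S.X₁ :=
  T.ext_of_isTriangulatedClosed₁ _ hS.singleTriangle_distinguished h2 h3

theorem InT.right {S : ShortComplex C} (hS : S.ShortExact) (h1 : InT T S.X₁) (h2 : InT T S.X₂) :
    InT T S.X₃ :=
  T.ext_of_isTriangulatedClosed₃ _ hS.singleTriangle_distinguished h1 h2

theorem InT.of_isZero {N : C} (h : IsZero N) : InT T N :=
  T.prop_of_isZero ((DerivedCategory.singleFunctor C 0).map_isZero h)

open ZeroObject in
theorem InT.dec {N : C} {I : Type} [Fintype I] {F : I → C} (a : ∀ x, N ⟶ F x) (b : ∀ x, F x ⟶ N)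
    (hab : ∑ x, a x ≫ b x = 𝟙 N) (h : ∀ x, InT T (F x)) : InT T N := by
  classical
  have key : ∀ s : Finset I, ∃ (M : C) (a' : N ⟶ M) (b' : M ⟶ N), InT T M ∧
      a' ≫ b' = ∑ x ∈ s, a x ≫ b x := fun s => by
    induction s using Finset.induction_on with
    | empty => exact ⟨0, 0, 0, InT.of_isZero (isZero_zero C), by simp⟩
    | insert x s hx ih =>
      obtain ⟨M, a', b', hM, e⟩ := ih
      exact ⟨F x ⊞ M, biprod.lift (a x) a', biprod.desc (b x) b',
        InT.mid (ShortComplex.Splitting.ofHasBinaryBiproduct (F x) M).shortExact (h x) hM,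
        by rw [biprod.lift_desc, e, Finset.sum_insert hx]⟩
  obtain ⟨M, a', b', hM, e⟩ := key Finset.univ
  exact InT.retract a' b' (e.trans hab) hM

theorem InT.of_syzygy [HasExt.{1} C] (Z P : ℕ → C) (i : ∀ n, Z (n + 1) ⟶ P n)
    (p : ∀ n, P n ⟶ Z n) (w : ∀ n, i n ≫ p n = 0)
    (hS : ∀ n, (ShortComplex.mk (i n) (p n) (w n)).ShortExact) (hP : ∀ n, InT T (P n)) (m : ℕ)
    (h : Subsingleton (Ext (Z 0) (Z m) m)) : InT T (Z 0) := by
  have key : ∀ n : ℕ, ∃ x : Ext (Z 0) (Z n) n, T.trW x.hom := fun n => by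
    induction n with
    | zero =>
      refine ⟨Ext.mk₀ (𝟙 _), ?_⟩
      rw [Ext.mk₀_hom, ShiftedHom.mk₀]
      exact T.trW_of_isIso _
    | succ n ih =>
      obtain ⟨x, hx⟩ := ih
      have e : T.trW (hS n).extClass.hom := by
        rw [(hS n).extClass_hom]
        exact ObjectProperty.trW.mk' T (Pretriangulated.rot_of_distTriang _
          (hS n).singleTriangle_distinguished) (hP n)
      refine ⟨x.comp (hS n).extClass rfl, ?_⟩
      have := Ext.comp_hom x (hS n).extClass rfl
      exact this ▸ T.trW.comp_mem _ _ hx (T.trW.comp_mem _ _ (e.shift _) (T.trW_of_isIso _))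
  obtain ⟨x, hx⟩ := key m
  rw [Subsingleton.elim x 0, Ext.zero_hom, ObjectProperty.trW_iff'] at hx
  obtain ⟨X, f, g, hT, hX⟩ := hx
  obtain ⟨r, hr⟩ := Pretriangulated.Triangle.coyoneda_exact₂ _ hT (𝟙 _) comp_zero
  exact T.prop_of_retract ⟨r, f, hr.symm⟩ hX

open DerivedCategory in
theorem InT.bounded (h : ∀ N : C, InT T N) (Y : DerivedCategory C)
    (hY : ∃ a b : ℤ, Y.IsGE a ∧ Y.IsLE b) : T Y := by
  have one : ∀ (a : ℤ) (Y : DerivedCategory C), Y.IsGE a → Y.IsLE a → T Y := by
    intro a Y _ _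
    obtain ⟨N, ⟨e⟩⟩ := Y.exists_iso_singleFunctor_obj_of_isGE_of_isLE a
    exact T.prop_of_iso (((singleFunctors C).shiftIso (-a) a 0 (neg_add_cancel a)).app N ≪≫
      e.symm) (T.le_shift (-a) _ (h N))
  obtain ⟨a, b, ha, hb⟩ := hY
  have key : ∀ (d : ℕ) (Y : DerivedCategory C), Y.IsGE a → Y.IsLE (a + d) → T Y := by
    intro d
    induction d with
    | zero => exact fun Y h1 h2 => one a Y h1 (by simpa using h2)
    | succ d ih =>
      intro Y h1 h2
      refine T.ext_of_isTriangulatedClosed₂ _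
        (TStructure.t.triangleLTGE_distinguished (a + (d + 1 : ℕ)) Y) (ih _ ?_ ?_)
        (one (a + (d + 1 : ℕ)) _ ?_ ?_)
      · exact inferInstanceAs (TStructure.t.IsGE ((TStructure.t.truncLT _).obj Y) a)
      · exact TStructure.t.isLE_truncLT_obj Y _ _ (by lia)
      · exact TStructure.t.isGE_truncGE_obj Y _ _ le_rfl
      · exact inferInstanceAs (TStructure.t.IsLE ((TStructure.t.truncGE _).obj Y) _)
  exact key (b - a).toNat Y ha (TStructure.t.isLE_of_le Y b _ (by lia))

end Thick

variable {T : ObjectProperty (DerivedCategory (Coh X))} [T.IsTriangulated]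
  [T.IsStableUnderRetracts]

theorem InT.pi {ι : Type} [Finite ι] {M : ι → Coh X} (h : ∀ i, InT T (M i)) : InT T (pi M) := by
  classical
  have := Fintype.ofFinite ι
  refine InT.dec (fun i => proj M i) (fun i => incl M i) ?_ h
  refine hom_ext fun s x => ?_
  rw [sum_app]
  exact Finset.univ_sum_single x

/-- On a smooth variety the bundles `O(-t)` generate every thick subcategory. -/
theorem gen_smooth {ys : List K} (hy : X.NoZero ys)
    (hA : ∀ j : X.J, Algebra.Smooth k (X.A {j.1})) (h : ∀ t : ℕ, InT T (O X (-t))) (N : Coh X) :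
    InT T N := by
  have hex : ∀ M : Coh X, ∃ (P : Coh X) (π : P ⟶ M), InT T P ∧ LocProj P ∧
      ∀ s, Function.Surjective (π.app s) := fun M => by
    obtain ⟨t, m, π, hπ⟩ := exists_epi M
    exact ⟨_, π, InT.pi fun _ => h t, gen_locProj _ m, hπ⟩
  choose Q π hQ hL hπ using hex
  obtain ⟨n, hZ⟩ := exists_locProj_syzygy hA π hL hπ
  let Z : ℕ → Coh X := genZ π N
  let i : ∀ m, Z (m + 1) ⟶ Q (Z m) := fun m => (ker (π (Z m))).ι
  have w : ∀ m : ℕ, i m ≫ π (Z m) = 0 := fun m => gen_ker_w (π (Z m))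
  have hS : ∀ m, (ShortComplex.mk (i m) (π (Z m)) (w m)).ShortExact := fun m =>
    shortExact_ker _ (hπ _)
  have hn : InT T (Z n) :=
    InT.of_syzygy (fun m => Z (n + m)) (fun m => Q (Z (n + m))) (fun m => i (n + m))
      (fun m => π (Z (n + m))) (fun m => w (n + m)) (fun m => hS (n + m)) (fun m => hQ _)
      (ys.length + 1) (cd hy (hZ N) _ ys.length (Nat.le_succ _))
  have key : ∀ m, InT T (Z m) → InT T (Z 0) := by
    intro m
    induction m with
    | zero => exact id
    | succ m ih => exact fun hm => ih (InT.right (hS m) hm (hQ _))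
  exact key n hn

/-- The coordinates themselves have no common zero. -/
theorem noZero_f (X : ProjVar k K) : X.NoZero (List.ofFn X.f) := by
  refine ⟨fun y hy => ?_, fun j => ⟨0, ?_⟩⟩
  · obtain ⟨l, rfl⟩ := List.mem_ofFn.1 hy
    exact X.f_mem_Rd l
  · rw [ProjVar.Rd, pow_zero, mul_one, zero_add, pow_one]
    exact Submodule.subset_span (List.mem_ofFn.2 ⟨j.1, rfl⟩)

theorem gen_smooth' (hA : ∀ j : X.J, Algebra.Smooth k (X.A {j.1}))
    (h : ∀ t : ℕ, InT T (O X (-t))) (Y : DerivedCategory (Coh X))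
    (hY : ∃ a b : ℤ, Y.IsGE a ∧ Y.IsLE b) : T Y :=
  InT.bounded (gen_smooth (noZero_f X) hA h) Y hY

end Pool.Agent.Lib.MP_d3d358_ag.K
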