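import Mathlib

/-! The two complexes of length three built from five plane vectors are exact on each chart. -/

set_option autoImplicit false

namespace Pool.Agent.Lib.MP_d3d358_ag.K

variable {K : Type} [Field K]

/-- The wedge product of two plane vectors. -/
def wg (a b : K × K) : K := a.1 * b.2 - a.2 * b.1

theorem wg_self (a : K × K) : wg a a = 0 := by simp [wg, mul_comm]

theorem wg_comm (a b : K × K) : wg a b = -wg b a := by simp only [wg]; ring

theorem wg_add_left (a b c : K × K) : wg (a + b) c = wg a c + wg b c := by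
  simp only [wg, Prod.fst_add, Prod.snd_add]; ring

theorem wg_add_right (a b c : K × K) : wg a (b + c) = wg a b + wg a c := by
  simp only [wg, Prod.fst_add, Prod.snd_add]; ring

theorem wg_sub_left (a b c : K × K) : wg (a - b) c = wg a c - wg b c := by
  simp only [wg, Prod.fst_sub, Prod.snd_sub]; ring

theorem wg_sub_right (a b c : K × K) : wg a (b - c) = wg a b - wg a c := by
  simp only [wg, Prod.fst_sub, Prod.snd_sub]; ring

theorem wg_smul_left (t : K) (a b : K × K) : wg (t • a) b = t * wg a b := by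
  simp only [wg, Prod.smul_fst, Prod.smul_snd, smul_eq_mul]; ring

theorem wg_smul_right (t : K) (a b : K × K) : wg a (t • b) = t * wg a b := by
  simp only [wg, Prod.smul_fst, Prod.smul_snd, smul_eq_mul]; ring

/-- A vector in terms of a frame. -/
theorem frame {a b : K × K} (h : wg a b ≠ 0) (w : K × K) :
    w = (wg w b / wg a b) • a + (wg a w / wg a b) • b := by
  ext
  · simp only [Prod.fst_add, Prod.smul_fst, smul_eq_mul]; field_simp; simp only [wg]; ring
  · simp only [Prod.snd_add, Prod.smul_snd, smul_eq_mul]; field_simp; simp only [wg]; ring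

theorem eq_of_wg {a b : K × K} (h : wg a b ≠ 0) {v w : K × K} (h1 : wg v a = wg w a)
    (h2 : wg v b = wg w b) : v = w := by
  rw [frame h v, frame h w, h2, wg_comm a v, wg_comm a w, h1]

theorem indep {a b : K × K} (h : wg a b ≠ 0) {p q : K} (e : p • a + q • b = 0) : p = 0 ∧ q = 0 := by
  have h1 := congrArg (fun v => wg v b) e
  have h2 := congrArg (fun v => wg a v) e
  simp only [wg_add_left, wg_add_right, wg_smul_left, wg_smul_right, wg_self] at h1 h2
  constructor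
  · have : p * wg a b = 0 := by simpa [wg] using h1
    exact (mul_eq_zero.1 this).resolve_right h
  · have : q * wg a b = 0 := by simpa [wg] using h2
    exact (mul_eq_zero.1 this).resolve_right h

/-- Five plane vectors with the two relations of the covariants. -/
structure Five (K : Type) [Field K] where
  x : K × K
  y : K × K
  xx : K × K
  xy : K × K
  yy : K × K
  r1 : wg x xy = wg y xx
  r2 : wg x yy = wg y xy

namespace Five

variable (F : Five K)

/-- Exchange of the two points. -/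
def swap : Five K := ⟨F.y, F.x, F.yy, F.xy, F.xx, F.r2.symm, F.r1.symm⟩

def g2 (w : (K × K) × (K × K)) : Fin 5 → K :=
  ![wg w.1 F.x, wg w.2 F.y, wg w.1 F.y + wg w.2 F.x, wg w.1 F.xy - wg w.2 F.xx,
    wg w.1 F.yy - wg w.2 F.xy]

def g3 (c : Fin 5 → K) : K × K := -(c 0 • F.yy) - c 1 • F.xx + c 2 • F.xy - c 3 • F.y + c 4 • F.x

def h1 (w : K × K) : Fin 5 → K := ![-wg w F.yy, -wg w F.xx, wg w F.xy, -wg w F.y, wg w F.x]

def h2 (c : Fin 5 → K) : (K × K) × (K × K) :=
  (c 0 • F.x + c 2 • F.y + c 3 • F.xy + c 4 • F.yy, c 1 • F.y + c 2 • F.x - c 3 • F.xx - c 4 • F.xy)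

def h3 (w : (K × K) × (K × K)) : K := wg F.x w.1 + wg F.y w.2

theorem g2_g1 (t : K) : F.g2 (t • F.x, t • F.y) = 0 := by
  have h1 := F.r1
  have h2 := F.r2
  ext i
  fin_cases i <;> simp [g2, wg_smul_left, wg_self, h1, h2]
  rw [wg_comm F.y]; ring

theorem g3_g2 (w : (K × K) × (K × K)) : F.g3 (F.g2 w) = 0 := by
  have h1 := F.r1
  have h2 := F.r2
  simp only [wg] at h1 h2
  ext
  · simp [g3, g2, wg]; linear_combination w.1.1 * h2 - w.2.1 * h1
  · simp [g3, g2, wg]; linear_combination w.1.2 * h2 - w.2.2 * h1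

theorem h2_h1 (w : K × K) : F.h2 (F.h1 w) = 0 := by
  have h1 := F.r1
  have h2 := F.r2
  simp only [wg] at h1 h2
  ext
  · simp [Five.h2, Five.h1, wg]; linear_combination -w.1 * h2
  · simp [Five.h2, Five.h1, wg]; linear_combination -w.2 * h2
  · simp [Five.h2, Five.h1, wg]; linear_combination w.1 * h1
  · simp [Five.h2, Five.h1, wg]; linear_combination w.2 * h1

theorem h3_h2 (c : Fin 5 → K) : F.h3 (F.h2 c) = 0 := by
  have h1 := F.r1
  have h2 := F.r2
  simp only [wg] at h1 h2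
  simp [Five.h3, Five.h2, wg]; linear_combination c 3 * h1 + c 4 * h2

theorem g2_sub (v w : (K × K) × (K × K)) : F.g2 (v - w) = F.g2 v - F.g2 w := by
  ext i; fin_cases i <;> simp [g2, wg_sub_left] <;> ring

theorem g3_sub (c c' : Fin 5 → K) : F.g3 (c - c') = F.g3 c - F.g3 c' := by
  simp only [g3, Pi.sub_apply, sub_smul]; abel

theorem h2_sub (c c' : Fin 5 → K) : F.h2 (c - c') = F.h2 c - F.h2 c' := by
  simp only [Five.h2, Pi.sub_apply, sub_smul, Prod.mk_sub_mk, Prod.mk.injEq]; constructor <;> abel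

theorem h3_sub (v w : (K × K) × (K × K)) : F.h3 (v - w) = F.h3 v - F.h3 w := by
  simp only [Five.h3, Prod.fst_sub, Prod.snd_sub, wg_sub_right]; ring

/-- The permutation with signs of the five coordinates under the exchange. -/
def sw (c : Fin 5 → K) : Fin 5 → K := ![c 1, c 0, c 2, -c 4, -c 3]

theorem sw_sw (c : Fin 5 → K) : sw (sw c) = c := by ext i; fin_cases i <;> simp [sw]

theorem sw_mem {O : Subring K} {c : Fin 5 → K} (h : ∀ i, c i ∈ O) (i : Fin 5) : sw c i ∈ O := by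
  fin_cases i <;> simp [sw, h]

theorem swap_g2 (w : (K × K) × (K × K)) : F.swap.g2 w.swap = sw (F.g2 w) := by
  ext i; fin_cases i <;> simp [g2, swap, sw, add_comm]

theorem swap_g3 (c : Fin 5 → K) : F.swap.g3 (sw c) = F.g3 c := by
  simp [g3, swap, sw]; abel

theorem swap_h1 (w : K × K) : F.swap.h1 w = sw (F.h1 w) := by
  ext i; fin_cases i <;> simp [Five.h1, swap, sw]

theorem swap_h2 (c : Fin 5 → K) : F.swap.h2 (sw c) = (F.h2 c).swap := by
  simp [Five.h2, swap, sw]; constructor <;> abel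

theorem swap_h3 (w : (K × K) × (K × K)) : F.swap.h3 w.swap = F.h3 w := by
  simp [Five.h3, swap, add_comm]

/-- A lattice `W` over `O` that contains the five vectors, with wedge products in `α O`. -/
structure Lat (O : Subring K) (α : K) (W : Submodule O (K × K)) : Prop where
  ne : α ≠ 0
  x : F.x ∈ W
  y : F.y ∈ W
  xx : F.xx ∈ W
  xy : F.xy ∈ W
  yy : F.yy ∈ W
  wg_mem : ∀ a ∈ W, ∀ b ∈ W, wg a b / α ∈ O

/-- Exactness of both complexes on the lattice. -/
structure Ex (O : Subring K) (α : K) (W : Submodule O (K × K)) : Prop where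
  a0 : ∀ t : K, t • F.x = 0 → t • F.y = 0 → t = 0
  a1 : ∀ w : (K × K) × (K × K), α • w.1 ∈ W → α • w.2 ∈ W → F.g2 w = 0 →
    ∃ t : K, α * t ∈ O ∧ w = (t • F.x, t • F.y)
  a2 : ∀ c : Fin 5 → K, (∀ i, c i ∈ O) → F.g3 c = 0 →
    ∃ w : (K × K) × (K × K), α • w.1 ∈ W ∧ α • w.2 ∈ W ∧ F.g2 w = c
  a3 : ∀ w ∈ W, ∃ c : Fin 5 → K, (∀ i, c i ∈ O) ∧ F.g3 c = w
  b0 : ∀ w : K × K, F.h1 w = 0 → w = 0
  b1 : ∀ c : Fin 5 → K, (∀ i, c i ∈ O) → F.h2 c = 0 → ∃ w : K × K, α • w ∈ W ∧ F.h1 w = c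
  b2 : ∀ w : (K × K) × (K × K), w.1 ∈ W → w.2 ∈ W → F.h3 w = 0 →
    ∃ c : Fin 5 → K, (∀ i, c i ∈ O) ∧ F.h2 c = w
  b3 : ∀ t : K, t / α ∈ O → ∃ w : (K × K) × (K × K), w.1 ∈ W ∧ w.2 ∈ W ∧ F.h3 w = t

variable {F} {O : Subring K} {α : K} {W : Submodule O (K × K)}

theorem Lat.swap (h : F.Lat O α W) : F.swap.Lat O α W :=
  ⟨h.ne, h.y, h.x, h.yy, h.xy, h.xx, h.wg_mem⟩

theorem smul_mem' {c : K} (hc : c ∈ O) {v : K × K} (hv : v ∈ W) : c • v ∈ W :=
  W.smul_mem ⟨c, hc⟩ hv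

theorem Lat.dual (h : F.Lat O α W) {a b : K × K} (ha : α • a ∈ W) (hb : b ∈ W) : wg a b ∈ O := by
  have := h.wg_mem _ ha _ hb
  rwa [wg_smul_left, mul_div_cancel_left₀ _ h.ne] at this

theorem Ex.of_swap (h : F.swap.Ex O α W) : F.Ex O α W where
  a0 t h1 h2 := h.a0 t h2 h1
  a1 w h1 h2 e := by
    obtain ⟨t, ht, e'⟩ := h.a1 w.swap h2 h1 (by rw [swap_g2, e]; ext i; fin_cases i <;> simp [sw])
    exact ⟨t, ht, by rw [← Prod.swap_swap w, e']; rfl⟩
  a2 c hc e := by
    obtain ⟨w, h1, h2, e'⟩ := h.a2 (sw c) (sw_mem hc) (by rw [swap_g3, e])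
    refine ⟨w.swap, h2, h1, ?_⟩
    rw [← sw_sw (F.g2 _), ← swap_g2, Prod.swap_swap, e', sw_sw]
  a3 w hw := by
    obtain ⟨c, hc, e⟩ := h.a3 w hw
    exact ⟨sw c, sw_mem hc, by rw [← swap_g3, sw_sw, e]⟩
  b0 w e := h.b0 w (by rw [swap_h1, e]; ext i; fin_cases i <;> simp [sw])
  b1 c hc e := by
    obtain ⟨w, h1, e'⟩ := h.b1 (sw c) (sw_mem hc) (by rw [swap_h2, e]; rfl)
    exact ⟨w, h1, by rw [← sw_sw (F.h1 _), ← swap_h1, e', sw_sw]⟩
  b2 w h1 h2 e := by
    obtain ⟨c, hc, e'⟩ := h.b2 w.swap h2 h1 (by rw [swap_h3, e])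
    refine ⟨sw c, sw_mem hc, ?_⟩
    rw [← Prod.swap_swap (F.h2 _), ← swap_h2, sw_sw, e', Prod.swap_swap]
  b3 t ht := by
    obtain ⟨w, h1, h2, e⟩ := h.b3 t ht
    exact ⟨w.swap, h2, h1, by rw [← swap_h3, Prod.swap_swap, e]⟩

theorem ne_zero_of_wg {a b : K × K} (h : wg a b ≠ 0) {t : K} (e : t • a = 0) : t = 0 :=
  (indep h (p := t) (q := 0) (by rw [e, zero_smul, add_zero])).1

theorem solve {a b : K × K} (hα : α ≠ 0) (e : α = wg a b) (ha : a ∈ W) (hb : b ∈ W) {p q : K}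
    (hp : p ∈ O) (hq : q ∈ O) : ∃ w : K × K, α • w ∈ W ∧ wg w a = p ∧ wg w b = q := by
  refine ⟨(q / α) • a - (p / α) • b, ?_, ?_, ?_⟩
  · rw [smul_sub, smul_smul, smul_smul, mul_div_cancel₀ _ hα, mul_div_cancel₀ _ hα]
    exact sub_mem (smul_mem' hq ha) (smul_mem' hp hb)
  · rw [wg_sub_left, wg_smul_left, wg_smul_left, wg_self, wg_comm b, ← e]; field_simp; ring
  · rw [wg_sub_left, wg_smul_left, wg_smul_left, wg_self, ← e]; field_simp; ring

theorem ex_one (h : F.Lat O α W) (e : α = wg F.x F.xx) : F.Ex O α W := by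
  have hn : wg F.x F.xx ≠ 0 := e ▸ h.ne
  have hα := h.ne
  refine ⟨fun t h1 _ => ne_zero_of_wg hn h1, fun w h1 h2 e' => ?_, fun c hc e' => ?_,
    fun w hw => ?_, fun w e' => ?_, fun c hc e' => ?_, fun w h1 h2 e' => ?_, fun t ht => ?_⟩
  · have e0 : wg w.1 F.x = 0 := congrFun e' 0
    have e2 : wg w.1 F.y + wg w.2 F.x = 0 := congrFun e' 2
    have e3 : wg w.1 F.xy - wg w.2 F.xx = 0 := congrFun e' 3
    have hw : w.1 = (wg w.1 F.xx / α) • F.x := eq_of_wg hn
      (by rw [e0, wg_smul_left, wg_self, mul_zero]) (by rw [wg_smul_left, ← e]; field_simp)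
    refine ⟨wg w.1 F.xx / α, by rw [mul_div_cancel₀ _ hα]; exact h.dual h1 h.xx,
      Prod.ext hw (eq_of_wg hn ?_ ?_)⟩
    · rw [hw, wg_smul_left] at e2
      rw [wg_smul_left, wg_comm F.y]; linear_combination e2
    · rw [hw, wg_smul_left, F.r1] at e3
      rw [wg_smul_left]; linear_combination -e3
  · obtain ⟨w1, m1, p1, -⟩ := solve hα e h.x h.xx (hc 0) (zero_mem O)
    obtain ⟨w2, m2, p2, q2⟩ := solve hα e h.x h.xx (sub_mem (hc 2) (h.dual m1 h.y))
      (sub_mem (h.dual m1 h.xy) (hc 3))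
    refine ⟨(w1, w2), m1, m2, ?_⟩
    have z := F.g3_sub c (F.g2 (w1, w2))
    rw [e', g3_g2, sub_zero] at z
    obtain ⟨z4, z1⟩ := indep hn (p := c 4 - F.g2 (w1, w2) 4) (q := -(c 1 - F.g2 (w1, w2) 1)) (by
      rw [← z]; simp [g3, g2, p1, p2, q2]; module)
    ext i
    fin_cases i
    · exact p1
    · exact (sub_eq_zero.1 (neg_eq_zero.1 z1)).symm
    · simp [g2, p2]
    · simp [g2, q2]
    · exact (sub_eq_zero.1 z4).symm
  · refine ⟨![0, -(wg F.x w / α), 0, 0, wg w F.xx / α], fun i => ?_, ?_⟩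
    · fin_cases i <;> simp [h.wg_mem _ h.x _ hw, h.wg_mem _ hw _ h.xx]
    · conv_rhs => rw [frame hn w, ← e]
      simp [g3]; abel
  · have e1 : -wg w F.xx = 0 := congrFun e' 1
    have e4 : wg w F.x = 0 := congrFun e' 4
    exact eq_of_wg hn (by rw [e4]; simp [wg]) (by rw [neg_eq_zero.1 e1]; simp [wg])
  · obtain ⟨w, m, p, q⟩ := solve hα e h.x h.xx (hc 4) (neg_mem (hc 1))
    refine ⟨w, m, ?_⟩
    have z := F.h2_sub c (F.h1 w)
    rw [e', h2_h1, sub_zero] at z
    obtain ⟨z2, z3⟩ := indep hn (p := c 2 - F.h1 w 2) (q := -(c 3 - F.h1 w 3)) (by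
      rw [← show (F.h2 (c - F.h1 w)).2 = 0 by rw [z]; rfl]; simp [Five.h2, Five.h1, p, q]; module)
    rw [neg_eq_zero] at z3
    have z0 : c 0 - F.h1 w 0 = 0 := ne_zero_of_wg hn (by
      rw [← show (F.h2 (c - F.h1 w)).1 = 0 by rw [z]; rfl]
      simp only [Five.h2, Pi.sub_apply, z2, z3]; simp [Five.h1, p])
    ext i
    fin_cases i
    · exact (sub_eq_zero.1 z0).symm
    · simp [Five.h1, q]
    · exact (sub_eq_zero.1 z2).symm
    · exact (sub_eq_zero.1 z3).symm
    · exact p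
  · have hp := h.wg_mem _ h2 _ h.xx
    have hq := h.wg_mem _ h.x _ h2
    have f2 := frame hn w.2
    rw [← e] at f2
    set p := wg w.2 F.xx / α
    set q := wg F.x w.2 / α
    have m : w.1 - p • F.y + q • F.xy ∈ W :=
      add_mem (sub_mem h1 (smul_mem' hp h.y)) (smul_mem' hq h.xy)
    have f1 := frame hn (w.1 - p • F.y + q • F.xy)
    have z : wg F.x (w.1 - p • F.y + q • F.xy) = 0 := by
      rw [Five.h3, f2, wg_add_right, wg_smul_right, wg_smul_right, wg_comm F.y, ← F.r1] at e'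
      rw [wg_add_right, wg_sub_right, wg_smul_right, wg_smul_right]
      linear_combination e'
    rw [z, zero_div, zero_smul, add_zero, ← e] at f1
    refine ⟨![wg (w.1 - p • F.y + q • F.xy) F.xx / α, 0, p, -q, 0], fun i => ?_, Prod.ext ?_ ?_⟩
    · fin_cases i <;> simp [hp, hq, h.wg_mem _ m _ h.xx]
    · simp [Five.h2, ← f1]; abel
    · conv_rhs => rw [f2]
      simp [Five.h2]
  · refine ⟨((t / α) • F.xx, 0), smul_mem' ht h.xx, zero_mem _, ?_⟩
    simp only [Five.h3, wg_smul_right, ← e]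
    simp [wg, hα]

theorem ex_zero (h : F.Lat O α W) (e : α = wg F.x F.y) : F.Ex O α W := by
  have hn : wg F.x F.y ≠ 0 := e ▸ h.ne
  have hα := h.ne
  refine ⟨fun t h1 _ => ne_zero_of_wg hn h1, fun w h1 h2 e' => ?_, fun c hc e' => ?_,
    fun w hw => ?_, fun w e' => ?_, fun c hc e' => ?_, fun w h1 h2 e' => ?_, fun t ht => ?_⟩
  · have e0 : wg w.1 F.x = 0 := congrFun e' 0
    have e1 : wg w.2 F.y = 0 := congrFun e' 1
    have e2 : wg w.1 F.y + wg w.2 F.x = 0 := congrFun e' 2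
    refine ⟨wg w.1 F.y / α, by rw [mul_div_cancel₀ _ hα]; exact h.dual h1 h.y,
      Prod.ext (eq_of_wg hn ?_ ?_) (eq_of_wg hn ?_ ?_)⟩
    · rw [e0, wg_smul_left, wg_self, mul_zero]
    · rw [wg_smul_left, ← e]; field_simp
    · rw [wg_smul_left, wg_comm F.y, ← e]; field_simp; linear_combination e2
    · rw [e1, wg_smul_left, wg_self, mul_zero]
  · obtain ⟨w1, m1, p1, -⟩ := solve hα e h.x h.y (hc 0) (zero_mem O)
    obtain ⟨w2, m2, p2, q2⟩ := solve hα e h.x h.y (sub_mem (hc 2) (h.dual m1 h.y)) (hc 1)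
    refine ⟨(w1, w2), m1, m2, ?_⟩
    have z := F.g3_sub c (F.g2 (w1, w2))
    rw [e', g3_g2, sub_zero] at z
    obtain ⟨z4, z3⟩ := indep hn (p := c 4 - F.g2 (w1, w2) 4) (q := -(c 3 - F.g2 (w1, w2) 3)) (by
      rw [← z]; simp [g3, g2, p1, p2, q2]; module)
    ext i
    fin_cases i
    · exact p1
    · exact q2
    · simp [g2, p2]
    · exact (sub_eq_zero.1 (neg_eq_zero.1 z3)).symm
    · exact (sub_eq_zero.1 z4).symm
  · refine ⟨![0, 0, 0, -(wg F.x w / α), wg w F.y / α], fun i => ?_, ?_⟩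
    · fin_cases i <;> simp [h.wg_mem _ h.x _ hw, h.wg_mem _ hw _ h.y]
    · conv_rhs => rw [frame hn w, ← e]
      simp [g3]; abel
  · have e3 : -wg w F.y = 0 := congrFun e' 3
    have e4 : wg w F.x = 0 := congrFun e' 4
    exact eq_of_wg hn (by rw [e4]; simp [wg]) (by rw [neg_eq_zero.1 e3]; simp [wg])
  · obtain ⟨w, m, p, q⟩ := solve hα e h.x h.y (hc 4) (neg_mem (hc 3))
    refine ⟨w, m, ?_⟩
    have z := F.h2_sub c (F.h1 w)
    rw [e', h2_h1, sub_zero] at z
    obtain ⟨z0, z2⟩ := indep hn (p := c 0 - F.h1 w 0) (q := c 2 - F.h1 w 2) (by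
      rw [← show (F.h2 (c - F.h1 w)).1 = 0 by rw [z]; rfl]; simp [Five.h2, Five.h1, p, q])
    obtain ⟨-, z1⟩ := indep hn (p := c 2 - F.h1 w 2) (q := c 1 - F.h1 w 1) (by
      rw [← show (F.h2 (c - F.h1 w)).2 = 0 by rw [z]; rfl]; simp [Five.h2, Five.h1, p, q]; abel)
    ext i
    fin_cases i
    · exact (sub_eq_zero.1 z0).symm
    · exact (sub_eq_zero.1 z1).symm
    · exact (sub_eq_zero.1 z2).symm
    · simp [Five.h1, q]
    · exact p
  · have hp := h.wg_mem _ h1 _ h.y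
    have hq := h.wg_mem _ h.x _ h1
    have f1 := frame hn w.1
    rw [← e] at f1
    set p := wg w.1 F.y / α
    set q := wg F.x w.1 / α
    have m : w.2 - q • F.x ∈ W := sub_mem h2 (smul_mem' hq h.x)
    have f2 := frame hn (w.2 - q • F.x)
    have z : wg (w.2 - q • F.x) F.y = 0 := by
      rw [Five.h3, f1, wg_add_right, wg_smul_right, wg_smul_right, wg_self, wg_comm F.y] at e'
      rw [wg_sub_left, wg_smul_left]
      linear_combination -e'
    rw [z, zero_div, zero_smul, zero_add, ← e] at f2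
    refine ⟨![p, wg F.x (w.2 - q • F.x) / α, q, 0, 0], fun i => ?_, Prod.ext ?_ ?_⟩
    · fin_cases i <;> simp [hp, hq, h.wg_mem _ h.x _ m]
    · conv_rhs => rw [f1]
      simp [Five.h2]
    · simp [Five.h2, ← f2]
  · refine ⟨((t / α) • F.y, 0), smul_mem' ht h.y, zero_mem _, ?_⟩
    simp only [Five.h3, wg_smul_right, ← e]
    simp [wg, hα]

/-- Both complexes are exact on each of the three charts. -/
theorem Lat.ex (h : F.Lat O α W) (e : α = wg F.x F.y ∨ α = wg F.x F.xx ∨ α = wg F.y F.yy) :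
    F.Ex O α W := by
  rcases e with e | e | e
  · exact ex_zero h e
  · exact ex_one h e
  · exact Ex.of_swap (ex_one h.swap e)

end Five

end Pool.Agent.Lib.MP_d3d358_ag.K
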