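import Pool.Agent.Lib.MP_d3d358_ag.Var.Q3G
import Pool.Agent.Lib.MP_d3d358_ag.Var.X2

/-! A frame of six elements and its dual frame for a field with an action of `G`. -/

set_option autoImplicit false

namespace Pool.Agent.Lib.MP_d3d358_ag.K.L1

open Pool.Agent.Lib.MP_d3d358_ag.Var

noncomputable section

variable {K : Type} [Field K] [Algebra ℂ K] [MulSemiringAction G K]

/-- The frame `1, u₁, u₂, v₁, v₂, d`. -/
def fr (e : Fin 4 → K) : Fin 6 → K := ![1, e 0, e 1, e 2, e 3, alt e 0]

/-- The dual frame. -/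
def du (e : Fin 4 → K) : Fin 6 → K := ![alt e 0, 2 * e 3, -(2 * e 2), -(2 * e 1), 2 * e 0, 1]

/-- The projection to the alternating part. -/
def altP (f : K) : K := (1 / 6 : ℂ) • ∑ g : G, sg g • g • f

/-- The projection to the invariant part. -/
def invP (f : K) : K := (1 / 6 : ℂ) • ∑ g : G, g • f

theorem sum_G {N : Type} [AddCommMonoid N] (f : G → N) : ∑ g, f g =
    f (.r 0) + f (.r 1) + f (.r 2) + f (.sr 0) + f (.sr 1) + f (.sr 2) := by
  have : (Finset.univ : Finset G) = {.r 0, .r 1, .r 2, .sr 0, .sr 1, .sr 2} := by decide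
  rw [this]
  repeat rw [Finset.sum_insert (by decide)]
  rw [Finset.sum_singleton]; abel

theorem smul_altP [SMulCommClass G ℂ K] (g : G) (f : K) : g • altP f = sg g • altP f := by
  rw [altP, smul_comm, smul_comm (sg g), Finset.smul_sum, Finset.smul_sum (r := sg g),
    ← Equiv.sum_comp (Equiv.mulLeft g) fun h => sg g • sg h • h • f]
  congr 1
  refine Finset.sum_congr rfl fun h _ => ?_
  rw [Equiv.coe_mulLeft, smul_comm, sg_mul, mul_smul g, smul_smul (sg g), ← mul_assoc,
    sg_mul_self, one_mul]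

theorem smul_invP [SMulCommClass G ℂ K] (g : G) (f : K) : g • invP f = invP f := by
  rw [invP, smul_comm, Finset.smul_sum, ← Equiv.sum_comp (Equiv.mulLeft g) fun h => h • f]
  simp [mul_smul]

theorem altP_add (f h : K) : altP (f + h) = altP f + altP h := by
  simp [altP, Finset.sum_add_distrib]

theorem altP_mul {a : K} (ha : ∀ g : G, g • a = a) (f : K) : altP (a * f) = a * altP f := by
  simp [altP, ha, Finset.mul_sum]

theorem altP_of_alt {f : K} (hf : ∀ g : G, g • f = sg g • f) : altP f = f := by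
  simp only [altP, hf, smul_smul, sg_mul_self, one_smul, Finset.sum_const, Finset.card_univ]
  rw [show Fintype.card G = 6 by decide, ← Nat.cast_smul_eq_nsmul ℂ, smul_smul]; norm_num

theorem invP_of_inv {f : K} (hf : ∀ g : G, g • f = f) : invP f = f := by
  simp only [invP, hf, Finset.sum_const, Finset.card_univ]
  rw [show Fintype.card G = 6 by decide, ← Nat.cast_smul_eq_nsmul ℂ, smul_smul]; norm_num

theorem altP_mem {T : Subalgebra ℂ K} (hT : ∀ g : G, ∀ f ∈ T, g • f ∈ T) {f : K} (hf : f ∈ T) :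
    altP f ∈ T := T.smul_mem (sum_mem fun g _ => T.smul_mem (hT g f hf) _) _

theorem smul_div_alt {a b : K} (ha : ∀ g : G, g • a = sg g • a) (hb : ∀ g : G, g • b = sg g • b)
    (g : G) : g • (a / b) = a / b := by
  rw [smul_div₀', ha, hb]
  cases g <;> simp [neg_div_neg_eq]

variable {e : Fin 4 → K} (he : Equi e)
include he

theorem sum_fr_du (g : G) : ∑ j, fr e j * g • du e j = if g = 1 then 6 * alt e 0 else 0 := by
  have h2 : g • (2 : K) = 2 := map_ofNat (MulSemiringAction.toRingHom G K g) 2
  have hd := he.smul_alt g 0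
  simp only [Fin.sum_univ_six, fr, du, Matrix.cons_val, smul_mul', smul_neg, h2, hd, he g, smul_one]
  cases g with
  | r k =>
    by_cases hk : k = 0
    · subst hk
      rw [if_pos (by rfl)]
      simp [alt]; ring
    · have := congrArg (algebraMap ℂ K) (chi_quad hk)
      rw [if_neg (show ¬DihedralGroup.r k = 1 from fun h => hk (DihedralGroup.r.inj h))]
      simp [gv_r, alt, chi_neg, Algebra.smul_def] at this ⊢
      linear_combination 2 * (e 0 * e 3 - e 1 * e 2) * this
  | sr k =>
    rw [if_neg fun h => by cases h]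
    simp [gv_sr, alt, Algebra.smul_def]; ring

/-- Expansion in the frame. -/
theorem expand (h : K) : ∑ j, altP (du e j * h) * fr e j = alt e 0 * h := by
  have : ∀ j, altP (du e j * h) * fr e j =
      ∑ g : G, (1 / 6 : ℂ) • sg g • (fr e j * g • du e j * g • h) := fun j => by
    rw [altP, Finset.smul_sum, Finset.sum_mul]
    refine Finset.sum_congr rfl fun g _ => ?_
    simp only [smul_mul', smul_mul_assoc]
    congr 2; ring
  simp only [this]
  rw [Finset.sum_comm, Finset.sum_eq_single 1]
  · rw [← Finset.smul_sum, ← Finset.smul_sum, ← Finset.sum_mul, sum_fr_du he]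
    simp [Algebra.smul_def, map_ofNat]
    have : (6 : K) ≠ 0 := by
      have := (algebraMap ℂ K).injective.ne (show (6 : ℂ) ≠ 0 by norm_num)
      simpa [map_ofNat] using this
    field_simp
  · intro g _ hg
    rw [← Finset.smul_sum, ← Finset.smul_sum, ← Finset.sum_mul, sum_fr_du he, if_neg hg]
    simp
  · simp

theorem expand' (hd : alt e 0 ≠ 0) (h : K) : h = ∑ j, altP (du e j * h) / alt e 0 * fr e j := by
  simp only [div_mul_eq_mul_div, ← Finset.sum_div, expand he]
  field_simp

theorem smul_coef [SMulCommClass G ℂ K] (j : Fin 6) (h : K) (g : G) :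
    g • (altP (du e j * h) / alt e 0) = altP (du e j * h) / alt e 0 :=
  smul_div_alt (fun g => smul_altP g _) (fun g => he.smul_alt g 0) g

/-- A map that is linear over the invariants is a combination of the group elements. -/
theorem eq_sum_G [SMulCommClass G ℂ K] (hd : alt e 0 ≠ 0) (ψ : K →+ K)
    (hψ : ∀ a, (∀ g : G, g • a = a) → ∀ h, ψ (a * h) = a * ψ h) (h : K) :
    ψ h = ∑ g : G, ((sg g / 6) • ∑ j, g • du e j * ψ (fr e j)) / alt e 0 * g • h := by
  conv_lhs => rw [expand' he hd h, map_sum]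
  simp only [hψ _ (smul_coef he _ h)]
  simp only [altP, Finset.smul_sum, Finset.sum_div, Finset.sum_mul]
  rw [Finset.sum_comm]
  refine Finset.sum_congr rfl fun g _ => Finset.sum_congr rfl fun j _ => ?_
  simp only [smul_mul', Algebra.smul_def, map_div₀, map_one]
  ring

omit he [MulSemiringAction G K] in
theorem six_ne : (6 : K) ≠ 0 := by
  have := (algebraMap ℂ K).injective.ne (show (6 : ℂ) ≠ 0 by norm_num)
  simpa [map_ofNat] using this

/-- The two frames are dual. -/
theorem altP_du_fr (hd : alt e 0 ≠ 0) (i j : Fin 6) :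
    altP (du e j * fr e i) = if j = i then alt e 0 else 0 := by
  have h6 := six_ne (K := K)
  let M1 : Matrix G (Fin 6) K := Matrix.of fun g j => g • fr e j
  let M2 : Matrix (Fin 6) G K := Matrix.of fun j g => (sg g • g • du e j) / (6 * alt e 0)
  have h12 : M1 * M2 = 1 := by
    ext h g
    have := congrArg (h • ·) (sum_fr_du he (h⁻¹ * g))
    simp only [Finset.smul_sum, smul_mul', ← mul_smul, mul_inv_cancel_left, inv_mul_eq_one] at this
    simp only [Matrix.mul_apply, M1, M2, Matrix.of_apply, ← mul_div_assoc, mul_smul_comm, ← Finset.sum_div,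
      ← Finset.smul_sum, this, Matrix.one_apply]
    split_ifs with hg
    · have h6' : h • (6 : K) = 6 := map_ofNat (MulSemiringAction.toRingHom G K h) 6
      rw [smul_mul', h6', he.smul_alt, hg, mul_smul_comm, smul_smul, sg_mul_self, one_smul,
        div_self (mul_ne_zero h6 hd)]
    · simp
  have h21 := congrFun (congrFun ((Matrix.mul_eq_one_comm_of_equiv
    (Fintype.equivFinOfCardEq (show Fintype.card G = 6 by decide))).1 h12) j) i
  simp only [Matrix.mul_apply, M1, M2, Matrix.of_apply, div_mul_eq_mul_div, ← Finset.sum_div, Matrix.one_apply,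
    smul_mul_assoc, ← smul_mul'] at h21
  rw [div_eq_iff (mul_ne_zero h6 hd)] at h21
  rw [altP, h21, Algebra.smul_def, map_div₀, map_one, map_ofNat]
  split_ifs
  · field_simp
  · simp

theorem coef_sum (hd : alt e 0 ≠ 0) {a : Fin 6 → K} (ha : ∀ i, ∀ g : G, g • a i = a i) (j : Fin 6) :
    altP (du e j * ∑ i, a i * fr e i) / alt e 0 = a j := by
  have : ∀ s : Finset (Fin 6), altP (du e j * ∑ i ∈ s, a i * fr e i) =
      ∑ i ∈ s, a i * altP (du e j * fr e i) := fun s => by
    induction s using Finset.induction_on with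
    | empty => simp [altP]
    | insert i s hi ih =>
      rw [Finset.sum_insert hi, Finset.sum_insert hi, mul_add, altP_add, ih, mul_left_comm,
        altP_mul (ha i)]
  rw [this]
  simp only [altP_du_fr he hd, mul_ite, mul_zero, Finset.sum_ite_eq, Finset.mem_univ, if_true]
  field_simp

omit he

/-- The quadruple that gives the frame of a chart. -/
def fq (n : Fin 3) (t : Fin 4 → K) : Fin 4 → K :=
  ![t, ![t 0, t 2 ^ 2, t 2, t 0 ^ 2], ![t 1, t 3 ^ 2, t 3, t 1 ^ 2]] n

omit [Algebra ℂ K] [MulSemiringAction G K] in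
theorem alt_fq (n : Fin 3) (t : Fin 4 → K) : alt (fq n t) 0 = alt t (cix n) := by
  fin_cases n <;> simp [fq, alt, cix] <;> ring

theorem equi_fq {t : Fin 4 → K} (ht : Equi t) (n : Fin 3) : Equi (fq n t) := by
  have h4 : ∀ k, chi k ^ 2 = chi (-k) := fun k => (chi_neg k).symm
  fin_cases n
  · exact ht
  all_goals
    intro g i
    cases g <;> fin_cases i <;> simp [fq, smul_pow', ht _ _, gv_r, gv_sr, smul_pow, h4]

omit [MulSemiringAction G K] in
theorem fq_mem {T : Subalgebra ℂ K} {t : Fin 4 → K} (ht : ∀ i, t i ∈ T) (n : Fin 3) (i : Fin 4) :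
    fq n t i ∈ T := by
  fin_cases n <;> fin_cases i <;> simp [fq, ht, pow_mem]

omit [MulSemiringAction G K] in
theorem fr_mem {T : Subalgebra ℂ K} (he : ∀ i, e i ∈ T) (j : Fin 6) : fr e j ∈ T := by
  fin_cases j <;> simp [fr, alt, he, sub_mem, mul_mem]

omit [MulSemiringAction G K] in
theorem du_mem {T : Subalgebra ℂ K} (he : ∀ i, e i ∈ T) (j : Fin 6) : du e j ∈ T := by
  fin_cases j <;> simp [du, alt, he, sub_mem, mul_mem]

/-- The coefficients of a combination of the group elements are determined by it. -/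
theorem coef_G (he : Equi e) (c : G → K) (g : G) :
    (sg g / 6) • ∑ j, g • du e j * ∑ h : G, c h * h • fr e j = alt e 0 * c g := by
  have h6 := six_ne (K := K)
  have key : ∀ h : G, ∑ j, g • du e j * (c h * h • fr e j) =
      if h = g then sg g • (6 * (alt e 0 * c g)) else 0 := fun h => by
    have := congrArg (h • ·) (sum_fr_du he (h⁻¹ * g))
    simp only [Finset.smul_sum, smul_mul', ← mul_smul, mul_inv_cancel_left, inv_mul_eq_one] at this
    rw [show ∑ j, g • du e j * (c h * h • fr e j) = c h * ∑ j, h • fr e j * g • du e j by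
      rw [Finset.mul_sum]; exact Finset.sum_congr rfl fun j _ => by ring, this]
    split_ifs with hg
    · have h6' : h • (6 : K) = 6 := map_ofNat (MulSemiringAction.toRingHom G K h) 6
      rw [smul_mul', h6', he.smul_alt, hg]
      simp only [Algebra.smul_def]; ring
    · simp
  simp only [Finset.mul_sum]
  rw [Finset.sum_comm]
  simp only [key, Finset.sum_ite_eq', Finset.mem_univ, if_true, smul_smul]
  rw [div_mul_eq_mul_div, sg_mul_self, Algebra.smul_def, map_div₀, map_one, map_ofNat]
  field_simp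

theorem coef_G_mem (he : Equi e) {T : Subalgebra ℂ K} (hT : ∀ g : G, ∀ f ∈ T, g • f ∈ T)
    (heT : ∀ i, e i ∈ T) {c : G → K} (hc : ∀ j, ∑ h : G, c h * h • fr e j ∈ T) (g : G) :
    alt e 0 * c g ∈ T := by
  rw [← coef_G he]
  exact T.smul_mem (sum_mem fun j _ => mul_mem (hT g _ (du_mem heT j)) (hc j)) _

theorem coef_G_eq_zero (he : Equi e) (hd : alt e 0 ≠ 0) {c : G → K}
    (hc : ∀ j, ∑ h : G, c h * h • fr e j = 0) (g : G) : c g = 0 := by
  have := coef_G he c g
  simp only [hc, mul_zero, Finset.sum_const_zero, smul_zero] at this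
  exact (mul_eq_zero.1 this.symm).resolve_left hd

section Lattice

variable {t : Fin 4 → K} {O : Subalgebra ℂ K}

/-- The algebra generated by the coordinates over `O`. -/
def latP (O : Subalgebra ℂ K) (t : Fin 4 → K) : Subalgebra ℂ K :=
  (Algebra.adjoin O (Set.range t)).restrictScalars ℂ

omit [MulSemiringAction G K] in
theorem mem_latP {f : K} : f ∈ latP O t ↔ f ∈ Algebra.adjoin O (Set.range t) := Iff.rfl

omit [MulSemiringAction G K] in
theorem t_mem_latP (i : Fin 4) : t i ∈ latP O t := mem_latP.2 (Algebra.subset_adjoin ⟨i, rfl⟩)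

omit [MulSemiringAction G K] in
theorem le_latP : O ≤ latP O t := fun a ha =>
  mem_latP.2 (Subalgebra.algebraMap_mem _ (⟨a, ha⟩ : O))

omit [MulSemiringAction G K] in
theorem latP_le {T : Subalgebra ℂ K} (h1 : O ≤ T) (h2 : ∀ i, t i ∈ T) : latP O t ≤ T := by
  intro f hf
  induction mem_latP.1 hf using Algebra.adjoin_induction with
  | mem x hx => obtain ⟨i, rfl⟩ := hx; exact h2 i
  | algebraMap a => exact h1 a.2
  | add x y hx hy ihx ihy => exact add_mem (ihx hx) (ihy hy)
  | mul x y hx hy ihx ihy => exact mul_mem (ihx hx) (ihy hy)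

theorem smul_mem_latP (ht : Equi t) (hO : ∀ g : G, ∀ a ∈ O, g • a = a) (g : G) :
    ∀ f ∈ latP O t, g • f ∈ latP O t := by
  intro f hf
  induction mem_latP.1 hf using Algebra.adjoin_induction with
  | mem x hx =>
    obtain ⟨i, rfl⟩ := hx
    rw [ht]
    cases g <;> fin_cases i <;> simp [gv_r, gv_sr] <;> exact Subalgebra.smul_mem _ (t_mem_latP _) _
  | algebraMap a => exact (hO g a a.2).symm ▸ hf
  | add x y hx hy ihx ihy => rw [smul_add]; exact add_mem (ihx hx) (ihy hy)
  | mul x y hx hy ihx ihy => rw [smul_mul']; exact mul_mem (ihx hx) (ihy hy)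

omit [MulSemiringAction G K] in
theorem adjoin_le_self {S : Set K} (hS : ∀ x ∈ S, x ∈ O) {f : K} (hf : f ∈ Algebra.adjoin O S) :
    f ∈ O := by
  induction hf using Algebra.adjoin_induction with
  | mem x hx => exact hS x hx
  | algebraMap a => exact a.2
  | add x y _ _ ihx ihy => exact add_mem ihx ihy
  | mul x y _ _ ihx ihy => exact mul_mem ihx ihy

variable (ht : Equi t) (hO : ∀ g : G, ∀ a ∈ O, g • a = a) (hq : ∀ i, ivt t i ∈ O)
include ht hO hq

theorem mem_of_inv {f : K} (hf : f ∈ latP O t) (hi : ∀ g : G, g • f = f) : f ∈ O :=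
  adjoin_le_self (by rintro _ ⟨i, rfl⟩; exact hq i)
    (ht.mem_adjoin_ivt (A := O) (fun g a => hO g a a.2) hf hi)

theorem div_mem_of_alt {α : K} (ha : ∀ i, alt t i / α ∈ O) {f : K} (hf : f ∈ latP O t)
    (hi : ∀ g : G, g • f = sg g • f) : f / α ∈ O := by
  obtain ⟨c, hc, rfl⟩ := ht.exists_sum_alt (A := O) (fun g a => hO g a a.2) hf hi
  rw [Finset.sum_div]
  refine sum_mem fun i _ => ?_
  rw [mul_div_assoc]
  exact mul_mem (adjoin_le_self (by rintro _ ⟨i, rfl⟩; exact hq i) (hc i)) (ha i)

variable [SMulCommClass G ℂ K] (n : Fin 3) (ha : ∀ i, alt t i / alt t (cix n) ∈ O)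
include ha

/-- The coordinates of an element of the lattice in the frame of the chart. -/
theorem coef_mem {h : K} (hh : h ∈ latP O t) (j : Fin 6) :
    altP (du (fq n t) j * h) / alt t (cix n) ∈ O :=
  div_mem_of_alt ht hO hq ha (altP_mem (smul_mem_latP ht hO)
    (mul_mem (du_mem (fq_mem t_mem_latP n) j) hh)) fun g => smul_altP g _

/-- The lattice is spanned by the frame of the chart. -/
theorem mem_latP_iff (hn : alt t (cix n) ≠ 0) {h : K} :
    h ∈ latP O t ↔ ∃ a : Fin 6 → K, (∀ j, a j ∈ O) ∧ h = ∑ j, a j * fr (fq n t) j := by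
  refine ⟨fun hh => ⟨_, coef_mem ht hO hq n ha hh, ?_⟩, ?_⟩
  · have := expand' (equi_fq ht n) ((alt_fq n t).symm ▸ hn) h
    rwa [alt_fq] at this
  · rintro ⟨a, h1, rfl⟩
    exact sum_mem fun j _ => mul_mem (le_latP (h1 j)) (fr_mem (fq_mem t_mem_latP n) j)

/-- The lattice is a free module of rank six. -/
theorem nonempty_basis (hn : alt t (cix n) ≠ 0) : Nonempty
    (Module.Basis (Fin 6) O (Subalgebra.toSubmodule (Algebra.adjoin O (Set.range t)))) := by
  have hs : Submodule.span O (Set.range (fr (fq n t))) =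
      Subalgebra.toSubmodule (Algebra.adjoin O (Set.range t)) := by
    ext h
    rw [Submodule.mem_span_range_iff_exists_fun]
    refine Iff.trans ?_ (mem_latP_iff ht hO hq n ha hn).symm
    exact ⟨fun ⟨a, e⟩ => ⟨fun j => a j, fun j => (a j).2, e.symm⟩,
      fun ⟨a, h1, e⟩ => ⟨fun j => ⟨a j, h1 j⟩, e.symm⟩⟩
  refine ⟨hs ▸ Module.Basis.span (Fintype.linearIndependent_iff.2 fun a e j => Subtype.ext ?_)⟩
  have := coef_sum (equi_fq ht n) ((alt_fq n t).symm ▸ hn) (a := fun i => a i)
    (fun i g => hO g _ (a i).2) j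
  rw [show ∑ i, (a i : K) * fr (fq n t) i = 0 from e] at this
  simpa [altP] using this.symm

end Lattice

end

end Pool.Agent.Lib.MP_d3d358_ag.K.L1
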