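import Mathlib

/-! Sections of `O(m)` on the curve `s = 0` (two charts, coordinates `q, p, b` and
`b² q, b³ p, 1 / b`). -/

set_option autoImplicit false

namespace Pool.Agent.Lib.MP_d3d358_ag.K

open MvPolynomial

variable {k K : Type} [Field k] [Field K] [Algebra k K]

variable (k) in
/-- Polynomials in `q, p, b` whose monomials `q^i p^j b^l` have `l ≤ N + 2 i + 3 j`. -/
noncomputable def Wt (N : ℕ) : Submodule k (MvPolynomial (Fin 3) k) :=
  restrictSupport k {d | d 2 ≤ N + 2 * d 0 + 3 * d 1}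

theorem mem_Wt {N : ℕ} {F : MvPolynomial (Fin 3) k} :
    F ∈ Wt k N ↔ ∀ d ∈ F.support, d 2 ≤ N + 2 * d 0 + 3 * d 1 := Iff.rfl

theorem Wt_mul {N N' : ℕ} {F F' : MvPolynomial (Fin 3) k} (h : F ∈ Wt k N) (h' : F' ∈ Wt k N') :
    F * F' ∈ Wt k (N + N') := by
  classical
  refine mem_Wt.2 fun d hd => ?_
  obtain ⟨a, ha, b, hb, rfl⟩ := Finset.mem_add.1 (support_mul F F' hd)
  have := mem_Wt.1 h a ha
  have := mem_Wt.1 h' b hb
  simp only [Finsupp.add_apply]
  omega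

theorem monomial_mem_Wt {N : ℕ} {d : Fin 3 →₀ ℕ} (h : d 2 ≤ N + 2 * d 0 + 3 * d 1) (c : k) :
    monomial d c ∈ Wt k N :=
  mem_Wt.2 fun _ he => Finset.mem_singleton.1 (support_monomial_subset he) ▸ h

theorem X_pow_mem_Wt (N : ℕ) : (X 2 ^ N : MvPolynomial (Fin 3) k) ∈ Wt k N := by
  rw [X_pow_eq_monomial]; exact monomial_mem_Wt (by simp) _

theorem Wt_cancel {N m : ℕ} {F : MvPolynomial (Fin 3) k} (h : F * X 2 ^ N ∈ Wt k (m + N)) :
    F ∈ Wt k m := by
  refine mem_Wt.2 fun d hd => ?_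
  have := mem_Wt.1 h (d + Finsupp.single 2 N) (by
    rw [mem_support_iff, X_pow_eq_monomial, coeff_mul_monomial, mul_one]
    exact mem_support_iff.1 hd)
  simp at this
  omega

variable {q p b s e : K}

variable (k) in
/-- The ring of the first chart. -/
abbrev C1 (q p b s : K) : Subalgebra k K := Algebra.adjoin k (Set.range ![q, p, b, s])

variable (k) in
/-- The ring of the overlap. -/
abbrev C12 (q p b s e : K) : Subalgebra k K :=
  Algebra.adjoin k (insert e⁻¹ (Set.range ![q, p, b, s]))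

theorem C1_le : C1 k q p b s ≤ C12 k q p b s e := Algebra.adjoin_mono (Set.subset_insert _ _)

theorem q_mem : q ∈ C1 k q p b s := Algebra.subset_adjoin ⟨0, rfl⟩
theorem p_mem : p ∈ C1 k q p b s := Algebra.subset_adjoin ⟨1, rfl⟩
theorem b_mem : b ∈ C1 k q p b s := Algebra.subset_adjoin ⟨2, rfl⟩
theorem s_mem : s ∈ C1 k q p b s := Algebra.subset_adjoin ⟨3, rfl⟩

theorem aeval_mem (F : MvPolynomial (Fin 3) k) : aeval ![q, p, b] F ∈ C1 k q p b s := by
  induction F using MvPolynomial.induction_on with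
  | C c => rw [aeval_C]; exact Subalgebra.algebraMap_mem _ _
  | add F G h h' => rw [map_add]; exact add_mem h h'
  | mul_X F i h =>
    rw [map_mul, aeval_X]
    refine mul_mem h ?_
    fin_cases i
    exacts [q_mem, p_mem, b_mem]

theorem exists_mod {x : K} (hx : x ∈ C1 k q p b s) :
    ∃ F : MvPolynomial (Fin 3) k, ∃ r ∈ C1 k q p b s, x = aeval ![q, p, b] F + s * r := by
  induction hx using Algebra.adjoin_induction with
  | mem x hx =>
    obtain ⟨i, rfl⟩ := hx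
    fin_cases i
    exacts [⟨X 0, 0, zero_mem _, by simp⟩, ⟨X 1, 0, zero_mem _, by simp⟩,
      ⟨X 2, 0, zero_mem _, by simp⟩, ⟨0, 1, one_mem _, by simp⟩]
  | algebraMap c => exact ⟨C c, 0, zero_mem _, by simp⟩
  | add x y _ _ h h' =>
    obtain ⟨F, r, hr, rfl⟩ := h
    obtain ⟨G, r', hr', rfl⟩ := h'
    exact ⟨F + G, r + r', add_mem hr hr', by rw [map_add]; ring⟩
  | mul x y _ hy h h' =>
    obtain ⟨F, r, hr, rfl⟩ := h
    obtain ⟨G, r', hr', e⟩ := h'
    exact ⟨F * G, aeval ![q, p, b] F * r' + r * y,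
      add_mem (mul_mem (aeval_mem F) hr') (mul_mem hr hy), by rw [map_mul, add_mul, e]; ring⟩

theorem exists_pow (he0 : e ≠ 0) (he : e ∈ C1 k q p b s) {x : K} (hx : x ∈ C12 k q p b s e) :
    ∃ n : ℕ, x * e ^ n ∈ C1 k q p b s := by
  induction hx using Algebra.adjoin_induction with
  | mem x hx =>
    rcases hx with rfl | hx
    · exact ⟨1, by rw [pow_one, inv_mul_cancel₀ he0]; exact one_mem _⟩
    · exact ⟨0, by rw [pow_zero, mul_one]; exact Algebra.subset_adjoin hx⟩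
  | algebraMap c => exact ⟨0, by rw [pow_zero, mul_one]; exact Subalgebra.algebraMap_mem _ _⟩
  | add x y _ _ h h' =>
    obtain ⟨n, h⟩ := h
    obtain ⟨m, h'⟩ := h'
    refine ⟨n + m, ?_⟩
    rw [show (x + y) * e ^ (n + m) = x * e ^ n * e ^ m + y * e ^ m * e ^ n by ring]
    exact add_mem (mul_mem h (pow_mem he _)) (mul_mem h' (pow_mem he _))
  | mul x y _ _ h h' =>
    obtain ⟨n, h⟩ := h
    obtain ⟨m, h'⟩ := h'
    exact ⟨n + m, by
      rw [show x * y * e ^ (n + m) = x * e ^ n * (y * e ^ m) by ring]; exact mul_mem h h'⟩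

section

variable (hi : AlgebraicIndependent k ![q, p, b, s])
include hi

theorem eq_zero_of_mod {F : MvPolynomial (Fin 3) k} {r : K} (hr : r ∈ C1 k q p b s)
    (h : aeval ![q, p, b] F = s * r) : F = 0 := by
  rw [C1, Algebra.adjoin_range_eq_range_aeval] at hr
  obtain ⟨G, rfl⟩ := hr
  have h1 : rename Fin.castSucc F = X 3 * G := hi (by
    rw [map_mul, aeval_X, aeval_rename]
    refine Eq.trans ?_ h
    congr 2
    funext i; fin_cases i <;> rfl)
  have h2 := congrArg (aeval (![X 0, X 1, X 2, 0] : Fin 4 → MvPolynomial (Fin 3) k)) h1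
  rw [map_mul, aeval_X, aeval_rename,
    show (![X 0, X 1, X 2, 0] : Fin 4 → MvPolynomial (Fin 3) k) ∘ Fin.castSucc = X by
      funext i; fin_cases i <;> rfl, aeval_X_left_apply] at h2
  simpa using h2

variable {r0 : K} (hr0 : r0 ∈ C1 k q p b s) (he : e = b ^ 3 + s * r0)
include hr0 he

omit hi in
theorem e_mem : e ∈ C1 k q p b s := he ▸ add_mem (pow_mem b_mem _) (mul_mem s_mem hr0)

theorem e_ne : e ≠ 0 := fun h => by
  have := eq_zero_of_mod hi (F := X 2 ^ 3) (neg_mem hr0) (by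
    simp only [map_pow, aeval_X, Matrix.cons_val]; linear_combination h - he)
  simp at this

theorem eq_zero_of_mod' {F : MvPolynomial (Fin 3) k} {r : K} (hr : r ∈ C12 k q p b s e)
    (h : aeval ![q, p, b] F = s * r) : F = 0 := by
  obtain ⟨n, hn⟩ := exists_pow (e_ne hi hr0 he) (e_mem hr0 he) hr
  obtain ⟨r1, h1, e1⟩ : ∃ r1 ∈ C1 k q p b s, e ^ n = (b ^ 3) ^ n + s * r1 := by
    clear hn
    induction n with
    | zero => exact ⟨0, zero_mem _, by simp⟩
    | succ n ih =>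
      obtain ⟨r1, h1, e1⟩ := ih
      exact ⟨r1 * e + (b ^ 3) ^ n * r0, add_mem (mul_mem h1 (e_mem hr0 he))
        (mul_mem (pow_mem (pow_mem b_mem _) _) hr0), by
          linear_combination e * e1 + (b ^ 3) ^ n * he⟩
  have := eq_zero_of_mod hi (F := F * (X 2 ^ 3) ^ n)
    (sub_mem hn (mul_mem (aeval_mem F) h1)) (by
      simp only [map_mul, map_pow, aeval_X, Matrix.cons_val]
      linear_combination e ^ n * h - aeval ![q, p, b] F * e1)
  simpa using this

/-- `s` and `e` form a regular pair. -/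
theorem mem_of_mod {x r : K} (hx : x ∈ C1 k q p b s) (hr : r ∈ C12 k q p b s e) (h : x = s * r) :
    ∃ r' ∈ C1 k q p b s, x = s * r' := by
  obtain ⟨F, r1, h1, rfl⟩ := exists_mod hx
  have := eq_zero_of_mod' hi hr0 he (F := F) (sub_mem hr (C1_le h1)) (by linear_combination h)
  exact ⟨r1, h1, by simp [this]⟩

end

theorem exists_Wt {q' p' b' s' : K} (hq : ∃ r ∈ C12 k q p b s e, q' = b ^ 2 * q + s * r)
    (hp : ∃ r ∈ C12 k q p b s e, p' = b ^ 3 * p + s * r)
    (hb : ∃ r ∈ C12 k q p b s e, b' * b = 1 + s * r) (hs : ∃ r ∈ C12 k q p b s e, s' = s * r)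
    {x : K} (hx : x ∈ C1 k q' p' b' s') : ∃ N : ℕ, ∃ F ∈ Wt k N, ∃ r ∈ C12 k q p b s e,
      x * b ^ N = aeval ![q, p, b] F + s * r := by
  induction hx using Algebra.adjoin_induction with
  | mem x hx =>
    obtain ⟨i, rfl⟩ := hx
    fin_cases i
    · obtain ⟨r, hr, e⟩ := hq
      exact ⟨0, monomial (Finsupp.single 2 2 + Finsupp.single 0 1) 1, monomial_mem_Wt (by simp) _,
        r, hr, by simp [e, monomial_single_add, ← X.eq_1]⟩
    · obtain ⟨r, hr, e⟩ := hp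
      exact ⟨0, monomial (Finsupp.single 2 3 + Finsupp.single 1 1) 1, monomial_mem_Wt (by simp) _,
        r, hr, by simp [e, monomial_single_add, ← X.eq_1]⟩
    · obtain ⟨r, hr, e⟩ := hb
      exact ⟨1, monomial 0 1, monomial_mem_Wt (by simp) _, r, hr, by simp [e]⟩
    · obtain ⟨r, hr, e⟩ := hs
      exact ⟨0, 0, zero_mem _, r, hr, by simp [e]⟩
  | algebraMap c => exact ⟨0, monomial 0 c, monomial_mem_Wt (by simp) _, 0, zero_mem _, by simp⟩
  | add x y _ _ h h' =>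
    obtain ⟨N, F, hF, r, hr, e1⟩ := h
    obtain ⟨M, G, hG, r', hr', e2⟩ := h'
    refine ⟨N + M, F * X 2 ^ M + X 2 ^ N * G, add_mem (Wt_mul hF (X_pow_mem_Wt M))
      (Wt_mul (X_pow_mem_Wt N) hG), r * b ^ M + b ^ N * r', add_mem (mul_mem hr
        (pow_mem (C1_le b_mem) _)) (mul_mem (pow_mem (C1_le b_mem) _) hr'), ?_⟩
    simp only [map_add, map_mul, map_pow, aeval_X, Matrix.cons_val]
    linear_combination b ^ M * e1 + b ^ N * e2
  | mul x y _ _ h h' =>
    obtain ⟨N, F, hF, r, hr, e1⟩ := h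
    obtain ⟨M, G, hG, r', hr', e2⟩ := h'
    refine ⟨N + M, F * G, Wt_mul hF hG,
      aeval ![q, p, b] F * r' + r * (aeval ![q, p, b] G + s * r'),
      add_mem (mul_mem (C1_le (aeval_mem F)) hr') (mul_mem hr (add_mem (C1_le (aeval_mem G))
        (mul_mem (C1_le s_mem) hr'))), ?_⟩
    rw [map_mul, show x * y * b ^ (N + M) = x * b ^ N * (y * b ^ M) by ring, e1, e2]
    ring

theorem mono_mem {m : ℕ} (T : Submodule k K) (hb : ∀ i ≤ m, b ^ i ∈ T)
    (hs : ∀ r ∈ C1 k q p b s, s * r ∈ T)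
    (hq : ∀ a ≤ 2, ∃ r ∈ C1 k q p b s, ∀ x ∈ T, (b ^ a * q + s * r) * x ∈ T)
    (hp : ∀ a ≤ 3, ∃ r ∈ C1 k q p b s, ∀ x ∈ T, (b ^ a * p + s * r) * x ∈ T) (i j l : ℕ)
    (h : l ≤ m + 2 * i + 3 * j) : q ^ i * p ^ j * b ^ l ∈ T := by
  have hm : ∀ i j l : ℕ, q ^ i * p ^ j * b ^ l ∈ C1 k q p b s := fun i j l =>
    mul_mem (mul_mem (pow_mem q_mem _) (pow_mem p_mem _)) (pow_mem b_mem _)
  induction i generalizing l with
  | zero =>
    induction j generalizing l with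
    | zero => simpa using hb l (by omega)
    | succ j ih =>
      obtain ⟨r, hr, e⟩ := hp (min l 3) (min_le_right _ _)
      obtain ⟨l', hl⟩ := Nat.exists_eq_add_of_le (min_le_left l 3)
      have := sub_mem (e _ (ih l' (by omega))) (hs _ (mul_mem hr (hm 0 j l')))
      convert this using 1
      conv_lhs => rw [hl]
      ring
  | succ i ih =>
    obtain ⟨r, hr, e⟩ := hq (min l 2) (min_le_right _ _)
    obtain ⟨l', hl⟩ := Nat.exists_eq_add_of_le (min_le_left l 2)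
    have := sub_mem (e _ (ih l' (by omega))) (hs _ (mul_mem hr (hm i j l')))
    convert this using 1
    conv_lhs => rw [hl]
    ring

/-- Sections of `O(m)`, `m ≥ 0`, on the curve `s = 0` are spanned by `1, b, …, b ^ m`. -/
theorem p_one (hi : AlgebraicIndependent k ![q, p, b, s]) {r0 : K} (hr0 : r0 ∈ C1 k q p b s)
    (he : e = b ^ 3 + s * r0) {q' p' b' s' : K}
    (hq' : ∃ r ∈ C12 k q p b s e, q' = b ^ 2 * q + s * r)
    (hp' : ∃ r ∈ C12 k q p b s e, p' = b ^ 3 * p + s * r)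
    (hb' : ∃ r ∈ C12 k q p b s e, b' * b = 1 + s * r) (hs' : ∃ r ∈ C12 k q p b s e, s' = s * r)
    {m : ℕ} (T : Submodule k K) (hb : ∀ i ≤ m, b ^ i ∈ T) (hs : ∀ r ∈ C1 k q p b s, s * r ∈ T)
    (hq : ∀ a ≤ 2, ∃ r ∈ C1 k q p b s, ∀ x ∈ T, (b ^ a * q + s * r) * x ∈ T)
    (hp : ∀ a ≤ 3, ∃ r ∈ C1 k q p b s, ∀ x ∈ T, (b ^ a * p + s * r) * x ∈ T) {h1 h2 h3 : K}
    (m1 : h1 ∈ C1 k q p b s) (m2 : h2 ∈ C1 k q' p' b' s') (m3 : h3 ∈ C12 k q p b s e)
    (h : h1 = b ^ m * h2 + s * h3) : h1 ∈ T := by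
  obtain ⟨F, r, hr, rfl⟩ := exists_mod m1
  obtain ⟨N, G, hG, r', hr', e2⟩ := exists_Wt hq' hp' hb' hs' m2
  have h0 := eq_zero_of_mod' hi hr0 he (F := F * X 2 ^ N - X 2 ^ m * G)
    (r := b ^ m * r' + (h3 - r) * b ^ N) (add_mem (mul_mem (pow_mem (C1_le b_mem) _) hr')
      (mul_mem (sub_mem m3 (C1_le hr)) (pow_mem (C1_le b_mem) _))) (by
      simp only [map_sub, map_mul, map_pow, aeval_X, Matrix.cons_val]
      linear_combination b ^ N * h + b ^ m * e2)
  have hF : F ∈ Wt k m := Wt_cancel (sub_eq_zero.1 h0 ▸ Wt_mul (X_pow_mem_Wt m) hG)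
  refine add_mem ?_ (hs r hr)
  rw [F.as_sum, map_sum]
  refine T.sum_mem fun d hd => ?_
  rw [aeval_monomial, ← Algebra.smul_def, Finsupp.prod_fintype _ _ (by simp), Fin.prod_univ_three]
  exact T.smul_mem _ (mono_mem T hb hs hq hp _ _ _ (mem_Wt.1 hF d hd))

end Pool.Agent.Lib.MP_d3d358_ag.K
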