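import Pool.Agent.Lib.MP_d3d358_ag.K.Flat0
import Pool.Agent.Lib.MP_d3d358_ag.K.POne

/-! Base change of the lemmas on the curve `s = 0` from the model ring `A` to a flat algebra `O`. -/

set_option autoImplicit false

namespace Pool.Agent.Lib.MP_d3d358_ag.K

variable {k A O K : Type} [Field k] [CommRing A] [CommRing O] [Field K] [Algebra k K] [Algebra A O]
  [Algebra O K] [Algebra A K] [IsScalarTower A O K]

/-- A subalgebra that contains the image of `A`, as an `A`-submodule. -/
def subm (C : Subalgebra k K) (h : ∀ a : A, algebraMap A K a ∈ C) : Submodule A K where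
  carrier := C
  add_mem' := add_mem
  zero_mem' := zero_mem _
  smul_mem' a _ hx := by rw [Algebra.smul_def]; exact mul_mem (h a) hx

theorem isFr_adjoin [Algebra k A] [IsScalarTower k A K] {S : Set K} (hS : ∀ x ∈ S, IsFr A x) {x : K}
    (hx : x ∈ Algebra.adjoin k S) : IsFr A x := by
  induction hx using Algebra.adjoin_induction with
  | mem x hx => exact hS x hx
  | algebraMap c => rw [IsScalarTower.algebraMap_apply k A K]; exact IsFr.algebraMap _
  | add x y _ _ h h' => exact h.add h'
  | mul x y _ _ h h' => exact h.mul h'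

omit [Algebra A O] [Algebra A K] [IsScalarTower A O K] in
/-- The span over `O` of a subalgebra is closed under products. -/
theorem mul_mem_span {C : Subalgebra k K} {x y : K} (hx : x ∈ Submodule.span O (C : Set K))
    (hy : y ∈ Submodule.span O (C : Set K)) : x * y ∈ Submodule.span O (C : Set K) := by
  have := Submodule.mul_mem_mul hx hy
  rw [Submodule.span_mul_span] at this
  refine Submodule.span_mono ?_ this
  rintro _ ⟨a, ha, b, hb, rfl⟩
  exact mul_mem ha hb

variable [Algebra k A] [IsScalarTower k A K] [Module.Flat A O]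
  (hO : Function.Injective (algebraMap O K)) {q p b s e : K}
  (hi : AlgebraicIndependent k ![q, p, b, s]) {r0 : K} (hr0 : r0 ∈ C1 k q p b s)
  (he : e = b ^ 3 + s * r0) (hfr : ∀ i, IsFr A (![q, p, b, s] i))
  (hA : ∀ a : A, algebraMap A K a ∈ C1 k q p b s)

omit [Algebra A O] [IsScalarTower A O K] [Module.Flat A O] in
include hfr in
theorem isFr_C1 {x : K} (hx : x ∈ C1 k q p b s) : IsFr A x :=
  isFr_adjoin (by rintro _ ⟨i, rfl⟩; exact hfr i) hx

omit [Algebra A O] [IsScalarTower A O K] [Module.Flat A O] in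
include hfr hr0 he in
theorem isFr_C12 {x : K} (hx : x ∈ C12 k q p b s e) : IsFr A x :=
  isFr_adjoin (by
    rintro _ (rfl | ⟨i, rfl⟩)
    exacts [(isFr_C1 hfr (e_mem hr0 he)).inv, hfr i]) hx

include hO hi hr0 he hfr hA

/-- `s` and `e` form a regular pair after base change. -/
theorem mem_of_mod_base {x r : K} (hx : x ∈ Submodule.span O (C1 k q p b s : Set K))
    (hr : r ∈ Submodule.span O (C12 k q p b s e : Set K)) (h : x = s * r) :
    r ∈ Submodule.span O (C1 k q p b s : Set K) :=
  span_pair hO (subm (C12 k q p b s e) fun a => C1_le (hA a)) (subm (C1 k q p b s) hA)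
    (fun _ => isFr_C12 hr0 he hfr) (fun _ => isFr_C1 hfr) (hfr 3) (frF A K).one_mem _
    (fun u hu v hv h => by
      obtain ⟨r', hr', e'⟩ := mem_of_mod hi hr0 he hv hu ((one_mul v).symm.trans h.symm)
      have hs : s ≠ 0 := hi.transcendental 3 ∘ fun h => h ▸ isAlgebraic_zero
      rw [one_mul, e'] at h
      exact Submodule.subset_span (mul_left_cancel₀ hs h ▸ hr')) hr hx
    (h.symm.trans (one_mul x).symm)

/-- Sections of `O(m)` on the curve `s = 0` after base change. -/
theorem p_one_base {q' p' b' s' : K} (hq' : ∃ r ∈ C12 k q p b s e, q' = b ^ 2 * q + s * r)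
    (hp' : ∃ r ∈ C12 k q p b s e, p' = b ^ 3 * p + s * r)
    (hb' : ∃ r ∈ C12 k q p b s e, b' * b = 1 + s * r) (hs' : ∃ r ∈ C12 k q p b s e, s' = s * r)
    (hfr' : ∀ i, IsFr A (![q', p', b', s'] i)) (hA' : ∀ a : A, algebraMap A K a ∈ C1 k q' p' b' s')
    (hq : ∀ i ≤ 2, ∃ a : A, ∃ r ∈ C1 k q p b s, algebraMap A K a = b ^ i * q + s * r)
    (hp : ∀ i ≤ 3, ∃ a : A, ∃ r ∈ C1 k q p b s, algebraMap A K a = b ^ i * p + s * r) {m : ℕ}
    {h1 h2 h3 : K} (m1 : h1 ∈ Submodule.span O (C1 k q p b s : Set K))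
    (m2 : h2 ∈ Submodule.span O (C1 k q' p' b' s' : Set K))
    (m3 : h3 ∈ Submodule.span O (C12 k q p b s e : Set K)) (h : h1 = b ^ m * h2 + s * h3) :
    ∃ c : Fin (m + 1) → O, ∃ r ∈ Submodule.span O (C1 k q p b s : Set K),
      h1 = ∑ i, c i • b ^ (i : ℕ) + s * r := by
  let T : Submodule O K := Submodule.span O (Set.range fun i : Fin (m + 1) => b ^ (i : ℕ)) ⊔
    (Submodule.span O (C1 k q p b s : Set K)).map (LinearMap.mulLeft O s)
  have hT : ∀ (a : A), ∀ x ∈ T, algebraMap A K a * x ∈ T := fun a x hx => by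
    rw [IsScalarTower.algebraMap_apply A O K, ← Algebra.smul_def]; exact T.smul_mem _ hx
  let T' : Submodule k K :=
    { carrier := T
      add_mem' := add_mem
      zero_mem' := zero_mem _
      smul_mem' := fun c x hx => by
        rw [Algebra.smul_def, IsScalarTower.algebraMap_apply k A K]; exact hT _ x hx }
  have key := span_sys hO ![subm (C1 k q p b s) hA, subm (C1 k q' p' b' s') hA',
      subm (C12 k q p b s e) fun a => C1_le (hA a)] (fun i => by
      fin_cases i
      exacts [fun _ => isFr_C1 hfr, fun _ => isFr_C1 hfr', fun _ => isFr_C12 hr0 he hfr])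
    (fun _ : Unit => ![1, -b ^ m, -s]) (fun _ i => by
      fin_cases i
      exacts [(frF A K).one_mem, IsFr.neg ((frF A K).pow_mem (hfr 2) m), (hfr 3).neg])
    (h := ![h1, h2, h3]) (fun i => by fin_cases i; exacts [m1, m2, m3])
    fun _ => by simp [Fin.sum_univ_three, h]
  have h1T : h1 ∈ T := by
    refine (Submodule.span_le (p := T.comap (LinearMap.proj 0))).2 (fun x hx => ?_) key
    refine p_one hi hr0 he hq' hp' hb' hs' (m := m) T' (fun i hi => Submodule.mem_sup_left
      (Submodule.subset_span ⟨⟨i, by omega⟩, rfl⟩))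
      (fun r hr => Submodule.mem_sup_right ⟨r, Submodule.subset_span hr, rfl⟩) (fun i hi => ?_)
      (fun i hi => ?_) (h1 := x 0) (h2 := x 1) (h3 := x 2) (hx.1 0) (hx.1 1) (hx.1 2) ?_
    · obtain ⟨a, r, hr, e⟩ := hq i hi
      exact ⟨r, hr, fun y hy => e ▸ hT a y hy⟩
    · obtain ⟨a, r, hr, e⟩ := hp i hi
      exact ⟨r, hr, fun y hy => e ▸ hT a y hy⟩
    · have := hx.2 ()
      simp only [Fin.sum_univ_three, Matrix.cons_val] at this
      linear_combination this
  obtain ⟨y, hy, _, ⟨r, hr, rfl⟩, e⟩ := Submodule.mem_sup.1 h1T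
  obtain ⟨c, rfl⟩ := (Submodule.mem_span_range_iff_exists_fun O).1 hy
  exact ⟨c, r, hr, e.symm⟩

end Pool.Agent.Lib.MP_d3d358_ag.K
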