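import Pool.Agent.Lib.MP_d3d358_ag.Var.Mod
import Pool.Agent.Lib.MP_d3d358_ag.Var.X2
import Pool.Agent.Lib.MP_d3d358_ag.K.POneB

/-! The two charts `a₀ ≠ 0`, `a₃ ≠ 0` of the model along the curve `d = 0`. -/

set_option autoImplicit false

namespace Pool.Agent.Lib.MP_d3d358_ag.K

open MvPolynomial Pool.Agent.Lib.MP_d3d358_ag.Var

/-- Polynomials in disjoint sets of variables are relatively prime. -/
theorem isRelPrime_of_degreeOf {σ k : Type} [Field k] {f g : MvPolynomial σ k} (hf : f ≠ 0)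
    (hg : g ≠ 0) (h : ∀ i, f.degreeOf i = 0 ∨ g.degreeOf i = 0) : IsRelPrime f g := by
  rintro d ⟨u, rfl⟩ ⟨v, e⟩
  have hd : d ≠ 0 := left_ne_zero_of_mul hf
  have : d = C (d.coeff 0) := vars_eq_empty_iff_eq_C.1 (Finset.eq_empty_of_forall_notMem
    fun i hi => mem_vars_iff_degreeOf_ne_zero.1 hi (by
      rcases h i with h | h
      · rw [degreeOf_mul_eq hd (right_ne_zero_of_mul hf)] at h; omega
      · rw [e, degreeOf_mul_eq hd (right_ne_zero_of_mul (e ▸ hg))] at h; omega))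
  rw [this] at hd ⊢
  exact (IsUnit.mk0 _ fun h => hd (by rw [h, map_zero])).map C

theorem degreeOf_cube_sub {i j l : Fin 4} (hj : i ≠ j) (hl : i ≠ l) :
    degreeOf i (X j ^ 3 - X l ^ 3 : P) = 0 := by
  refine Nat.le_zero.1 ((degreeOf_sub_le _ _ _).trans (max_le ?_ ?_)) <;>
    refine (degreeOf_pow_le _ _ _).trans ?_ <;> simp [degreeOf_X, hj, hl]

theorem a0_ne : (alt X 1 : P) ≠ 0 := fun h => by
  simpa [alt] using congrArg (eval ![1, 0, 0, 0]) h

theorem a3_ne : (alt X 4 : P) ≠ 0 := fun h => by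
  simpa [alt] using congrArg (eval ![0, 1, 0, 0]) h

theorem d_ne : (alt X 0 : P) ≠ 0 := fun h => by
  simpa [alt] using congrArg (eval ![1, 0, 0, 1]) h

theorem isRelPrime_a0_a3 : IsRelPrime (alt X 1 : P) (alt X 4) :=
  isRelPrime_of_degreeOf a0_ne a3_ne fun i => by
    fin_cases i
    exacts [.inr (degreeOf_cube_sub (by decide) (by decide)),
      .inl (degreeOf_cube_sub (by decide) (by decide)),
      .inr (degreeOf_cube_sub (by decide) (by decide)),
      .inl (degreeOf_cube_sub (by decide) (by decide))]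

/-- In a flat `P`-algebra an element killed into it by powers of `a₀` and of `a₃` lies in it. -/
theorem reg_a0_a3 {T : Type} [CommRing T] [Algebra P T] [Module.Flat P T] (m n : ℕ) (x y : T)
    (e : algebraMap P T (alt X 1) ^ m * x = algebraMap P T (alt X 4) ^ n * y) :
    ∃ z, x = algebraMap P T (alt X 4) ^ n * z := by
  rw [← map_pow, ← map_pow] at e
  rw [← map_pow]
  exact reg_of_flat (fun u v h =>
    (isRelPrime_a0_a3.symm.pow (m := n) (n := m)).dvd_of_dvd_mul_left ⟨v, h⟩) x y e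

variable {K : Type} [Field K] (t : Fin 4 → K)

/-- Exchange of the indices `1` and `2`. -/
def swp {A : Type} (t : Fin 4 → A) : Fin 4 → A := ![t 1, t 0, t 3, t 2]

theorem swp_swp {A : Type} (t : Fin 4 → A) : swp (swp t) = t := by
  funext i; fin_cases i <;> rfl

theorem al_swp {A : Type} [CommRing A] (t : Fin 4 → A) :
    alt (swp t) = ![-alt t 0, alt t 4, alt t 3, alt t 2, alt t 1] := by
  funext i; fin_cases i <;> simp [alt, swp] <;> ring

theorem iv_swp {A : Type} [CommRing A] (t : Fin 4 → A) :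
    ivt (swp t) = ![ivt t 2, ivt t 1, ivt t 0, ivt t 6, ivt t 5, ivt t 4, ivt t 3] := by
  funext i; fin_cases i <;> simp [ivt, swp] <;> ring

/-- The coordinates `q, p, b, s` of the chart `a₀ ≠ 0`. -/
def co : Fin 4 → K := ![ivt t 0, ivt t 3, alt t 2 / alt t 1, alt t 0 / alt t 1]

theorem co_swp : co (swp t) = ![ivt t 2, ivt t 6, alt t 3 / alt t 4, -alt t 0 / alt t 4] := by
  rw [co, al_swp, iv_swp]; rfl

theorem adjoin_co (A : Type) [CommRing A] [Algebra A K] :
    Algebra.adjoin A (Set.range (co t)) = Algebra.adjoin A (Set.range (crd 1 t)) := by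
  refine le_antisymm (Algebra.adjoin_mono ?_) (Algebra.adjoin_mono ?_) <;> rintro _ ⟨i, rfl⟩ <;>
    fin_cases i
  exacts [⟨0, rfl⟩, ⟨2, rfl⟩, ⟨1, rfl⟩, ⟨3, rfl⟩, ⟨0, rfl⟩, ⟨2, rfl⟩, ⟨1, rfl⟩, ⟨3, rfl⟩]

theorem adjoin_co_swp (A : Type) [CommRing A] [Algebra A K] :
    Algebra.adjoin A (Set.range (co (swp t))) = Algebra.adjoin A (Set.range (crd 2 t)) := by
  rw [co_swp]
  refine le_antisymm (Algebra.adjoin_le ?_) (Algebra.adjoin_le ?_) <;> rintro _ ⟨i, rfl⟩ <;>
    fin_cases i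
  · exact Algebra.subset_adjoin ⟨1, rfl⟩
  · exact Algebra.subset_adjoin ⟨2, rfl⟩
  · exact Algebra.subset_adjoin ⟨0, rfl⟩
  · change -alt t 0 / alt t 4 ∈ _
    rw [neg_div]; exact neg_mem (Algebra.subset_adjoin ⟨3, rfl⟩)
  · exact Algebra.subset_adjoin ⟨2, rfl⟩
  · exact Algebra.subset_adjoin ⟨0, rfl⟩
  · exact Algebra.subset_adjoin ⟨1, rfl⟩
  · change alt t 0 / alt t 4 ∈ _
    rw [show alt t 0 / alt t 4 = -(-alt t 0 / alt t 4) by ring]
    exact neg_mem (Algebra.subset_adjoin ⟨3, rfl⟩)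

variable {t}

theorem u2_eq (h : alt t 1 ≠ 0) :
    t 1 = alt t 2 / alt t 1 * t 0 + alt t 0 / alt t 1 * t 2 ^ 2 := by
  field_simp; simp [alt]; ring

theorem v2_eq (h : alt t 1 ≠ 0) :
    t 3 = alt t 2 / alt t 1 * t 2 + alt t 0 / alt t 1 * t 0 ^ 2 := by
  field_simp; simp [alt]; ring

end Pool.Agent.Lib.MP_d3d358_ag.K
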