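import Pool.Agent.Lib.MP_d3d358_ag.K.Defs
import Pool.Agent.Lib.MP_d3d358_ag.K.L1
import Pool.Agent.Lib.MP_d3d358_ag.K.Model
import Pool.Agent.Lib.MP_d3d358_ag.Bkr.Lat

/-! Basic facts on the local rings, the chart rings and the rank six lattices at a point. -/

set_option autoImplicit false

namespace Pool.Agent.Lib.MP_d3d358_ag.K

open Pool.Agent.Lib.MP_cd184e_ag.T Cy
open Pool.Agent.Lib.MP_d3d358_ag.Var (G sg chi ivt alt cix crd Equi)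
open Pool.Agent.Lib.MP_d3d358_ag.Bkr (Fm Rat mem_Rat)
open L1 (latP mem_latP le_latP t_mem_latP latP_le)

variable {F : Type} [Field F] [Algebra ℂ F]

theorem mul_le_alg {B : Subalgebra ℂ F} {Y Z : Submodule ℂ F} (hY : Y ≤ B.toSubmodule)
    (hZ : Z ≤ B.toSubmodule) : Y * Z ≤ B.toSubmodule :=
  Submodule.mul_le.2 fun _ hy _ hz => B.mul_mem (hY hy) (hZ hz)

/-- The join of two subalgebras is their product. -/
theorem mem_sup_iff_mul {B C : Subalgebra ℂ F} {x : F} :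
    x ∈ B ⊔ C ↔ x ∈ B.toSubmodule * C.toSubmodule := by
  rw [Subalgebra.mul_toSubmodule]; rfl

theorem latP_eq_sup (O : Subalgebra ℂ F) (t : Fin 4 → F) : latP O t = O ⊔ Pm t :=
  le_antisymm (latP_le le_sup_left fun i => (le_sup_right : Pm t ≤ _) (Algebra.subset_adjoin ⟨i, rfl⟩))
    (sup_le le_latP (Algebra.adjoin_le (by rintro _ ⟨i, rfl⟩; exact t_mem_latP i)))

theorem mem_span_mul {c x : F} (hc : c ≠ 0) {Y : Submodule ℂ F} :
    x ∈ Submodule.span ℂ {c} * Y ↔ x / c ∈ Y := by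
  rw [Submodule.mem_span_singleton_mul]
  exact ⟨fun ⟨z, hz, e⟩ => by rwa [← e, mul_div_cancel_left₀ _ hc],
    fun h => ⟨_, h, mul_div_cancel₀ _ hc⟩⟩

theorem alp_ne_of {t : Fin 4 → F} (h : AlgebraicIndependent ℂ t) (ν : Fin 3) : alp t ν ≠ 0 := by
  have : alp t ν = MvPolynomial.aeval t (alt MvPolynomial.X (cix ν) : Var.P) := by
    simp [alp, Var.map_alt]
  rw [this]
  refine (map_ne_zero_iff _ h).2 ?_
  fin_cases ν
  exacts [d_ne, a0_ne, a3_ne]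

variable [MulSemiringAction G F] [SMulCommClass G ℂ F]

namespace Kum

variable {Q : Kum F} {w : Q.Pt}

theorem U_inv {u : F} (h : u ∈ Q.U) (g : G) : g • u = u := by rw [h.2, Pi.one_apply, one_smul]

theorem U_pow_inv {m : ℕ} {σ : F} (h : σ ∈ Q.U ^ m) (g : G) : g • σ = σ := by
  induction h using Submodule.pow_induction_on_left' with
  | algebraMap r => rw [Algebra.algebraMap_eq_smul_one, smul_comm, smul_one]
  | add x y i _ _ hx hy => rw [smul_add, hx, hy]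
  | mem_mul u hu i x _ hx => rw [smul_mul', hx, U_inv hu]

theorem Ow_inv (g : G) : ∀ x ∈ Q.Ow w, g • x = x := by
  rintro x ⟨m, σ, hσ, hx⟩
  have := U_pow_inv hx g
  rw [smul_mul', U_pow_inv (Q.Sig_sub w m σ hσ)] at this
  exact mul_right_cancel₀ (Q.Sig_ne w m σ hσ) this

theorem div_mem_Ow {m : ℕ} {u σ : F} (hu : u ∈ Q.U ^ m) (hσ : σ ∈ Q.Sig w m) : u / σ ∈ Q.Ow w :=
  ⟨m, σ, hσ, by rwa [div_mul_cancel₀ _ (Q.Sig_ne w m σ hσ)]⟩

theorem Sig_pow {m : ℕ} {σ : F} (hσ : σ ∈ Q.Sig w m) (n : ℕ) : σ ^ n ∈ Q.Sig w (n * m) := by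
  induction n with
  | zero => simpa using Q.Sig_one w
  | succ n ih => rw [pow_succ, Nat.succ_mul]; exact Q.Sig_mul w _ _ _ ih _ hσ

theorem U_pow_div_mem {m : ℕ} {σ : F} (h : σ ∈ Q.U ^ m) (s : Q.X.Idx) :
    σ / Q.Tg.fp s ^ m ∈ Q.X.A s.1 := by
  simpa [cy] using Q.reg_U h s

theorem Ow_le_Rat {x : F} (hx : x ∈ Q.Ow w) : x ∈ Rat Q.X := by
  obtain ⟨m, σ, hσ, hx⟩ := hx
  have h0 := Q.Sig_ne w m σ hσ
  have h1 := Q.Tg.fp_ne (Bkr.top Q.X)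
  have := div_mem (mem_Rat (U_pow_div_mem hx (Bkr.top Q.X)))
    (mem_Rat (U_pow_div_mem (Q.Sig_sub w m σ hσ) (Bkr.top Q.X)))
  rwa [div_div_div_cancel_right₀ (pow_ne_zero m h1), mul_div_cancel_right₀ _ h0] at this

theorem Rat_inv {x : F} (hx : x ∈ Rat Q.X) (g : G) : g • x = x := by
  obtain ⟨p, hp, q, hq, -, rfl⟩ := hx
  rw [smul_div₀', Q.inv_K0 (A_le_K0 _ hp), Q.inv_K0 (A_le_K0 _ hq)]

namespace Loc

variable (L : Q.Loc w)

theorem g_ne : L.g ≠ 0 := Q.Sig_ne w 1 _ L.g_mem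

theorem g_U : L.g ∈ Q.U := by simpa using Q.Sig_sub w 1 _ L.g_mem

theorem g_pow_mem (n : ℕ) : L.g ^ n ∈ Q.Sig w n := by simpa using Sig_pow L.g_mem n

theorem g_zpow_inv (n : ℤ) (g : G) : g • L.g ^ n = L.g ^ n := by
  rw [smul_zpow₀', U_inv L.g_U]

theorem alp_ne (ν : Fin 3) : alp L.t ν ≠ 0 := alp_ne_of L.indep ν

theorem gam_ne (ν : Fin 3) (k n : ℤ) : L.gam ν k n ≠ 0 :=
  mul_ne_zero (zpow_ne_zero _ (L.alp_ne ν)) (zpow_ne_zero _ L.g_ne)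

theorem div_mem_Yw {Y : Submodule ℂ F} {y : F} (hy : y ∈ Y) : y / L.g ∈ Q.Yw w L.g Y := by
  rw [← one_mul (y / L.g), div_eq_inv_mul]
  exact Submodule.mul_mem_mul (one_mem (Q.Ow w))
    (Submodule.mul_mem_mul (Submodule.mem_span_singleton_self _) hy)

theorem Yw_induction {Y : Submodule ℂ F} {C : F → Prop} {x : F} (hx : x ∈ Q.Yw w L.g Y)
    (h1 : ∀ a ∈ Q.Ow w, ∀ y ∈ Y, C (a * (y / L.g))) (h2 : ∀ x y, C x → C y → C (x + y)) : C x := by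
  refine Submodule.mul_induction_on hx (fun a ha z hz => ?_) h2
  have := h1 a ha _ ((mem_span_mul (inv_ne_zero L.g_ne)).1 hz)
  rwa [div_inv_eq_mul, mul_div_cancel_right₀ _ L.g_ne] at this

theorem Ow_mul_mem {Y : Submodule ℂ F} {a x : F} (ha : a ∈ Q.Ow w) (hx : x ∈ Q.Yw w L.g Y) :
    a * x ∈ Q.Yw w L.g Y := mul_mem_self ha hx

theorem Yw_mul_mem {x y : F} (hx : x ∈ Q.Yw w L.g Q.R) (hy : y ∈ Q.Yw w L.g Q.R) :
    x * y ∈ Q.Yw w L.g Q.R := by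
  have := L.g_ne
  refine L.Yw_induction (C := fun x => x * y ∈ _) hx (fun a ha r hr => ?_)
    fun x x' h h' => by rw [add_mul]; exact add_mem h h'
  refine L.Yw_induction (C := fun y => a * (r / L.g) * y ∈ _) hy (fun b hb r' hr' => ?_)
    fun y y' h h' => by rw [mul_add]; exact add_mem h h'
  rw [show a * (r / L.g) * (b * (r' / L.g)) = a * b * (r * r' / L.g / L.g) by ring]
  refine L.Ow_mul_mem (mul_mem ha hb) (Submodule.mul_induction_on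
    (C := fun z => z / L.g / L.g ∈ _) (Q.RR (Submodule.mul_mem_mul hr hr')) (fun u hu z hz => ?_)
    fun z z' h h' => by rw [add_div, add_div]; exact add_mem h h')
  rw [show u * z / L.g / L.g = u / L.g * (z / L.g) by ring]
  exact L.Ow_mul_mem (div_mem_Ow (by simpa using hu) L.g_mem) (L.div_mem_Yw hz)

theorem one_mem_Yw : (1 : F) ∈ Q.Yw w L.g Q.R := by
  simpa [L.g_ne] using L.div_mem_Yw (Q.U_le L.g_U)

/-- The localised space of theta functions is the semilocal ring. -/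
theorem mem_Yw_iff {x : F} : x ∈ Q.Yw w L.g Q.R ↔ x ∈ L.Ot := by
  refine ⟨fun h => mem_sup_iff_mul.2 (L.gen h), fun h => ?_⟩
  let T : Subalgebra ℂ F := (Q.Yw w L.g Q.R).toSubalgebra L.one_mem_Yw
    fun _ _ => L.Yw_mul_mem
  refine (sup_le (fun a ha => ?_) (Algebra.adjoin_le ?_) : L.Ot ≤ T) h
  · exact mul_one a ▸ L.Ow_mul_mem ha L.one_mem_Yw
  · rintro _ ⟨i, rfl⟩; exact L.t_mem i

theorem Yw_R_eq : Q.Yw w L.g Q.R = L.Ot.toSubmodule := Submodule.ext fun _ => L.mem_Yw_iff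

theorem Ot_eq : L.Ot = latP (Q.Ow w) L.t := (latP_eq_sup _ _).symm

theorem t_mem_Ot (i : Fin 4) : L.t i ∈ L.Ot := L.Ot_eq ▸ t_mem_latP i

theorem Ow_le_Ot : Q.Ow w ≤ L.Ot := le_sup_left

theorem smul_mem_Ot (g : G) : ∀ x ∈ L.Ot, g • x ∈ L.Ot :=
  L.Ot_eq ▸ L1.smul_mem_latP L.equi Ow_inv g

theorem alt_mem_Ot (i : Fin 5) : alt L.t i ∈ L.Ot :=
  Var.map_alt L.Ot.val (fun i => ⟨L.t i, L.t_mem_Ot i⟩) i ▸ Subtype.prop _

theorem ivt_mem_Ow (i : Fin 7) : ivt L.t i ∈ Q.Ow w := L.Ai_le (Algebra.subset_adjoin ⟨i, rfl⟩)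

theorem Ow_le_O (ν : Fin 3) : Q.Ow w ≤ L.O ν := le_sup_left

theorem crd_mem_O (ν : Fin 3) (k : Fin 4) : crd ν L.t k ∈ L.O ν :=
  (le_sup_right : Om L.t ν ≤ _) (Algebra.subset_adjoin ⟨k, rfl⟩)

theorem ivt_mem_O (ν : Fin 3) (i : Fin 7) : ivt L.t i ∈ L.O ν := L.Ow_le_O ν (L.ivt_mem_Ow i)

theorem alt_div_mem_O (ν : Fin 3) (i : Fin 5) : alt L.t i / alt L.t (cix ν) ∈ L.O ν := by
  rw [Var.alt_div_eq ν (L.alp_ne ν)]; exact Var.alC_mem _ ν (L.crd_mem_O ν) i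

/-- The chart ring is generated by the quotients of alternants. -/
theorem O_le {ν : Fin 3} {T : Subalgebra ℂ F} (h1 : Q.Ow w ≤ T)
    (h2 : ∀ i, alt L.t i / alt L.t (cix ν) ∈ T) : L.O ν ≤ T := by
  refine sup_le h1 (Algebra.adjoin_le ?_)
  rintro _ ⟨k, rfl⟩
  rcases Var.crd_cases (K := F) ν k with ⟨i, hi⟩ | ⟨i, hi⟩
  · rw [hi]; exact h1 (L.ivt_mem_Ow i)
  · rw [hi]; exact h2 i

theorem O_inv (ν : Fin 3) (g : G) : ∀ x ∈ L.O ν, g • x = x := fun _ hx =>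
  L.O_le (T := AlgHom.equalizer (MulSemiringAction.toAlgHom ℂ F g) (AlgHom.id ℂ F))
    (Ow_inv g) (fun i => L1.smul_div_alt (fun g => L.equi.smul_alt g i)
      (fun g => L.equi.smul_alt g _) g) hx

theorem O_mul_Ot (ν : Fin 3) :
    (L.O ν).toSubmodule * Q.Yw w L.g Q.R = (latP (L.O ν) L.t).toSubmodule := by
  rw [Yw_R_eq, Subalgebra.mul_toSubmodule, latP_eq_sup, Ot, ← sup_assoc,
    sup_eq_left.2 (L.Ow_le_O ν)]

theorem mem_Lt {Y : Submodule ℂ F} {ν : Fin 3} {k n : ℤ} {x : F} :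
    x ∈ L.Lt Y ν k n ↔ x / L.gam ν k n ∈ (L.O ν).toSubmodule * Q.Yw w L.g Y :=
  mem_span_mul (L.gam_ne ν k n)

theorem mem_Lt_R {ν : Fin 3} {k n : ℤ} {x : F} :
    x ∈ L.Lt Q.R ν k n ↔ x / L.gam ν k n ∈ latP (L.O ν) L.t := by
  rw [mem_Lt, O_mul_Ot]; rfl

theorem Ot_le_latP (ν : Fin 3) : L.Ot ≤ latP (L.O ν) L.t :=
  L.Ot_eq ▸ latP_le ((L.Ow_le_O ν).trans le_latP) t_mem_latP

/-- The rank six lattice of a chart lies in the localisation of the semilocal ring. -/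
theorem exists_alp_pow (ν : Fin 3) {x : F} (hx : x ∈ latP (L.O ν) L.t) :
    ∃ m : ℕ, alp L.t ν ^ m * x ∈ L.Ot := by
  have ha : alp L.t ν ∈ L.Ot := L.alt_mem_Ot _
  let T : Subalgebra ℂ F :=
    { carrier := {x | ∃ m : ℕ, alp L.t ν ^ m * x ∈ L.Ot}
      mul_mem' := fun {x y} ⟨m, h⟩ ⟨n, h'⟩ => ⟨m + n, by
        rw [pow_add, mul_mul_mul_comm]; exact mul_mem h h'⟩
      add_mem' := fun {x y} ⟨m, h⟩ ⟨n, h'⟩ => ⟨m + n, by
        rw [show alp L.t ν ^ (m + n) * (x + y) = alp L.t ν ^ n * (alp L.t ν ^ m * x) +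
          alp L.t ν ^ m * (alp L.t ν ^ n * y) by ring]
        exact add_mem (mul_mem (pow_mem ha n) h) (mul_mem (pow_mem ha m) h')⟩
      algebraMap_mem' := fun r => ⟨0, by simp⟩ }
  have h0 : L.Ot ≤ T := fun x hx => ⟨0, by simpa using hx⟩
  refine latP_le (T := T) (L.O_le (L.Ow_le_Ot.trans h0) fun i => ⟨1, ?_⟩)
    (fun i => h0 (L.t_mem_Ot i)) hx
  rw [pow_one, alp, mul_div_cancel₀ _ (show alt L.t (cix ν) ≠ 0 from L.alp_ne ν)]
  exact L.alt_mem_Ot i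

theorem reg_Ot {m n : ℕ} {z : F} (h1 : alp L.t 1 ^ m * z ∈ L.Ot) (h2 : alp L.t 2 ^ n * z ∈ L.Ot) :
    z ∈ L.Ot := by
  refine L.mem_Yw_iff.1 (L.reg (m + n) z (L.mem_Yw_iff.2 ?_) (L.mem_Yw_iff.2 ?_))
  · rw [pow_add, mul_comm (_ ^ m), mul_assoc]; exact mul_mem (pow_mem (L.alt_mem_Ot _) n) h1
  · rw [pow_add, mul_assoc]; exact mul_mem (pow_mem (L.alt_mem_Ot _) m) h2

variable {L}

theorem Nrm.alt_div_Rat (n : L.Nrm) (i j : Fin 5) : alt L.t i / alt L.t j ∈ Rat Q.X := by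
  have key : ∀ z ∈ Q.U ^ n.e * (Q.V * Q.U),
      z / (Q.Tg.fp (Bkr.top Q.X) ^ n.e * Q.X.fp (Bkr.top Q.X)) ∈ Rat Q.X := fun z hz => by
    refine Submodule.mul_induction_on hz (fun a ha b hb => ?_)
      fun x y hx hy => by rw [add_div]; exact add_mem hx hy
    have hb' : b ∈ Q.X.Rd 1 := by rwa [ProjVar.Rd, pow_one, Q.span_f]
    rw [mul_div_mul_comm]
    exact mul_mem (mem_Rat (U_pow_div_mem ha _))
      (mem_Rat (Q.div_mem_A hb' _ (Q.X.pt_mem (Bkr.top Q.X))))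
  have := div_mem (key _ (n.alt_mem i)) (key _ (n.alt_mem j))
  rwa [div_div_div_cancel_right₀ (mul_ne_zero (pow_ne_zero _ (Q.Tg.fp_ne _)) (Q.X.fp_ne _)),
    mul_div_mul_left _ _ (Q.Sig_ne w _ _ n.σ_mem)] at this

/-- The function field as an algebra. -/
noncomputable def RatA (Q : Kum F) : Subalgebra ℂ F :=
  { (Rat Q.X).toSubring with
    algebraMap_mem' := fun r => mem_Rat (s := Bkr.top Q.X) (algebraMap_mem _ r) }

theorem Nrm.O_le_Rat (n : L.Nrm) (ν : Fin 3) {x : F} (hx : x ∈ L.O ν) : x ∈ Rat Q.X :=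
  L.O_le (T := RatA Q) (fun _ => Ow_le_Rat) (fun i => n.alt_div_Rat i _) hx

end Loc

end Kum

end Pool.Agent.Lib.MP_d3d358_ag.K
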