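import Pool.Agent.Lib.MP_cd184e_ag.T.Gen

set_option autoImplicit false

open CategoryTheory Limits Abelian TensorProduct

namespace Pool.Agent.Lib.MP_d3d358_ag.K

open Pool.Agent.Lib.MP_cd184e_ag.T Pool.Agent.Lib.MP_cd184e_ag.T.Coh

/-- Every module has projective dimension at most `n`. -/
def GlDim (A : Type) [CommRing A] (n : ℕ) : Prop :=
  ∀ M : ModuleCat.{0} A, HasProjectiveDimensionLE M n

/-- Every finite module has projective dimension at most `n`. -/
def FinDim (A : Type) [CommRing A] (n : ℕ) : Prop :=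
  ∀ M : ModuleCat.{0} A, Module.Finite A M → HasProjectiveDimensionLE M n

theorem GlDim.of_unram {R : Type} [CommRing R] {n : ℕ} (h : GlDim R n) (S : Type) [CommRing S]
    [Algebra R S] [Module.Flat R S] [Algebra.FormallyUnramified R S] [Algebra.EssFiniteType R S] :
    GlDim S n := fun M => by
  let : Module R M := Module.compHom M (algebraMap R S)
  have : IsScalarTower R S M := IsScalarTower.of_algebraMap_smul fun _ _ => rfl
  have h1 := hilb_baseChange S n M (h (ModuleCat.of R M))
  exact Retract.hasProjectiveDimensionLT (X := M) (Y := ModuleCat.of S (S ⊗[R] M))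
    ⟨ModuleCat.ofHom (Algebra.FormallyUnramified.sec R S M), ModuleCat.ofHom _,
      ModuleCat.hom_ext (Algebra.FormallyUnramified.comp_sec R S M)⟩ (n + 1)

theorem GlDim.equiv {R S : Type} [CommRing R] [CommRing S] (e : R ≃+* S) {n : ℕ}
    (h : GlDim R n) : GlDim S n := hilb_equiv e h

theorem FinDim.of_local {A : Type} [CommRing A] [IsNoetherianRing A] {n : ℕ}
    (h : ∀ (m : Ideal A) (_ : m.IsMaximal), GlDim (Localization.AtPrime m) n) : FinDim A n :=
  fun M _ => (ModuleCat.hasProjectiveDimensionLE_iff_forall_maximalSpectrum n M).2 fun m =>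
    h m.1 m.2 _

/-- A ring that is flat, unramified and essentially of finite type over a polynomial ring. -/
def EtOver (k : Type) [Field k] (n : ℕ) (S : Type) [CommRing S] : Prop :=
  ∃ φ : MvPolynomial (Fin n) k →+* S, φ.Flat ∧ φ.FormallyUnramified ∧ φ.EssFiniteType

theorem EtOver.glDim {k : Type} [Field k] {n : ℕ} {S : Type} [CommRing S] (h : EtOver k n S) :
    GlDim S n := by
  obtain ⟨φ, h1, h2, h3⟩ := h
  algebraize [φ]
  exact GlDim.of_unram (hilb_mv k n) S

theorem FinDim.syzygy {A : Type} [CommRing A] {n : ℕ} (hA : FinDim A n) (Z P : ℕ → Type)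
    [∀ m, AddCommGroup (Z m)] [∀ m, Module A (Z m)] [∀ m, AddCommGroup (P m)]
    [∀ m, Module A (P m)] [∀ m, Module.Projective A (P m)] [Module.Finite A (Z 0)]
    (i : ∀ m, Z (m + 1) →ₗ[A] P m) (p : ∀ m, P m →ₗ[A] Z m)
    (hi : ∀ m, Function.Injective (i m)) (he : ∀ m, Function.Exact (i m) (p m))
    (hp : ∀ m, Function.Surjective (p m)) : Module.Projective A (Z n) := by
  have key : ∀ m d, m + d = n → HasProjectiveDimensionLE (ModuleCat.of A (Z m)) d := by
    intro m
    induction m with
    | zero =>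
      intro d hd
      obtain rfl : d = n := by omega
      exact hA _ ‹_›
    | succ m ih =>
      exact fun d hd => (hilb_ses_iff (i m) (p m) (hi m) (he m) (hp m) d).1 (ih (d + 1) (by omega))
  exact (hilb_proj_iff _).1 (key n 0 rfl)

variable {k K : Type} [Field k] [Field K] [Algebra k K] {X : ProjVar k K}

/-- Induction along resolutions by the line bundles `O(-t)`: a class of sheaves that is closed under
cokernels of monomorphisms and contains the locally projective sheaves is everything. -/
theorem ind_locProj {n : ℕ} (hA : ∀ j : X.J, FinDim (X.A {j.1}) n) (Q : Coh X → Prop)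
    (hL : ∀ M, LocProj M → Q M)
    (hR : ∀ S : ShortComplex (Coh X), S.ShortExact → Q S.X₁ → Q S.X₂ → Q S.X₃) (N : Coh X) :
    Q N := by
  have hex : ∀ M : Coh X, ∃ (P : Coh X) (π : P ⟶ M), LocProj P ∧
      ∀ s, Function.Surjective (π.app s) := fun M => by
    obtain ⟨t, m, π, hπ⟩ := exists_epi M
    exact ⟨_, π, gen_locProj _ m, hπ⟩
  choose P π hP hπ using hex
  let Z : ℕ → Coh X := genZ π N
  let i : ∀ m, Z (m + 1) ⟶ P (Z m) := fun m => (ker (π (Z m))).ι
  have hS : ∀ m, (ShortComplex.mk (i m) (π (Z m)) (gen_ker_w (π (Z m)))).ShortExact := fun m =>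
    shortExact_ker _ (hπ _)
  have hZ : LocProj (Z n) := fun j => by
    have : ∀ m, Module.Projective (X.A (X.one j).1) ((P (Z m)).obj (X.one j)) := fun m => hP _ j
    have hj : FinDim (X.A (X.one j).1) n := hA j
    exact hj.syzygy (fun m => (Z m).obj (X.one j))
      (fun m => (P (Z m)).obj (X.one j)) (fun m => (i m).app _) (fun m => (π (Z m)).app _)
      (fun m => Subtype.val_injective)
      (fun m x => ⟨fun hx => ⟨⟨x, hx⟩, rfl⟩, by rintro ⟨y, rfl⟩; exact y.2⟩) fun m => hπ _ _
  have key : ∀ m, Q (Z m) → Q (Z 0) := by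
    intro m
    induction m with
    | zero => exact id
    | succ m ih => exact fun hm => ih (hR _ (hS m) hm (hL _ (hP _)))
  exact key n (hL _ hZ)

/-- Locally projective sheaves lie in a thick subcategory that contains all `O(-t)`. -/
theorem inC_locProj {ys : List K} (hy : X.NoZero ys) {T : Coh X}
    (h : ∀ t : ℕ, InC T (O X (-t))) (N : Coh X) (hN : LocProj N) : InC T N := by
  have hex : ∀ M : Coh X, ∃ (P : Coh X) (π : P ⟶ M), InC T P ∧
      ∀ s, Function.Surjective (π.app s) := fun M => by
    obtain ⟨t, m, π, hπ⟩ := exists_epi M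
    exact ⟨_, π, gen_pi (h t) m, hπ⟩
  choose P π hP hπ using hex
  exact InC.of_syzygy (genZ π N) (fun m => P (genZ π N m)) (fun m => (ker (π _)).ι)
    (fun m => π _) (fun m => gen_ker_w _) (fun m => shortExact_ker _ (hπ _)) (fun m => hP _)
    (ys.length + 1) (cd hy hN _ ys.length (Nat.le_succ _))

/-- The line bundles `O(-t)` generate when the charts have finite global dimension. -/
theorem gen_fin {ys : List K} (hy : X.NoZero ys) {n : ℕ} (hA : ∀ j : X.J, FinDim (X.A {j.1}) n)
    {T : Coh X} (h : ∀ t : ℕ, InC T (O X (-t))) (N : Coh X) : InC T N :=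
  ind_locProj hA (InC T) (inC_locProj hy h) (fun _ hS => InC.right hS) N

/-- The line bundles `O(-t)` generate when the local rings are etale over affine space. -/
theorem gen_et {ys : List K} (hy : X.NoZero ys) (n : ℕ)
    (hA : ∀ (j : X.J) (m : Ideal (X.A {j.1})) (_ : m.IsMaximal),
      EtOver k n (Localization.AtPrime m))
    {T : Coh X} (h : ∀ t : ℕ, InC T (O X (-t))) (N : Coh X) : InC T N :=
  gen_fin hy (fun j => FinDim.of_local fun m hm => (hA j m hm).glDim) h N

/-- The list of all coordinates has no common zero. -/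
theorem noZero_all (X : ProjVar k K) : X.NoZero (List.ofFn X.f) := by
  refine ⟨fun y hy => ?_, fun j => ⟨0, ?_⟩⟩
  · obtain ⟨l, rfl⟩ := (List.mem_ofFn' _ _).1 hy
    exact X.f_mem_Rd l
  · rw [zero_add, pow_one, ProjVar.Rd, pow_zero, mul_one]
    exact Submodule.subset_span ((List.mem_ofFn' _ _).2 ⟨_, rfl⟩)

/-- The same without a chosen system of forms. -/
theorem gen_et' (n : ℕ)
    (hA : ∀ (j : X.J) (m : Ideal (X.A {j.1})) (_ : m.IsMaximal),
      EtOver k n (Localization.AtPrime m))
    {T : Coh X} (h : ∀ t : ℕ, InC T (O X (-t))) (N : Coh X) : InC T N :=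
  gen_et (noZero_all X) n hA h N

end Pool.Agent.Lib.MP_d3d358_ag.K
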