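import Pool.Agent.Lib.MP_d3d358_ag.K.Cy

set_option autoImplicit false

open CategoryTheory Limits Abelian

namespace Pool.Agent.Lib.MP_d3d358_ag.K

open Pool.Agent.Lib.MP_cd184e_ag.T Pool.Agent.Lib.MP_cd184e_ag.T.Coh Cy

variable {k K : Type} [Field k] [Field K] [Algebra k K] {X : ProjVar k K}

/-- The function field of `X` inside `K`. -/
def K0 (X : ProjVar k K) : IntermediateField k K :=
  IntermediateField.adjoin k {x | ∃ l j, x = X.f l / X.f j}

theorem A_le_K0 (s : Finset (Fin X.n)) {x : K} (hx : x ∈ X.A s) : x ∈ K0 X :=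
  have h : X.A s ≤ (K0 X).toSubalgebra := Algebra.adjoin_le (by
    rintro _ ⟨l, j, _, rfl⟩
    exact IntermediateField.subset_adjoin k _ ⟨l, j, rfl⟩)
  h hx

theorem mul_mem_self {B : Subalgebra k K} {Y : Submodule k K} {a y : K} (ha : a ∈ B)
    (hy : y ∈ B.toSubmodule * Y) : a * y ∈ B.toSubmodule * Y := by
  refine Submodule.mul_induction_on hy (fun m hm n hn => ?_) fun x y hx hy => ?_
  · rw [← mul_assoc]; exact Submodule.mul_mem_mul (B.mul_mem ha hm) hn
  · rw [mul_add]; exact add_mem hx hy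

/-- The module `A s * Y / g s` inside `K`. -/
def latM (Y : Submodule k K) (g : Cy X) (s : X.Idx) : Submodule (X.A s.1) K where
  carrier := {x | x * g.fp s ∈ (X.A s.1).toSubmodule * Y}
  zero_mem' := by simp
  add_mem' ha hb := by
    rw [Set.mem_ofPred_eq, add_mul]; exact add_mem ha hb
  smul_mem' c x hx := by
    change (c : K) * x * g.fp s ∈ (X.A s.1).toSubmodule * Y
    rw [mul_assoc]; exact mul_mem_self c.2 hx

theorem mem_latM {Y : Submodule k K} {g : Cy X} {s : X.Idx} {x : K} :
    x ∈ latM Y g s ↔ x * g.fp s ∈ (X.A s.1).toSubmodule * Y := Iff.rfl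

theorem latM_mono {Y : Submodule k K} {g : Cy X} {s t : X.Idx} (h : s ≤ t) {x : K}
    (hx : x ∈ latM Y g s) : x ∈ latM Y g t := by
  have h1 : x * g.fp s ∈ (X.A t.1).toSubmodule * Y :=
    mul_le_mul_left (Subalgebra.toSubmodule.monotone (X.A_mono h)) Y hx
  have h2 := mul_mem_self (g⁻¹.tr h).2 h1
  have := g.fp_ne s
  have := g.fp_ne t
  rw [mem_latM, show x * g.fp t = (g⁻¹.tr h : K) * (x * g.fp s) by
    simp only [coe_tr, inv_fp]; field_simp]
  exact h2

theorem latM_eq_span (Y : Submodule k K) (g : Cy X) (s : X.Idx) {T : Set K}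
    (hT : Submodule.span k T = Y) :
    latM Y g s = Submodule.span (X.A s.1) ((fun y => y / g.fp s) '' T) := by
  have h0 := g.fp_ne s
  refine le_antisymm (fun x hx => ?_) (Submodule.span_le.2 ?_)
  · rw [show x = x * g.fp s / g.fp s by field_simp]
    refine Submodule.mul_induction_on (mem_latM.1 hx) (fun m hm n hn => ?_) fun x y hx hy => ?_
    · rw [mul_div_assoc]
      refine Submodule.smul_mem _ (⟨m, hm⟩ : X.A s.1) ?_
      rw [← hT] at hn
      induction hn using Submodule.span_induction with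
      | mem y hy => exact Submodule.subset_span ⟨y, hy, rfl⟩
      | zero => simp
      | add y z _ _ hy hz => rw [add_div]; exact add_mem hy hz
      | smul c y _ hy => rw [smul_div_assoc]; exact Submodule.smul_of_tower_mem _ c hy
    · rw [add_div]; exact add_mem hx hy
  · rintro _ ⟨y, hy, rfl⟩
    change y / g.fp s * g.fp s ∈ (X.A s.1).toSubmodule * Y
    rw [div_mul_cancel₀ _ h0, ← one_mul y]
    exact Submodule.mul_mem_mul (one_mem (X.A s.1)) (hT ▸ Submodule.subset_span hy)

/-- Restriction of sections is the inclusion. -/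
def latRes (Y : Submodule k K) (g : Cy X) {s t : X.Idx} (h : s ≤ t) : latM Y g s →+ latM Y g t where
  toFun x := ⟨x.1, latM_mono h x.2⟩
  map_zero' := Subtype.ext rfl
  map_add' _ _ := Subtype.ext rfl

@[simp] theorem coe_latRes {Y : Submodule k K} {g : Cy X} {s t : X.Idx} (h : s ≤ t)
    (x : latM Y g s) : (latRes Y g h x : K) = x :=
  Subtype.coe_mk _ (latM_mono h x.2)

theorem coe_lat_smul {Y : Submodule k K} {g : Cy X} {s : X.Idx} (a : X.A s.1) (x : latM Y g s) :
    ((a • x : latM Y g s) : K) = a * x := rfl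

theorem latRes_smul {Y : Submodule k K} {g : Cy X} {s t : X.Idx} (h : s ≤ t) (a : X.A s.1)
    (x : latM Y g s) : latRes Y g h (a • x) = X.inc h a • latRes Y g h x :=
  Subtype.ext ((coe_latRes h _).trans ((coe_lat_smul a x).trans
    ((congrArg₂ (· * ·) (X.coe_inc h a).symm (coe_latRes h x).symm).trans
      (coe_lat_smul _ _).symm)))

/-- The torsion free sheaf generated by the sections `Y` of the line bundle `g`, twisted back by
`g⁻¹`: a subsheaf of the constant sheaf `K`. -/
@[reducible] noncomputable def lat (Y : Submodule k K) (hY : Y.FG) (g : Cy X) : Coh X where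
  obj s := latM Y g s
  res h := latRes Y g h
  res_smul h a x := latRes_smul h a x
  res_refl x := Subtype.ext (coe_latRes le_rfl x)
  res_res h h' x := Subtype.ext
    (((coe_latRes h' _).trans (coe_latRes h x)).trans (coe_latRes (h.trans h') x).symm)
  fg s := by
    obtain ⟨T, hT⟩ := hY
    rw [latM_eq_span Y g s hT]
    exact Module.Finite.span_of_finite _ (T.finite_toSet.image _)
  surj {s t} h y := by
    have key : ∀ z ∈ (X.A t.1).toSubmodule * Y, ∃ a : X.A s.1, IsUnit (X.inc h a) ∧
        (a : K) * z ∈ (X.A s.1).toSubmodule * Y := fun z hz => by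
      refine Submodule.mul_induction_on hz (fun m hm n hn => ?_) fun x y hx hy => ?_
      · obtain ⟨a, x, ha, e⟩ := X.exists_denominator h ⟨m, hm⟩
        have e' : (a : K) * m = x := by simpa using congrArg Subtype.val e
        exact ⟨a, ha, by rw [← mul_assoc, e']; exact Submodule.mul_mem_mul x.2 hn⟩
      · obtain ⟨a, ha, hx⟩ := hx
        obtain ⟨b, hb, hy⟩ := hy
        refine ⟨a * b, by rw [map_mul]; exact ha.mul hb, ?_⟩
        rw [show ((a * b : X.A s.1) : K) * (x + y) = b * (a * x) + a * (b * y) by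
          rw [MulMemClass.coe_mul]; ring]
        exact add_mem (mul_mem_self b.2 hx) (mul_mem_self a.2 hy)
    have h0 := g.fp_ne t
    obtain ⟨a, ha, hz⟩ := key _ (mul_mem_self (g.tr h).2 (mem_latM.1 y.2))
    refine ⟨a, ⟨a * y.1, ?_⟩, ha, Subtype.ext ?_⟩
    · rw [mem_latM, show (a : K) * y.1 * g.fp s = a * ((g.tr h : K) * (y.1 * g.fp t)) by
        rw [coe_tr]; field_simp]
      exact hz
    · exact (coe_lat_smul _ _).trans ((congrArg (· * (y.1 : K)) (X.coe_inc h a)).trans
        (coe_latRes h ⟨a * y.1, _⟩).symm)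
  inj h x hx := ⟨1, by rw [map_one]; exact isUnit_one, by
    have h1 : x.1 = 0 := (coe_latRes h x).symm.trans (congrArg Subtype.val hx)
    rw [one_smul]; exact Subtype.ext h1⟩

/-- Sections over the open set `s` of `lat Y g ⊗ a`, as elements of `K`. -/
def Sec (Y : Submodule k K) (g a : Cy X) (s : X.Idx) : Submodule k K where
  carrier := {z | z / a.fp s * g.fp s ∈ (X.A s.1).toSubmodule * Y}
  zero_mem' := by simp
  add_mem' ha hb := by
    rw [Set.mem_ofPred_eq, add_div, add_mul]; exact add_mem ha hb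
  smul_mem' c x hx := by
    rw [Set.mem_ofPred_eq, smul_div_assoc, smul_mul_assoc]; exact Submodule.smul_mem _ c hx

theorem mem_Sec {Y : Submodule k K} {g a : Cy X} {s : X.Idx} {z : K} :
    z ∈ Sec Y g a s ↔ z / a.fp s * g.fp s ∈ (X.A s.1).toSubmodule * Y := Iff.rfl

/-- The value in `K` of a section of `lat Y g ⊗ a`. -/
noncomputable def val {Y : Submodule k K} {g : Cy X} (a : Cy X) {s : X.Idx} (x : latM Y g s) : K :=
  a.fp s * x.1

theorem val_mem {Y : Submodule k K} {g : Cy X} (a : Cy X) {s : X.Idx} (x : latM Y g s) :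
    val a x ∈ Sec Y g a s := by
  rw [mem_Sec, val, mul_div_cancel_left₀ _ (a.fp_ne s)]; exact x.2

theorem val_inj {Y : Submodule k K} {g : Cy X} (a : Cy X) {s : X.Idx} {x y : latM Y g s}
    (h : val a x = val a y) : x = y := Subtype.ext (mul_left_cancel₀ (a.fp_ne s) h)

theorem exists_val {Y : Submodule k K} {g a : Cy X} {s : X.Idx} {z : K} (hz : z ∈ Sec Y g a s) :
    ∃ x : latM Y g s, val a x = z :=
  ⟨⟨z / a.fp s, hz⟩, mul_div_cancel₀ _ (a.fp_ne s)⟩

/-- The morphism `φ` is induced by the linear map `ψ` over the function field. -/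
def Ind {Y Y' : Submodule k K} {hY : Y.FG} {hY' : Y'.FG} {g a b : Cy X}
    (φ : (twc a).obj (lat Y hY g) ⟶ (twc b).obj (lat Y' hY' g)) (ψ : K →ₗ[K0 X] K) : Prop :=
  ∀ (s : X.Idx) (x : latM Y g s), val b (show latM Y' g s from φ.app s x) = ψ (val a x)

theorem Cy.Reg.tw {r : K} {c : Cy X} (h : Reg r 1 c) (a : Cy X) : Reg r a (a * c) := by
  simpa using h.shift a

theorem Cy.Reg.pow {r : K} {c : Cy X} (h : Reg r 1 c) (t : ℕ) : Reg (r ^ t) 1 (c ^ t) := by
  induction t with
  | zero => simpa using Reg.refl 1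
  | succ t ih => rw [pow_succ, pow_succ]; exact ih.mul (h.tw _)

theorem lat_res {Y : Submodule k K} {hY : Y.FG} {g : Cy X} {s t : X.Idx} (h : s ≤ t)
    (x : latM Y g s) : (lat Y hY g).res h x = latRes Y g h x := rfl

attribute [irreducible] latM latRes Sec

end Pool.Agent.Lib.MP_d3d358_ag.K
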