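import Pool.Agent.Lib.MP_d3d358_ag.K.EmbS
import Pool.Agent.Lib.MP_d3d358_ag.K.LocB
import Pool.Agent.Lib.MP_d3d358_ag.Bkr.KFrm
import Pool.Agent.Lib.MP_d3d358_ag.Bkr.Un0
import Pool.Agent.Lib.MP_d3d358_ag.Bkr.Un1

/-! The lattices of the sheaves near a point are the lattices of the model. -/

set_option autoImplicit false

open CategoryTheory

namespace Pool.Agent.Lib.MP_d3d358_ag.K

open Pool.Agent.Lib.MP_cd184e_ag.T Pool.Agent.Lib.MP_cd184e_ag.T.Coh Cy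
open Pool.Agent.Lib.MP_d3d358_ag.Var (G sg chi ivt alt cix crd Equi)
open Pool.Agent.Lib.MP_d3d358_ag.Bkr

variable {F : Type} [Field F] [Algebra ℂ F] [MulSemiringAction G F] [SMulCommClass G ℂ F]
  {Q : Kum F} {w : Q.Pt}

namespace Kum

theorem cy_fp (k m : ℤ) (s : Q.X.Idx) :
    (Q.cy k m).fp s = (Q.f (Q.X.pt s) / Q.g (Q.X.pt s)) ^ k * Q.g (Q.X.pt s) ^ m := Q.cy_l k m _

theorem coe_sec_fmU {m : ℕ} {σ : F} (h : σ ∈ Q.U ^ m) (s : Q.X.Idx) :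
    ((Q.fmU h).sec s : F) = σ / Q.g (Q.X.pt s) ^ m := by
  rw [Fm.coe_sec]
  change σ / (Q.cy 0 m).fp s = _
  rw [cy_fp, zpow_zero, one_mul, zpow_natCast]

theorem Ow_le_locA : Q.Ow w ≤ locA (Q.mon w) := by
  rintro x ⟨m, σ, hσ, hx⟩
  refine mem_locA.2 ⟨_, Q.fmU_mem hσ, fun s => ?_⟩
  have := ((Q.fmU hx).sec s).2
  rwa [coe_sec_fmU, mul_comm x, mul_div_right_comm, ← coe_sec_fmU (Q.Sig_sub w m σ hσ)] at this

namespace Loc

variable {L : Q.Loc w} (n : L.Nrm)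

theorem un_alt (L : Q.Loc w) {v : F} (hv : v ∈ Q.V) : ∃ e : Fin 5 → F, (∀ μ, e μ ∈ Q.Ow w) ∧
    v / L.g = ∑ μ, e μ * alt L.t μ := by
  have h1 : v / L.g ∈ L1.latP (Q.Ow w) L.t :=
    L.Ot_eq ▸ L.mem_Yw_iff.1 (L.div_mem_Yw (Q.V_le hv))
  obtain ⟨c, hc, e⟩ := L.equi.exists_sum_alt (A := Q.Ow w) (fun g a => Ow_inv (w := w) g a.1 a.2) h1
    fun g => by rw [smul_div₀', hv.2, U_inv L.g_U, smul_div_assoc]
  refine ⟨c, fun μ => ?_, e⟩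
  have : Algebra.adjoin (Q.Ow w) (Set.range (ivt L.t)) ≤ ⊥ := Algebra.adjoin_le (by
    rintro _ ⟨i, rfl⟩
    exact ⟨⟨_, L.ivt_mem_Ow i⟩, rfl⟩)
  obtain ⟨y, hy⟩ := Algebra.mem_bot.1 (this (hc μ))
  exact hy ▸ y.2

theorem un_V_div (L : Q.Loc w) (ν : Fin 3) {v : F} (hv : v ∈ Q.V) :
    v / L.g / alp L.t ν ∈ L.O ν := by
  obtain ⟨c, hc, e⟩ := L.un_alt hv
  rw [e, Finset.sum_div]
  exact sum_mem fun μ _ => by
    rw [mul_div_assoc]; exact mul_mem (L.Ow_le_O ν (hc μ)) (L.alt_div_mem_O ν μ)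

theorem un_U_div (L : Q.Loc w) {u : F} (hu : u ∈ Q.U) : u / L.g ∈ Q.Ow w :=
  div_mem_Ow (by simpa using hu) L.g_mem

theorem Nrm.σ_ne : n.σ ≠ 0 := Q.Sig_ne w _ _ n.σ_mem

theorem Nrm.fm_ne (ν : Fin 3) : (n.fm ν).r ≠ 0 := mul_ne_zero n.σ_ne (L.alp_ne ν)

theorem Nrm.nz (ν : Fin 3) : NZ (Su (Q.mon w) (n.fm ν)) :=
  NZ.su (fun _ h => Q.mon_ne h) (n.fm_ne ν)

theorem Nrm.coe_sec_fm (ν : Fin 3) (s : Q.X.Idx) : ((n.fm ν).sec s : F) =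
    n.σ * alp L.t ν / (Q.f (Q.X.pt s) * Q.g (Q.X.pt s) ^ (n.e + 1)) := by
  have := Q.g_ne (Q.X.pt s)
  rw [Fm.coe_sec]
  change n.σ * alp L.t ν / (Q.cy 1 (n.e + 2 : ℕ)).fp s = _
  rw [cy_fp, zpow_one, zpow_natCast]
  congr 1
  field_simp
  ring

theorem Nrm.alt_mem_A (μ : Fin 5) (s : Q.X.Idx) :
    n.σ * alt L.t μ / (Q.f (Q.X.pt s) * Q.g (Q.X.pt s) ^ (n.e + 1)) ∈ Q.X.A s.1 := by
  refine Submodule.mul_induction_on
    (C := fun z => z / (Q.f (Q.X.pt s) * Q.g (Q.X.pt s) ^ (n.e + 1)) ∈ Q.X.A s.1)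
    (n.alt_mem μ) (fun a ha b hb => ?_) fun a b ha hb => by rw [add_div]; exact add_mem ha hb
  have hb' : b ∈ Q.X.Rd 1 := by rwa [ProjVar.Rd, pow_one, Q.span_f]
  have h1 := Q.div_mem_A hb' _ (Q.X.pt_mem s)
  have h2 := ((Q.fmU ha).sec s).2
  rw [coe_sec_fmU] at h2
  rw [Q.Xf] at h1
  have := mul_mem h2 h1
  rwa [div_mul_div_comm, mul_left_comm, ← pow_succ] at this

theorem Nrm.O_le_locA (ν : Fin 3) : L.O ν ≤ locA (Su (Q.mon w) (n.fm ν)) := by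
  refine L.O_le (Ow_le_locA.trans (locA_mono fun _ h => mem_Su h _)) fun i =>
    mem_locA.2 ⟨_, self_mem_Su _ _, fun s => ?_⟩
  have h0 : alt L.t (cix ν) ≠ 0 := L.alp_ne ν
  have := n.alt_mem_A i s
  rw [n.coe_sec_fm, alp]
  convert this using 1
  field_simp

theorem Nrm.tu_gam (ν : Fin 3) (k m : ℤ) :
    TU (Su (Q.mon w) (n.fm ν)) fun s => L.gam ν k m / (Q.cy k m).fp s := by
  have h1 := TU.sec (self_mem_Su (Q.mon w) (n.fm ν))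
  have h2 := TU.sec (mem_Su (Q.fmU_mem n.σ_mem) (n.fm ν))
  have h3 := TU.sec (mem_Su (Q.fmU_mem L.g_mem) (n.fm ν))
  have h := ((h1.mul (h2.inv (n.nz ν))).zpow (n.nz ν) k).mul (h3.zpow (n.nz ν) m)
  convert h using 2 with s
  have := Q.g_ne (Q.X.pt s)
  have := Q.f_ne (Q.X.pt s)
  have := n.σ_ne
  rw [n.coe_sec_fm, coe_sec_fmU, coe_sec_fmU, cy_fp, gam, ← div_mul_div_comm, ← div_zpow,
    ← div_zpow, pow_one]
  congr 2
  field_simp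
  ring

theorem Nrm.core_of (Y : Submodule ℂ F) (ν : Fin 3) (k m : ℤ) {z : F}
    (h : z / L.gam ν k m ∈ (L.O ν).toSubmodule * Y) : ∃ ρ ∈ Su (Q.mon w) (n.fm ν), ∀ s : Q.X.Idx,
      (ρ.sec s : F) * z / (Q.cy k m).fp s ∈ (Q.X.A s.1).toSubmodule * Y := by
  have key : ∀ x ∈ (L.O ν).toSubmodule * Y, ∃ ρ ∈ Su (Q.mon w) (n.fm ν), ∀ s : Q.X.Idx,
      (ρ.sec s : F) * x ∈ (Q.X.A s.1).toSubmodule * Y := fun x hx => by
    refine Submodule.mul_induction_on hx (fun a ha y hy => ?_) ?_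
    · obtain ⟨ρ, hρ, e⟩ := mem_locA.1 (n.O_le_locA ν ha)
      exact ⟨ρ, hρ, fun s => by rw [← mul_assoc]; exact Submodule.mul_mem_mul (e s) hy⟩
    · rintro x y ⟨ρ, hρ, e⟩ ⟨ρ', hρ', e'⟩
      refine ⟨ρ * ρ', mul_mem hρ hρ', fun s => ?_⟩
      rw [Fm.mul_sec, MulMemClass.coe_mul, show (ρ.sec s : F) * ρ'.sec s * (x + y) =
        ρ'.sec s * (ρ.sec s * x) + ρ.sec s * (ρ'.sec s * y) by ring]
      exact add_mem (mul_mem_self (ρ'.sec s).2 (e s)) (mul_mem_self (ρ.sec s).2 (e' s))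
  obtain ⟨ρ, hρ, e⟩ := key _ h
  obtain ⟨a, ha, b, hb, e'⟩ := n.tu_gam ν k m
  refine ⟨a * ρ, mul_mem ha hρ, fun s => ?_⟩
  have := mul_mem_self (b.sec s).2 (e s)
  have h0 := L.gam_ne ν k m
  rw [← e'] at this
  rw [Fm.mul_sec, MulMemClass.coe_mul]
  convert this using 1
  field_simp

theorem Nrm.of_core (Y : Submodule ℂ F) (ν : Fin 3) (k m : ℤ) {z : F}
    (h : ∃ ρ ∈ Su (Q.mon w) (n.fm ν), ∀ s : Q.X.Idx,
      (ρ.sec s : F) * z / (Q.cy k m).fp s ∈ (Q.X.A s.1).toSubmodule * Y) :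
    z / L.gam ν k m ∈ (L.O ν).toSubmodule * Y := by
  obtain ⟨_, ⟨_, hτ, T, rfl⟩, h⟩ := h
  obtain ⟨p, τ, hp, rfl⟩ := Q.mem_mon.1 hτ
  have hα := L.alp_ne ν
  have hγ := L.g_ne
  have hσ := n.σ_ne
  have hτ0 := Q.Sig_ne w p τ hp
  have he : L.g * alp L.t ν * L.g ≠ 0 := mul_ne_zero (mul_ne_zero hγ hα) hγ
  have hVU : ∀ r ∈ Q.V * Q.U, r / (L.g * alp L.t ν * L.g) ∈ L.O ν := fun r hr => by
    refine Submodule.mul_induction_on (C := fun r => r / (L.g * alp L.t ν * L.g) ∈ L.O ν) hr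
      (fun v hv u hu => ?_) fun a b ha hb => by rw [add_div]; exact add_mem ha hb
    rw [← div_mul_div_comm, ← div_div]
    exact mul_mem (L.un_V_div ν hv) (L.Ow_le_O ν (L.un_U_div hu))
  have hl : ∀ l, Q.X.f l / (L.g * alp L.t ν * L.g) ∈ L.O ν := fun l =>
    hVU _ (Q.span_f ▸ Submodule.subset_span ⟨l, rfl⟩)
  have hg : ∀ {q : ℕ} {y : F}, y ∈ Q.Sig w q → L.g ^ q / y ∈ L.O ν := fun {q y} hy =>
    L.Ow_le_O ν (div_mem_Ow (Submodule.pow_mem_pow _ L.g_U q) hy)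
  refine mem_of_charts hl ?_ he fun j => ?_
  · have key : ∀ r ∈ Q.U ^ n.e * (Q.V * Q.U), r / L.g ^ n.e ∈ (L.O ν).toSubmodule * Q.X.Rd 1 :=
      fun r hr => by
      refine Submodule.mul_induction_on
        (C := fun r => r / L.g ^ n.e ∈ (L.O ν).toSubmodule * Q.X.Rd 1) hr
        (fun a ha b hb => ?_) fun a b ha hb => by rw [add_div]; exact add_mem ha hb
      rw [mul_div_right_comm]
      exact Submodule.mul_mem_mul (L.Ow_le_O ν (div_mem_Ow ha (L.g_pow_mem _)))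
        (by rwa [ProjVar.Rd, pow_one, Q.span_f])
    have := mul_mem_self (hg n.σ_mem) (key _ (n.alt_mem (cix ν)))
    convert this using 1
    rw [alp]
    field_simp
    ring
  · have hf := Q.f_ne j
    have hgj := Q.g_ne j
    have hph := L.un_V_div ν (Q.f_mem j)
    have hh := L.Ow_le_O ν (L.un_U_div (Q.g_mem j))
    have ec : Q.X.f j.1 / (L.g * alp L.t ν * L.g) = Q.f j / L.g / alp L.t ν * (Q.g j / L.g) := by
      rw [Q.Xf]; field_simp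
    let c : L.O ν := ⟨_, hl j.1⟩
    have i1 : (Q.f j / L.g / alp L.t ν)⁻¹ ∈ Fr (L.O ν) c :=
      inv_mem_Fr hh (div_ne_zero (div_ne_zero hf hγ) hα) ec
    have i2 : (Q.g j / L.g)⁻¹ ∈ Fr (L.O ν) c :=
      inv_mem_Fr hph (div_ne_zero hgj hγ) (ec.trans (mul_comm _ _))
    have le := le_Fr (L.O ν) c
    have h1 : _ ∈ (Fr (L.O ν) c).toSubmodule * Y :=
      mul_le_mul_left (Subalgebra.toSubmodule.monotone (A_le_Fr he hl j)) Y (h (Q.X.one j))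
    have b1 := zpow_mem_of_inv (mul_mem (le hph) i2) (by
      rw [mul_inv, inv_inv]; exact mul_mem i1 (le hh)) k
    have b2 := zpow_mem_of_inv (le hh) i2 m
    have b3 := le (mul_mem (pow_mem hh p) (hg hp))
    have b4 := le (pow_mem (mul_mem (mul_mem hph (pow_mem hh (n.e + 1))) (hg n.σ_mem)) T)
    refine exists_pow_of_Fr (c := c) ?_
    convert mul_mem_self (mul_mem (mul_mem b1 b2) (mul_mem b3 b4)) h1 using 1
    have e1 : Q.f j / L.g / alp L.t ν * (Q.g j / L.g)⁻¹ = Q.f j / Q.g j / alp L.t ν := by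
      field_simp
    have e2 : (Q.g j / L.g) ^ p * (L.g ^ p / τ) = (τ / Q.g j ^ p)⁻¹ := by
      rw [div_pow]; field_simp
    have e3 : Q.f j / L.g / alp L.t ν * (Q.g j / L.g) ^ (n.e + 1) * (L.g ^ (n.e + 2) / n.σ) =
        (n.σ * alp L.t ν / (Q.f j * Q.g j ^ (n.e + 1)))⁻¹ := by
      rw [div_pow]; field_simp; ring
    have z1 : (Q.f j / Q.g j) ^ k ≠ 0 := zpow_ne_zero _ (div_ne_zero hf hgj)
    have z2 : Q.g j ^ m ≠ 0 := zpow_ne_zero _ hgj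
    have z3 : τ / Q.g j ^ p ≠ 0 := div_ne_zero hτ0 (pow_ne_zero _ hgj)
    have z4 : n.σ * alp L.t ν / (Q.f j * Q.g j ^ (n.e + 1)) ≠ 0 :=
      div_ne_zero (mul_ne_zero hσ hα) (mul_ne_zero hf (pow_ne_zero _ hgj))
    rw [e1, e2, e3, Fm.mul_sec, Fm.pow_sec, MulMemClass.coe_mul, SubmonoidClass.coe_pow,
      n.coe_sec_fm, coe_sec_fmU, cy_fp, ProjVar.pt_one, gam, div_zpow _ (alp L.t ν),
      div_zpow _ L.g, inv_pow]
    generalize (Q.f j / Q.g j) ^ k = a1 at z1 ⊢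
    generalize Q.g j ^ m = a2 at z2 ⊢
    generalize τ / Q.g j ^ p = a3 at z3 ⊢
    generalize n.σ * alp L.t ν / (Q.f j * Q.g j ^ (n.e + 1)) = a4 at z4 ⊢
    field_simp

theorem un_O_Yw (L : Q.Loc w) (Y : Submodule ℂ F) (ν : Fin 3) {x : F} :
    x ∈ (L.O ν).toSubmodule * Q.Yw w L.g Y ↔ x * L.g ∈ (L.O ν).toSubmodule * Y := by
  rw [Yw, ← mul_assoc, Subalgebra.mul_toSubmodule, sup_eq_left.2 (L.Ow_le_O ν), mul_left_comm,
    mem_span_mul (inv_ne_zero L.g_ne), div_inv_eq_mul]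

theorem lat_eq {Y : Submodule ℂ F} (hY : Y ≤ Q.R) (ν : Fin 3) (k m : ℤ) {z : F} :
    z ∈ (Q.E Y hY k m).Lat (Q.mon w) (n.fm ν) ↔ z ∈ L.Lt Y ν k m := by
  have e1 : z / L.gam ν k m * L.g = z / L.gam ν k (m - 1) := by
    have := L.g_ne
    rw [gam, gam, zpow_sub_one₀ L.g_ne]
    field_simp
  have e2 : ∀ (c : F) (s : Q.X.Idx), c • z ∈ (Q.E Y hY k m).Im s ↔
      c * z / (Q.cy k (m - 1)).fp s ∈ (Q.X.A s.1).toSubmodule * Y := fun c s => by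
    have := Q.g_ne (Q.X.pt s)
    rw [mem_E, mem_Sec, smul_eq_mul, show c * z / (Q.cy k m).fp s * Q.Tg.fp s =
      c * z / (Q.cy k (m - 1)).fp s by
        change _ * Q.g (Q.X.pt s) = _
        rw [cy_fp, cy_fp, zpow_sub_one₀ this]
        field_simp]
  rw [mem_Lt, un_O_Yw, e1]
  exact ⟨fun ⟨ρ, hρ, h⟩ => n.of_core Y ν k _ ⟨ρ, hρ, fun s => (e2 _ s).1 (h s)⟩, fun h =>
    (n.core_of Y ν k _ h).imp fun ρ h => ⟨h.1, fun s => (e2 _ s).2 (h.2 s)⟩⟩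

theorem lat_unit (ν : Fin 3) (k m : ℤ) {z : F} :
    z ∈ ((Emb.unit Q.X).tw (Q.cy k m) 1 one_ne_zero).Lat (Q.mon w) (n.fm ν) ↔
      z / L.gam ν k m ∈ L.O ν := by
  have e2 : ∀ (c : F) (s : Q.X.Idx), c • z ∈ ((Emb.unit Q.X).tw (Q.cy k m) 1 one_ne_zero).Im s ↔
      c * z / (Q.cy k m).fp s ∈ (Q.X.A s.1).toSubmodule * 1 := fun c s => by
    have := (Q.cy k m).fp_ne s
    have e : ∀ x : Q.X.A s.1, ((Emb.unit Q.X).tw (Q.cy k m) 1 one_ne_zero).e s x =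
        (Q.cy k m).fp s * x := fun x => by
      change ((Q.cy k m).fp s / 1) * (x : F) = _
      rw [div_one]
    rw [mul_one, smul_eq_mul]
    constructor
    · rintro ⟨x, hx⟩
      rw [← hx, e x, mul_div_cancel_left₀ _ this]
      exact (show Q.X.A s.1 from x).2
    · exact fun h => ⟨⟨_, h⟩, (e ⟨_, h⟩).trans (mul_div_cancel₀ _ this)⟩
  have e1 : z / L.gam ν k m ∈ L.O ν ↔ z / L.gam ν k m ∈ (L.O ν).toSubmodule * 1 := by
    rw [mul_one]; rfl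
  rw [e1]
  exact ⟨fun ⟨ρ, hρ, h⟩ => n.of_core 1 ν k _ ⟨ρ, hρ, fun s => (e2 _ s).1 (h s)⟩, fun h =>
    (n.core_of 1 ν k _ h).imp fun ρ h => ⟨h.1, fun s => (e2 _ s).2 (h.2 s)⟩⟩

theorem null (t : ℕ) : ∃ σ ∈ Q.mon w, ∀ s : Q.X.Idx,
    σ.sec s ∈ Ideal.span {(n.fm 0).sec s ^ t, (n.fm 1).sec s ^ t, (n.fm 2).sec s ^ t} := by
  refine null_of_one (fun j => ?_) t
  generalize Q.X.one j = s
  let x : Fin 5 → Q.X.A s.1 := fun μ => ⟨_, n.alt_mem_A μ s⟩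
  have ex : ∀ ν, (n.fm ν).sec s = x (cix ν) := fun ν => Subtype.ext (n.coe_sec_fm ν s)
  rw [ex, ex, ex]
  let I : Ideal (Q.X.A s.1) := Ideal.span {x 0, x 1, x 4}
  change ∃ σ ∈ Q.mon w, σ.sec s ∈ I
  let Z : Ideal (Q.X.A s.1) :=
    { carrier := {a | ∃ ρ ∈ Q.mon w, ρ.sec s * a ∈ I}
      zero_mem' := ⟨1, one_mem _, by simp⟩
      add_mem' := by
        rintro a b ⟨ρ, hρ, ha⟩ ⟨ρ', hρ', hb⟩
        refine ⟨ρ * ρ', mul_mem hρ hρ', ?_⟩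
        rw [Fm.mul_sec, show ρ.sec s * ρ'.sec s * (a + b) =
          ρ'.sec s * (ρ.sec s * a) + ρ.sec s * (ρ'.sec s * b) by ring]
        exact add_mem (I.mul_mem_left _ ha) (I.mul_mem_left _ hb)
      smul_mem' := by
        rintro a b ⟨ρ, hρ, hb⟩
        exact ⟨ρ, hρ, by rw [smul_eq_mul, mul_left_comm]; exact I.mul_mem_left _ hb⟩ }
  have m0 : x 0 ∈ I := Ideal.subset_span (by simp)
  have m1 : x 1 ∈ I := Ideal.subset_span (by simp)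
  have m4 : x 4 ∈ I := Ideal.subset_span (by simp)
  have hI : ∀ a ∈ I, a ∈ Z.radical := fun a ha =>
    Ideal.le_radical ⟨1, one_mem _, I.mul_mem_left _ ha⟩
  have sq : ∀ (a b c : Fin 5) (i : Fin 7), x b ∈ I →
      alt L.t a ^ 2 = alt L.t b * alt L.t c + ivt L.t i * alt L.t 0 ^ 2 → x a ∈ Z.radical := by
    intro a b c i hb e
    obtain ⟨ρ, hρ, h⟩ := mem_locA.1 (Ow_le_locA (L.ivt_mem_Ow i))
    refine ⟨2, ρ, hρ, ?_⟩
    have : ρ.sec s * x a ^ 2 = ρ.sec s * x c * x b + ⟨_, h s⟩ * x 0 * x 0 := Subtype.ext (by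
      simp only [x, MulMemClass.coe_mul, SubmonoidClass.coe_pow, AddMemClass.coe_add, div_pow,
        mul_pow, e]
      ring)
    rw [this]
    exact add_mem (I.mul_mem_left _ hb) (I.mul_mem_left _ m0)
  have hx : ∀ μ, x μ ∈ Z.radical := fun μ => by
    fin_cases μ
    · exact hI _ m0
    · exact hI _ m1
    · exact sq 2 1 3 0 m1 (Var.alt_two_sq L.t)
    · exact sq 3 4 2 2 m4 ((Var.alt_three_sq L.t).trans (by ring))
    · exact hI _ m4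
  obtain ⟨c, hc, e⟩ := L.un_alt (Q.f_mem (Q.X.pt s))
  have key : ∃ ρ ∈ Q.mon w, ∃ a ∈ Z.radical, (a : F) = ρ.sec s * ∑ μ, c μ * x μ := by
    refine Finset.sum_induction _
      (fun y => ∃ ρ ∈ Q.mon w, ∃ a ∈ Z.radical, (a : F) = ρ.sec s * y) ?_ ?_ fun μ _ => ?_
    · rintro y y' ⟨ρ, hρ, a, ha, h⟩ ⟨ρ', hρ', a', ha', h'⟩
      refine ⟨ρ * ρ', mul_mem hρ hρ', ρ'.sec s * a + ρ.sec s * a',
        add_mem (Ideal.mul_mem_left _ _ ha) (Ideal.mul_mem_left _ _ ha'), ?_⟩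
      simp only [Fm.mul_sec, MulMemClass.coe_mul, AddMemClass.coe_add, h, h']
      ring
    · exact ⟨1, one_mem _, 0, zero_mem _, by simp⟩
    · obtain ⟨ρ, hρ, h⟩ := mem_locA.1 (Ow_le_locA (hc μ))
      exact ⟨ρ, hρ, ⟨_, h s⟩ * x μ, Ideal.mul_mem_left _ _ (hx μ), mul_assoc _ _ _⟩
  obtain ⟨ρ, hρ, a, ha, h⟩ := key
  have h1 : (ρ * Q.fmU (Q.Sig_sub w _ _ n.σ_mem)).sec s =
      (Q.fmU (Q.Sig_sub w _ _ L.g_mem)).sec s * a := Subtype.ext (by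
    have := L.g_ne
    have := Q.g_ne (Q.X.pt s)
    have := Q.f_ne (Q.X.pt s)
    have e' : ∑ μ, c μ * (x μ : F) = n.σ * (Q.f (Q.X.pt s) / L.g) /
        (Q.f (Q.X.pt s) * Q.g (Q.X.pt s) ^ (n.e + 1)) := by
      rw [e, Finset.mul_sum, Finset.sum_div]
      exact Finset.sum_congr rfl fun μ _ => by simp only [x]; ring
    rw [Fm.mul_sec, MulMemClass.coe_mul, MulMemClass.coe_mul, h, e', coe_sec_fmU, coe_sec_fmU]
    field_simp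
    ring)
  obtain ⟨N, τ, hτ, h2⟩ := Ideal.mul_mem_left _ ((Q.fmU (Q.Sig_sub w _ _ L.g_mem)).sec s) ha
  exact ⟨τ * (ρ * Q.fmU (Q.Sig_sub w _ _ n.σ_mem)) ^ N,
    mul_mem hτ (pow_mem (mul_mem hρ (Q.fmU_mem n.σ_mem)) N), by rwa [Fm.mul_sec, Fm.pow_sec, h1]⟩

end Loc

end Kum

end Pool.Agent.Lib.MP_d3d358_ag.K
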