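import Pool.Agent.Lib.MP_d3d358_ag.K.LocD
import Pool.Agent.Lib.MP_d3d358_ag.K.Un

/-! Maps between twists of the rank six bundle. -/

set_option autoImplicit false

open CategoryTheory

namespace Pool.Agent.Lib.MP_d3d358_ag.K

open Pool.Agent.Lib.MP_cd184e_ag.T Pool.Agent.Lib.MP_cd184e_ag.T.Coh Cy
open Pool.Agent.Lib.MP_d3d358_ag.Var (G)
open Pool.Agent.Lib.MP_d3d358_ag.Bkr

variable {F : Type} [Field F] [Algebra ℂ F] [MulSemiringAction G F] [SMulCommClass G ℂ F]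
  {Q : Kum F}

namespace Kum

variable (hL : ∀ w, Nonempty (Q.Loc w))
include hL

theorem B1 [Nonempty Q.Pt] (a b : ℤ)
    (φ : (twc (Q.cy 0 a)).obj Q.P ⟶ (twc (Q.cy 0 b)).obj Q.P) :
    ∃ c : G → F, (∀ g w, ∃ y ∈ Q.Sig w 1, c g / y ^ (b - a) ∈ Q.Yw w y Q.R) ∧
      ∀ s x, (Q.EP 0 b).e s (φ.app s x) = sumG c ((Q.EP 0 a).e s x) :=
  B1_of_link hL (fun _ _ n ν m _ => Loc.lat_eq n le_rfl ν 0 m) a b φ

end Kum

end Pool.Agent.Lib.MP_d3d358_ag.K
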