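import Pool.Agent.Lib.MP_d3d358_ag.K.Defs
import Pool.Agent.Lib.MP_d3d358_ag.Bkr.Lat

/-! The sheaves generated by spaces of functions, inside the big field. -/

set_option autoImplicit false

open CategoryTheory

namespace Pool.Agent.Lib.MP_d3d358_ag.K

open Pool.Agent.Lib.MP_cd184e_ag.T Pool.Agent.Lib.MP_cd184e_ag.T.Coh Cy
open Pool.Agent.Lib.MP_d3d358_ag.Var (G)
open Pool.Agent.Lib.MP_d3d358_ag.Bkr

section

variable {k K : Type} [Field k] [Field K] [Algebra k K] {X : ProjVar k K}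

/-- The value of a section. -/
def latE (Y : Submodule k K) (g : Cy X) (s : X.Idx) : latM Y g s →+ K :=
  AddMonoidHom.mk' (fun x => (x : K)) fun x y => AddMemClass.coe_add _ x y

theorem latE_apply (Y : Submodule k K) (g : Cy X) (s : X.Idx) (x : latM Y g s) :
    latE Y g s x = (x : K) := rfl

/-- The sheaf `lat Y g` inside the field. -/
noncomputable def embLat (Y : Submodule k K) (hY : Y.FG) (g : Cy X) : Emb (lat Y hY g) K where
  e := latE Y g
  smul _ a x := coe_lat_smul a x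
  res {s t} h x := (congrArg (latE Y g t) (lat_res h x)).trans
    ((latE_apply Y g t _).trans ((coe_latRes h x).trans (latE_apply Y g s x).symm))
  inj _ := Subtype.val_injective

theorem mem_embLat_tw {Y : Submodule k K} {hY : Y.FG} {g a : Cy X} {s : X.Idx} {z : K} :
    z ∈ ((embLat Y hY g).tw a 1 one_ne_zero).Im s ↔ z ∈ Sec Y g a s := by
  have e : ∀ x : latM Y g s, ((embLat Y hY g).tw a 1 one_ne_zero).e s x = val a x := fun x => by
    rw [Emb.tw_e, div_one]; rfl
  constructor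
  · rintro ⟨x, rfl⟩
    exact (e x).symm ▸ val_mem a x
  · intro h
    obtain ⟨x, hx⟩ := exists_val h
    exact ⟨x, (e x).trans hx⟩

theorem K0_of_Rat {c : K} (h : c ∈ Rat X) : c ∈ K0 X := by
  obtain ⟨p, hp, q, hq, -, rfl⟩ := h
  exact div_mem (A_le_K0 _ hp) (A_le_K0 _ hq)

variable {V V' : Type} [AddCommGroup V] [Module K V] [AddCommGroup V'] [Module K V']

theorem rlin_id : RLin X (AddMonoidHom.id V) := fun _ _ _ => rfl

/-- Two sheaves with the same sections inside `V` are isomorphic. -/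
theorem exists_iso {M N : Coh X} (E : Emb M V) (E' : Emb N V) (h : ∀ s, E.Im s = E'.Im s) :
    ∃ ι : M ≅ N, ∀ s x, E'.e s (ι.hom.app s x) = E.e s x := by
  obtain ⟨f, hf⟩ := E.exists_hom E' rlin_id fun s x => h s ▸ E.e_mem s x
  obtain ⟨g, hg⟩ := E'.exists_hom E rlin_id fun s x => (h s).symm ▸ E'.e_mem s x
  exact ⟨⟨f, g, hom_ext fun s x => E.inj s ((hg s _).trans (hf s x)),
    hom_ext fun s x => E'.inj s ((hf s _).trans (hg s x))⟩, hf⟩

end

variable {F : Type} [Field F] [Algebra ℂ F] [MulSemiringAction G F] [SMulCommClass G ℂ F]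

namespace Kum

variable (Q : Kum F)

/-- The sheaf generated by `Y`, twisted by the bundle of bidegree `(k, m)`, inside the field. -/
noncomputable def E (Y : Submodule ℂ F) (h : Y ≤ Q.R) (k m : ℤ) :
    Emb ((twc (Q.cy k m)).obj (Q.S Y h)) F :=
  (embLat Y (Q.fg_of_le h) Q.Tg).tw (Q.cy k m) 1 one_ne_zero

/-- The twists of the rank six bundle inside the field. -/
noncomputable abbrev EP (k m : ℤ) : Emb ((twc (Q.cy k m)).obj Q.P) F := Q.E Q.R le_rfl k m

theorem mem_E {Y : Submodule ℂ F} {h : Y ≤ Q.R} {k m : ℤ} {s : Q.X.Idx} {z : F} :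
    z ∈ (Q.E Y h k m).Im s ↔ z ∈ Sec Y Q.Tg (Q.cy k m) s := mem_embLat_tw

theorem inv_Rat {a : F} (ha : a ∈ Rat Q.X) (g : G) : g • a = a := Q.inv_K0 (K0_of_Rat ha) g

end Kum

/-- The additive map `z ↦ ∑ c g * g z`. -/
def sumG (c : G → F) : F →+ F :=
  AddMonoidHom.mk' (fun z => ∑ g, c g * g • z) fun x y => by
    simp only [smul_add, mul_add, Finset.sum_add_distrib]

omit [Algebra ℂ F] [SMulCommClass G ℂ F] in
theorem sumG_apply (c : G → F) (z : F) : sumG c z = ∑ g, c g * g • z := rfl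

theorem Kum.rlin_sumG (Q : Kum F) (c : G → F) : RLin Q.X (sumG c) := fun a ha z => by
  simp only [sumG_apply, smul_eq_mul, smul_mul', Q.inv_Rat ha, Finset.mul_sum, mul_left_comm]

end Pool.Agent.Lib.MP_d3d358_ag.K
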