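import Pool.Agent.Lib.MP_d3d358_ag.K.Kz
import Pool.Agent.Lib.MP_d3d358_ag.Var.X2

/-! The five covariants of the linear model and their lattice on a chart. -/

set_option autoImplicit false

namespace Pool.Agent.Lib.MP_d3d358_ag.K

open Pool.Agent.Lib.MP_d3d358_ag.Var

variable {K : Type} [Field K]

/-- The covariants `x, y, xx, xy, yy`. -/
def cov (t : Fin 4 → K) : Five K where
  x := (t 0, t 2)
  y := (t 1, t 3)
  xx := (t 2 ^ 2, t 0 ^ 2)
  xy := (t 2 * t 3, t 0 * t 1)
  yy := (t 3 ^ 2, t 1 ^ 2)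
  r1 := by simp only [wg]; ring
  r2 := by simp only [wg]; ring

variable (t : Fin 4 → K)

theorem wg_x_y : wg (cov t).x (cov t).y = alt t 0 := by simp [wg, cov, alt]; ring
theorem wg_x_xx : wg (cov t).x (cov t).xx = alt t 1 := by simp [wg, cov, alt]; ring
theorem wg_x_xy : wg (cov t).x (cov t).xy = alt t 2 := by simp [wg, cov, alt]; ring
theorem wg_x_yy : wg (cov t).x (cov t).yy = alt t 3 := by simp [wg, cov, alt]
theorem wg_y_xx : wg (cov t).y (cov t).xx = alt t 2 := by simp [wg, cov, alt]; ring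
theorem wg_y_xy : wg (cov t).y (cov t).xy = alt t 3 := by simp [wg, cov, alt]; ring
theorem wg_y_yy : wg (cov t).y (cov t).yy = alt t 4 := by simp [wg, cov, alt]; ring
theorem wg_xx_xy : wg (cov t).xx (cov t).xy = -ivt t 0 * alt t 0 := by simp [wg, cov, alt, ivt]; ring
theorem wg_xx_yy : wg (cov t).xx (cov t).yy = -ivt t 1 * alt t 0 := by simp [wg, cov, alt, ivt]; ring
theorem wg_xy_yy : wg (cov t).xy (cov t).yy = -ivt t 2 * alt t 0 := by simp [wg, cov, alt, ivt]; ring

/-- The five vectors as a family. -/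
def Five.vec (F : Five K) : Fin 5 → K × K := ![F.x, F.y, F.xx, F.xy, F.yy]

/-- The span of the five vectors. -/
def Five.sp (F : Five K) (O : Subring K) : Submodule O (K × K) := Submodule.span O (Set.range F.vec)

theorem Five.vec_mem (F : Five K) (O : Subring K) (i : Fin 5) : F.vec i ∈ F.sp O :=
  Submodule.subset_span ⟨i, rfl⟩

theorem Five.lat_sp (F : Five K) {O : Subring K} {α : K} (hα : α ≠ 0)
    (h : ∀ i j, wg (F.vec i) (F.vec j) / α ∈ O) : F.Lat O α (F.sp O) where
  ne := hα
  x := F.vec_mem O 0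
  y := F.vec_mem O 1
  xx := F.vec_mem O 2
  xy := F.vec_mem O 3
  yy := F.vec_mem O 4
  wg_mem a ha b hb := by
    induction ha using Submodule.span_induction with
    | mem a ha =>
      obtain ⟨i, rfl⟩ := ha
      induction hb using Submodule.span_induction with
      | mem b hb => obtain ⟨j, rfl⟩ := hb; exact h i j
      | zero => simp [wg]
      | add b c _ _ hb hc => rw [wg_add_right, add_div]; exact add_mem hb hc
      | smul r b _ hb =>
        rw [Subring.smul_def, wg_smul_right, mul_div_assoc]; exact mul_mem r.2 hb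
    | zero => simp [wg]
    | add a c _ _ ha hc => rw [wg_add_left, add_div]; exact add_mem ha hc
    | smul r a _ ha => rw [Subring.smul_def, wg_smul_left, mul_div_assoc]; exact mul_mem r.2 ha

theorem wg_vec_mem {O : Subring K} {α : K} (ha : ∀ i, alt t i / α ∈ O) (hq : ∀ i, ivt t i ∈ O)
    (i j : Fin 5) : wg ((cov t).vec i) ((cov t).vec j) / α ∈ O := by
  have h1 : ∀ a b : K × K, wg a b / α ∈ O → wg b a / α ∈ O := fun a b h => by
    rw [wg_comm, neg_div]; exact neg_mem h
  have h0 : ∀ a : K × K, wg a a / α ∈ O := fun a => by simp [wg_self]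
  have e1 := wg_x_y t ▸ ha 0
  have e2 := wg_x_xx t ▸ ha 1
  have e3 := wg_x_xy t ▸ ha 2
  have e4 := wg_x_yy t ▸ ha 3
  have e5 := wg_y_xx t ▸ ha 2
  have e6 := wg_y_xy t ▸ ha 3
  have e7 := wg_y_yy t ▸ ha 4
  have e8 : wg (cov t).xx (cov t).xy / α ∈ O := by
    rw [wg_xx_xy, mul_div_assoc]; exact mul_mem (neg_mem (hq 0)) (ha 0)
  have e9 : wg (cov t).xx (cov t).yy / α ∈ O := by
    rw [wg_xx_yy, mul_div_assoc]; exact mul_mem (neg_mem (hq 1)) (ha 0)
  have e10 : wg (cov t).xy (cov t).yy / α ∈ O := by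
    rw [wg_xy_yy, mul_div_assoc]; exact mul_mem (neg_mem (hq 2)) (ha 0)
  fin_cases i <;> fin_cases j <;>
    first
    | exact h0 _
    | assumption
    | (apply h1; assumption)

/-- The lattice of the covariants on a chart. -/
theorem lat_cov {O : Subring K} {α : K} (hα : α ≠ 0) (ha : ∀ i, alt t i / α ∈ O)
    (hq : ∀ i, ivt t i ∈ O) : (cov t).Lat O α ((cov t).sp O) :=
  Five.lat_sp _ hα (wg_vec_mem t ha hq)

/-- Both complexes are exact on each of the three charts of the model. -/
theorem ex_cov {O : Subring K} (n : Fin 3) (hα : alt t (cix n) ≠ 0)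
    (ha : ∀ i, alt t i / alt t (cix n) ∈ O) (hq : ∀ i, ivt t i ∈ O) :
    (cov t).Ex O (alt t (cix n)) ((cov t).sp O) :=
  (lat_cov t hα ha hq).ex (by
    fin_cases n
    · exact Or.inl (wg_x_y t).symm
    · exact Or.inr (Or.inl (wg_x_xx t).symm)
    · exact Or.inr (Or.inr (wg_y_yy t).symm))

end Pool.Agent.Lib.MP_d3d358_ag.K
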