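import Pool.Agent.Lib.MP_d3d358_ag.K.Nrm
import Pool.Agent.Lib.MP_d3d358_ag.K.LocB

/-! The localised spaces of theta functions in terms of the model. -/

set_option autoImplicit false

namespace Pool.Agent.Lib.MP_d3d358_ag.K

open Pool.Agent.Lib.MP_d3d358_ag.Var (G sg chi ivt alt cix crd Equi)
open L1 (latP)

variable {F : Type} [Field F] [Algebra ℂ F] [MulSemiringAction G F] [SMulCommClass G ℂ F]

/-- The weight condition. -/
def IsW (x : F) : Prop := (DihedralGroup.r 1 : G)⁻¹ • x = chi 1 • x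

theorem IsW.r_smul_s {c : F} (h : IsW c) (k : ZMod 3) :
    (DihedralGroup.r k : G) • (DihedralGroup.sr 0 : G) • c = chi k • (DihedralGroup.sr 0 : G) • c := by
  rw [← mul_smul, show (DihedralGroup.r k : G) * .sr 0 = .sr 0 * .r (-k) by simp, mul_smul,
    r_smul_of_wt h, neg_neg, smul_comm]

/-- The invariant pairing of two elements of weight `ω`. -/
theorem IsW.pair_inv {b c : F} (hb : IsW b) (hc : IsW c) (g : G) :
    g • (b * (DihedralGroup.sr 0 : G) • c + (DihedralGroup.sr 0 : G) • b * c) =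
      b * (DihedralGroup.sr 0 : G) • c + (DihedralGroup.sr 0 : G) • b * c := by
  have h : ∀ k : ZMod 3, (DihedralGroup.r k : G) •
      (b * (DihedralGroup.sr 0 : G) • c + (DihedralGroup.sr 0 : G) • b * c) =
      b * (DihedralGroup.sr 0 : G) • c + (DihedralGroup.sr 0 : G) • b * c := fun k => by
    rw [smul_add, smul_mul', smul_mul', hb.r_smul_s, hc.r_smul_s, r_smul_of_wt hb, r_smul_of_wt hc,
      smul_mul_smul_comm, smul_mul_smul_comm, Var.chi_neg_mul, Var.chi_mul_neg, one_smul, one_smul]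
  cases g with
  | r k => exact h k
  | sr k =>
    have e : ∀ x : F, (DihedralGroup.sr 0 : G) • (DihedralGroup.sr 0 : G) • x = x := fun x => by
      rw [← mul_smul, DihedralGroup.sr_mul_self, one_smul]
    rw [show (DihedralGroup.sr k : G) = .sr 0 * .r k by simp, mul_smul, h, smul_add, smul_mul',
      smul_mul', e, e, add_comm]

theorem prW_mul_of_isW {c : F} (hc : IsW c) (h : F) : prW (c * h) = c * (prC 1 h + prC sg h) := by
  have e : ∀ k : ZMod 3, chi k • (DihedralGroup.r k : G) • (c * h) =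
      c * (DihedralGroup.r k : G) • h := fun k => by
    rw [smul_mul', r_smul_of_wt hc, smul_mul_assoc, smul_smul, Var.chi_mul_neg, one_smul]
  have s3 : ∀ f : ZMod 3 → F, ∑ k, f k = f 0 + f 1 + f 2 := fun f => Fin.sum_univ_three f
  rw [prW_apply, prC_apply, prC_apply, L1.sum_G, L1.sum_G, s3, e, e, e]
  simp only [Pi.one_apply, Var.sg_r, Var.sg_sr, one_smul, neg_smul]
  simp only [Algebra.smul_def, map_inv₀, map_ofNat]
  have h2 : (2 : F) ≠ 0 := fun e => L1.six_ne (K := F) (by linear_combination 3 * e)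
  have h3 : (3 : F) ≠ 0 := fun e => L1.six_ne (K := F) (by linear_combination 2 * e)
  rw [show (6 : F) = 2 * 3 by norm_num]
  field_simp
  ring

theorem prW_eq_zero {x : F} {j : ZMod 3} (hj : j ≠ 1)
    (hx : ∀ k : ZMod 3, (DihedralGroup.r k : G) • x = chi (-(j * k)) • x) : prW x = 0 := by
  have s3 : ∀ f : ZMod 3 → ℂ, ∑ k, f k = f 0 + f 1 + f 2 := fun f => Fin.sum_univ_three f
  have q := Var.chi_quad (k := 1) (by decide)
  have c2 : chi 2 = chi 1 ^ 2 := Var.chi_neg 1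
  have : ∑ k : ZMod 3, chi k * chi (-(j * k)) = 0 := by
    simp only [← Var.chi_add]
    rw [s3]
    fin_cases j
    · change chi 0 + chi 1 + chi 2 = 0
      rw [Var.chi_zero, c2]; linear_combination q
    · exact absurd rfl hj
    · change chi 0 + chi 2 + chi 1 = 0
      rw [Var.chi_zero, c2]; linear_combination q
  simp only [prW_apply, hx, smul_smul, ← Finset.sum_smul, this, zero_smul, smul_zero]

omit [SMulCommClass G ℂ F] in
theorem alt_eq_covs {t : Fin 4 → F} (ht : Equi t) (j : Fin 5) : ∃ μ ν,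
    alt t j = covs t μ * (DihedralGroup.sr 0 : G) • covs t ν -
      (DihedralGroup.sr 0 : G) • covs t μ * covs t ν := by
  have h : ∀ i, (DihedralGroup.sr 0 : G) • t i = Var.gv (DihedralGroup.sr 0) t i := fun i => ht _ i
  fin_cases j
  · exact ⟨0, 1, by simp [alt, covs, h, Var.gv_sr]; ring⟩
  · exact ⟨0, 2, by simp [alt, covs, h, Var.gv_sr]; ring⟩
  · exact ⟨1, 2, by simp [alt, covs, h, Var.gv_sr]; ring⟩
  · exact ⟨0, 4, by simp [alt, covs, h, Var.gv_sr]⟩
  · exact ⟨1, 4, by simp [alt, covs, h, Var.gv_sr]; ring⟩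

omit [MulSemiringAction G F] [SMulCommClass G ℂ F] in
theorem covs_mem {T : Subalgebra ℂ F} {t : Fin 4 → F} (h : ∀ i, t i ∈ T) (μ : Fin 5) :
    covs t μ ∈ T := by
  fin_cases μ <;> simp [covs, h, mul_mem, pow_mem]

omit [MulSemiringAction G F] [SMulCommClass G ℂ F] in
theorem mul_mem_span_range {O : Subalgebra ℂ F} {ι : Type} (y : ι → F) {a : F} (ha : a ∈ O) (i : ι) :
    a * y i ∈ O.toSubmodule * Submodule.span ℂ (Set.range y) :=
  Submodule.mul_mem_mul ha (Submodule.subset_span ⟨i, rfl⟩)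

omit [MulSemiringAction G F] [SMulCommClass G ℂ F] in
theorem mul_span_induction {O : Subalgebra ℂ F} {ι : Type} {y : ι → F} {Z : Submodule ℂ F}
    (h : ∀ a ∈ O, ∀ i, a * y i ∈ Z) : O.toSubmodule * Submodule.span ℂ (Set.range y) ≤ Z :=
  Submodule.mul_le.2 fun a ha z hz => by
    induction hz using Submodule.span_induction with
    | mem _ hx => obtain ⟨i, rfl⟩ := hx; exact h a ha i
    | zero => rw [mul_zero]; exact zero_mem _
    | add _ _ _ _ h1 h2 => rw [mul_add]; exact add_mem h1 h2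
    | smul c _ _ h1 => rw [mul_smul_comm]; exact Z.smul_mem c h1

omit [MulSemiringAction G F] [SMulCommClass G ℂ F] in
/-- Every polynomial is a combination of `1, t 2, t 3` modulo the five covariants. -/
theorem exists_mod_covs {O : Subalgebra ℂ F} {t : Fin 4 → F} {f : F} (hf : f ∈ latP O t) :
    ∃ a ∈ O, ∃ b ∈ O, ∃ c ∈ O, f - (a + b * t 2 + c * t 3) ∈
      (latP O t).toSubmodule * Submodule.span ℂ (Set.range (covs t)) := by
  have ht : ∀ i, t i ∈ latP O t := L1.t_mem_latP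
  have hc : ∀ {a}, a ∈ latP O t → ∀ μ, a * covs t μ ∈
      (latP O t).toSubmodule * Submodule.span ℂ (Set.range (covs t)) :=
    fun ha μ => mul_mem_span_range _ ha μ
  have le : ∀ {a}, a ∈ O → a ∈ latP O t := fun ha => L1.le_latP ha
  induction L1.mem_latP.1 hf using Algebra.adjoin_induction with
  | mem x hx =>
    obtain ⟨i, rfl⟩ := hx
    fin_cases i
    · exact ⟨0, zero_mem _, 0, zero_mem _, 0, zero_mem _, by simpa [covs] using hc (one_mem _) 0⟩
    · exact ⟨0, zero_mem _, 0, zero_mem _, 0, zero_mem _, by simpa [covs] using hc (one_mem _) 1⟩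
    · exact ⟨0, zero_mem _, 1, one_mem _, 0, zero_mem _, by simp⟩
    · exact ⟨0, zero_mem _, 0, zero_mem _, 1, one_mem _, by simp⟩
  | algebraMap r =>
    exact ⟨r.1, r.2, 0, zero_mem _, 0, zero_mem _, by simp [Subalgebra.algebraMap_eq]⟩
  | add x y hx hy ih ih' =>
    obtain ⟨a, ha, b, hb, c, hc', h⟩ := ih hx
    obtain ⟨a', ha', b', hb', c', hc'', h'⟩ := ih' hy
    refine ⟨_, add_mem ha ha', _, add_mem hb hb', _, add_mem hc' hc'', ?_⟩
    convert add_mem h h' using 1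
    ring
  | mul x y hx hy ih ih' =>
    obtain ⟨a, ha, b, hb, c, hc', h⟩ := ih hx
    obtain ⟨a', ha', b', hb', c', hc'', h'⟩ := ih' hy
    refine ⟨_, mul_mem ha ha', _, add_mem (mul_mem ha hb') (mul_mem hb ha'), _,
      add_mem (mul_mem ha hc'') (mul_mem hc' ha'), ?_⟩
    have m : a + b * t 2 + c * t 3 ∈ latP O t :=
      add_mem (add_mem (le ha) (mul_mem (le hb) (ht 2))) (mul_mem (le hc') (ht 3))
    convert add_mem (add_mem (mul_mem_self (B := latP O t) hy h) (mul_mem_self m h'))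
      (add_mem (add_mem (hc (le (mul_mem hb hb')) 2)
        (hc (le (add_mem (mul_mem hb hc'') (mul_mem hc' hb'))) 3)) (hc (le (mul_mem hc' hc'')) 4))
      using 1
    simp only [covs, Matrix.cons_val]
    ring

section Model

variable {O : Subalgebra ℂ F} {t : Fin 4 → F} (ht : Equi t) (hO : ∀ g : G, ∀ a ∈ O, g • a = a)
  (hq : ∀ i, ivt t i ∈ O)
include ht hO hq

omit [SMulCommClass G ℂ F] in
/-- Alternating polynomials over a ring of invariants. -/
theorem mem_span_alt {f : F} (hf : f ∈ latP O t) (hi : ∀ g : G, g • f = sg g • f) :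
    f ∈ O.toSubmodule * Submodule.span ℂ (Set.range (alt t)) := by
  obtain ⟨c, hc, rfl⟩ := ht.exists_sum_alt (A := O) (fun g a => hO g a a.2) hf hi
  exact sum_mem fun i _ => mul_mem_span_range _
    (L1.adjoin_le_self (by rintro _ ⟨i, rfl⟩; exact hq i) (hc i)) i

theorem alt_mul_covs (j μ : Fin 5) :
    alt t j * covs t μ ∈ O.toSubmodule * Submodule.span ℂ (Set.range (covs t)) := by
  obtain ⟨a, b, e⟩ := alt_eq_covs ht j
  have hm : ∀ μ, covs t μ ∈ latP O t := covs_mem L1.t_mem_latP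
  have hp : ∀ μ ν, covs t μ * (DihedralGroup.sr 0 : G) • covs t ν +
      (DihedralGroup.sr 0 : G) • covs t μ * covs t ν ∈ O := fun μ ν =>
    L1.mem_of_inv ht hO hq (add_mem (mul_mem (hm μ) (L1.smul_mem_latP ht hO _ _ (hm ν)))
      (mul_mem (L1.smul_mem_latP ht hO _ _ (hm μ)) (hm ν)))
      (IsW.pair_inv (wt_covs ht μ) (wt_covs ht ν))
  convert sub_mem (mul_mem_span_range (covs t) (hp b μ) a) (mul_mem_span_range (covs t) (hp a μ) b)
    using 1
  rw [e]
  ring

/-- Polynomials of weight `ω` over a ring of invariants. -/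
theorem mem_span_covs {f : F} (hf : f ∈ latP O t) (hi : IsW f) :
    f ∈ O.toSubmodule * Submodule.span ℂ (Set.range (covs t)) := by
  obtain ⟨a, ha, b, hb, c, hc, h⟩ := exists_mod_covs hf
  have hv : ∀ (k : ZMod 3) i, (DihedralGroup.r k : G) • t i = Var.gv (DihedralGroup.r (-k)) t i :=
    fun k i => ht _ i
  have e : ∀ k : ZMod 3, -(2 * k) = k := by decide
  have h0 : prW (a + b * t 2 + c * t 3) = 0 := by
    rw [map_add, map_add, prW_mul fun g => hO g b hb, prW_mul fun g => hO g c hc,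
      prW_eq_zero (x := a) (j := 0) (by decide) fun k => by simp [hO _ a ha],
      prW_eq_zero (x := t 2) (j := 2) (by decide) fun k => by rw [e, hv]; simp [Var.gv_r],
      prW_eq_zero (x := t 3) (j := 2) (by decide) fun k => by rw [e, hv]; simp [Var.gv_r]]
    simp
  have h1 : (latP O t).toSubmodule * Submodule.span ℂ (Set.range (covs t)) ≤
      (O.toSubmodule * Submodule.span ℂ (Set.range (covs t))).comap prW :=
    mul_span_induction fun y hy μ => by
      have hG := L1.smul_mem_latP ht hO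
      have p1 := prC_mem_eig (χ := 1) (R := (latP O t).toSubmodule) (by simp) (by simp) hG hy
      have p2 := prC_mem_eig (R := (latP O t).toSubmodule) Var.sg_mul Var.sg_mul_self hG hy
      rw [Submodule.mem_comap, mul_comm y, prW_mul_of_isW (wt_covs ht μ), mul_comm (covs t μ),
        add_mul]
      refine add_mem (mul_mem_span_range _ (L1.mem_of_inv ht hO hq p1.1 fun g => by
        rw [p1.2, Pi.one_apply, one_smul]) μ) ?_
      exact mul_span_induction (Z := (O.toSubmodule * Submodule.span ℂ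
        (Set.range (covs t))).comap (LinearMap.mulRight ℂ (covs t μ))) (fun a ha j => by
          rw [Submodule.mem_comap, LinearMap.mulRight_apply, mul_assoc]
          exact mul_mem_self ha (alt_mul_covs ht hO hq j μ)) (mem_span_alt ht hO hq p2.1 p2.2)
  have := Submodule.mem_comap.1 (h1 h)
  rwa [map_sub, h0, sub_zero, prW_eq hi] at this

end Model

namespace Kum.Loc

variable {Q : Kum F} {w : Q.Pt} (L : Q.Loc w)

theorem Yw_mono {Y Z : Submodule ℂ F} (h : Y ≤ Z) : Q.Yw w L.g Y ≤ Q.Yw w L.g Z :=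
  mul_le_mul_right (mul_le_mul_right h _) _

theorem mem_Yw_V {x : F} : x ∈ Q.Yw w L.g Q.V ↔ x ∈ L.Ot ∧ ∀ g : G, g • x = sg g • x := by
  refine ⟨fun hx => ⟨L.mem_Ot.2 (L.Yw_mono Q.V_le hx), fun g => ?_⟩, fun ⟨h1, h2⟩ => ?_⟩
  · exact Kum.Yw_induction (C := fun x => g • x = sg g • x) hx (fun a ha y hy => by
      rw [smul_mul', smul_div₀', inv_of_Ow ha, inv_of_Sig L.g_mem, hy.2, smul_div_assoc,
        mul_smul_comm]) fun x y hx hy => by rw [smul_add, hx, hy, smul_add]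
  · obtain ⟨m, σ, hσ, h⟩ := (Kum.mem_Yw_iff L.g_mem).1 (L.mem_Ot.1 h1)
    exact (Kum.mem_Yw_iff L.g_mem).2 ⟨m, σ, hσ, mem_mul_V h fun g => by
      rw [smul_mul', inv_of_Sig hσ, h2, mul_smul_comm]⟩

theorem mem_Yw_W {x : F} : x ∈ Q.Yw w L.g Q.W ↔ x ∈ L.Ot ∧ IsW x := by
  refine ⟨fun hx => ⟨L.mem_Ot.2 (L.Yw_mono Q.W_le hx), ?_⟩, fun ⟨h1, h2⟩ => ?_⟩
  · exact Kum.Yw_induction (C := fun x => IsW x) hx (fun a ha y hy => by
      rw [IsW, smul_mul', smul_div₀', inv_of_Ow ha, inv_of_Sig L.g_mem, hy.2, smul_div_assoc,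
        mul_smul_comm]) fun x y hx hy => by rw [IsW, smul_add, hx, hy, smul_add]
  · obtain ⟨m, σ, hσ, h⟩ := (Kum.mem_Yw_iff L.g_mem).1 (L.mem_Ot.1 h1)
    exact (Kum.mem_Yw_iff L.g_mem).2 ⟨m, σ, hσ, mem_mul_W h (by
      rw [smul_mul', inv_of_Sig hσ, h2, mul_smul_comm])⟩

theorem Yw_U : Q.Yw w L.g Q.U = (Q.Ow w).toSubmodule := by
  refine le_antisymm (fun x hx => ?_) fun a ha => ?_
  · exact Kum.Yw_induction (C := fun x => x ∈ Q.Ow w) hx (fun a ha y hy =>
      mul_mem ha (div_mem_OwN L.g_mem (by rwa [pow_one]))) fun _ _ => add_mem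
  · have := Ow_mul_mem_Yw ha (Kum.div_mem_Yw (g := L.g) L.g_U)
    rwa [div_self L.g_ne, mul_one] at this

theorem Yw_V : Q.Yw w L.g Q.V =
    (Q.Ow w).toSubmodule * Submodule.span ℂ (Set.range (alt L.t)) :=
  le_antisymm (fun _ hx => mem_span_alt L.equi Ow_inv L.ivt_mem_Ow
      (L.Ot_eq ▸ (L.mem_Yw_V.1 hx).1) (L.mem_Yw_V.1 hx).2)
    (mul_span_induction fun _ ha i => Ow_mul_mem_Yw ha
      (L.mem_Yw_V.2 ⟨L.alt_mem_Ot i, fun g => L.equi.smul_alt g i⟩))

theorem Yw_W : Q.Yw w L.g Q.W =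
    (Q.Ow w).toSubmodule * Submodule.span ℂ (Set.range (covs L.t)) :=
  le_antisymm (fun _ hx => mem_span_covs L.equi Ow_inv L.ivt_mem_Ow
      (L.Ot_eq ▸ (L.mem_Yw_W.1 hx).1) (L.mem_Yw_W.1 hx).2)
    (mul_span_induction fun _ ha i => Ow_mul_mem_Yw ha
      (L.mem_Yw_W.2 ⟨covs_mem L.t_mem_Ot i, wt_covs L.equi i⟩))

theorem O_mul_Ow (ν : Fin 3) : (L.O ν).toSubmodule * (Q.Ow w).toSubmodule = (L.O ν).toSubmodule := by
  rw [Subalgebra.mul_toSubmodule, sup_eq_left.2 (L.Ow_le_O ν)]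

theorem mem_Lt_U {ν : Fin 3} {k n : ℤ} {z : F} : z ∈ L.Lt Q.U ν k n ↔
    z / L.gam ν k n ∈ L.O ν := by
  rw [mem_Lt, Yw_U, O_mul_Ow]; rfl

theorem gam_succ (ν : Fin 3) (k n : ℤ) : L.gam ν (k + 1) n = L.gam ν k n * alp L.t ν := by
  rw [gam, gam, zpow_add_one₀ (L.alp_ne ν), mul_right_comm]

theorem mem_O_mul_alt {ν : Fin 3} {x : F} :
    x ∈ (L.O ν).toSubmodule * Submodule.span ℂ (Set.range (alt L.t)) ↔ x / alp L.t ν ∈ L.O ν := by
  refine ⟨fun hx => mul_span_induction (Z := (L.O ν).toSubmodule.comap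
    (LinearMap.mulRight ℂ (alp L.t ν)⁻¹)) (fun a ha i => ?_) hx |> fun h => ?_, fun h => ?_⟩
  · rw [div_eq_mul_inv]; exact h
  · rw [Submodule.mem_comap, LinearMap.mulRight_apply, mul_assoc, ← div_eq_mul_inv]
    exact (L.O ν).mul_mem ha (L.alt_div_mem_O ν i)
  · have := mul_mem_span_range (alt L.t) h (cix ν)
    rwa [show alt L.t (cix ν) = alp L.t ν from rfl, div_mul_cancel₀ _ (L.alp_ne ν)] at this

theorem mem_Lt_V {ν : Fin 3} {k n : ℤ} {z : F} : z ∈ L.Lt Q.V ν k n ↔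
    z / L.gam ν (k + 1) n ∈ L.O ν := by
  rw [mem_Lt, Yw_V, ← mul_assoc, O_mul_Ow, mem_O_mul_alt, gam_succ, div_div]

theorem mem_Lt_W {ν : Fin 3} {k n : ℤ} {z : F} : z ∈ L.Lt Q.W ν k n ↔
    z / L.gam ν k n ∈ (L.O ν).toSubmodule * Submodule.span ℂ (Set.range (covs L.t)) := by
  rw [mem_Lt, Yw_W, ← mul_assoc, O_mul_Ow]

theorem exists_nrm : Nonempty L.Nrm := L.nonempty_nrm

end Kum.Loc

end Pool.Agent.Lib.MP_d3d358_ag.K
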