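import Pool.Agent.Lib.MP_d3d358_ag.K.Un
import Pool.Agent.Lib.MP_d3d358_ag.K.EmbS
import Pool.Agent.Lib.MP_d3d358_ag.K.LocA
import Pool.Agent.Lib.MP_d3d358_ag.K.KzM
import Pool.Agent.Lib.MP_d3d358_ag.Bkr.LProjK
import Pool.Agent.Lib.MP_d3d358_ag.Bkr.KRes

/-! The two resolutions by the covariants near a point of the base. -/

set_option autoImplicit false

open CategoryTheory

namespace Pool.Agent.Lib.MP_d3d358_ag.K

open Pool.Agent.Lib.MP_cd184e_ag.T Pool.Agent.Lib.MP_cd184e_ag.T.Coh Cy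
open Pool.Agent.Lib.MP_d3d358_ag.Var (G sg chi ivt alt cix crd Equi)
open Pool.Agent.Lib.MP_d3d358_ag.Bkr

section Gr

variable {k K : Type} [Field k] [Field K] [Algebra k K] {X : ProjVar k K} {N : Coh X}

/-- The sheaf inside the plane as the graph of a map. -/
def embGr (E : Emb N K) (θ : K →+ K) (hθ : RLin X θ) : Emb N (K × K) where
  e s := (E.e s).prod (θ.comp (E.e s))
  smul s a x := Prod.ext (E.smul s a x)
    ((congrArg θ (E.smul s a x)).trans (hθ _ (coe_mem_Rat a) _))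
  res h x := Prod.ext (E.res h x) (congrArg θ (E.res h x))
  inj s _ _ h := E.inj s (congrArg Prod.fst h)

theorem mem_Loc_embGr {E : Emb N K} {θ : K →+ K} {hθ : RLin X θ} {T : Submonoid (Fm X)}
    (hT : NZ T) {v : K × K} : v ∈ (embGr E θ hθ).Loc T ↔ v.1 ∈ E.Loc T ∧ v.2 = θ v.1 := by
  constructor
  · rintro ⟨ρ, hρ, h⟩
    refine ⟨⟨ρ, hρ, fun s => (h s).imp fun x hx => congrArg Prod.fst hx⟩, ?_⟩
    obtain ⟨x, hx⟩ := h (top X)
    have h1 : E.e _ x = (ρ.sec (top X) : K) • v.1 := congrArg Prod.fst hx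
    have h2 : θ (E.e _ x) = (ρ.sec (top X) : K) • v.2 := congrArg Prod.snd hx
    rw [h1, hθ _ (coe_mem_Rat _)] at h2
    exact (smul_right_injective K (Fm.sec_ne (hT ρ hρ) _) h2).symm
  · rintro ⟨⟨ρ, hρ, h⟩, e⟩
    refine ⟨ρ, hρ, fun s => (h s).imp fun x hx => Prod.ext hx ((congrArg θ hx).trans ?_)⟩
    rw [Prod.smul_fst, hθ _ (coe_mem_Rat _), ← e, Prod.smul_snd]

end Gr

variable {F : Type} [Field F] [Algebra ℂ F] [MulSemiringAction G F] [SMulCommClass G ℂ F]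
  {Q : Kum F} {w : Q.Pt}

omit [SMulCommClass G ℂ F] in
theorem vec_cov {t : Fin 4 → F} (ht : Equi t) (i : Fin 5) :
    (cov t).vec i = (covs t i, (DihedralGroup.sr 0 : G) • covs t i) := by
  have h : ∀ i, (DihedralGroup.sr 0 : G) • t i = Var.gv (DihedralGroup.sr 0) t i := fun i => ht _ i
  fin_cases i <;> simp [Five.vec, cov, covs, h, Var.gv_sr]

omit [SMulCommClass G ℂ F] in
theorem mem_sp_cov {t : Fin 4 → F} (ht : Equi t) {O : Subalgebra ℂ F}
    (hO : ∀ a ∈ O, (DihedralGroup.sr 0 : G) • a = a) {v : F × F} :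
    v ∈ (cov t).sp O.toSubring ↔ v.1 ∈ O.toSubmodule * Submodule.span ℂ (Set.range (covs t)) ∧
      v.2 = (DihedralGroup.sr 0 : G) • v.1 := by
  constructor
  · intro hv
    induction hv using Submodule.span_induction with
    | mem _ hx =>
      obtain ⟨i, rfl⟩ := hx
      rw [vec_cov ht]
      exact ⟨by simpa using mul_mem_span_range (covs t) (one_mem O) i, rfl⟩
    | zero => exact ⟨zero_mem _, (smul_zero _).symm⟩
    | add x y _ _ hx hy =>
      exact ⟨add_mem hx.1 hy.1, by rw [Prod.snd_add, Prod.fst_add, smul_add, hx.2, hy.2]⟩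
    | smul a x _ hx =>
      refine ⟨mul_mem_self a.2 hx.1, ?_⟩
      change (a : F) * x.2 = _ • ((a : F) * x.1)
      rw [smul_mul', hO _ a.2, hx.2]
  · rintro ⟨h, e⟩
    rw [show v = (v.1, (DihedralGroup.sr 0 : G) • v.1) from Prod.ext rfl e]
    have key : ∀ a ∈ O, ∀ z : F, (z, (DihedralGroup.sr 0 : G) • z) ∈ (cov t).sp O.toSubring →
        (a * z, (DihedralGroup.sr 0 : G) • (a * z)) ∈ (cov t).sp O.toSubring := fun a ha z hz => by
      rw [smul_mul', hO a ha]; exact Five.smul_mem' (O := O.toSubring) ha hz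
    refine Submodule.mul_induction_on
      (C := fun z => (z, (DihedralGroup.sr 0 : G) • z) ∈ (cov t).sp O.toSubring) h
      (fun a ha z hz => key a ha z ?_) fun x y hx hy => by rw [smul_add]; exact add_mem hx hy
    induction hz using Submodule.span_induction with
    | mem _ hx => obtain ⟨i, rfl⟩ := hx; exact vec_cov ht i ▸ (cov t).vec_mem _ i
    | zero => rw [smul_zero]; exact zero_mem _
    | add x y _ _ hx hy => rw [smul_add]; exact add_mem hx hy
    | smul c x _ hx => rw [Algebra.smul_def]; exact key _ (O.algebraMap_mem c) x hx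

namespace Kum

theorem rlin_sr (Q : Kum F) :
    RLin Q.X (DistribSMul.toAddMonoidHom F (DihedralGroup.sr 0 : G)) := fun a ha z => by
  change (DihedralGroup.sr 0 : G) • (a * z) = a * (DihedralGroup.sr 0 : G) • z
  rw [smul_mul', Q.inv_Rat ha]

namespace Loc

variable {L : Q.Loc w} (n : L.Nrm)

theorem Nrm.tr3 : Tr3 (Q.mon w) n.fm := ⟨fun _ => Q.mon_ne, n.fm_ne, n.big_mon, null n⟩

theorem Nrm.cut (ν : Fin 3) : Cut (Q.mon w) Q.Lr (n.fm ν) (alp L.t ν) :=
  ⟨_, Q.fmU_mem n.σ_mem, mul_comm _ _, by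
    change Q.cy 1 _ = Q.Lr * Q.cy 0 _
    rw [cy, cy, zpow_one, zpow_zero, one_mul]⟩

theorem gam_zero_zero (ν : Fin 3) : L.gam ν 0 0 = 1 := by simp [gam]

/-- The data of the two complexes at the point. -/
noncomputable def Nrm.kdat : KDat (Q.mon w) n.fm Q.Lr
    (embGr (embLat Q.W (Q.fg_of_le Q.W_le) Q.Tg) _ Q.rlin_sr) (cov L.t) where
  O ν := (L.O ν).toSubring
  α := alp L.t
  Wl ν := (cov L.t).sp _
  cut := n.cut
  hO ν c := by
    have := lat_unit n ν 0 0 (z := c)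
    rwa [gam_zero_zero, div_one, Emb.Lat, Emb.Loc_tw_congr _ _ one_ne_zero Q.cy_zero rfl,
      Emb.Loc_tw_one] at this
  hW ν v := by
    have := lat_eq n Q.W_le ν 0 0 (z := v.1)
    rw [mem_Lt_W, gam_zero_zero, div_one, Emb.Lat, E,
      Emb.Loc_tw_congr _ _ one_ne_zero Q.cy_zero rfl, Emb.Loc_tw_one] at this
    rw [Emb.Lat, mem_Loc_embGr (n.nz ν), this,
      mem_sp_cov L.equi (L.O_inv ν _)]
    rfl
  lat ν := lat_cov _ (L.alp_ne ν) (L.alt_div_mem_O ν) (L.ivt_mem_O ν)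
  ex ν := ex_cov _ ν (L.alp_ne ν) (L.alt_div_mem_O ν) (L.ivt_mem_O ν)

end Loc

theorem res_K1 (L : Q.Loc w) : Res Q.DT (Q.mon w) ((twc Q.Lr⁻¹).obj (Q.S Q.W Q.W_le)) (unit Q.X)
    (Q.S Q.W Q.W_le) ((twc Q.Lr).obj (unit Q.X)) :=
  L.exists_nrm.elim fun n => n.kdat.K1 n.tr3 (Q.degIn_mon w)

theorem res_K2 (L : Q.Loc w) : Res Q.DT (Q.mon w) ((twc Q.Lr⁻¹).obj (unit Q.X))
    ((twc Q.Lr⁻¹).obj (Q.S Q.W Q.W_le)) (unit Q.X) (Q.S Q.W Q.W_le) :=
  L.exists_nrm.elim fun n => n.kdat.K2 n.tr3 (Q.degIn_mon w)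

end Kum

end Pool.Agent.Lib.MP_d3d358_ag.K
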