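import Pool.Agent.Lib.MP_d3d358_ag.K.Parts
import Pool.Agent.Lib.MP_d3d358_ag.K.KRes
import Pool.Agent.Lib.MP_d3d358_ag.Bkr.KFrm

/-! Generation of the bounded derived category by the twists of the rank six bundle. -/

set_option autoImplicit false

open CategoryTheory

namespace Pool.Agent.Lib.MP_d3d358_ag.K.Kum

open Pool.Agent.Lib.MP_cd184e_ag.T Pool.Agent.Lib.MP_cd184e_ag.T.Coh Cy
open Pool.Agent.Lib.MP_d3d358_ag.Var (G)
open Pool.Agent.Lib.MP_d3d358_ag.Bkr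

variable {F : Type} [Field F] [Algebra ℂ F] [MulSemiringAction G F] [SMulCommClass G ℂ F]
  {Q : Kum F}

theorem B4_of_res
    (K1 : ∀ w, Res Q.DT (Q.mon w) ((twc Q.Lr⁻¹).obj (Q.S Q.W Q.W_le)) (unit Q.X) (Q.S Q.W Q.W_le)
      ((twc Q.Lr).obj (unit Q.X)))
    (K2 : ∀ w, Res Q.DT (Q.mon w) ((twc Q.Lr⁻¹).obj (unit Q.X))
      ((twc Q.Lr⁻¹).obj (Q.S Q.W Q.W_le)) (unit Q.X) (Q.S Q.W Q.W_le))
    {T : ObjectProperty (DerivedCategory (Coh Q.X))} [T.IsTriangulated]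
    [T.IsStableUnderRetracts] (hT : ∀ n : ℤ, InP T ((twc (Q.cy 0 n)).obj Q.P))
    (Y : DerivedCategory (Coh Q.X)) (hY : DerivedCategory.TStructure.t.bounded Y) : T Y := by
  have key : ∀ {M : Coh Q.X}, Nonempty (Retract M Q.P) → ∀ d ∈ Q.DT, InP T ((twc d).obj M) := by
    rintro M ⟨r⟩ d hd
    obtain ⟨n, rfl⟩ := Q.mem_DT.1 hd
    exact InP.retract _ _ (r.map (twc (Q.cy 0 n))).retract (hT n)
  exact gen_of_res Q.smooth Q.bpf_yg Q.yg_d_mem Q.degIn_mon Q.ns_yg Q.Lr_inv_mul K1 K2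
    (key Q.parts.1) (key Q.parts.2.2) (key Q.parts.2.1) Y hY

/-- The twists of the rank six bundle generate the bounded derived category. -/
theorem B4 (hL : ∀ w, Nonempty (Q.Loc w))
    {T : ObjectProperty (DerivedCategory (Coh Q.X))} [T.IsTriangulated]
    [T.IsStableUnderRetracts] (hT : ∀ n : ℤ, InP T ((twc (Q.cy 0 n)).obj Q.P))
    (Y : DerivedCategory (Coh Q.X)) (hY : DerivedCategory.TStructure.t.bounded Y) : T Y :=
  B4_of_res (fun w => res_K1 (hL w).some) (fun w => res_K2 (hL w).some) hT Y hY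

end Pool.Agent.Lib.MP_d3d358_ag.K.Kum
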