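import Pool.Agent.Lib.MP_d3d358_ag.K.Lift2

/-! Lifting of maps between the lattices of rank six to maps that keep all three lattices. -/

set_option autoImplicit false
set_option linter.unusedSectionVars false

namespace Pool.Agent.Lib.MP_d3d358_ag.K.Lf

open Pool.Agent.Lib.MP_d3d358_ag.Var L1

variable {K : Type} [Field K] [Algebra ℂ K] [MulSemiringAction G K] [SMulCommClass G ℂ K]
  {O : Subalgebra ℂ K} {t : Fin 4 → K}

namespace Mdl

variable (H : Mdl O t)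
include H

/-- Sections of the `n`-th twist of the rank six bundle on the curve `s = 0`. -/
theorem p_Ln {n : ℕ} {x y : K} (hx : x ∈ Ln O t 1) (hy : y ∈ Ln O t 2)
    (h : Cg (L12 O t) (ss t) x (bb t ^ n * y)) : x ∈ Sec O t n := by
  have hb : bb t ∈ L12 O t := L1_le (On_le_Ln 1 bb_mem)
  have hy' : ∀ j, lm (swp t) j y ∈ On O t 2 := fun j =>
    On_swp_one.le (H.swap.lm_mem (Ln_swp_one.ge hy) j)
  have h1 := Cg.sum (S := Finset.univ) fun j _ =>
    ((cg_f2 H.a0_ne j).mono L1_le).mul_left (L2_le (On_le_Ln 2 (hy' j)))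
  rw [← H.swap.sum_lm y] at h1
  obtain ⟨r, hr, e⟩ := h.trans (h1.mul_left (pow_mem hb n))
  have e' : x = ∑ j, bb t ^ (n + dg j) * lm (swp t) j y * f1 t j + ss t * r := by
    rw [e, Finset.mul_sum]
    exact congrArg (· + _) (Finset.sum_congr rfl fun j _ => by ring)
  rw [H.sum_lm x]
  refine sum_mem fun j _ => ?_
  have e2 : lm t j x = bb t ^ (n + dg j) * lm (swp t) j y + ss t * lm t j r := by
    rw [← H.lm_sum (a := fun j => bb t ^ (n + dg j) * lm (swp t) j y) (fun i g => by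
      rw [smul_mul', smul_pow', H.On_inv 1 g _ bb_mem, H.swap.lm_inv]) j, ← lm_mul H.ss_inv,
      ← lm_add, ← e']
  obtain ⟨c, hc, h2⟩ := H.p_On (m := n + dg j) (H.lm_mem hx j) (hy' j) ⟨_, H.lm_mem' hr j, e2⟩
  refine mem_Sec_of_cg ((h2.mono (On_le_Ln 1)).mul_right (f1_mem j)) ?_
  rw [Finset.sum_mul]
  refine sum_mem fun l hl => ?_
  obtain ⟨l1, l2, h3, h4, rfl⟩ : ∃ l1 l2, l1 ≤ n ∧ l2 ≤ dg j ∧ l = l1 + l2 :=
    ⟨min l n, l - min l n, by omega, by have := Finset.mem_range.1 hl; omega, by omega⟩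
  obtain ⟨φ, hφ, h5⟩ := cg_f1 (O := O) H.a0_ne j h4
  have := h5.symm.mul_left
    (mul_mem (pow_mem (On_le_Ln 1 bb_mem) l1) (P_le_Ln 1 (le_latP (hc (l1 + l2)))))
  refine mem_Sec_of_cg ((Cg.of_eq (by ring)).trans this) ?_
  rw [mul_assoc]
  exact gen_mem_Sec h3 (mul_mem (le_latP (hc _)) hφ)

/-- Modulo `s` and `a₃ / a₀` the lattice is spanned by `1, b, b²` over the polynomials. -/
theorem exists_two {x : K} (hx : x ∈ Ln O t 1) :
    ∃ x0 ∈ Sec O t 2, ∃ z ∈ Ln O t 1, x = x0 + ee t * z := by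
  obtain ⟨r, hr, e⟩ := (cg_ee H.a0_ne).mono (D1_le_On.trans (On_le_Ln (O := O) 1))
  have hb : bb t ∈ Ln O t 1 := On_le_Ln 1 bb_mem
  have hs : ss t ∈ Ln O t 1 := On_le_Ln 1 ss_mem
  have he : ee t ∈ Ln O t 1 := On_le_Ln 1 (alt_div_mem_On (ν := 1) H.a0_ne 4)
  let T : Subalgebra ℂ K :=
    { carrier := {x | ∃ a ∈ latP O t, ∃ b ∈ latP O t, ∃ c ∈ latP O t, ∃ y ∈ Ln O t 1,
        ∃ z ∈ Ln O t 1, x = a + bb t * b + bb t ^ 2 * c + ss t * y + ee t * z}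
      add_mem' := by
        rintro _ _ ⟨a, ha, b, hb, c, hc, y, hy, z, hz, rfl⟩ ⟨a', ha', b', hb', c', hc', y', hy',
          z', hz', rfl⟩
        exact ⟨_, add_mem ha ha', _, add_mem hb hb', _, add_mem hc hc', _, add_mem hy hy', _,
          add_mem hz hz', by ring⟩
      mul_mem' := by
        rintro _ x' ⟨a, ha, b, hb1, c, hc, y, hy, z, hz, rfl⟩ ⟨a', ha', b', hb', c', hc', y', hy',
          z', hz', e'⟩
        have m : latP O t ≤ Ln O t 1 := P_le_Ln 1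
        have hX : a + bb t * b + bb t ^ 2 * c ∈ Ln O t 1 :=
          add_mem (add_mem (m ha) (mul_mem hb (m hb1))) (mul_mem (pow_mem hb _) (m hc))
        have hx' : x' ∈ Ln O t 1 := e' ▸ add_mem (add_mem (add_mem (add_mem (m ha')
          (mul_mem hb (m hb'))) (mul_mem (pow_mem hb _) (m hc'))) (mul_mem hs hy')) (mul_mem he hz')
        have hw : b * c' + c * b' + bb t * (c * c') ∈ Ln O t 1 :=
          add_mem (m (add_mem (mul_mem hb1 hc') (mul_mem hc hb'))) (mul_mem hb (m (mul_mem hc hc')))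
        refine ⟨_, mul_mem ha ha', _, add_mem (mul_mem ha hb') (mul_mem hb1 ha'), _,
          add_mem (add_mem (mul_mem ha hc') (mul_mem hb1 hb')) (mul_mem hc ha'), _,
          sub_mem (add_mem (mul_mem hy hx') (mul_mem hX hy')) (mul_mem hr hw), _,
          add_mem (add_mem (mul_mem hz hx') (mul_mem hX hz')) hw, ?_⟩
        linear_combination (a + bb t * b + bb t ^ 2 * c) * e'
          - (b * c' + c * b' + bb t * (c * c')) * e
      algebraMap_mem' := fun c => ⟨_, Subalgebra.algebraMap_mem _ c, 0, zero_mem _, 0, zero_mem _,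
        0, zero_mem _, 0, zero_mem _, by ring⟩ }
  have hP : latP O t ≤ T := fun a ha =>
    ⟨a, ha, 0, zero_mem _, 0, zero_mem _, 0, zero_mem _, 0, zero_mem _, by ring⟩
  have hT : Ln O t 1 ≤ T := latP_le (latP_le (le_latP.trans hP) fun i => by
    fin_cases i
    exacts [hP (le_latP (H.ivt_mem 0)),
      ⟨0, zero_mem _, 1, one_mem _, 0, zero_mem _, 0, zero_mem _, 0, zero_mem _, by simp [crd]⟩,
      hP (le_latP (H.ivt_mem 3)),
      ⟨0, zero_mem _, 0, zero_mem _, 0, zero_mem _, 1, one_mem _, 0, zero_mem _, by simp [crd]⟩])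
    fun i => hP (t_mem_latP i)
  obtain ⟨a, ha, b, hb1, c, hc, y, hy, z, hz, rfl⟩ := hT hx
  refine ⟨_, mem_Sec_of_cg ⟨y, hy, rfl⟩ (add_mem (add_mem ?_ ?_) (gen_mem_Sec le_rfl hc)), z, hz,
    rfl⟩
  · simpa using gen_mem_Sec (l := 0) (n := 2) (by omega) ha
  · simpa using gen_mem_Sec (l := 1) (n := 2) (by omega) hb1

end Mdl

/-- `ψ` is linear over the ring `B`. -/
def Lin (B : Subalgebra ℂ K) (ψ : K →+ K) : Prop := ∀ c ∈ B, ∀ x, ψ (c * x) = c * ψ x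

variable (O t) in
/-- `γ` is linear over the invariants and maps each lattice to its `k`-th twist. -/
structure Glob (k : ℕ) (γ : K →+ K) : Prop where
  lin : ∀ c, (∀ g : G, g • c = c) → ∀ x, γ (c * x) = c * γ x
  keep : ∀ ν, ∀ x ∈ Ln O t ν, γ x / alt t (cix ν) ^ k ∈ Ln O t ν

namespace Glob

variable {k : ℕ} {γ γ' : K →+ K}

theorem zero : Glob O t k 0 := ⟨fun _ _ _ => by simp, fun _ _ _ => by simp⟩

theorem add (h : Glob O t k γ) (h' : Glob O t k γ') : Glob O t k (γ + γ') :=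
  ⟨fun c hc x => by rw [AddMonoidHom.add_apply, AddMonoidHom.add_apply, h.lin c hc, h'.lin c hc,
    mul_add], fun ν x hx => by
    rw [AddMonoidHom.add_apply, add_div]; exact add_mem (h.keep ν x hx) (h'.keep ν x hx)⟩

theorem of_swp (h : Glob O (swp t) k γ) : Glob O t k γ := ⟨h.lin, fun ν x hx => by
  fin_cases ν
  · have := h.keep 0 x (Ln_swp_zero.ge hx)
    rw [Ln_swp_zero, al_swp] at this
    have := mul_mem (pow_mem (neg_mem (one_mem (Ln O t 0))) k) this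
    change (-1) ^ k * (γ x / (-alt t 0) ^ k) ∈ _ at this
    rwa [neg_pow (alt t 0), ← mul_div_assoc, mul_div_mul_left _ _ (by simp)] at this
  · have := h.keep 2 x (Ln_swp_two.ge hx)
    rwa [Ln_swp_two, al_swp] at this
  · have := h.keep 1 x (Ln_swp_one.ge hx)
    rwa [Ln_swp_one, al_swp] at this⟩

end Glob

/-- The map `h ↦ α Alt (φ h)`. -/
noncomputable def gam (α φ : K) : K →+ K :=
  AddMonoidHom.mk' (fun h => α * altP (φ * h)) fun x y => by rw [mul_add, altP_add, mul_add]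

theorem gam_apply (α φ h : K) : gam α φ h = α * altP (φ * h) := rfl

namespace Mdl

variable (H : Mdl O t)
include H

theorem altP_div_mem (ν : Fin 3) {x : K} (hx : x ∈ Ln O t ν) : altP x / alt t (cix ν) ∈ On O t ν :=
  div_mem_of_alt H.equi (H.On_inv ν) (ivt_mem_On (H.al_ne ν)) (alt_div_mem_On (H.al_ne ν))
    (altP_mem (smul_mem_latP H.equi (H.On_inv ν)) hx) fun g => smul_altP g _

theorem glob_gam {k : ℕ} {α φ : K} (hα : ∀ ν, α / alt t (cix ν) ^ k ∈ Ln O t ν)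
    (hφ : φ ∈ latP O t) : Glob O t (k + 1) (gam α φ) :=
  ⟨fun c hc x => by rw [gam_apply, gam_apply, mul_left_comm φ, altP_mul hc, mul_left_comm],
    fun ν x hx => by
    rw [gam_apply, pow_succ, ← div_mul_div_comm]
    exact mul_mem (hα ν) (On_le_Ln ν (H.altP_div_mem ν (mul_mem (P_le_Ln ν hφ) hx)))⟩

/-- Products of alternants give all powers of `b` up to `3 k`. -/
theorem exists_prod (k : ℕ) {l : ℕ} (hl : l ≤ 3 * k) :
    ∃ α, (∀ ν, α / alt t (cix ν) ^ k ∈ Ln O t ν) ∧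
      Cg (Ln O t 1) (ss t) (α / alt t 1 ^ k) (bb t ^ l) := by
  induction k generalizing l with
  | zero => exact ⟨1, fun ν => by simp, .of_eq (by simp [Nat.le_zero.1 hl])⟩
  | succ k ih =>
    obtain ⟨l1, l2, h1, h2, rfl⟩ : ∃ l1 l2, l1 ≤ 3 * k ∧ l2 ≤ 3 ∧ l = l1 + l2 :=
      ⟨min l (3 * k), l - min l (3 * k), by omega, by omega, by omega⟩
    obtain ⟨α, hα, h3⟩ := ih h1
    obtain ⟨i, h4⟩ := cg_alt H.a0_ne h2
    refine ⟨α * alt t i, fun ν => ?_, ?_⟩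
    · rw [pow_succ, ← div_mul_div_comm]
      exact mul_mem (hα ν) (On_le_Ln ν (alt_div_mem_On (H.al_ne ν) i))
    · rw [pow_succ, ← div_mul_div_comm, pow_add]
      exact h3.mul (h4.mono (D1_le_On.trans (On_le_Ln 1))) (hα 1) (pow_mem (On_le_Ln 1 bb_mem) _)

/-- One matrix entry is lifted. -/
theorem lift_one (k : ℕ) (i : Fin 6) {n : ℕ} (hn : n + dg i ≤ 3 * (k + 1)) {x : K}
    (hx : x ∈ Sec O t n) : ∃ γ, Glob O t (k + 1) γ ∧ ∀ h ∈ Ln O t 1,
      Cg (Ln O t 1) (ss t) (γ h / alt t 1 ^ (k + 1)) (lm t i h * x) := by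
  induction hx using AddSubmonoid.closure_induction with
  | mem x hx =>
    rcases hx with ⟨l, hl, φ, hφ, rfl⟩ | ⟨r, hr, rfl⟩
    · have := dg_le i
      obtain ⟨l1, l2, h1, h2, rfl⟩ : ∃ l1 l2, l1 ≤ 3 * k ∧ l2 + dg i ≤ 3 ∧ l = l1 + l2 :=
        ⟨min l (3 * k), l - min l (3 * k), by omega, by omega, by omega⟩
      obtain ⟨α, hα, h3⟩ := H.exists_prod k h1
      obtain ⟨χ, hχ, r, hr, e⟩ := cg_g1 (O := O) H.a0_ne i h2
      refine ⟨gam (φ * α) χ, H.glob_gam (fun ν => ?_) hχ, fun h hh => ?_⟩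
      · rw [mul_div_assoc]; exact mul_mem (P_le_Ln ν hφ) (hα ν)
      · have h4 : Cg (Ln O t 1) (ss t) (altP (χ * h) / alt t 1) (bb t ^ l2 * lm t i h) :=
          ⟨_, On_le_Ln 1 (H.altP_div_mem 1 (mul_mem hr hh)), by
            rw [e, add_mul, altP_add, mul_assoc, mul_assoc, altP_mul H.ss_inv, altP_mul fun g => by
              rw [smul_pow', H.On_inv 1 g _ bb_mem], add_div, mul_div_assoc, mul_div_assoc]
            rfl⟩
        have h5 := (h3.mul h4 (hα 1) (mul_mem (pow_mem (On_le_Ln 1 bb_mem) _)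
          (On_le_Ln 1 (H.lm_mem hh i)))).mul_left (P_le_Ln 1 hφ)
        refine (Cg.of_eq ?_).trans (h5.trans (Cg.of_eq (by ring)))
        rw [gam_apply]; ring
    · exact ⟨0, .zero, fun h hh => ⟨-(lm t i h * r),
        neg_mem (mul_mem (On_le_Ln 1 (H.lm_mem hh i)) hr), by simp; ring⟩⟩
  | zero => exact ⟨0, .zero, fun h _ => .of_eq (by simp)⟩
  | add x y _ _ hx hy =>
    obtain ⟨γ, h1, h2⟩ := hx
    obtain ⟨γ', h1', h2'⟩ := hy
    exact ⟨γ + γ', h1.add h1', fun h hh => by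
      rw [AddMonoidHom.add_apply, add_div, mul_add]; exact (h2 h hh).add (h2' h hh)⟩

/-- A matrix is lifted. -/
theorem lift_all (k : ℕ) {n : Fin 6 → ℕ} (hn : ∀ i, n i + dg i ≤ 3 * (k + 1)) {x : Fin 6 → K}
    (hx : ∀ i, x i ∈ Sec O t (n i)) : ∃ γ, Glob O t (k + 1) γ ∧ ∀ h ∈ Ln O t 1,
      Cg (Ln O t 1) (ss t) (γ h / alt t 1 ^ (k + 1)) (∑ i, lm t i h * x i) := by
  choose γ h1 h2 using fun i => H.lift_one k i (hn i) (hx i)
  refine ⟨∑ i, γ i, Finset.sum_induction _ _ (fun _ _ => Glob.add) .zero fun i _ => h1 i,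
    fun h hh => ?_⟩
  rw [AddMonoidHom.finsetSum_apply, Finset.sum_div]
  exact Cg.sum fun i _ => h2 i h hh

theorem map_eq {B : Subalgebra ℂ K} {ψ : K →+ K} (hψ : Lin B ψ) {h : K} (hh : ∀ i, lm t i h ∈ B)
    (c : K) : ψ h / c = ∑ i, lm t i h * (ψ (f1 t i) / c) := by
  conv_lhs => rw [H.sum_lm h, map_sum, Finset.sum_div]
  exact Finset.sum_congr rfl fun i _ => by rw [hψ _ (hh i), mul_div_assoc]

/-- Lifting modulo `d` and `a₃`. -/
theorem two_aux (k : ℕ) {ψ : K →+ K} (hψ : Lin (On O t 1) ψ)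
    (h : ∀ x ∈ Ln O t 1, ψ x / alt t 1 ^ (k + 2) ∈ Ln O t 1) :
    ∃ γ, Glob O t (k + 2) γ ∧ ∀ x ∈ Ln O t 1, ∃ y ∈ Ln O t 1, ∃ z ∈ Ln O t 1,
      (ψ x - γ x) / alt t 1 ^ (k + 2) = ss t * y + ee t * z := by
  choose x0 h0 z hz e using fun i => H.exists_two (h _ (f1_mem i))
  obtain ⟨γ, h1, h2⟩ := H.lift_all (k + 1) (n := fun _ => 2)
    (fun i => by have := dg_le i; omega) h0
  refine ⟨γ, h1, fun x hx => ?_⟩
  obtain ⟨r, hr, e1⟩ := h2 x hx
  refine ⟨-r, neg_mem hr, ∑ i, lm t i x * z i,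
    sum_mem fun i _ => mul_mem (On_le_Ln 1 (H.lm_mem hx i)) (hz i), ?_⟩
  rw [sub_div, e1, H.map_eq hψ (H.lm_mem hx)]
  simp only [e, mul_add, Finset.sum_add_distrib, Finset.mul_sum, mul_left_comm (ee t)]
  ring

theorem keep12 {ψ : K →+ K} (hψ : Lin (O12 O t) ψ) {c : K}
    (h : ∀ x ∈ Ln O t 1, ψ x / c ∈ L12 O t) {x : K} (hx : x ∈ L12 O t) : ψ x / c ∈ L12 O t := by
  rw [H.map_eq hψ (H.lm_mem' hx)]
  exact sum_mem fun i _ => mul_mem (O12_le (H.lm_mem' hx i)) (h _ (f1_mem i))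

theorem ee_mem : ee t ∈ Ln O t 1 := On_le_Ln 1 (alt_div_mem_On (ν := 1) H.a0_ne 4)

/-- Lifting modulo `d` of a pair of maps that agree on the overlap. -/
theorem one_aux (k : ℕ) {ψ1 ψ2 : K →+ K} (l1 : Lin (O12 O t) ψ1) (l2 : Lin (O12 O t) ψ2)
    (h1 : ∀ x ∈ Ln O t 1, ψ1 x / alt t 1 ^ (k + 1) ∈ Ln O t 1)
    (h2 : ∀ x ∈ Ln O t 2, ψ2 x / alt t 4 ^ (k + 1) ∈ Ln O t 2)
    (h : ∀ x ∈ Ln O t 1, (ψ1 x - ψ2 x) / (alt t 0 * alt t 1 ^ k) ∈ L12 O t) :
    ∃ γ, Glob O t (k + 1) γ ∧ (∀ x ∈ Ln O t 1, (ψ1 x - γ x) / (alt t 0 * alt t 1 ^ k) ∈ Ln O t 1) ∧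
      ∀ x ∈ Ln O t 2, (ψ2 x - γ x) / (alt t 0 * alt t 4 ^ k) ∈ Ln O t 2 := by
  have n0 := H.d_ne
  have n1 := H.a0_ne
  have n4 := H.a3_ne
  have hb : bb t ∈ L12 O t := L1_le (On_le_Ln 1 bb_mem)
  have he : ee t ∈ L12 O t := L1_le H.ee_mem
  have h2' : ∀ x ∈ L12 O t, ψ2 x / alt t 4 ^ (k + 1) ∈ L12 O t := fun x hx =>
    L12_swp.le (H.swap.keep12 (fun c hc => l2 c (O12_swp.le hc))
      (fun y hy => L12_swp.ge (L2_le (h2 y (Ln_swp_one.le hy)))) (L12_swp.ge hx))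
  have hx : ∀ i, ψ1 (f1 t i) / alt t 1 ^ (k + 1) ∈ Sec O t (3 * (k + 1) - dg i) := fun i => by
    have m2 := h2 _ (Ln_swp_one.le (f1_mem (t := swp t) i))
    refine H.p_Ln (h1 _ (f1_mem i)) m2 (Cg.cancel H.cg_b hb H.b'_mem (L1_le (h1 _ (f1_mem i)))
      (mul_mem (pow_mem hb _) (L2_le m2)) (dg i) ?_)
    rw [← mul_assoc, ← pow_add, show dg i + (3 * (k + 1) - dg i) = 3 * (k + 1) by
      have := dg_le i; omega, pow_mul]
    have c1 := (((cg_ee n1).mono (D1_le_On.trans ((On_le_Ln (O := O) 1).trans L1_le))).pow he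
      (pow_mem hb 3) (k + 1)).mul_right (L2_le m2)
    refine Cg.trans ?_ c1
    obtain ⟨r, hr, e⟩ := cg_f2 (O := O) n1 i
    refine ⟨bb t ^ dg i * ((ψ1 (f1 t i) - ψ2 (f1 t i)) / (alt t 0 * alt t 1 ^ k)) -
      ee t ^ (k + 1) * (ψ2 r / alt t 4 ^ (k + 1)), sub_mem (mul_mem (pow_mem hb _)
        (h _ (f1_mem i))) (mul_mem (pow_mem he _) (h2' r (L1_le hr))), ?_⟩
    rw [e, map_add, l2 _ (pow_mem ((le_sup_left : _ ≤ O12 O t) bb_mem) _),
      l2 _ ((le_sup_left : _ ≤ O12 O t) ss_mem)]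
    generalize bb t ^ dg i = β
    simp only [ss, ee, div_pow]
    field_simp
    ring
  obtain ⟨γ, g1, g2⟩ := H.lift_all k (fun i => by have := dg_le i; omega) hx
  have k1 : ∀ x ∈ Ln O t 1, (ψ1 x - γ x) / (alt t 0 * alt t 1 ^ k) ∈ Ln O t 1 := fun x hx => by
    obtain ⟨r, hr, e⟩ := g2 x hx
    rw [← H.map_eq l1 fun i => (le_sup_left : _ ≤ O12 O t) (H.lm_mem hx i)] at e
    rw [show (ψ1 x - γ x) / (alt t 0 * alt t 1 ^ k) = -r by
      have := congrArg (· * alt t 1 ^ (k + 1)) e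
      simp only [add_mul, div_mul_cancel₀ _ (pow_ne_zero _ n1)] at this
      rw [this]
      simp only [ss]
      field_simp
      ring]
    exact neg_mem hr
  refine ⟨γ, g1, k1, fun x hx => ?_⟩
  have m1 := H.keep12 (ψ := ψ2 - γ) (c := alt t 0 * alt t 1 ^ k) (fun c hc y => by
    rw [AddMonoidHom.sub_apply, AddMonoidHom.sub_apply, l2 c hc,
      g1.lin c (fun g => H.O12_inv g c hc), mul_sub]) (fun y hy => by
    have := sub_mem (L1_le (k1 y hy)) (h y hy)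
    rwa [← sub_div, sub_sub_sub_cancel_left] at this) (L2_le hx)
  have m2 := mul_mem (pow_mem (L2_le (On_le_Ln 2 (alt_div_mem_On (ν := 2) n4 1))) k) m1
  refine Ln_swp_one.le (H.swap.reg_Ln (L12_swp.ge ?_) (Ln_swp_one.ge ?_))
  · convert m2 using 1
    simp only [AddMonoidHom.sub_apply, cix, Matrix.cons_val, div_pow]
    field_simp
  · convert sub_mem (g1.keep 2 x hx) (h2 x hx) using 1
    simp only [ss, al_swp, cix, Matrix.cons_val]
    field_simp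
    ring

/-- (R) on the second chart. -/
theorem lat_reg {v w : K} (hv : v ∈ Ln O t 2) (hw : w ∈ Ln O t 2)
    (h : alt t 1 / alt t 4 * v = alt t 0 / alt t 4 * w) :
    ∃ z ∈ Ln O t 2, v = alt t 0 / alt t 4 * z := by
  have n1 := H.a0_ne
  have n4 := H.a3_ne
  have e : v = alt t 0 / alt t 4 * (ee t * w) := by
    simp only [ee]
    field_simp at h ⊢
    linear_combination h
  refine ⟨ee t * w, Ln_swp_one.le (H.swap.reg_Ln (L12_swp.ge (mul_mem (L1_le H.ee_mem) (L2_le hw)))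
    (Ln_swp_one.ge ?_)), e⟩
  convert neg_mem hv using 1
  rw [e]
  simp only [ss, al_swp, Matrix.cons_val]
  ring

/-- (A2) on the second chart. -/
theorem lat_two (k : ℕ) {ψ : K →+ K} (hψ : Lin (On O t 2) ψ)
    (h : ∀ x ∈ Ln O t 2, ψ x / alt t 4 ^ (k + 2) ∈ Ln O t 2) :
    ∃ γ, Glob O t (k + 2) γ ∧ ∀ x ∈ Ln O t 2, ∃ y ∈ Ln O t 2, ∃ z ∈ Ln O t 2,
      (ψ x - γ x) / alt t 4 ^ (k + 2) = alt t 0 / alt t 4 * y + alt t 1 / alt t 4 * z := by
  obtain ⟨γ, h1, h2⟩ := H.swap.two_aux k (ψ := ψ) (fun c hc => hψ c (On_swp_one.le hc))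
    fun x hx => Ln_swp_one.ge (h x (Ln_swp_one.le hx))
  refine ⟨γ, h1.of_swp, fun x hx => ?_⟩
  obtain ⟨y, hy, z, hz, e⟩ := h2 x (Ln_swp_one.ge hx)
  refine ⟨-y, neg_mem (Ln_swp_one.le hy), z, Ln_swp_one.le hz, ?_⟩
  simp only [ss, ee, al_swp, Matrix.cons_val] at e
  rw [e]; ring

end Mdl

end Pool.Agent.Lib.MP_d3d358_ag.K.Lf
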