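import Pool.Agent.Lib.MP_d3d358_ag.K.LocA
import Pool.Agent.Lib.MP_d3d358_ag.K.Lift3

/-! Regularity and the two lifting statements for the lattices of the rank six bundle. -/

set_option autoImplicit false

namespace Pool.Agent.Lib.MP_d3d358_ag.K

open Pool.Agent.Lib.MP_d3d358_ag.Var (G sg chi ivt alt cix crd Equi alt_mul_alt)
open Pool.Agent.Lib.MP_d3d358_ag.Bkr
open L1 (latP)
open Lf

theorem indep_of_algebraic {k F ι : Type} [Field k] [Field F] [Algebra k F] [Finite ι]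
    {t c : ι → F} (ht : AlgebraicIndependent k t)
    (h : ∀ i, IsAlgebraic (Algebra.adjoin k (Set.range c)) (t i)) : AlgebraicIndependent k c := by
  have h1 : (AlgebraicIndependent.matroid k F).Indep (Set.range t) := ht.to_subtype_range
  have h2 := h1.encard_le_eRk_of_subset
    (X := (AlgebraicIndependent.matroid k F).closure (Set.range c)) (by
      rintro _ ⟨i, rfl⟩
      rw [AlgebraicIndependent.matroid_closure_eq]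
      exact h i)
  rw [Matroid.eRk_closure_eq] at h2
  have h3 := ht.injective.encard_range.trans h2
  have h4 : (Set.range c).encard ≤ ENat.card ι := by
    rw [← Set.image_univ, ← Set.encard_univ]; exact Set.encard_image_le _ _
  have h5 := (AlgebraicIndependent.matroid k F).eRk_le_encard (Set.range c)
  have h6 : Function.Injective c := Set.injOn_univ.1 (Set.finite_univ.injOn_of_encard_image_eq (by
    rw [Set.image_univ, Set.encard_univ]; exact le_antisymm h4 (h3.trans h5)))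
  exact AlgebraicIndependent.of_subtype_range h6
    ((Matroid.indep_iff_eRk_eq_encard_of_finite (Set.finite_range c)).2
      (le_antisymm h5 (h4.trans h3)))

variable {F : Type} [Field F] [Algebra ℂ F]

theorem indep_co {t : Fin 4 → F} (ht : AlgebraicIndependent ℂ t) :
    AlgebraicIndependent ℂ (co t) := by
  have h1 : alt t 1 ≠ 0 := alp_ne_of ht 1
  let T := Subalgebra.algebraicClosure (D1 t) F
  have m : ∀ x ∈ D1 t, x ∈ T := fun x hx => T.algebraMap_mem ⟨x, hx⟩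
  have ha : alt t 1 ∈ T := IsAlgebraic.of_pow two_pos (m _ (by
    rw [show alt t 1 ^ 2 = ivt t 3 ^ 2 - 4 * ivt t 0 ^ 3 by simp [alt, ivt]; ring]
    exact sub_mem (pow_mem p_mem _) (mul_mem (ofNat_mem _ _) (pow_mem q_mem _))))
  have h2 : (2 : F) ≠ 0 := fun e => L1.six_ne (K := F) (by linear_combination 3 * e)
  have hh : (2 : F)⁻¹ ∈ T := m _ (by simpa [map_ofNat] using (D1 t).algebraMap_mem (2 : ℂ)⁻¹)
  have h0 : t 0 ∈ T := IsAlgebraic.of_pow three_pos (show t 0 ^ 3 ∈ T by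
    rw [show t 0 ^ 3 = 2⁻¹ * (ivt t 3 + alt t 1) by simp [alt, ivt]; field_simp; ring]
    exact mul_mem hh (add_mem (m _ p_mem) ha))
  have h3 : t 2 ∈ T := IsAlgebraic.of_pow three_pos (show t 2 ^ 3 ∈ T by
    rw [show t 2 ^ 3 = 2⁻¹ * (ivt t 3 - alt t 1) by simp [alt, ivt]; field_simp; ring]
    exact mul_mem hh (sub_mem (m _ p_mem) ha))
  refine indep_of_algebraic ht fun i => show t i ∈ T from ?_
  fin_cases i
  · exact h0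
  · exact u2_eq h1 ▸ add_mem (mul_mem (m _ b_mem) h0) (mul_mem (m _ s_mem) (pow_mem h3 _))
  · exact h3
  · exact v2_eq h1 ▸ add_mem (mul_mem (m _ b_mem) h3) (mul_mem (m _ s_mem) (pow_mem h0 _))

theorem indep_swp {t : Fin 4 → F} (ht : AlgebraicIndependent ℂ t) :
    AlgebraicIndependent ℂ (swp t) := by
  have : swp t = t ∘ ![1, 0, 3, 2] := by funext i; fin_cases i <;> rfl
  rw [this]
  exact ht.comp _ (by decide)

/-- The map `x ↦ ψ (c x) / c'`. -/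
def scl (c c' : F) (ψ : F →+ F) : F →+ F :=
  AddMonoidHom.mk' (fun x => ψ (c * x) / c') fun x y => by rw [mul_add, map_add, add_div]

omit [Algebra ℂ F] in
theorem scl_apply (c c' : F) (ψ : F →+ F) (x : F) : scl c c' ψ x = ψ (c * x) / c' := rfl

variable [MulSemiringAction G F] [SMulCommClass G ℂ F] {Q : Kum F} {w : Q.Pt}

namespace Kum.Loc

variable (L : Q.Loc w)

theorem mdl : Mdl (Q.Ow w) L.t :=
  ⟨L.equi, Ow_inv, indep_co L.indep, indep_co (indep_swp L.indep), Ai L.t, inferInstance,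
    inferInstance, Subalgebra.inclusion L.Ai_le, L.flat, (Ai L.t).range_val⟩

theorem O_eq (ν : Fin 3) : L.O ν = On (Q.Ow w) L.t ν := (latP_eq _ _).symm

theorem mem_Lt_Ln {ν : Fin 3} {k m : ℤ} {x : F} :
    x ∈ L.Lt Q.R ν k m ↔ x / L.g ^ m / alt L.t (cix ν) ^ k ∈ Ln (Q.Ow w) L.t ν := by
  rw [mem_Lt_R, O_eq, div_div, mul_comm]; rfl

theorem mem_Lt_zero {ν : Fin 3} {m : ℤ} {x : F} :
    L.g ^ m * x ∈ L.Lt Q.R ν 0 m ↔ x ∈ Ln (Q.Ow w) L.t ν := by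
  rw [mem_Lt_Ln, zpow_zero, div_one, mul_div_cancel_left₀ _ (zpow_ne_zero _ L.g_ne)]

theorem exists_of_mem_Lt {ν : Fin 3} {m : ℤ} {z : F} (hz : z ∈ L.Lt Q.R ν 0 m) :
    ∃ x ∈ Ln (Q.Ow w) L.t ν, z = L.g ^ m * x := by
  have e : z = L.g ^ m * (z / L.g ^ m) := (mul_div_cancel₀ _ (zpow_ne_zero _ L.g_ne)).symm
  exact ⟨_, L.mem_Lt_zero.1 (e ▸ hz), e⟩

theorem lin_scl {ψ : F →+ F} (hψ : RLin Q.X ψ) (c c' : F) :
    Lin (O12 (Q.Ow w) L.t) (scl c c' ψ) := fun a ha x => by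
  obtain ⟨n⟩ := L.exists_nrm
  have : O12 (Q.Ow w) L.t ≤ RatA Q :=
    sup_le (fun _ h => n.O_le_Rat 1 ((L.O_eq 1).ge h)) fun _ h => n.O_le_Rat 2 ((L.O_eq 2).ge h)
  rw [scl_apply, scl_apply, mul_left_comm, ← mul_div_assoc]
  exact congrArg (· / c') (hψ a (this ha) _)

variable {L} in
theorem glob_scl {k : ℕ} {γ : F →+ F} (h : Glob (Q.Ow w) L.t k γ) (m m' : ℤ) :
    RLin Q.X (scl (L.g ^ m)⁻¹ (L.g ^ m')⁻¹ γ) ∧ (∀ x, scl (L.g ^ m)⁻¹ (L.g ^ m')⁻¹ γ (L.g ^ m * x) =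
      γ x * L.g ^ m') ∧ ∀ ν, ∀ z ∈ L.Lt Q.R ν 0 m,
      scl (L.g ^ m)⁻¹ (L.g ^ m')⁻¹ γ z ∈ L.Lt Q.R ν k m' := by
  have e : ∀ x, scl (L.g ^ m)⁻¹ (L.g ^ m')⁻¹ γ (L.g ^ m * x) = γ x * L.g ^ m' := fun x => by
    rw [scl_apply, inv_mul_cancel_left₀ (zpow_ne_zero _ L.g_ne), div_inv_eq_mul]
  refine ⟨fun c hc v => ?_, e, fun ν z hz => ?_⟩
  · rw [scl_apply, scl_apply, smul_eq_mul, smul_eq_mul, mul_left_comm, h.lin c (Rat_inv hc),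
      mul_div_assoc]
  · obtain ⟨x, hx, rfl⟩ := L.exists_of_mem_Lt hz
    rw [e, mem_Lt_Ln, mul_div_cancel_right₀ _ (zpow_ne_zero _ L.g_ne), zpow_natCast]
    exact h.keep ν x hx

theorem mem_Ln_scl {ν : Fin 3} {j : ℕ} {m m' : ℤ} {ψ : F →+ F}
    (h : ∀ z ∈ L.Lt Q.R ν 0 m, ψ z ∈ L.Lt Q.R ν j m') {x : F} (hx : x ∈ Ln (Q.Ow w) L.t ν) :
    scl (L.g ^ m) (L.g ^ m') ψ x / alt L.t (cix ν) ^ j ∈ Ln (Q.Ow w) L.t ν := by
  have := L.mem_Lt_Ln.1 (h _ (L.mem_Lt_zero.2 hx))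
  rwa [zpow_natCast] at this

theorem reg_two {k m : ℤ} {x y : F} (hx : x ∈ L.Lt Q.R 2 k m) (hy : y ∈ L.Lt Q.R 2 k m)
    (e : alp L.t 1 * x = alp L.t 0 * y) : ∃ z ∈ L.Lt Q.R 2 (k - 1) m, x = alp L.t 0 * z := by
  have n0 : alt L.t 0 ≠ 0 := L.alp_ne 0
  have n4 : alt L.t 4 ≠ 0 := L.alp_ne 2
  change alt L.t 1 * x = alt L.t 0 * y at e
  obtain ⟨z, hz, e'⟩ := L.mdl.lat_reg (L.mem_Lt_Ln.1 hx) (L.mem_Lt_Ln.1 hy) (by
    linear_combination (alt L.t 4)⁻¹ * (L.g ^ m)⁻¹ * (alt L.t (cix 2) ^ k)⁻¹ * e)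
  refine ⟨x / alt L.t 0, L.mem_Lt_Ln.2 ?_, (mul_div_cancel₀ _ n0).symm⟩
  convert hz using 1
  change _ / alt L.t 4 ^ k = _ at e'
  change _ / alt L.t 4 ^ (k - 1) = _
  rw [zpow_sub_one₀ n4, div_mul_eq_div_div, div_inv_eq_mul]
  linear_combination (exp := 1) (alt L.t 4 / alt L.t 0) * e' + z * (mul_inv_cancel₀ n4) *
    (alt L.t 0 * (alt L.t 0)⁻¹) + z * mul_inv_cancel₀ n0

theorem mem_Lt_nat {ν : Fin 3} {j : ℕ} {m : ℤ} {y : F} (hy : y ∈ Ln (Q.Ow w) L.t ν) :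
    y * alt L.t (cix ν) ^ j * L.g ^ m ∈ L.Lt Q.R ν ((j + 1 : ℕ) - 1) m := by
  rwa [mem_Lt_Ln, mul_div_cancel_right₀ _ (zpow_ne_zero _ L.g_ne), Nat.cast_succ,
    add_sub_cancel_right, zpow_natCast,
    mul_div_cancel_right₀ _ (pow_ne_zero _ (show alt L.t (cix ν) ≠ 0 from L.alp_ne ν))]

theorem a_two {k m m' : ℤ} (hk : 2 ≤ k) (ψ : F →+ F) (hψ : RLin Q.X ψ)
    (h : ∀ z ∈ L.Lt Q.R 2 0 m, ψ z ∈ L.Lt Q.R 2 k m') :
    ∃ ψ0 : F →+ F, RLin Q.X ψ0 ∧ (∀ ν, ∀ z ∈ L.Lt Q.R ν 0 m, ψ0 z ∈ L.Lt Q.R ν k m') ∧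
      ∀ z ∈ L.Lt Q.R 2 0 m, ∃ y0 ∈ L.Lt Q.R 2 (k - 1) m', ∃ y1 ∈ L.Lt Q.R 2 (k - 1) m',
        ψ z = ψ0 z + alp L.t 0 * y0 + alp L.t 1 * y1 := by
  obtain ⟨j, rfl⟩ : ∃ j : ℕ, k = (j + 2 : ℕ) := ⟨(k - 2).toNat, by omega⟩
  have n4 : alt L.t 4 ≠ 0 := L.alp_ne 2
  have ng : L.g ^ m' ≠ 0 := zpow_ne_zero _ L.g_ne
  obtain ⟨γ, h1, h2⟩ := L.mdl.lat_two j (ψ := scl (L.g ^ m) (L.g ^ m') ψ)
    (fun c hc => L.lin_scl hψ _ _ c ((le_sup_right : _ ≤ O12 (Q.Ow w) L.t) hc))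
    fun x hx => L.mem_Ln_scl h hx
  obtain ⟨g1, g2, g3⟩ := glob_scl h1 m m'
  refine ⟨_, g1, g3, fun z hz => ?_⟩
  obtain ⟨x, hx, rfl⟩ := L.exists_of_mem_Lt hz
  obtain ⟨y0, hy0, y1, hy1, e⟩ := h2 x hx
  refine ⟨_, L.mem_Lt_nat (j := j + 1) hy0, _, L.mem_Lt_nat (j := j + 1) hy1, ?_⟩
  rw [g2]
  rw [scl_apply] at e
  simp only [alp, cix, Matrix.cons_val]
  field_simp at e
  exact mul_right_cancel₀ n4 (by linear_combination e)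

/-- `y` lies in the lattice of the overlap of the charts 1 and 2. -/
theorem a_one {k m m' : ℤ} (hk : 1 ≤ k) (ψ1 ψ2 : F →+ F) (r1 : RLin Q.X ψ1) (r2 : RLin Q.X ψ2)
    (h1 : ∀ z ∈ L.Lt Q.R 1 0 m, ψ1 z ∈ L.Lt Q.R 1 k m')
    (h2 : ∀ z ∈ L.Lt Q.R 2 0 m, ψ2 z ∈ L.Lt Q.R 2 k m')
    (e : ∀ z ∈ L.Lt Q.R 1 0 m, ∃ (y : F) (T : ℕ), alp L.t 2 ^ T * y ∈ L.Lt Q.R 1 (k - 1 + T) m' ∧
      ψ1 z = ψ2 z + alp L.t 0 * y) :
    ∃ ψ0 : F →+ F, RLin Q.X ψ0 ∧ (∀ ν, ∀ z ∈ L.Lt Q.R ν 0 m, ψ0 z ∈ L.Lt Q.R ν k m') ∧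
      (∀ z ∈ L.Lt Q.R 1 0 m, ∃ y ∈ L.Lt Q.R 1 (k - 1) m', ψ1 z = ψ0 z + alp L.t 0 * y) ∧
      ∀ z ∈ L.Lt Q.R 2 0 m, ∃ y ∈ L.Lt Q.R 2 (k - 1) m', ψ2 z = ψ0 z + alp L.t 0 * y := by
  obtain ⟨j, rfl⟩ : ∃ j : ℕ, k = (j + 1 : ℕ) := ⟨(k - 1).toNat, by omega⟩
  have n0 : alt L.t 0 ≠ 0 := L.alp_ne 0
  have n1 : alt L.t 1 ≠ 0 := L.alp_ne 1
  have n4 : alt L.t 4 ≠ 0 := L.alp_ne 2
  have ng : L.g ^ m' ≠ 0 := zpow_ne_zero _ L.g_ne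
  obtain ⟨γ, g0, k1, k2⟩ := L.mdl.one_aux j (L.lin_scl r1 (L.g ^ m) (L.g ^ m'))
    (L.lin_scl r2 (L.g ^ m) (L.g ^ m'))
    (fun x hx => L.mem_Ln_scl h1 hx) (fun x hx => L.mem_Ln_scl h2 hx)
    fun x hx => by
      obtain ⟨y, T, hy, e'⟩ := e _ (L.mem_Lt_zero.2 hx)
      rw [mem_Lt_Ln, show ((j + 1 : ℕ) - 1 + T : ℤ) = (j + T : ℕ) by omega, zpow_natCast] at hy
      convert mul_mem (pow_mem (L2_le (On_le_Ln 2 (alt_div_mem_On (ν := 2) n4 1))) T)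
        (L1_le hy) using 1
      rw [scl_apply, scl_apply, e']
      simp only [alp, cix, Matrix.cons_val, div_pow]
      field_simp
      ring
  obtain ⟨g1, g2, g3⟩ := glob_scl g0 m m'
  refine ⟨_, g1, g3, fun z hz => ?_, fun z hz => ?_⟩ <;>
    obtain ⟨x, hx, rfl⟩ := L.exists_of_mem_Lt hz
  · refine ⟨_, L.mem_Lt_nat (k1 x hx), ?_⟩
    rw [g2, scl_apply]
    simp only [alp, cix, Matrix.cons_val]
    field_simp
    ring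
  · refine ⟨_, L.mem_Lt_nat (k2 x hx), ?_⟩
    rw [g2, scl_apply]
    simp only [alp, cix, Matrix.cons_val]
    field_simp
    ring

end Kum.Loc

end Pool.Agent.Lib.MP_d3d358_ag.K
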