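import Pool.Agent.Lib.MP_d3d358_ag.K.Defs

/-! The localised module of theta functions is a ring; common denominators exist. -/

set_option autoImplicit false

namespace Pool.Agent.Lib.MP_d3d358_ag.K

open Pool.Agent.Lib.MP_d3d358_ag.Var (G sg chi ivt alt cix crd Equi)

variable {F : Type} [Field F] [Algebra ℂ F] [MulSemiringAction G F] [SMulCommClass G ℂ F]

namespace Kum

variable {Q : Kum F} {w : Q.Pt}

theorem inv_of_U_pow {m : ℕ} {σ : F} (h : σ ∈ Q.U ^ m) (g : G) : g • σ = σ := by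
  induction h using Submodule.pow_induction_on_left' with
  | algebraMap r => rw [Algebra.algebraMap_eq_smul_one, smul_comm, smul_one]
  | add x y i _ _ hx hy => rw [smul_add, hx, hy]
  | mem_mul u hu i x _ hx => rw [smul_mul', hx, hu.2, Pi.one_apply, one_smul]

theorem inv_of_Sig {m : ℕ} {σ : F} (h : σ ∈ Q.Sig w m) (g : G) : g • σ = σ :=
  inv_of_U_pow (Q.Sig_sub w m σ h) g

theorem inv_of_Ow {x : F} (h : x ∈ Q.Ow w) (g : G) : g • x = x := by
  obtain ⟨m, σ, hσ, hx⟩ := h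
  have := inv_of_U_pow hx g
  rw [smul_mul', inv_of_Sig hσ] at this
  exact mul_right_cancel₀ (Q.Sig_ne w m σ hσ) this

theorem U_of_Sig {g : F} (h : g ∈ Q.Sig w 1) : g ∈ Q.U := by
  have := Q.Sig_sub w 1 g h
  rwa [pow_one] at this

theorem Sig_powN {m : ℕ} {σ : F} (h : σ ∈ Q.Sig w m) (n : ℕ) : σ ^ n ∈ Q.Sig w (n * m) := by
  induction n with
  | zero => simpa using Q.Sig_one w
  | succ n ih => rw [pow_succ, Nat.succ_mul]; exact Q.Sig_mul w _ _ _ ih _ h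

/-- Quotients of invariant forms lie in the local ring. -/
theorem div_mem_OwN {m : ℕ} {σ x : F} (h : σ ∈ Q.Sig w m) (hx : x ∈ Q.U ^ m) : x / σ ∈ Q.Ow w :=
  ⟨m, σ, h, by rwa [div_mul_cancel₀ _ (Q.Sig_ne w m σ h)]⟩

theorem div_mem_Yw {g : F} {Y : Submodule ℂ F} {y : F} (hy : y ∈ Y) : y / g ∈ Q.Yw w g Y := by
  rw [div_eq_inv_mul, ← one_mul (g⁻¹ * y)]
  exact Submodule.mul_mem_mul (one_mem (Q.Ow w))
    (Submodule.mul_mem_mul (Submodule.mem_span_singleton_self _) hy)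

theorem Ow_mul_mem_Yw {g : F} {Y : Submodule ℂ F} {a y : F} (ha : a ∈ Q.Ow w)
    (hy : y ∈ Q.Yw w g Y) : a * y ∈ Q.Yw w g Y := mul_mem_self ha hy

theorem Yw_induction {g : F} {Y : Submodule ℂ F} {C : F → Prop} {x : F} (hx : x ∈ Q.Yw w g Y)
    (h1 : ∀ a ∈ Q.Ow w, ∀ y ∈ Y, C (a * (y / g))) (h2 : ∀ x y, C x → C y → C (x + y)) : C x := by
  refine Submodule.mul_induction_on hx (fun a ha z hz => ?_) h2
  obtain ⟨y, hy, rfl⟩ := Submodule.mem_span_singleton_mul.1 hz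
  rw [inv_mul_eq_div]
  exact h1 a ha y hy

/-- The elements of the localised module are the fractions. -/
theorem mem_Yw_iff {g : F} (hg : g ∈ Q.Sig w 1) {Y : Submodule ℂ F} {x : F} :
    x ∈ Q.Yw w g Y ↔ ∃ m, ∃ σ ∈ Q.Sig w (m + 1), σ * x ∈ Q.U ^ m * Y := by
  have g0 := Q.Sig_ne w 1 g hg
  constructor
  · intro hx
    refine Yw_induction (C := fun x => ∃ m, ∃ σ ∈ Q.Sig w (m + 1), σ * x ∈ Q.U ^ m * Y) hx ?_ ?_
    · rintro a ⟨m, σ, hσ, ha⟩ y hy
      refine ⟨m, _, Q.Sig_mul w _ _ _ hσ _ hg, ?_⟩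
      rw [show σ * g * (a * (y / g)) = a * σ * y by field_simp]
      exact Submodule.mul_mem_mul ha hy
    · rintro x y ⟨m, σ, hσ, hx⟩ ⟨n, τ, hτ, hy⟩
      refine ⟨m + 1 + n, _, Q.Sig_mul w _ _ _ hσ _ hτ, ?_⟩
      rw [show σ * τ * (x + y) = τ * (σ * x) + σ * (τ * y) by ring]
      refine add_mem ?_ ?_
      · rw [show m + 1 + n = n + 1 + m by ring, pow_add, mul_assoc]
        exact Submodule.mul_mem_mul (Q.Sig_sub w _ _ hτ) hx
      · rw [pow_add, mul_assoc]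
        exact Submodule.mul_mem_mul (Q.Sig_sub w _ _ hσ) hy
  · rintro ⟨m, σ, hσ, hx⟩
    have s0 := Q.Sig_ne w _ σ hσ
    rw [show x = σ * x / σ by field_simp]
    refine Submodule.mul_induction_on (C := fun z => z / σ ∈ Q.Yw w g Y) hx (fun a ha y hy => ?_)
      fun a b ha hb => by rw [add_div]; exact add_mem ha hb
    rw [show a * y / σ = a * g / σ * (y / g) by field_simp]
    exact Ow_mul_mem_Yw (div_mem_OwN hσ (by
      rw [pow_succ]; exact Submodule.mul_mem_mul ha (U_of_Sig hg))) (div_mem_Yw hy)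

theorem one_mem_Yw {g : F} (hg : g ∈ Q.Sig w 1) : (1 : F) ∈ Q.Yw w g Q.R := by
  rw [← div_self (Q.Sig_ne w 1 g hg)]
  exact div_mem_Yw (U_of_Sig hg).1

theorem mul_mem_Yw {g : F} (hg : g ∈ Q.Sig w 1) {x y : F} (hx : x ∈ Q.Yw w g Q.R)
    (hy : y ∈ Q.Yw w g Q.R) : x * y ∈ Q.Yw w g Q.R := by
  obtain ⟨m, σ, hσ, hx⟩ := (mem_Yw_iff hg).1 hx
  obtain ⟨n, τ, hτ, hy⟩ := (mem_Yw_iff hg).1 hy
  refine (mem_Yw_iff hg).2 ⟨m + 1 + n, _, Q.Sig_mul w _ _ _ hσ _ hτ, ?_⟩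
  have h := Submodule.mul_mem_mul hx hy
  rw [mul_mul_mul_comm (Q.U ^ m)] at h
  have h2 := mul_le_mul_right Q.RR _ h
  rwa [mul_mul_mul_comm σ, ← mul_assoc, ← pow_add, ← pow_succ, add_right_comm] at h2

/-- The localised module of all theta functions as a ring. -/
noncomputable def Ys {g : F} (hg : g ∈ Q.Sig w 1) : Subalgebra ℂ F :=
  (Q.Yw w g Q.R).toSubalgebra (one_mem_Yw hg) fun _ _ => mul_mem_Yw hg

theorem mem_Ys {g : F} (hg : g ∈ Q.Sig w 1) {x : F} : x ∈ Ys hg ↔ x ∈ Q.Yw w g Q.R := Iff.rfl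

theorem Ow_le_Ys {g : F} (hg : g ∈ Q.Sig w 1) : Q.Ow w ≤ Ys hg := fun a ha => by
  rw [← mul_one a]; exact Ow_mul_mem_Yw ha (one_mem_Yw hg)

theorem smul_mem_Yw {g : F} (hg : g ∈ Q.Sig w 1) {x : F} (hx : x ∈ Q.Yw w g Q.R) (k : G) :
    k • x ∈ Q.Yw w g Q.R :=
  Yw_induction (C := fun x => k • x ∈ Q.Yw w g Q.R) hx (fun a ha y hy => by
    rw [smul_mul', smul_div₀', inv_of_Ow ha, inv_of_Sig hg]
    exact Ow_mul_mem_Yw ha (div_mem_Yw (Q.gR k y hy))) fun x y hx hy => by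
      rw [smul_add]; exact add_mem hx hy

/-- A linear projection that commutes with invariant functions. -/
theorem proj_mem_mul (π : F →ₗ[ℂ] F) (hπ : ∀ a, (∀ k : G, k • a = a) → ∀ x, π (a * x) = a * π x)
    {Y : Submodule ℂ F} (hY : ∀ y ∈ Q.R, π y ∈ Y) {m : ℕ} {x : F} (hx : x ∈ Q.U ^ m * Q.R) :
    π x ∈ Q.U ^ m * Y :=
  Submodule.mul_induction_on (C := fun x => π x ∈ Q.U ^ m * Y) hx
    (fun a ha y hy => by rw [hπ a (inv_of_U_pow ha)]; exact Submodule.mul_mem_mul ha (hY y hy))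
    fun a b ha hb => by rw [map_add]; exact add_mem ha hb

end Kum

/-- The projection to the isotypic part of a character with values `±1`. -/
noncomputable def prC (χ : G → ℂ) : F →ₗ[ℂ] F :=
  (6 : ℂ)⁻¹ • ∑ g : G, χ g • DistribSMul.toLinearMap ℂ F g

theorem prC_apply (χ : G → ℂ) (x : F) : prC χ x = (6 : ℂ)⁻¹ • ∑ g : G, χ g • g • x := by
  simp [prC, LinearMap.sum_apply]

theorem prC_mul (χ : G → ℂ) {a : F} (ha : ∀ g : G, g • a = a) (x : F) :
    prC χ (a * x) = a * prC χ x := by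
  simp only [prC_apply, smul_mul', ha, Finset.mul_sum, mul_smul_comm, Finset.smul_sum]

theorem prC_eq {χ : G → ℂ} (h2 : ∀ g, χ g * χ g = 1) {x : F} (hx : ∀ g : G, g • x = χ g • x) :
    prC χ x = x := by
  simp only [prC_apply, hx, smul_smul, h2, one_smul, Finset.sum_const, Finset.card_univ,
    DihedralGroup.card]
  rw [← Nat.cast_smul_eq_nsmul ℂ, smul_smul]
  norm_num

theorem smul_prC {χ : G → ℂ} (hχ : ∀ g h, χ (g * h) = χ g * χ h) (h2 : ∀ g, χ g * χ g = 1)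
    (k : G) (x : F) : k • prC χ x = χ k • prC χ x := by
  rw [prC_apply, smul_comm k, smul_comm (χ k), Finset.smul_sum, Finset.smul_sum (r := χ k)]
  congr 1
  refine Fintype.sum_equiv (Equiv.mulLeft k) _ _ fun g => ?_
  rw [Equiv.coe_mulLeft, hχ, smul_smul, ← mul_assoc, h2, one_mul, smul_comm k, mul_smul]

theorem prC_mem_eig {χ : G → ℂ} (hχ : ∀ g h, χ (g * h) = χ g * χ h) (h2 : ∀ g, χ g * χ g = 1)
    {R : Submodule ℂ F} (hR : ∀ (g : G), ∀ x ∈ R, g • x ∈ R) {x : F} (hx : x ∈ R) :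
    prC χ x ∈ eig R χ :=
  ⟨by rw [prC_apply]; exact R.smul_mem _ (sum_mem fun g _ => R.smul_mem _ (hR g x hx)),
    fun k => smul_prC hχ h2 k x⟩

/-- The projection to the part of weight `ω`. -/
noncomputable def prW : F →ₗ[ℂ] F :=
  (3 : ℂ)⁻¹ • ∑ k : ZMod 3, chi k • DistribSMul.toLinearMap ℂ F (DihedralGroup.r k : G)

theorem prW_apply (x : F) :
    prW x = (3 : ℂ)⁻¹ • ∑ k : ZMod 3, chi k • (DihedralGroup.r k : G) • x := by
  simp [prW, LinearMap.sum_apply]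

theorem prW_mul {a : F} (ha : ∀ g : G, g • a = a) (x : F) : prW (a * x) = a * prW x := by
  simp only [prW_apply, smul_mul', ha, Finset.mul_sum, mul_smul_comm, Finset.smul_sum]

theorem r_smul_of_wt {x : F} (hx : (DihedralGroup.r 1 : G)⁻¹ • x = chi 1 • x) (k : ZMod 3) :
    (DihedralGroup.r k : G) • x = chi (-k) • x := by
  have h2 : (DihedralGroup.r 2 : G) • x = chi 1 • x := hx
  have h1 : (DihedralGroup.r 1 : G) • x = chi 2 • x := by
    rw [show (DihedralGroup.r 1 : G) = .r 2 * .r 2 by decide, mul_smul, h2, smul_comm, h2,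
      smul_smul, ← Var.chi_add]
    rfl
  fin_cases k
  · change (1 : G) • x = chi 0 • x
    rw [Var.chi_zero, one_smul, one_smul]
  · exact h1
  · exact h2

theorem prW_eq {x : F} (hx : (DihedralGroup.r 1 : G)⁻¹ • x = chi 1 • x) : prW x = x := by
  simp only [prW_apply, r_smul_of_wt hx, smul_smul, Var.chi_mul_neg, one_smul, Finset.sum_const,
    Finset.card_univ, ZMod.card]
  rw [← Nat.cast_smul_eq_nsmul ℂ, smul_smul]
  norm_num

theorem smul_prW (x : F) : (DihedralGroup.r 1 : G)⁻¹ • prW x = chi 1 • prW x := by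
  rw [prW_apply, smul_comm _ (3 : ℂ)⁻¹, smul_comm (chi 1), Finset.smul_sum,
    Finset.smul_sum (r := chi 1)]
  congr 1
  refine Fintype.sum_equiv (Equiv.subRight 1) _ _ fun k => ?_
  rw [Equiv.subRight_apply, smul_smul, ← Var.chi_add, add_sub_cancel, smul_comm, smul_smul]
  congr 2

theorem prW_mem_wt {R : Submodule ℂ F} (hR : ∀ (g : G), ∀ x ∈ R, g • x ∈ R) {x : F} (hx : x ∈ R) :
    prW x ∈ wt R :=
  ⟨by rw [prW_apply]; exact R.smul_mem _ (sum_mem fun g _ => R.smul_mem _ (hR _ x hx)), smul_prW x⟩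

omit [SMulCommClass G ℂ F] in
theorem wt_covs {t : Fin 4 → F} (ht : Equi t) (μ : Fin 5) :
    (DihedralGroup.r 1 : G)⁻¹ • covs t μ = chi 1 • covs t μ := by
  have h : ∀ i, (DihedralGroup.r 1 : G)⁻¹ • t i = Var.gv (DihedralGroup.r 1) t i := fun i => ht _ i
  have e : chi (-1) * chi (-1) = chi 1 := by rw [← Var.chi_add]; rfl
  fin_cases μ <;> simp [covs, -DihedralGroup.inv_r, smul_mul', sq, h, Var.gv_r, smul_smul, e]

namespace Kum

variable {Q : Kum F} {w : Q.Pt}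

theorem mem_mul_V {m : ℕ} {x : F} (hx : x ∈ Q.U ^ m * Q.R) (h : ∀ g : G, g • x = sg g • x) :
    x ∈ Q.U ^ m * Q.V :=
  prC_eq Var.sg_mul_self h ▸ proj_mem_mul (prC sg) (fun _ => prC_mul sg)
    (fun _ => prC_mem_eig Var.sg_mul Var.sg_mul_self Q.gR) hx

theorem mem_mul_U {m : ℕ} {x : F} (hx : x ∈ Q.U ^ m * Q.R) (h : ∀ g : G, g • x = x) :
    x ∈ Q.U ^ (m + 1) := by
  rw [pow_succ, ← prC_eq (χ := 1) (x := x) (by simp) fun g => by rw [h, Pi.one_apply, one_smul]]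
  exact proj_mem_mul (prC 1) (fun _ => prC_mul 1)
    (fun _ => prC_mem_eig (by simp) (by simp) Q.gR) hx

theorem mem_mul_W {m : ℕ} {x : F} (hx : x ∈ Q.U ^ m * Q.R)
    (h : (DihedralGroup.r 1 : G)⁻¹ • x = chi 1 • x) : x ∈ Q.U ^ m * Q.W :=
  prW_eq h ▸ proj_mem_mul prW (fun _ => prW_mul) (fun _ => prW_mem_wt Q.gR) hx

/-- A common denominator for finitely many elements. -/
theorem exists_den {g : F} (hg : g ∈ Q.Sig w 1) {Y : Submodule ℂ F} {ι : Type} [Finite ι]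
    {x : ι → F} (hx : ∀ i, x i ∈ Q.Yw w g Y) :
    ∃ m, ∃ σ ∈ Q.Sig w (m + 1), ∀ i, σ * x i ∈ Q.U ^ m * Y := by
  classical
  have := Fintype.ofFinite ι
  suffices h : ∀ s : Finset ι, ∃ m, ∃ σ ∈ Q.Sig w (m + 1), ∀ i ∈ s, σ * x i ∈ Q.U ^ m * Y by
    obtain ⟨m, σ, hσ, h⟩ := h Finset.univ
    exact ⟨m, σ, hσ, fun i => h i (Finset.mem_univ i)⟩
  intro s
  induction s using Finset.induction_on with
  | empty => exact ⟨0, g, hg, by simp⟩
  | insert a s _ ih =>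
    obtain ⟨m, σ, hσ, h⟩ := ih
    obtain ⟨n, τ, hτ, h'⟩ := (mem_Yw_iff hg).1 (hx a)
    refine ⟨m + 1 + n, _, Q.Sig_mul w _ _ _ hσ _ hτ, fun i hi => ?_⟩
    rcases Finset.mem_insert.1 hi with rfl | hi
    · rw [pow_add, mul_assoc, mul_assoc]
      exact Submodule.mul_mem_mul (Q.Sig_sub w _ _ hσ) h'
    · rw [show m + 1 + n = n + 1 + m by ring, pow_add, mul_comm σ, mul_assoc, mul_assoc]
      exact Submodule.mul_mem_mul (Q.Sig_sub w _ _ hτ) (h i hi)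

namespace Loc

variable (L : Q.Loc w)

theorem Pm_le_Ys : Pm L.t ≤ Ys L.g_mem := Algebra.adjoin_le (by rintro _ ⟨i, rfl⟩; exact L.t_mem i)

theorem Ot_eq_Ys : L.Ot = Ys L.g_mem :=
  le_antisymm (sup_le (Ow_le_Ys _) L.Pm_le_Ys) fun _ hx =>
    Submodule.mul_induction_on (C := fun x => x ∈ L.Ot) (L.gen hx)
      (fun _ ha _ hb => L.Ot.mul_mem (le_sup_left (α := Subalgebra ℂ F) ha)
        (le_sup_right (α := Subalgebra ℂ F) hb)) fun _ _ => add_mem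

theorem mem_Ot {x : F} : x ∈ L.Ot ↔ x ∈ Q.Yw w L.g Q.R := by rw [Ot_eq_Ys, mem_Ys]

theorem alt_mem_Yw (μ : Fin 5) : alt L.t μ ∈ Q.Yw w L.g Q.R := by
  have h : ∀ i, L.t i ∈ Ys L.g_mem := L.t_mem
  change _ ∈ Ys L.g_mem
  exact Var.map_alt (Ys L.g_mem).val (fun i => ⟨L.t i, h i⟩) μ ▸ Subtype.prop _

theorem covs_mem_Yw (μ : Fin 5) : covs L.t μ ∈ Q.Yw w L.g Q.R := by
  have h : ∀ i, L.t i ∈ Ys L.g_mem := L.t_mem
  change _ ∈ Ys L.g_mem
  fin_cases μ <;> simp [covs, h, mul_mem, pow_mem]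

theorem nonempty_nrm : Nonempty L.Nrm := by
  obtain ⟨m, σ, hσ, h⟩ := exists_den L.g_mem (x := Sum.elim (alt L.t) (covs L.t))
    (by rintro (μ | μ); exacts [L.alt_mem_Yw μ, L.covs_mem_Yw μ])
  have hi := inv_of_Sig hσ
  refine ⟨⟨m, _, Q.Sig_mul w _ _ _ hσ _ L.g_mem, fun μ => ?_, fun μ => ?_⟩⟩
  · rw [mul_right_comm, ← mul_assoc]
    exact Submodule.mul_mem_mul (mem_mul_V (h (.inl μ)) fun g => by
      rw [smul_mul', hi, L.equi.smul_alt, mul_smul_comm]) (U_of_Sig L.g_mem)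
  · rw [mul_right_comm, pow_succ, mul_right_comm]
    exact Submodule.mul_mem_mul (mem_mul_W (h (.inr μ)) (by
      rw [smul_mul', hi, wt_covs L.equi, mul_smul_comm])) (U_of_Sig L.g_mem)

end Loc

end Kum

end Pool.Agent.Lib.MP_d3d358_ag.K
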