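import Pool.Agent.Lib.MP_d3d358_ag.Bkr.LProjK
import Pool.Agent.Lib.MP_d3d358_ag.K.Nrm
import Pool.Agent.Lib.MP_d3d358_ag.K.Un

/-! The rank six sheaf is locally projective. -/

set_option autoImplicit false

namespace Pool.Agent.Lib.MP_d3d358_ag.K

open Pool.Agent.Lib.MP_cd184e_ag.T Pool.Agent.Lib.MP_cd184e_ag.T.Coh Cy
open Pool.Agent.Lib.MP_d3d358_ag.Var (G)
open Pool.Agent.Lib.MP_d3d358_ag.Bkr

variable {F : Type} [Field F] [Algebra ℂ F] [MulSemiringAction G F] [SMulCommClass G ℂ F]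
  {Q : Kum F} {w : Q.Pt}

namespace Kum

theorem Loc.O_le_lat_unit {L : Q.Loc w} (n : L.Nrm) (ν : Fin 3) {c : F} (hc : c ∈ L.O ν) :
    c ∈ (Emb.unit Q.X).Lat (Q.mon w) (n.fm ν) := by
  obtain ⟨ρ, hρ, h⟩ := (Loc.lat_unit n ν 0 0 (z := c)).2 (by simpa [Loc.gam] using hc)
  refine ⟨ρ, hρ, fun s => (h s).imp fun x e => ?_⟩
  rwa [Emb.tw_e, cy_zero, one_fp, div_one, one_smul] at e

/-- The rank six sheaf is locally projective. -/
theorem locProj_P (hL : ∀ w, Nonempty (Q.Loc w)) : LocProj Q.P := by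
  let L : ∀ w, Q.Loc w := fun w => (hL w).some
  let n : ∀ w, (L w).Nrm := fun w => (L w).nonempty_nrm.some
  have := locProj_of_link (Q.E Q.R le_rfl 0 0) L n 0 0 (fun w ν _ => Loc.lat_eq (n w) le_rfl ν 0 0)
    (fun w ν _ => Loc.O_le_lat_unit (n w) ν) fun w j => by
      obtain ⟨σ, hσ, h⟩ := Loc.null (n w) 1
      have := h (Q.X.one j)
      rw [pow_one, pow_one, pow_one] at this
      exact ⟨σ, hσ, this⟩
  exact fun j => this j

end Kum

end Pool.Agent.Lib.MP_d3d358_ag.K
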