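import Pool.Agent.Lib.MP_d3d358_ag.K.Un
import Pool.Agent.Lib.MP_d3d358_ag.K.LocC
import Pool.Agent.Lib.MP_d3d358_ag.K.Proj
import Pool.Agent.Lib.MP_d3d358_ag.K.Nrm
import Pool.Agent.Lib.MP_d3d358_ag.Bkr.LatE

/-! The hypotheses of the vanishing theorem for the rank six bundle. -/

set_option autoImplicit false

open CategoryTheory

namespace Pool.Agent.Lib.MP_d3d358_ag.K.Kum

open Pool.Agent.Lib.MP_cd184e_ag.T Pool.Agent.Lib.MP_cd184e_ag.T.Coh Cy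
open Pool.Agent.Lib.MP_d3d358_ag.Var (G)
open Pool.Agent.Lib.MP_d3d358_ag.Bkr

variable {F : Type} [Field F] [Algebra ℂ F] [MulSemiringAction G F] [SMulCommClass G ℂ F]
  {Q : Kum F} {w : Q.Pt} {N M : Coh Q.X} (E : Emb N F)

/-- The twist of bidegree `(k, m)` inside the field. -/
noncomputable abbrev etw (k m : ℤ) : Emb ((twc (Q.cy k m)).obj N) F := E.tw (Q.cy k m) 1 one_ne_zero

/-- The value of a section in bidegree `(k, m)`. -/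
noncomputable def vk (k m : ℤ) (s : Q.X.Idx) : N.obj s →+ F := (etw E k m).e s

theorem vk_smul (k m : ℤ) (s : Q.X.Idx) (a : Q.X.A s.1) (x : N.obj s) :
    vk E k m s (a • x) = a * vk E k m s x := (etw E k m).smul s a x

theorem vk_inj (k m : ℤ) (s : Q.X.Idx) : Function.Injective (vk E k m s) := (etw E k m).inj s

theorem vk_shift (k m k' m' : ℤ) (s : Q.X.Idx) (x : N.obj s) :
    vk E (k + k') (m + m') s x = (Q.cy k' m').fp s * vk E k m s x := by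
  change ((Q.cy (k + k') (m + m')).fp s / 1) • E.e s x = _ * (((Q.cy k m).fp s / 1) • E.e s x)
  rw [← cy_add, mul_fp, smul_eq_mul, smul_eq_mul, div_one, div_one, mul_comm ((Q.cy k m).fp s),
    mul_assoc]

theorem cy_pow (k m : ℤ) (t : ℕ) : Q.cy k m ^ t = Q.cy (t * k) (t * m) := by
  rw [cy, cy, mul_pow, ← zpow_natCast, ← zpow_natCast, ← zpow_mul, ← zpow_mul, mul_comm k,
    mul_comm m]

namespace Loc.Nrm

variable {L : Q.Loc w} (n : L.Nrm)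

/-- The common denominator as a form. -/
noncomputable def sfv : Fm Q.X := Q.fmU (Q.Sig_sub w _ _ n.σ_mem)

theorem sfv_mem : n.sfv ∈ Q.mon w := Q.fmU_mem n.σ_mem

theorem fmv_ne (ν : Fin 3) : (n.fm ν).r ≠ 0 :=
  mul_ne_zero (Q.Sig_ne w _ _ n.σ_mem) (L.alp_ne ν)

theorem fmv_sec (ν : Fin 3) (s : Q.X.Idx) :
    ((n.fm ν).sec s : F) * (Q.cy 1 0).fp s = n.sfv.sec s * alp L.t ν := by
  have h1 := (Q.cy 1 0).fp_ne s
  have h2 := (Q.cy 0 (n.e + 2 : ℕ)).fp_ne s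
  have e : Q.cy 1 (n.e + 2 : ℕ) = Q.cy 1 0 * Q.cy 0 (n.e + 2 : ℕ) := by
    rw [cy_add, add_zero, zero_add]
  rw [Fm.coe_sec, Fm.coe_sec]
  change n.σ * alp L.t ν / (Q.cy 1 (n.e + 2 : ℕ)).fp s * _ = n.σ / (Q.cy 0 (n.e + 2 : ℕ)).fp s * _
  rw [e, mul_fp]
  field_simp

theorem vk_fm (ν : Fin 3) (k m : ℤ) (s : Q.X.Idx) (y : N.obj s) :
    vk E k m s ((n.fm ν).sec s • y) = n.sfv.sec s * (alp L.t ν * vk E (k - 1) m s y) := by
  have := vk_shift E (k - 1) m 1 0 s y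
  rw [sub_add_cancel, add_zero] at this
  rw [vk_smul, this, ← mul_assoc, fmv_sec, mul_assoc]

theorem bigv (ν : Fin 3) : Big (Su (Q.mon w) (n.fm ν)) :=
  Big.su (fun _ h => Q.mon_ne h) (n.fmv_ne ν) (n.big_mon ν)

theorem triE : Tri (Q.mon w) (n.fm 0) (n.fm 1) (n.fm 2) := ⟨n.bigv 0, n.bigv 1, n.bigv 2, Loc.null n⟩

include E in
theorem inj0 (s : Q.X.Idx) (x : N.obj s) (hx : (n.fm 0).sec s • x = 0) : x = 0 := E.inj s (by
  have := congrArg (E.e s) hx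
  rw [E.smul, map_zero] at this
  rw [(smul_eq_zero.1 this).resolve_left (Fm.sec_ne (n.fmv_ne 0) s), map_zero])

/-- The values of the multiples of the form `fm ν`. -/
def mulS (ν : Fin 3) (k m : ℤ) (s : Q.X.Idx) : AddSubgroup F where
  carrier := {v | ∃ y, vk E k m s ((n.fm ν).sec s • y) = v}
  zero_mem' := ⟨0, by rw [smul_zero, map_zero]⟩
  add_mem' := by
    rintro _ _ ⟨y, rfl⟩ ⟨z, rfl⟩
    exact ⟨y + z, by rw [smul_add, map_add]⟩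
  neg_mem' := by
    rintro _ ⟨y, rfl⟩
    exact ⟨-y, by rw [smul_neg, map_neg]⟩

theorem mul_mem_mulS {ν : Fin 3} {k m : ℤ} {s : Q.X.Idx} {a : F} (ha : a ∈ Q.X.A s.1) {v : F}
    (hv : v ∈ n.mulS E ν k m s) : a * v ∈ n.mulS E ν k m s := by
  obtain ⟨y, rfl⟩ := hv
  exact ⟨(⟨a, ha⟩ : Q.X.A s.1) • y, by rw [smul_comm, vk_smul]⟩

/-- The lattices of the sheaves are those of the rank six bundle. -/
structure Link (E' : Emb M F) (a : ℤ) : Prop where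
  tgt : ∀ ν k m z, z ∈ (etw E k m).Lat (Q.mon w) (n.fm ν) ↔ z ∈ L.Lt Q.R ν k m
  src : ∀ ν z, z ∈ E'.Lat (Q.mon w) (n.fm ν) ↔ z ∈ L.Lt Q.R ν 0 a

variable {n E} {E' : Emb M F} {a : ℤ} (H : n.Link E E' a)
include H

theorem step {μ ν : Fin 3} {k m : ℤ} {s : Q.X.Idx} {κ y : F} (hκ : Den (Su (Q.mon w) (n.fm μ)) s κ)
    (hy : y ∈ L.Lt Q.R μ (k - 1) m) :
    ∃ ρ ∈ Su (Q.mon w) (n.fm μ), (ρ.sec s : F) * (alp L.t ν * (y / κ)) ∈ n.mulS E ν k m s := by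
  have h0 := hκ.ne (n.bigv μ).nz
  obtain ⟨ρ, hρ, z, hz⟩ := Emb.of_loc (E := etw E (k - 1) m) hκ (v := y / κ) (by
    rw [smul_eq_mul, mul_div_cancel₀ _ h0]; exact (H.tgt μ _ _ _).2 hy)
  refine ⟨n.sfv * ρ, mul_mem (mem_Su n.sfv_mem _) hρ, z, ?_⟩
  rw [vk_fm, show vk E (k - 1) m s z = (ρ.sec s : F) * (y / κ) from hz, Fm.mul_sec,
    MulMemClass.coe_mul]
  ring

theorem reg01 : ∃ σ ∈ Q.mon w, ∀ (s : Q.X.Idx) (x y : N.obj s),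
    (n.fm 1).sec s • x = (n.fm 0).sec s • y → ∃ z, σ.sec s • x = (n.fm 0).sec s • z := by
  obtain ⟨σ, hσ, h⟩ := unif3 (S := Q.mon w) (M := fun s => N.obj s)
    (fun s => (LinearMap.range ((n.fm 0).sec s • LinearMap.id)).comap
      ((n.fm 1).sec s • LinearMap.id))
    (fun s => LinearMap.range ((n.fm 0).sec s • LinearMap.id)) (Loc.null n)
    (fun s x _ => ⟨_, self_mem_Su _ _, x, rfl⟩)
    (fun s x hx => ⟨n.fm 1, self_mem_Su _ _, Submodule.mem_comap.1 hx⟩)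
    fun s x hx => by
      obtain ⟨y, hy⟩ := hx
      have hy' : (n.fm 0).sec s • y = (n.fm 1).sec s • x := hy
      obtain ⟨κ, hκ, e1, e2⟩ := (etw E 0 0).to_loc₂ (etw E 0 0) (n.bigv 2) ((etw E 0 0).e_mem s x)
        ((etw E 0 0).e_mem s y)
      have h0 := hκ.ne (n.bigv 2).nz
      have h1 := congrArg (vk E 1 0 s) hy'
      rw [vk_fm, vk_fm, sub_self] at h1
      have h2 := mul_left_cancel₀ (Fm.sec_ne (Q.mon_ne n.sfv_mem) s) h1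
      obtain ⟨z, hz, e⟩ := L.reg_two ((H.tgt 2 _ _ _).1 e1)
        ((H.tgt 2 _ _ _).1 e2) (by
          change _ * (κ * vk E 0 0 s x) = _ * (κ * vk E 0 0 s y)
          rw [mul_left_comm, ← h2, mul_left_comm])
      obtain ⟨ρ, hρ, z', hz'⟩ := step H (ν := 0) hκ hz
      refine ⟨ρ, hρ, z', vk_inj E 0 0 s ?_⟩
      have e' : κ * vk E 0 0 s x = alp L.t 0 * z := e
      refine hz'.trans ?_
      rw [vk_smul, mul_div_assoc', ← e', mul_div_cancel_left₀ _ h0]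
  exact ⟨σ, hσ, fun s x y e => (h s x ⟨y, e.symm⟩).imp fun _ hz => hz.symm⟩

omit H in
theorem rlin_sub {ψ φ : F →+ F} (h : RLin Q.X ψ) (h' : RLin Q.X φ) : RLin Q.X (ψ - φ) :=
  fun c hc v => by rw [AddMonoidHom.sub_apply, AddMonoidHom.sub_apply, h c hc, h' c hc, smul_sub]

/-- One form works for all sections. -/
theorem unif_mulS {μ : Fin 3} {k m : ℤ} {ψ : F →+ F} (hψ : RLin Q.X ψ)
    (h : ∀ z ∈ L.Lt Q.R μ 0 a, ∃ y0 ∈ L.Lt Q.R μ (k - 1) m, ∃ y1 ∈ L.Lt Q.R μ (k - 1) m,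
      ψ z = alp L.t 0 * y0 + alp L.t 1 * y1) (B : ∀ _ : Q.X.Idx, AddSubgroup F)
    (hB : ∀ s, ∀ c ∈ Q.X.A s.1, ∀ v ∈ B s, c • v ∈ B s) (h0 : ∀ s, n.mulS E 0 k m s ≤ B s)
    (h1 : (∀ s, n.mulS E 1 k m s ≤ B s) ∨ ∀ z ∈ L.Lt Q.R μ 0 a, ∃ y0 ∈ L.Lt Q.R μ (k - 1) m,
      ψ z = alp L.t 0 * y0) :
    ∃ σ ∈ Q.mon w, ∃ T : ℕ, ∀ s x,
      (σ.sec s : F) * (n.fm μ).sec s ^ T * ψ (E'.e s x) ∈ B s := by
  obtain ⟨_, ⟨σ, hσ, T, rfl⟩, e⟩ := unif1 (T := Su (Q.mon w) (n.fm μ)) (fun _ => ⊤)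
    (fun s => E'.pre hψ s (B s) (hB s)) fun s x _ => by
      obtain ⟨κ, hκ, e⟩ := E'.to_loc (n.bigv μ) (E'.e_mem s x)
      have hk := hκ.ne (n.bigv μ).nz
      have e' := (H.src μ _).1 e
      have hl := hψ κ (hκ.rat (n.bigv μ).nz) (E'.e s x)
      rcases h1 with h1 | h1
      · obtain ⟨y0, g0, y1, g1, e2⟩ := h _ e'
        obtain ⟨ρ0, r0, m0⟩ := step H (ν := 0) hκ g0
        obtain ⟨ρ1, r1, m1⟩ := step H (ν := 1) hκ g1
        refine ⟨ρ0 * ρ1, mul_mem r0 r1, (E'.smul_mem_pre hψ _ x).2 ?_⟩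
        have := add_mem (hB s _ (ρ1.sec s).2 _ (h0 s m0)) (hB s _ (ρ0.sec s).2 _ (h1 s m1))
        convert this using 1
        rw [hl, smul_eq_mul] at e2
        rw [Fm.mul_sec, MulMemClass.coe_mul, smul_eq_mul, smul_eq_mul, smul_eq_mul,
          eq_div_of_mul_eq hk ((mul_comm _ _).trans e2)]
        ring
      · obtain ⟨y0, g0, e2⟩ := h1 _ e'
        obtain ⟨ρ0, r0, m0⟩ := step H (ν := 0) hκ g0
        refine ⟨ρ0, r0, (E'.smul_mem_pre hψ _ x).2 ?_⟩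
        convert h0 s m0 using 1
        rw [hl, smul_eq_mul] at e2
        rw [smul_eq_mul, eq_div_of_mul_eq hk ((mul_comm _ _).trans e2), mul_div_assoc]
  refine ⟨σ, hσ, T, fun s x => ?_⟩
  have := (E'.smul_mem_pre hψ _ x).1 (e s x trivial)
  rwa [Fm.mul_sec, Fm.pow_sec, MulMemClass.coe_mul, SubmonoidClass.coe_pow, smul_eq_mul] at this

/-- The map of generic fibres of a map into a twist by a power of `fm ν`. -/
theorem hat (ν : Fin 3) {k m : ℤ} {t : ℕ}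
    (φ : M ⟶ (twc (Q.cy k m * (n.fm ν).d ^ t)).obj N) :
    ∃ ψ : F →+ F, RLin Q.X ψ ∧ (∀ s x, vk E k m s (show N.obj s from φ.app s x) = (n.fm ν).sec s ^ t * ψ (E'.e s x)) ∧
      ∀ z ∈ L.Lt Q.R ν 0 a, ψ z ∈ L.Lt Q.R ν k m := by
  obtain ⟨ψ, hψ, e, hk⟩ := E'.exists_hat_tw E (Q.cy k m)
    one_ne_zero (ρ := n.fm ν ^ t) (by rw [Fm.pow_r]; exact pow_ne_zero _ (n.fmv_ne ν))
    (by rw [Fm.pow_d]) φ
  refine ⟨ψ, hψ, fun s x => ?_, fun z hz => (H.tgt ν _ _ _).1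
    (hk _ (pow_mem (self_mem_Su _ _) t) z ((H.src ν _).2 hz))⟩
  have := e s x
  rwa [Fm.pow_sec, SubmonoidClass.coe_pow, smul_eq_mul] at this

/-- The map of sheaves of a map that keeps the three lattices. -/
theorem unhat {k m : ℤ} {ψ : F →+ F} (hψ : RLin Q.X ψ)
    (h : ∀ ν, ∀ z ∈ L.Lt Q.R ν 0 a, ψ z ∈ L.Lt Q.R ν k m) : ∃ σ ∈ Q.mon w, ∀ τ ∈ Q.mon w,
    ∃ φ : M ⟶ (twc (Q.cy k m * (σ * τ).d)).obj N,
      ∀ s x, vk E k m s (show N.obj s from φ.app s x) = σ.sec s * τ.sec s * ψ (E'.e s x) := by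
  have hk : ∀ ν, Keeps ψ (E'.Lat (Q.mon w) (n.fm ν)) ((etw E k m).Lat (Q.mon w) (n.fm ν)) :=
    fun ν z hz => (H.tgt ν _ _ _).2 (h ν z ((H.src ν _).1 hz))
  obtain ⟨σ, hσ, e⟩ := Emb.ext3 n.triE hψ (hk 0) (hk 1) (hk 2)
  refine ⟨σ, hσ, fun τ hτ => ?_⟩
  obtain ⟨φ, hφ⟩ := E'.exists_hom_tw E (Q.cy k m)
    one_ne_zero (Q.mon_ne (mul_mem hσ hτ)) hψ fun s x => by
      rw [Fm.mul_sec, MulMemClass.coe_mul, mul_comm, mul_smul]
      exact Emb.smul_mem (τ.sec s).2 (e s x)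
  refine ⟨φ, fun s x => ?_⟩
  have := hφ s x
  rwa [Fm.mul_sec, MulMemClass.coe_mul, smul_eq_mul] at this

theorem van_two {k m : ℤ} (hk : 2 ≤ k) (t : ℕ)
    (φ : M ⟶ (twc (Q.cy k m * (n.fm 2).d ^ t)).obj N) :
    ∃ σ ∈ Q.mon w, ∃ (T : ℕ) (φ0 : M ⟶ (twc (Q.cy k m * σ.d)).obj N),
      ∀ (s : Q.X.Idx) (x : M.obj s), ∃ y0 y1 : N.obj s,
        (σ.sec s * (n.fm 2).sec s ^ T) • (show N.obj s from φ.app s x) =
          (n.fm 2).sec s ^ (T + t) • (show N.obj s from φ0.app s x) + (n.fm 0).sec s • y0 +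
            (n.fm 1).sec s • y1 := by
  obtain ⟨ψ, hψ, e, hl⟩ := hat H 2 φ
  obtain ⟨ψ0, r0, k0, h⟩ := L.a_two hk ψ hψ hl
  obtain ⟨σ, hσ, hφ⟩ := unhat H r0 k0
  obtain ⟨τ, hτ, T, hu⟩ := unif_mulS H (μ := 2) (k := k) (m := m) (rlin_sub hψ r0)
    (fun z hz => by
      obtain ⟨y0, g0, y1, g1, e⟩ := h z hz
      exact ⟨y0, g0, y1, g1, by rw [AddMonoidHom.sub_apply, e]; ring⟩)
    (fun s => n.mulS E 0 k m s ⊔ n.mulS E 1 k m s) (fun s c hc v hv => by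
      obtain ⟨v0, g0, v1, g1, rfl⟩ := AddSubgroup.mem_sup.1 hv
      rw [smul_eq_mul, mul_add]
      exact AddSubgroup.mem_sup.2 ⟨_, n.mul_mem_mulS E hc g0, _, n.mul_mem_mulS E hc g1, rfl⟩)
    (fun _ => le_sup_left) (Or.inl fun _ => le_sup_right)
  obtain ⟨φ0, e0⟩ := hφ τ hτ
  refine ⟨σ * τ, mul_mem hσ hτ, T, φ0, fun s x => ?_⟩
  obtain ⟨_, ⟨y0, rfl⟩, _, ⟨y1, rfl⟩, g⟩ := AddSubgroup.mem_sup.1 (hu s x)
  refine ⟨(σ.sec s * (n.fm 2).sec s ^ t) • y0, (σ.sec s * (n.fm 2).sec s ^ t) • y1,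
    vk_inj E k m s ?_⟩
  simp only [vk_smul, AddMonoidHom.sub_apply] at g
  simp only [map_add, vk_smul, e, e0, Fm.mul_sec, MulMemClass.coe_mul, SubmonoidClass.coe_pow]
  linear_combination (-(σ.sec s : F) * (n.fm 2).sec s ^ t) * g

theorem van_one {k m : ℤ} (hk : 1 ≤ k) (t : ℕ)
    (φ1 : M ⟶ (twc (Q.cy k m * (n.fm 1).d ^ t)).obj N)
    (φ2 : M ⟶ (twc (Q.cy k m * (n.fm 2).d ^ t)).obj N)
    (hc : ∀ (s : Q.X.Idx) (x : M.obj s), ∃ y : N.obj s,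
      (n.fm 2).sec s ^ t • (show N.obj s from φ1.app s x) =
        (n.fm 1).sec s ^ t • (show N.obj s from φ2.app s x) + (n.fm 0).sec s • y) :
    ∃ σ ∈ Q.mon w, ∃ (T : ℕ) (φ0 : M ⟶ (twc (Q.cy k m * σ.d)).obj N),
      ∀ (s : Q.X.Idx) (x : M.obj s),
        (∃ y : N.obj s, (σ.sec s * (n.fm 1).sec s ^ T) • (show N.obj s from φ1.app s x) =
          (n.fm 1).sec s ^ (T + t) • (show N.obj s from φ0.app s x) + (n.fm 0).sec s • y) ∧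
        ∃ y : N.obj s, (σ.sec s * (n.fm 2).sec s ^ T) • (show N.obj s from φ2.app s x) =
          (n.fm 2).sec s ^ (T + t) • (show N.obj s from φ0.app s x) + (n.fm 0).sec s • y := by
  obtain ⟨ψ1, r1, e1, l1⟩ := hat H 1 φ1
  obtain ⟨ψ2, r2, e2, l2⟩ := hat H 2 φ2
  obtain ⟨ψ0, r0, k0, h1, h2⟩ := L.a_one hk ψ1 ψ2 r1 r2 l1 l2 fun z hz => by
    have ha := L.alp_ne 0
    refine ⟨(ψ1 z - ψ2 z) / alp L.t 0, t, (H.tgt 1 _ _ _).1 ?_, by field_simp; ring⟩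
    obtain ⟨ρ, hρ, hz⟩ := (H.src 1 _).2 hz
    refine ⟨n.sfv ^ t * n.fm 1 ^ t * ρ, mul_mem (mul_mem (pow_mem (mem_Su n.sfv_mem _) t)
      (pow_mem (self_mem_Su _ _) t)) hρ, fun s => ?_⟩
    obtain ⟨x, hx⟩ := hz s
    obtain ⟨y, hy⟩ := hc s x
    have hx' : E'.e s x = (ρ.sec s : F) • z := hx
    have g := congrArg (vk E k m s) hy
    rw [map_add, vk_fm, vk_smul, vk_smul, e1, e2, hx', r1 _ (coe_mem_Rat _), r2 _ (coe_mem_Rat _),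
      SubmonoidClass.coe_pow, SubmonoidClass.coe_pow, smul_eq_mul, smul_eq_mul] at g
    refine ⟨n.sfv.sec s • (show N.obj s from y), ?_⟩
    change vk E (k - 1 + t) m s _ = _
    have g1 := vk_shift E (k - 1) m (t * 1) (t * 0) s y
    rw [← cy_pow, pow_fp, mul_one, mul_zero, add_zero] at g1
    have g2 := congrArg (· ^ t) (n.fmv_sec 2 s)
    simp only [mul_pow] at g2
    rw [vk_smul, g1, Fm.mul_sec, Fm.mul_sec, Fm.pow_sec, Fm.pow_sec, MulMemClass.coe_mul,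
      MulMemClass.coe_mul, SubmonoidClass.coe_pow, SubmonoidClass.coe_pow, smul_eq_mul]
    field_simp
    linear_combination (-(Q.cy 1 0).fp s ^ t) * g +
      (((n.fm 1).sec s : F) ^ t * ρ.sec s * (ψ1 z - ψ2 z)) * g2
  obtain ⟨σ, hσ, hφ⟩ := unhat H r0 k0
  have key : ∀ (μ : Fin 3) (ψ : F →+ F), RLin Q.X ψ →
      (∀ z ∈ L.Lt Q.R μ 0 a, ∃ y ∈ L.Lt Q.R μ (k - 1) m, ψ z = ψ0 z + alp L.t 0 * y) →
      ∃ τ ∈ Q.mon w, ∃ T : ℕ, ∀ s x, ∃ y, ((n.fm 0).sec s : F) * vk E k m s y =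
        τ.sec s * (n.fm μ).sec s ^ T * (ψ (E'.e s x) - ψ0 (E'.e s x)) := fun μ ψ r h => by
    have h' : ∀ z ∈ L.Lt Q.R μ 0 a, ∃ y ∈ L.Lt Q.R μ (k - 1) m, (ψ - ψ0) z = alp L.t 0 * y :=
      fun z hz => (h z hz).imp fun y hy => ⟨hy.1, by rw [AddMonoidHom.sub_apply, hy.2]; ring⟩
    obtain ⟨τ, hτ, T, hu⟩ := unif_mulS H (rlin_sub r r0)
      (fun z hz => (h' z hz).imp fun y hy => ⟨hy.1, 0, zero_mem _, by rw [hy.2]; ring⟩)
      (n.mulS E 0 k m) (fun s c hc v hv => n.mul_mem_mulS E hc hv) (fun _ => le_rfl) (Or.inr h')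
    exact ⟨τ, hτ, T, fun s x => (hu s x).imp fun y hy => (vk_smul _ _ _ _ _ _).symm.trans hy⟩
  obtain ⟨τ1, t1, T1, u1⟩ := key 1 ψ1 r1 h1
  obtain ⟨τ2, t2, T2, u2⟩ := key 2 ψ2 r2 h2
  obtain ⟨φ0, e0⟩ := hφ (τ1 * τ2) (mul_mem t1 t2)
  refine ⟨σ * (τ1 * τ2), mul_mem hσ (mul_mem t1 t2), T1 + T2, φ0, fun s x => ⟨?_, ?_⟩⟩
  · obtain ⟨y, g⟩ := u1 s x
    refine ⟨(σ.sec s * τ2.sec s * (n.fm 1).sec s ^ (T2 + t)) • y, vk_inj E k m s ?_⟩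
    simp only [map_add, vk_smul, e1, e0, Fm.mul_sec, MulMemClass.coe_mul, SubmonoidClass.coe_pow]
    linear_combination (-(σ.sec s : F) * τ2.sec s * (n.fm 1).sec s ^ (T2 + t)) * g
  · obtain ⟨y, g⟩ := u2 s x
    refine ⟨(σ.sec s * τ1.sec s * (n.fm 2).sec s ^ (T1 + t)) • y, vk_inj E k m s ?_⟩
    simp only [map_add, vk_smul, e2, e0, Fm.mul_sec, MulMemClass.coe_mul, SubmonoidClass.coe_pow]
    linear_combination (-(σ.sec s : F) * τ1.sec s * (n.fm 2).sec s ^ (T1 + t)) * g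

end Loc.Nrm

/-- The bundles of relative degree at least `i`. -/
def DegGe (Q : Kum F) (i : ℤ) (c : Cy Q.X) : Prop := ∃ k m : ℤ, i ≤ k ∧ c = Q.cy k m

theorem DegGe.mul {i j : ℤ} {c : Cy Q.X} (h : Q.DegGe i c) {k m : ℤ} (hj : j ≤ i + k) :
    Q.DegGe j (c * Q.cy k m) := by
  obtain ⟨k', m', h, rfl⟩ := h
  exact ⟨_, _, by omega, Q.cy_add _ _ _ _⟩

theorem DegGe.mon {i : ℤ} {c : Cy Q.X} (h : Q.DegGe i c) {σ : Fm Q.X} (hσ : σ ∈ Q.mon w) :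
    Q.DegGe i (c * σ.d) := by
  obtain ⟨m, -, e⟩ := hσ
  exact e ▸ h.mul (by omega)

theorem exists_van (hL : ∀ w, Nonempty (Q.Loc w)) (w : Q.Pt) (a : ℤ) :
    ∃ V : Van (Q.mon w) ((twc (Q.cy 0 a)).obj Q.P) Q.P, ∀ b : ℤ, V.D0 (Q.cy 0 b) := by
  obtain ⟨L⟩ := hL w
  obtain ⟨n⟩ := L.nonempty_nrm
  have hP := locProj_twc (locProj_P hL) (Q.cy 0 a)
  have H : n.Link (embLat Q.R (Q.fg_of_le le_rfl) Q.Tg) (Q.EP 0 a) a :=
    ⟨fun ν k m _ => Loc.lat_eq n le_rfl ν k m, fun ν _ => Loc.lat_eq n le_rfl ν 0 a⟩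
  exact ⟨{
    u0 := n.fm 0
    u1 := n.fm 1
    u2 := n.fm 2
    k0 := n.kills 0 hP
    k1 := n.kills 1 hP
    k2 := n.kills 2 hP
    null := Loc.null n
    inj0 := n.inj0 (embLat Q.R (Q.fg_of_le le_rfl) Q.Tg)
    reg := Loc.Nrm.reg01 H
    D0 := Q.DegGe 0
    D1 := Q.DegGe 1
    D2 := Q.DegGe 2
    D0_S := fun _ h _ hσ => h.mon hσ
    D1_S := fun _ h _ hσ => h.mon hσ
    D2_S := fun _ h _ hσ => h.mon hσ
    D0_u := fun _ h => h.mul (by omega)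
    D1_u := fun _ h => h.mul (by omega)
    D01 := fun _ h => h.mul (by omega)
    D12 := fun _ h => h.mul (by omega)
    A2 := by
      rintro _ ⟨k, m, hk, rfl⟩ t φ
      exact Loc.Nrm.van_two H hk t φ
    A1 := by
      rintro _ ⟨k, m, hk, rfl⟩ t φ1 φ2 hc
      exact Loc.Nrm.van_one H hk t φ1 φ2 hc }, fun b => ⟨0, b, le_rfl, rfl⟩⟩

end Pool.Agent.Lib.MP_d3d358_ag.K.Kum
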