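import Pool.Agent.Lib.MP_d3d358_ag.K.Alpha
import Pool.Agent.Lib.MP_d3d358_ag.K.VanK
import Pool.Agent.Lib.MP_d3d358_ag.K.B1K
import Pool.Agent.Lib.MP_d3d358_ag.K.B4K
import Pool.Agent.Lib.MP_d3d358_ag.K.KRes
import Pool.Agent.Lib.MP_d3d358_ag.Var.HKX

/-! The derived McKay correspondence for the generalised Kummer fourfold. -/

set_option autoImplicit false

open CategoryTheory

namespace Pool.Agent.Lib.MP_d3d358_ag.K

open Pool.Agent.Lib.MP_cd184e_ag.T
open Pool.Agent.Lib.MP_d3d358_ag.Var (Good V)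
open Pool.Agent.Lib.MP_d3d358_ag.G (Sf)
open Pool.Agent.Lib.MP_d3d358_ag.Th

theorem exists_bkr {A : Sf} (hA : Good A) : Nonempty (BKR A.cr (Coh (Var.X hA))) := by
  have hs := Var.smooth_J hA
  have hL := nonempty_kumLoc hA hs
  have : Nonempty (kum hA hs).Pt := ⟨(0 : V)⟩
  obtain ⟨D⟩ := exists_alpha hA (kum hA hs).Tg fun i j _ => kum_g hA hs i j
  exact D.nonempty_bkr hA hs (Kum.B1 hL) (Kum.exists_van hL) fun T _ _ hT =>
    Kum.B4_of_res (fun w => Kum.res_K1 (hL w).some) (fun w => Kum.res_K2 (hL w).some) hT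

end Pool.Agent.Lib.MP_d3d358_ag.K
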