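import Pool.Agent.Lib.MP_d3d358_ag.K.B1X
import Pool.Agent.Lib.MP_d3d358_ag.Bkr.KFrm
import Pool.Agent.Lib.MP_d3d358_ag.Bkr.TwMu
import Pool.Agent.Lib.MP_d3d358_ag.Bkr.Un0

/-! The functor of invariant sections, and the assembly of the structure `BKR`. -/

set_option autoImplicit false

open CategoryTheory Limits Abelian

namespace Pool.Agent.Lib.MP_d3d358_ag.K

open Pool.Agent.Lib.MP_cd184e_ag.T Pool.Agent.Lib.MP_cd184e_ag.T.Coh Cy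
open Pool.Agent.Lib.MP_d3d358_ag.Var (G M V Good emb Ent)
open Pool.Agent.Lib.MP_d3d358_ag.Bkr
open Pool.Agent.Lib.MP_d3d358_ag.G (Sf)
open Pool.Agent.Lib.MP_d3d358_ag.Th

theorem Kum.B2_of {F : Type} [Field F] [Algebra ℂ F] [MulSemiringAction G F] [SMulCommClass G ℂ F]
    {Q : Kum F} {N : Coh Q.X} {d : Cy Q.X} (h : ∀ w, ∃ V : Van (Q.mon w) N Q.P, V.D0 d) (i : ℕ)
    (x : Ext N ((twc d).obj Q.P) (i + 1)) :
    ∃ m : ℕ, ∀ (y : F) (hy : y ∈ Q.U ^ m), (Q.fmU hy).ac x = 0 :=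
  Q.idl_all (isIdl_ac x) fun w => (h w).elim fun V hV => V.nul hV x

variable {A : Sf} (hA : Good A)

/-- The functor of invariant sections. `T` is the cocycle of the `gU hA j`. -/
structure Alpha (T : Cy (Var.X hA)) extends Pre A.cr (Var.X hA) where
  H_eq : H = T
  f_mem : ∀ i, ∃ u ∈ Var.U A, f i = emb u
  E : ∀ a : ℤ, Emb (α.obj (twObj a (F0 A.cr))) M
  im : ∀ (a : ℤ) (s) (z : M),
    z ∈ (E a).Im s ↔ z ∈ Sec ((Var.R A 1).map emb.toLinearMap) T (T ^ a) s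
  map_G : ∀ (a b : ℤ) (c : G → Ent), (∀ g, (c g).1 ∈ Theta A.cr.toLat ((b - a : ℤ) * A.cr.k)) →
    ∃ u : twObj a (F0 A.cr) ⟶ twObj b (F0 A.cr), ∀ s x,
      (E b).e s ((α.map u).app s x) = sumG (fun g => emb (c g)) ((E a).e s x)

variable (hs : ∀ j ∈ (Var.X hA).J, Algebra.Smooth ℂ ((Var.X hA).A {j}))

/-- The assembly. -/
theorem Alpha.nonempty_bkr (D : Alpha hA (kum hA hs).Tg)
    (h1 : ∀ (a b : ℤ) (φ : (twc ((kum hA hs).cy 0 a)).obj (kum hA hs).P ⟶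
        (twc ((kum hA hs).cy 0 b)).obj (kum hA hs).P), ∃ c : G → M,
      (∀ g w, ∃ y ∈ (kum hA hs).Sig w 1, c g / y ^ (b - a) ∈ (kum hA hs).Yw w y (kum hA hs).R) ∧
      ∀ s x, ((kum hA hs).EP 0 b).e s (φ.app s x) = sumG c (((kum hA hs).EP 0 a).e s x))
    (h2 : ∀ w (a : ℤ), ∃ V : Van ((kum hA hs).mon w)
      ((twc ((kum hA hs).cy 0 a)).obj (kum hA hs).P) (kum hA hs).P,
      ∀ b : ℤ, V.D0 ((kum hA hs).cy 0 b))
    (h4 : ∀ (T : ObjectProperty (DerivedCategory (Coh (Var.X hA)))) [T.IsTriangulated]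
      [T.IsStableUnderRetracts], (∀ n : ℤ, InP T ((twc ((kum hA hs).cy 0 n)).obj (kum hA hs).P)) →
      ∀ Z, DerivedCategory.TStructure.t.bounded Z → T Z) :
    Nonempty (BKR A.cr (Coh (Var.X hA))) := by
  obtain ⟨ι, -⟩ := exists_iso_EP hA hs (D.E 0) 0 (D.im 0)
  have hH : ∀ a : ℤ, D.H ^ a = (kum hA hs).cy 0 a := fun a => by rw [D.H_eq, Kum.cy_zero_left]
  refine ⟨D.toPre.bkr (P := (kum hA hs).P) (D.α.mapIso (tw0 (F0 A.cr)) ≪≫ ι ≪≫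
    eqToIso (by rw [Kum.cy_zero]) ≪≫ twc1 _)
    (fun a b => full_of_B1 hA hs D.α D.E D.im D.map_G a b (h1 a b)) (fun i a b j x => ?_)
    fun T _ _ hT => h4 T fun n => hH n ▸ hT n⟩
  obtain ⟨m, hm⟩ := Kum.B2_of (Q := kum hA hs) (fun w => by
    rw [hH, hH]; exact (h2 w a).imp fun V hV => hV b) j x
  obtain ⟨u, hu, e⟩ := D.f_mem i
  have hu' : D.f i ∈ (kum hA hs).U := by rw [kum_U, e]; exact emb_mem_em.2 hu
  refine ⟨m, ?_⟩
  have e' : D.toPre.fm i = (kum hA hs).fm1 hu' := Fm.ext rfl D.H_eq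
  rw [e', Kum.fm1_pow]
  exact hm _ _

end Pool.Agent.Lib.MP_d3d358_ag.K
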