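import Pool.Agent.Lib.MP_d3d358_ag.Bkr.AlB
import Pool.Agent.Lib.MP_d3d358_ag.K.AlphaD

/-! The functor of invariant sections on the twists of the regular object. -/

set_option autoImplicit false

open CategoryTheory Limits Abelian Matrix

namespace Pool.Agent.Lib.MP_d3d358_ag.K

open Pool.Agent.Lib.MP_cd184e_ag.T Pool.Agent.Lib.MP_cd184e_ag.T.Coh Cy
open Pool.Agent.Lib.MP_d3d358_ag.Var (G sg M V Good emb gU fW nU idx Ent)
open Pool.Agent.Lib.MP_d3d358_ag.Bkr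
open Pool.Agent.Lib.MP_d3d358_ag.G (Sf)
open Pool.Agent.Lib.MP_d3d358_ag.Th

variable {A : Sf}

namespace Al

theorem mem_Gam_F0 {a m : ℤ} {x : G → M} : x ∈ Gam (twObj a (F0 A.cr)) m ↔
    ∃ F : Ent, F.1 ∈ Theta A.cr.toLat ((a + m : ℤ) * A.cr.k) ∧ x = fun γ => emb (γ • F) := by
  rw [Gam_tw (F0 A.cr) rfl, mem_Gam]
  constructor
  · rintro ⟨s, hs, rfl⟩
    obtain ⟨f, hf, rfl⟩ := ISec_F0.1 hs
    exact ⟨⟨f, hf.1⟩, hf, rfl⟩
  · rintro ⟨F, hF, rfl⟩
    exact ⟨_, ISec_F0.2 ⟨F.1, hF, rfl⟩, rfl⟩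

theorem regM_mul_apply (h : G) (N : Matrix G G ℂ) (γ δ : G) : (regM h * N) γ δ = N (h⁻¹ * γ) δ := by
  simp [regM, Matrix.mul_apply, ← inv_mul_eq_iff_eq_mul]

theorem mul_regM_apply (h : G) (N : Matrix G G ℂ) (γ δ : G) : (N * regM h) γ δ = N γ (h * δ) := by
  simp [regM, Matrix.mul_apply]

/-- The morphism with first row `c`. -/
noncomputable def homG (a b : ℤ) (c : G → Ent)
    (hc : ∀ g, (c g).1 ∈ Theta A.cr.toLat ((b - a : ℤ) * A.cr.k)) :
    twObj a (F0 A.cr) ⟶ twObj b (F0 A.cr) :=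
  ⟨fun z => (of fun γ δ : G => (γ • c (γ⁻¹ * δ)).1 z : Matrix G G ℂ),
    ⟨fun γ δ : G => Ent.diff (γ • c (γ⁻¹ * δ)), fun l z => by
      rw [fac_F0, fac_F0, Matrix.mul_smul, Matrix.smul_mul, Matrix.mul_one, Matrix.one_mul]
      ext γ δ
      have e := (hc (γ⁻¹ * δ)).2 _ (A.cr.act_mem γ⁻¹ l l.2) (A.cr.act γ⁻¹ z)
      rw [aut_act, ← map_add] at e
      change aut _ _ _ * (c (γ⁻¹ * δ)).1 (A.cr.act γ⁻¹ (z + l)) =
        aut _ _ _ * (c (γ⁻¹ * δ)).1 (A.cr.act γ⁻¹ z)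
      rw [e, ← mul_assoc, ← aut_add, ← add_mul, ← Int.cast_add, add_sub_cancel]⟩, fun h z => by
    ext γ δ
    refine (mul_regM_apply h _ γ δ).trans (Eq.trans ?_ (regM_mul_apply h _ γ δ).symm)
    change (c (γ⁻¹ * (h * δ))).1 (Var.gv γ⁻¹ (Var.gv h z)) =
      (c ((h⁻¹ * γ)⁻¹ * δ)).1 (Var.gv (h⁻¹ * γ)⁻¹ z)
    rw [_root_.mul_inv_rev, inv_inv, Var.gv_mul, mul_assoc]⟩

theorem mM_homG (a b : ℤ) (c : G → Ent)
    (hc : ∀ g, (c g).1 ∈ Theta A.cr.toLat ((b - a : ℤ) * A.cr.k)) (δ : G) :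
    mM (homG a b c hc) (1 : G) δ = emb (c δ) :=
  (mM_apply _ _ _).trans (congrArg emb (Ent.ext fun z => by
    change ((1 : G) • c ((1 : G)⁻¹ * δ)).1 z = (c δ).1 z
    rw [one_smul, inv_one, one_mul]))

variable (hA : Good A)

theorem inv_A {s : Finset (Fin (Var.X hA).n)} {a : M} (ha : a ∈ (Var.X hA).A s) (g : G) :
    g • a = a := by
  have h : ∀ l, g • (Var.X hA).f l = sg g • (Var.X hA).f l := fun l => by
    obtain ⟨i, j, rfl⟩ := Var.exists_idx l
    rw [Var.X_f, Var.smul_emb, smul_mul', (Var.fW_mem hA i).2 g, (Var.gU_mem hA j).2 g,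
      smul_mul_assoc, map_smul]
  induction ha using Algebra.adjoin_induction with
  | mem x hx =>
    obtain ⟨l, j, -, rfl⟩ := hx
    have h0 : sg g ≠ 0 := left_ne_zero_of_mul_eq_one (Var.sg_mul_self g)
    rw [smul_div₀', h, h, Algebra.smul_def, Algebra.smul_def,
      mul_div_mul_left _ _ ((map_ne_zero _).2 h0)]
  | algebraMap r => exact Var.smul_const g r
  | add x y _ _ hx hy => rw [smul_add, hx, hy]
  | mul x y _ _ hx hy => rw [smul_mul', hx, hy]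

variable (T : Cy (Var.X hA)) (hT : ∀ i j h, T.l ⟨idx i j, h⟩ = emb (gU hA j))

include hT

theorem fp_eq (s : (Var.X hA).Idx) : ∃ y ∈ Var.U A, T.fp s = emb y := by
  obtain ⟨_, j, -, h⟩ := T_l hA T hT ((Var.X hA).pt s)
  exact ⟨_, Var.gU_mem hA j, h⟩

theorem comp_eq {a : ℤ} {s : (Var.X hA).Idx} {x : G → M} (hx : x ∈ aM T (twObj a (F0 A.cr)) s)
    (γ : G) : x γ = γ • x 1 := by
  obtain ⟨y, hy, e⟩ := fp_eq hA T hT s
  have h1 : γ • T.fp s = T.fp s := by rw [e, Var.smul_emb, hy.2 γ]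
  refine aM_ind (E := twObj a (F0 A.cr)) (P := fun x : G → M => x γ = γ • x 1)
    (fun m σ hσ => ?_) (smul_zero γ).symm (fun x y hx hy => ?_) (fun c hc x hx => ?_) hx
  · obtain ⟨F, -, rfl⟩ := mem_Gam_F0.1 hσ
    change (T.fp s ^ m)⁻¹ * emb (γ • F) = γ • ((T.fp s ^ m)⁻¹ * emb ((1 : G) • F))
    have h2 : γ • T.fp s ^ m = T.fp s ^ m :=
      (map_zpow₀ (MulSemiringAction.toRingHom G M γ) _ m).trans (congrArg (· ^ m) h1)
    rw [smul_mul', smul_inv'', h2, one_smul, Var.smul_emb]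
  · change x γ + y γ = γ • (x 1 + y 1)
    rw [hx, hy, smul_add]
  · change c * x γ = γ • (c * x 1)
    rw [hx, smul_mul', inv_A hA hc]

theorem U_pow_div (s : (Var.X hA).Idx) {j : ℕ} {u : Ent} (hu : u ∈ Var.U A ^ j) :
    emb u / T.fp s ^ j ∈ (Var.X hA).A s.1 := by
  induction hu using Submodule.pow_induction_on_left' with
  | algebraMap r => rw [pow_zero, div_one, emb.commutes]; exact algebraMap_mem _ r
  | add x y i _ _ hx hy => rw [map_add, add_div]; exact add_mem hx hy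
  | mem_mul u hu i x _ hx =>
    rw [map_mul, pow_succ', mul_div_mul_comm]
    refine mul_mem ?_ hx
    rw [← Var.span_gU hA] at hu
    obtain ⟨c, rfl⟩ := (Submodule.mem_span_range_iff_exists_fun ℂ).1 hu
    rw [map_sum, Finset.sum_div]
    refine sum_mem fun i _ => ?_
    rw [map_smul, smul_div_assoc]
    exact Subalgebra.smul_mem _ (by simpa using reg_T hA T hT i s) _

theorem theta_div (s : (Var.X hA).Idx) {b : ℤ} {F : Ent}
    (hF : F.1 ∈ Theta A.cr.toLat ((b : ℤ) * A.cr.k)) : emb F / T.fp s ^ b * T.fp s ∈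
      ((Var.X hA).A s.1).toSubmodule * (Var.R A 1).map emb.toLinearMap := by
  obtain ⟨y, hy, e⟩ := fp_eq hA T hT s
  have h0 := T.fp_ne s
  obtain ⟨N, j, hj⟩ : ∃ N j : ℕ, b + N = (j + 1 : ℕ) :=
    ⟨(-b).toNat + 1, b.toNat, by omega⟩
  have h1 : F * y ^ N ∈ Var.R A (j + 1) := Var.mem_R.2 (by
    have := Theta.mul_mem hF (Inv.pow_mem (inv_of_U hy) N).1
    rw [← add_mul, ← Int.cast_add, hj, Int.cast_natCast] at this
    exact this)
  have h2 : emb F / T.fp s ^ b * T.fp s = emb (F * y ^ N) / T.fp s ^ j := by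
    have : b = (j : ℤ) + 1 - N := by omega
    rw [map_mul, map_pow, ← e, this, zpow_sub₀ h0, zpow_add_one₀ h0, zpow_natCast, zpow_natCast]
    field_simp
  rw [h2]
  refine Submodule.mul_induction_on (hA.gen j h1) (fun u hu r hr => ?_) fun x y hx hy => ?_
  · rw [map_mul, mul_div_right_comm]
    exact Submodule.mul_mem_mul (U_pow_div hA T hT s hu) ⟨r, hr, rfl⟩
  · rw [map_add, add_div]; exact add_mem hx hy

theorem mem_iff (a : ℤ) (s : (Var.X hA).Idx) (z : M) :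
    (∃ x ∈ aM T (twObj a (F0 A.cr)) s, x (1 : G) = z) ↔
      z ∈ Sec ((Var.R A 1).map emb.toLinearMap) T (T ^ a) s := by
  have h0 := T.fp_ne s
  have ha := zpow_ne_zero a h0
  constructor
  · rintro ⟨x, hx, rfl⟩
    refine aM_ind (E := twObj a (F0 A.cr))
      (P := fun x : G → M => x 1 ∈ Sec ((Var.R A 1).map emb.toLinearMap) T (T ^ a) s)
      (fun m σ hσ => ?_) (zero_mem _) (fun x y hx hy => add_mem hx hy) (fun c hc x hx => ?_) hx
    · obtain ⟨F, hF, rfl⟩ := mem_Gam_F0.1 hσ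
      have := theta_div hA T hT s hF
      change (T.fp s ^ m)⁻¹ * emb ((1 : G) • F) ∈ _
      rwa [mem_Sec, zpow_fp, one_smul, ← div_eq_inv_mul, div_div, ← zpow_add₀ h0, add_comm]
    · change c * x 1 ∈ _
      rw [mem_Sec] at hx ⊢
      rw [mul_div_assoc, mul_assoc]
      exact mul_mem_self hc hx
  · intro hz
    rw [mem_Sec, zpow_fp] at hz
    have key : ∀ w ∈ ((Var.X hA).A s.1).toSubmodule * (Var.R A 1).map emb.toLinearMap,
        ∃ x ∈ aM T (twObj a (F0 A.cr)) s, x (1 : G) = (T.fp s ^ (1 - a))⁻¹ * w := fun w hw => by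
      refine Submodule.mul_induction_on hw (fun c hc r hr => ?_) ?_
      · obtain ⟨F, hF, rfl⟩ := hr
        have h1 : (fun γ : G => emb (γ • F)) ∈ Gam (twObj a (F0 A.cr)) (1 - a) :=
          mem_Gam_F0.2 ⟨F, by rw [add_sub_cancel]; simpa using Var.mem_R.1 hF, rfl⟩
        refine ⟨_, smul_mem_aM hc (gen_mem s h1), ?_⟩
        change c * ((T.fp s ^ (1 - a))⁻¹ * emb ((1 : G) • F)) = _ * (c * emb F)
        rw [one_smul, mul_left_comm]
      · rintro _ _ ⟨x, hx, e⟩ ⟨y, hy, e'⟩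
        exact ⟨x + y, add_mem hx hy, by rw [mul_add, ← e, ← e']; rfl⟩
    obtain ⟨x, hx, e⟩ := key _ hz
    refine ⟨x, hx, e.trans ?_⟩
    rw [zpow_sub₀ h0, zpow_one]; field_simp

omit hT in
/-- The first coordinate of a section. -/
noncomputable def ev1 (a : ℤ) (s : (Var.X hA).Idx) : aM T (twObj a (F0 A.cr)) s →+ M :=
  AddMonoidHom.mk' (fun x => x.1 (1 : G)) fun _ _ => rfl

omit hT in
theorem ev1_apply (a : ℤ) (s : (Var.X hA).Idx) (x : aM T (twObj a (F0 A.cr)) s) :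
    ev1 hA T a s x = x.1 (1 : G) := rfl

/-- The sheaf of a twist of the regular object inside the field. -/
noncomputable def embF (a : ℤ) : Emb (aObj (ok_T hA T hT) (twObj a (F0 A.cr))) M where
  e := ev1 hA T a
  smul _ c x := congrFun (coe_aM_smul c x) (1 : G)
  res h x := congrFun (coe_aRes h x) (1 : G)
  inj s x y h := Subtype.ext (funext fun γ : G => by
    rw [comp_eq hA T hT x.2 γ, comp_eq hA T hT y.2 γ]
    exact congrArg (γ • ·) h)

end Al

variable (hA : Good A)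

theorem exists_alpha (T : Cy (Var.X hA)) (hT : ∀ i j h, T.l ⟨idx i j, h⟩ = emb (gU hA j)) :
    Nonempty (Alpha hA T) := ⟨
  { toPre := preT hA T hT
    H_eq := rfl
    f_mem := fun i => ⟨_, Var.gU_mem hA i, rfl⟩
    E := Al.embF hA T hT
    im := fun a s z => Iff.trans ⟨fun ⟨x, e⟩ => ⟨x.1, x.2, e⟩, fun ⟨x, hx, e⟩ => ⟨⟨x, hx⟩, e⟩⟩
      (Al.mem_iff hA T hT a s z)
    map_G := fun a b c hc => ⟨Al.homG a b c hc, fun s x => by
      refine (congrFun (coe_aApp (Al.homG a b c hc) s x) (1 : G)).trans ?_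
      change ∑ δ : G, mM (Al.homG a b c hc) (1 : G) δ * x.1 δ = ∑ δ : G, emb (c δ) * δ • x.1 (1 : G)
      refine Finset.sum_congr rfl fun δ _ => ?_
      exact congrArg₂ (· * ·) (Al.mM_homG a b c hc δ) (Al.comp_eq hA T hT x.2 δ)⟩ }⟩

end Pool.Agent.Lib.MP_d3d358_ag.K
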