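import Pool.Agent.Lib.MP_d3d358_ag.Var.A2
import Pool.Agent.Lib.MP_d3d358_ag.Var.LiouM

/-! A meromorphic function that is regular at every point is entire; theta functions of any
integral degree from local data. -/

set_option autoImplicit false

namespace Pool.Agent.Lib.MP_d3d358_ag.K

open Pool.Agent.Lib.MP_d3d358_ag.Var
open Pool.Agent.Lib.MP_d3d358_ag.G (Sf lat3)
open Pool.Agent.Lib.MP_d3d358_ag.Th (Theta aut)
open Filter Topology

noncomputable section

theorem exists_ent {x : M} (h : ∀ b, x ∈ Loc b) : ∃ F : Ent, x = emb F := by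
  let F : Ent := ⟨val x, fun b => (LiouM.analyticAt_val (h b)).differentiableAt⟩
  refine ⟨F, ?_⟩
  obtain ⟨P, Q, hQ, e⟩ := h 0
  have : F * Q - P = 0 := by
    refine Ent.eq_zero_of_eventually _ (b := 0) ?_
    filter_upwards [Q.cont.continuousAt.eventually_ne hQ] with z hz
    change val x z * Q.1 z - P.1 z = 0
    rw [e, val_div _ hz, div_mul_cancel₀ _ hz, sub_self]
  rw [e, ← sub_eq_zero.1 this, map_mul, mul_div_cancel_right₀ _ (emb_ne' hQ)]

variable {A : Sf}

/-- Division of theta functions. -/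
theorem theta_of_mul {F Q : Ent} {s r : ℝ} (hQ : Q ≠ 0) (h1 : Q.1 ∈ Theta (lat3 A.toLat) r)
    (h2 : (F * Q).1 ∈ Theta (lat3 A.toLat) (s + r)) : F.1 ∈ Theta (lat3 A.toLat) s := by
  refine ⟨F.diff, fun l hl z => ?_⟩
  let E : Ent := ⟨fun z => F.1 (z + l) - aut s l z * F.1 z, (F.diff.comp (by fun_prop)).sub
    (Differentiable.mul (by unfold aut Th.eta; fun_prop) F.diff)⟩
  have : E * Q = 0 := Ent.ext fun z => by
    have e := h2.2 l hl z
    rw [Ent.mul_apply, Ent.mul_apply, h1.2 l hl z, Th.aut_add] at e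
    change (F.1 (z + l) - aut s l z * F.1 z) * Q.1 z = 0
    exact mul_left_cancel₀ (Th.aut_ne r l z) (by linear_combination e)
  exact sub_eq_zero.1 (congrFun (congrArg Subtype.val
    ((mul_eq_zero.1 this).resolve_right hQ)) z)

theorem theta_of_KN {F u : Ent} (hu : u ∈ R A 1) (h0 : u ≠ 0) (n : ℤ)
    (h : emb F / emb u ^ n ∈ KN A) : F.1 ∈ Theta (lat3 A.toLat) (n * A.k) := by
  obtain ⟨j, P, hP, Q, hQ, Q0, -, e⟩ := h
  have := emb_ne h0
  have := emb_ne Q0
  obtain ⟨m, rfl | rfl⟩ := Int.eq_nat_or_neg n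
  · have e' : F * Q = u ^ m * P := emb_inj (by
      rw [zpow_natCast, div_eq_div_iff (by positivity) (by assumption)] at e
      simp only [map_mul, map_pow]; linear_combination e)
    refine theta_of_mul Q0 (mem_R.1 hQ) ?_
    have := mem_R.1 (mul_mem_R (pow_mem_R1 hu m) hP)
    rwa [← e', Nat.cast_add, add_mul] at this
  · have e' : F * (u ^ m * Q) = P := emb_inj (by
      rw [zpow_neg, zpow_natCast, div_inv_eq_mul, eq_div_iff (by assumption)] at e
      simp only [map_mul, map_pow]; linear_combination e)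
    refine theta_of_mul (mul_ne_zero (pow_ne_zero m h0) Q0)
      (mem_R.1 (mul_mem_R (pow_mem_R1 hu m) hQ)) ?_
    have := mem_R.1 hP
    rw [← e'] at this
    convert this using 2
    push_cast; ring

/-- An element of degree `n` that is regular at every point is a theta function. -/
theorem glue {x : M} (n : ℤ) (h : ∀ b, ∃ u ∈ R A 1, u.1 b ≠ 0 ∧ x / emb u ^ n ∈ locN A b) :
    ∃ F : Ent, x = emb F ∧ F.1 ∈ Theta (lat3 A.toLat) (n * A.k) := by
  obtain ⟨F, rfl⟩ := exists_ent (x := x) fun b => by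
    obtain ⟨u, -, hb, hx⟩ := h b
    have h1 : emb u ^ n ∈ Loc b := by
      obtain ⟨m, rfl | rfl⟩ := Int.eq_nat_or_neg n
      · rw [zpow_natCast]; exact pow_mem (emb_mem_Loc u b) m
      · rw [zpow_neg, zpow_natCast, ← inv_pow]
        exact pow_mem (by simpa using div_mem_Loc 1 hb) m
    have := mul_mem (quo_le_Loc (Set.mem_singleton b) hx) h1
    rwa [div_mul_cancel₀ _ (zpow_ne_zero n (emb_ne' hb))] at this
  obtain ⟨u, hu, hb, hx⟩ := h 0
  exact ⟨F, rfl, theta_of_KN hu (Ent.ne_zero hb) n (quo_anti (Set.empty_subset _) hx)⟩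

theorem Ot_le_locN (b : V) : Ot A b ≤ locN A b :=
  quo_anti (Set.singleton_subset_iff.2 ⟨1, gv_one b⟩)

end

end Pool.Agent.Lib.MP_d3d358_ag.K
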