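import Pool.Agent.Lib.MP_d3d358_ag.K.FL
import Pool.Agent.Lib.MP_d3d358_ag.Var.A2
import Pool.Agent.Lib.MP_d3d358_ag.Var.TwoF

/-! Flatness for the local rings of the abelian fourfold and its quotient. -/

set_option autoImplicit false

namespace Pool.Agent.Lib.MP_d3d358_ag.K

open MvPolynomial Pool.Agent.Lib.MP_d3d358_ag.Var
open Pool.Agent.Lib.MP_d3d358_ag.G (Sf)

noncomputable section

theorem eq_zero_of_pderiv_stable {σ k : Type} [Field k] [CharZero k] (I : Set (MvPolynomial σ k))
    (hI : ∀ p ∈ I, ∀ j, pderiv j p ∈ I) (hC : ∀ a, C a ∈ I → a = 0) : ∀ p ∈ I, p = 0 := by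
  classical
  have base : ∀ p ∈ I, p.totalDegree = 0 → p = 0 := fun p hp h => by
    rw [totalDegree_eq_zero_iff_eq_C] at h
    rw [h] at hp ⊢
    rw [hC _ hp, map_zero]
  have key : ∀ n, ∀ p ∈ I, p.totalDegree ≤ n → p = 0 := fun n => by
    induction n with
    | zero => exact fun p hp h => base p hp (Nat.le_zero.1 h)
    | succ n ih =>
      intro p hp h
      have h0 : ∀ j, pderiv j p = 0 := fun j => ih _ (hI p hp j) (Finset.sup_le fun m hm => by
        rw [mem_support_iff, coeff_pderiv] at hm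
        have := (le_totalDegree (mem_support_iff.2 (left_ne_zero_of_mul hm))).trans h
        rw [Finsupp.sum_add_index' (fun _ => rfl) (fun _ _ _ => rfl),
          Finsupp.sum_single_index rfl] at this
        omega)
      refine base p hp ((totalDegree_eq_zero_iff σ p).2 fun m hm j => ?_)
      by_contra hj
      have e : m = (m - Finsupp.single j 1) + Finsupp.single j 1 :=
        (tsub_add_cancel_of_le (Finsupp.single_le_iff.2 (Nat.one_le_iff_ne_zero.2 hj))).symm
      have h1 := coeff_pderiv (i := j) p (m - Finsupp.single j 1)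
      rw [h0, coeff_zero, ← e] at h1
      exact mul_ne_zero (mem_support_iff.1 hm) (Nat.cast_add_one_ne_zero _) h1.symm
  exact fun p hp => key _ p hp le_rfl

theorem der_aeval {σ k K : Type} [Fintype σ] [CommRing k] [CommRing K] [Algebra k K]
    (D : Derivation k K K) (t : σ → K) (p : MvPolynomial σ k) :
    D (aeval t p) = ∑ j, D (t j) * aeval t (pderiv j p) := by
  classical
  induction p using MvPolynomial.induction_on with
  | C a => simp
  | add p q hp hq => simp only [map_add, hp, hq, mul_add, Finset.sum_add_distrib]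
  | mul_X p i hp =>
    simp only [map_mul, aeval_X, Derivation.leibniz, hp, smul_eq_mul, map_add, mul_add,
      Finset.sum_add_distrib, pderiv_X, Finset.mul_sum]
    congr 1
    · rw [Finset.sum_eq_single i (fun j _ hj => by simp [Pi.single_eq_of_ne' hj]) (by simp)]
      simp [mul_comm]
    · exact Finset.sum_congr rfl fun j _ => by ring

/-- the Jacobian criterion -/
theorem aeval_inj_of_det {σ k K : Type} [Fintype σ] [DecidableEq σ] [Field k] [CharZero k]
    [CommRing K] [IsDomain K] [Algebra k K] (D : σ → Derivation k K K) (t : σ → K)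
    (h : (Matrix.of fun i j => D i (t j)).det ≠ 0) :
    Function.Injective (aeval t : MvPolynomial σ k →ₐ[k] K) := by
  rw [injective_iff_map_eq_zero]
  refine eq_zero_of_pderiv_stable {p | aeval t p = 0} (fun p hp j => ?_) fun a ha => ?_
  · have : (Matrix.of fun i j => D i (t j)).mulVec (fun j => aeval t (pderiv j p)) = 0 :=
      funext fun i => by
        have := der_aeval (D i) t p
        rw [show aeval t p = 0 from hp, map_zero] at this
        exact this.symm
    exact congrFun (Matrix.eq_zero_of_mulVec_eq_zero h this) j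
  · have : algebraMap k K a = 0 := by simpa using ha
    exact (map_eq_zero _).1 this

theorem aeval_inj_of_jac {t : Fin 4 → M} (h : jac t ≠ 0) :
    Function.Injective (aeval t : P4 →ₐ[ℂ] M) := aeval_inj_of_det pd t h

variable {A : Sf} {b : V} {t : Fin 4 → M}

theorem crd_jac_ne (ht : Crd A b t) : jac t ≠ 0 := by
  let N : Matrix (Fin 4) (Fin 4) (Loc b) :=
    Matrix.of fun i j => ⟨pd i (t j), TwoF.pd_mem (Ot_le_Loc' b (ht.mem j)) i⟩
  have e1 : jac t = (N.det : M) := ((Loc b).val.map_det N).symm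
  have e2 : evL b N.det = 1 := by
    rw [AlgHom.map_det, show (evL b).mapMatrix N = 1 from Matrix.ext fun i j => ht.jac i j,
      Matrix.det_one]
  intro h
  rw [show N.det = 0 from Subtype.ext (e1.symm.trans h), map_zero] at e2
  exact zero_ne_one e2

theorem crd_inj (ht : Crd A b t) : Function.Injective (aeval t : P4 →ₐ[ℂ] M) :=
  aeval_inj_of_jac (crd_jac_ne ht)

theorem essFT_Ow (hA : Good A) (b : V) : Algebra.EssFiniteType ℂ (Ow A b) := by
  classical
  obtain ⟨u, hu, hb⟩ := hA.bpf b
  have le := Aq_le_Ow hu hb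
  obtain ⟨s, hs⟩ := hA.Aq_fg u
  have hs' : ∀ x ∈ s, x ∈ Ow A b := fun x hx => le (hs ▸ Algebra.subset_adjoin hx)
  refine (Algebra.essFiniteType_iff _ _).2 ⟨s.attach.image fun x => ⟨x.1, hs' _ x.2⟩, fun x => ?_⟩
  have key : ∀ (y : M) (hy : y ∈ Aq A u), (⟨y, le hy⟩ : Ow A b) ∈ Algebra.adjoin ℂ
      ((s.attach.image fun x => (⟨x.1, hs' _ x.2⟩ : Ow A b) : Finset (Ow A b)) : Set (Ow A b)) := by
    intro y hy
    have h1 : y ∈ (Algebra.adjoin ℂ ((s.attach.image fun x => (⟨x.1, hs' _ x.2⟩ : Ow A b) :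
        Finset (Ow A b)) : Set (Ow A b))).map (Ow A b).val := by
      rw [AlgHom.map_adjoin]
      refine Algebra.adjoin_mono (fun z hz => ?_) (hs.symm ▸ hy : y ∈ Algebra.adjoin ℂ (s : Set M))
      exact ⟨⟨z, hs' z hz⟩, by simpa using hz, rfl⟩
    obtain ⟨z, hz, rfl⟩ := h1
    exact hz
  obtain ⟨c, hc, c0, hx⟩ := hA.exists_den_Ow hu hb x.2
  have c1 : c ≠ 0 := fun z => c0 (by simpa [z] using val_const 0 b)
  refine ⟨_, key c hc, IsUnit.of_mul_eq_one ⟨_, inv_mem_Ow (le hc) c0⟩
    (Subtype.ext (mul_inv_cancel₀ c1)), ?_⟩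
  have := key _ hx
  rwa [mul_comm x]

theorem finite_T {O T : Subalgebra ℂ M} (h : SemiLoc b O T t) :
    (Subalgebra.inclusion h.le).toRingHom.Finite := by
  let _ : Algebra O T := (Subalgebra.inclusion h.le).toRingHom.toAlgebra
  let ι : T →ₗ[O] M :=
    { toFun := Subtype.val, map_add' := fun _ _ => rfl, map_smul' := fun _ _ => rfl }
  obtain ⟨s, hs, hs'⟩ := h.fin
  refine ⟨Submodule.fg_of_fg_map_injective ι Subtype.val_injective ⟨s, le_antisymm
    (Submodule.span_le.2 fun y hy => ⟨⟨y, hs hy⟩, trivial, rfl⟩) ?_⟩⟩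
  rintro _ ⟨y, -, rfl⟩
  exact hs' _ y.2

theorem essFT_T {O T : Subalgebra ℂ M} (h : SemiLoc b O T t) [Algebra.EssFiniteType ℂ O] :
    Algebra.EssFiniteType ℂ T := by
  let _ : Algebra O T := (Subalgebra.inclusion h.le).toRingHom.toAlgebra
  have : IsScalarTower ℂ O T := IsScalarTower.of_algebraMap_eq fun _ => rfl
  have : Module.Finite O T := finite_T h
  exact Algebra.EssFiniteType.comp ℂ O T

/-- `Õ` is flat over the polynomial ring -/
theorem flat_Ot (hA : Good A) (ht : Crd A b t) (h : SemiLoc b (Ow A b) (Ot A b) t) :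
    (toT h).toRingHom.Flat :=
  have := essFT_Ow hA b
  have := essFT_T h
  flat_toT h (crd_inj ht)

/-- `O_w` is flat over the invariant polynomials -/
theorem flat_Ow (hA : Good A) (ht : Crd A b t) (h : SemiLoc b (Ow A b) (Ot A b) t) :
    (toO h).toRingHom.Flat :=
  have := essFT_Ow hA b
  have := essFT_T h
  flat_toO h (crd_inj ht)

end

end Pool.Agent.Lib.MP_d3d358_ag.K
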