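import Pool.Agent.Lib.MP_d3d358_ag.K.Defs
import Pool.Agent.Lib.MP_d3d358_ag.K.FLK
import Pool.Agent.Lib.MP_d3d358_ag.K.Model
import Pool.Agent.Lib.MP_d3d358_ag.Var.NS
import Pool.Agent.Lib.MP_d3d358_ag.Var.Loc4

/-! The algebraic data of the generalised Kummer fourfold of an abelian surface. -/

set_option autoImplicit false

namespace Pool.Agent.Lib.MP_d3d358_ag.K

open Pool.Agent.Lib.MP_d3d358_ag.Var
open Pool.Agent.Lib.MP_d3d358_ag.G (Sf)
open MvPolynomial (aeval)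

noncomputable section

/-- a space of entire functions as a space of meromorphic functions -/
def em (Y : Submodule ℂ Ent) : Submodule ℂ M := Y.map emb.toLinearMap

theorem mem_em {Y : Submodule ℂ Ent} {x : M} : x ∈ em Y ↔ ∃ F ∈ Y, emb F = x := Iff.rfl

theorem emb_mem_em {Y : Submodule ℂ Ent} {F : Ent} : emb F ∈ em Y ↔ F ∈ Y :=
  ⟨fun ⟨_, h, e⟩ => emb_inj e ▸ h, fun h => ⟨F, h, rfl⟩⟩

theorem em_mul (Y Z : Submodule ℂ Ent) : em (Y * Z) = em Y * em Z := Submodule.map_mul Y Z emb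

theorem em_pow (Y : Submodule ℂ Ent) (m : ℕ) : em (Y ^ m) = em Y ^ m := Submodule.map_pow Y emb m

theorem em_mono {Y Z : Submodule ℂ Ent} (h : Y ≤ Z) : em Y ≤ em Z := Submodule.map_mono h

theorem em_span {ι : Type} (y : ι → Ent) :
    em (Submodule.span ℂ (Set.range y)) = Submodule.span ℂ (Set.range fun i => emb (y i)) := by
  rw [em, Submodule.map_span, ← Set.range_comp]; rfl

theorem eig_em_one (Y : Submodule ℂ Ent) : eig (em Y) 1 = em (Y ⊓ invE) := by
  refine le_antisymm ?_ ?_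
  · rintro _ ⟨⟨F, hF, rfl⟩, h⟩
    exact ⟨F, ⟨hF, fun g => emb_inj ((smul_emb g F).symm.trans ((h g).trans (one_smul _ _)))⟩, rfl⟩
  · rintro _ ⟨F, hF, rfl⟩
    exact ⟨⟨F, hF.1, rfl⟩, fun g => (smul_emb g F).trans
      ((congrArg emb (hF.2 g)).trans (one_smul _ _).symm)⟩

theorem eig_em_sg (Y : Submodule ℂ Ent) : eig (em Y) sg = em (Y ⊓ altE) := by
  refine le_antisymm ?_ ?_
  · rintro _ ⟨⟨F, hF, rfl⟩, h⟩
    exact ⟨F, ⟨hF, fun g => emb_inj ((smul_emb g F).symm.trans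
      ((h g).trans (map_smul emb _ F).symm))⟩, rfl⟩
  · rintro _ ⟨F, hF, rfl⟩
    exact ⟨⟨F, hF.1, rfl⟩, fun g => (smul_emb g F).trans
      ((congrArg emb (hF.2 g)).trans (map_smul emb _ F))⟩

variable {A : Sf}

theorem eig_R_one : eig (em (R A 1)) 1 = em (U A) := eig_em_one _

theorem eig_R_sg : eig (em (R A 1)) sg = em (W A) := eig_em_sg _

theorem eig_R_pow (m : ℕ) : eig (em (R A 1)) 1 ^ m = em (U A ^ m) := by rw [eig_R_one, em_pow]

/-- the data of the generalised Kummer fourfold `X hA` -/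
@[reducible] def kum (hA : Good A) (hs : ∀ j ∈ (X hA).J, Algebra.Smooth ℂ ((X hA).A {j})) :
    Kum M where
  R := em (R A 1)
  fg := (Module.Finite.iff_fg.1 hA.fd).map _
  gR g := by
    rintro _ ⟨F, hF, rfl⟩
    exact ⟨_, smul_mem_R hF g, (smul_emb g F).symm⟩
  RR := by
    rw [eig_R_one, ← em_mul, ← em_mul]
    refine em_mono (Submodule.mul_le.2 fun F hF E hE => ?_)
    have := hA.gen 1 (mul_mem_R hF hE)
    rwa [pow_one] at this
  X := X hA
  f j := emb (fW hA (finProdFinEquiv.symm j.1).1)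
  g j := emb (gU hA (finProdFinEquiv.symm j.1).2)
  f_mem j := eig_R_sg ▸ emb_mem_em.2 (fW_mem hA _)
  g_mem j := eig_R_one ▸ emb_mem_em.2 (gU_mem hA _)
  Xf j := map_mul emb _ _
  span_f := by
    rw [eig_R_one, eig_R_sg, ← span_gU hA, ← span_fW hA, em_span, em_span, Submodule.span_mul_span]
    refine congrArg _ (Set.ext fun x => ⟨?_, ?_⟩)
    · rintro ⟨l, rfl⟩
      exact ⟨_, ⟨_, rfl⟩, _, ⟨_, rfl⟩, (map_mul emb _ _).symm⟩
    · rintro ⟨_, ⟨i, rfl⟩, _, ⟨j, rfl⟩, rfl⟩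
      exact ⟨idx i j, (X_f hA i j).trans (map_mul emb _ _)⟩
  smooth j := hs j.1 j.2
  Pt := V
  Sig b m := {x | ∃ s ∈ U A ^ m, s.1 b ≠ 0 ∧ emb s = x}
  Sig_sub b m := by
    rintro _ ⟨s, hs, -, rfl⟩
    exact eig_R_pow m ▸ emb_mem_em.2 hs
  Sig_ne b m := by
    rintro _ ⟨s, -, h, rfl⟩
    exact emb_ne' h
  Sig_one b := ⟨1, by rw [pow_zero]; exact Submodule.one_le.1 le_rfl, one_ne_zero, map_one _⟩
  Sig_mul b m n := by
    rintro _ ⟨s, hs, h, rfl⟩ _ ⟨s', hs', h', rfl⟩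
    exact ⟨s * s', by rw [pow_add]; exact Submodule.mul_mem_mul hs hs', mul_ne_zero h h',
      map_mul _ _ _⟩
  glob I hI h := by
    obtain ⟨N, hN⟩ := hA.ns_pow (fun m => (I m).comap emb.toLinearMap)
      (fun m u hu σ _ hσ => by
        have := hI m (Submodule.mul_mem_mul (eig_R_one ▸ emb_mem_em.2 hu) hσ)
        exact Submodule.mem_comap.2 ((map_mul emb u σ).symm ▸ this : emb (u * σ) ∈ I (m + 1)))
      fun b => by
        obtain ⟨m, _, ⟨s, hs, h0, rfl⟩, hi⟩ := h b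
        exact ⟨m, s, hs, hi, h0⟩
    refine ⟨N, ?_⟩
    rw [eig_R_pow]
    exact Submodule.map_le_iff_le_comap.2 (hN N le_rfl)

variable (hA : Good A) (hs : ∀ j ∈ (X hA).J, Algebra.Smooth ℂ ((X hA).A {j}))

theorem kum_R : (kum hA hs).R = em (R A 1) := rfl

theorem kum_X : (kum hA hs).X = X hA := rfl

theorem kum_U : (kum hA hs).U = em (U A) := eig_R_one

theorem kum_V : (kum hA hs).V = em (W A) := eig_R_sg

theorem kum_U_pow (m : ℕ) : (kum hA hs).U ^ m = em (U A ^ m) := eig_R_pow m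

theorem kum_U_pow_R (m : ℕ) : (kum hA hs).U ^ m * (kum hA hs).R = em (R A (m + 1)) := by
  rw [kum_U_pow, kum_R, ← em_mul]
  exact congrArg em (le_antisymm (Submodule.mul_le.2 fun F hF E hE =>
    mul_mem_R (NS.pow_le m hF).1 hE) (hA.gen m))

theorem kum_f (i : Fin (nW A)) (j : Fin (nU A)) :
    (kum hA hs).f ⟨idx i j, Finset.mem_univ _⟩ = emb (fW hA i) := by simp [idx]

theorem kum_g (i : Fin (nW A)) (j : Fin (nU A)) :
    (kum hA hs).g ⟨idx i j, Finset.mem_univ _⟩ = emb (gU hA j) := by simp [idx]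

theorem mem_kum_Sig {b : V} {m : ℕ} {x : M} :
    x ∈ (kum hA hs).Sig b m ↔ ∃ s ∈ U A ^ m, s.1 b ≠ 0 ∧ emb s = x := Iff.rfl

theorem kum_Ow (b : V) : (kum hA hs).Ow b = Ow A b := by
  refine le_antisymm ?_ fun x hx => ?_
  · rintro x ⟨m, _, ⟨s, h, h0, rfl⟩, hx⟩
    rw [kum_U_pow] at hx
    obtain ⟨F, hF, e⟩ := hx
    rw [eq_div_of_mul_eq (emb_ne' h0) e.symm]
    exact div_mem_Ow (NS.pow_le m hF).1 (NS.pow_le m h).1 (NS.pow_le m hF).2 (NS.pow_le m h).2 h0
  · obtain ⟨u, hu, hb⟩ := hA.bpf b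
    obtain ⟨j, F, hF, E, hE, hi, h0, rfl⟩ := exists_inv_den hu hb hx.1
    refine ⟨j + 1, _, ⟨E, hA.inv_mem hE hi, h0, rfl⟩, ?_⟩
    rw [div_mul_cancel₀ _ (emb_ne' h0), kum_U_pow]
    refine emb_mem_em.2 (hA.inv_mem hF fun g => emb_inj ?_)
    have h1 := hx.2 g
    rw [smul_div₀', smul_emb, smul_emb, hi g] at h1
    exact (div_left_inj' (emb_ne' h0)).1 h1

theorem kum_Yw {b : V} {g : M} (hg : g ∈ (kum hA hs).Sig b 1) :
    (kum hA hs).Yw b g (kum hA hs).R = (Ot A b).toSubmodule := by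
  obtain ⟨u, hu, hb, rfl⟩ := hg
  rw [pow_one] at hu
  rw [Kum.Yw, kum_Ow]
  refine le_antisymm (Submodule.mul_le.2 fun x hx y hy => ?_) fun x hx => ?_
  · refine (Ot A b).mul_mem hx.1 ?_
    obtain ⟨_, ⟨F, hF, rfl⟩, rfl⟩ := Submodule.mem_span_singleton_mul.1 hy
    rw [inv_mul_eq_div]
    exact div_mem_Ot hF hu.1 hu.2 hb
  · obtain ⟨j, F, hF, E, hE, hi, h0, rfl⟩ := exists_inv_den hu hb hx
    refine Submodule.mul_induction_on (C := fun F => emb F / emb E ∈ (Ow A b).toSubmodule *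
      (Submodule.span ℂ {(emb u)⁻¹} * em (R A 1))) (hA.gen j hF) (fun a ha r hr => ?_)
      fun a c ha hc => by rw [map_add, add_div]; exact add_mem ha hc
    have := emb_ne' hb
    rw [show emb (a * r) / emb E = emb (a * u) / emb E * ((emb u)⁻¹ * emb r) by
      rw [map_mul, map_mul]; field_simp]
    exact Submodule.mul_mem_mul (div_mem_Ow (mul_mem_R (NS.pow_le j ha).1 hu.1) hE
      (fun g => by rw [smul_mul', (NS.pow_le j ha).2 g, hu.2 g]) hi h0)
      (Submodule.mul_mem_mul (Submodule.mem_span_singleton_self _) ⟨r, hr, rfl⟩)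

section Loc

variable {b : V} {O T : Subalgebra ℂ M} {t : Fin 4 → M}

theorem Pm_eq_range (t : Fin 4 → M) : Pm t = (aeval t : P4 →ₐ[ℂ] M).range :=
  Algebra.adjoin_range_eq_range_aeval ℂ t

theorem aeval_mem_Ai (h : SemiLoc b O T t) {p : P4} (hp : p ∈ A0) : aeval t p ∈ Ai t :=
  Equi.mem_adjoin_ivt (A := ℂ) h.eqv smul_const
    (Algebra.adjoin_range_eq_range_aeval ℂ t ▸ ⟨p, rfl⟩) fun g => by rw [smul_aeval h, hp]

theorem ivt_mem_A0 (i : Fin 7) : (ivt MvPolynomial.X i : P4) ∈ A0 := fun g => by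
  rw [map_ivt]
  simpa [rho] using ivt_gv g (MvPolynomial.X : Fin 4 → P4) i

theorem Ai_le_of (h : SemiLoc b O T t) : Ai t ≤ O := Algebra.adjoin_le (by
  rintro _ ⟨i, rfl⟩
  have := aeval_mem_O h (ivt_mem_A0 i)
  rw [map_ivt] at this
  simpa using this)

theorem flat_Ai (h : SemiLoc b O T t) (hi : Function.Injective (aeval t : P4 →ₐ[ℂ] M))
    (hf : (toO h).toRingHom.Flat) (le : Ai t ≤ O) : (Subalgebra.inclusion le).toRingHom.Flat := by
  let φ : A0 →ₐ[ℂ] Ai t :=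
    ((aeval t : P4 →ₐ[ℂ] M).comp A0.val).codRestrict _ fun p => aeval_mem_Ai h p.2
  have hφ : Function.Bijective φ := by
    refine ⟨fun p q e => Subtype.ext (hi (congrArg Subtype.val e)), fun x => ?_⟩
    have : Ai t ≤ A0.map (aeval t) := Algebra.adjoin_le (by
      rintro _ ⟨i, rfl⟩
      exact ⟨_, ivt_mem_A0 i, by rw [AlgHom.coe_toRingHom, map_ivt]; simp⟩)
    obtain ⟨p, hp, e⟩ := this x.2
    exact ⟨⟨p, hp⟩, Subtype.ext e⟩
  let ε := AlgEquiv.ofBijective φ hφ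
  have e : (Subalgebra.inclusion le).toRingHom = (toO h).toRingHom.comp ε.symm.toRingEquiv.toRingHom :=
    RingHom.ext fun x => by
      obtain ⟨p, rfl⟩ := ε.surjective x
      change _ = toO h (ε.symm (ε p))
      rw [ε.symm_apply_apply]
      rfl
  rw [e]
  exact (RingHom.Flat.of_bijective ε.symm.bijective).comp hf

theorem alp_ne (hi : Function.Injective (aeval t : P4 →ₐ[ℂ] M)) (ν : Fin 3) : alp t ν ≠ 0 := by
  have h : (alt MvPolynomial.X (cix ν) : P4) ≠ 0 := by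
    fin_cases ν
    exacts [d_ne, a0_ne, a3_ne]
  have := (map_ne_zero_iff _ hi).2 h
  rw [map_alt] at this
  simpa [alp] using this

theorem reg_of (h : SemiLoc b O T t) (hi : Function.Injective (aeval t : P4 →ₐ[ℂ] M))
    (hf : (toT h).toRingHom.Flat) (m n : ℕ) (z : M) (h1 : alp t 1 ^ m * z ∈ T)
    (h2 : alp t 2 ^ n * z ∈ T) : z ∈ T := by
  let : Algebra P T := (toT h).toRingHom.toAlgebra
  have : Module.Flat P T := hf
  have e : ∀ i, ((algebraMap P T (alt MvPolynomial.X i) : T) : M) = alt t i := fun i => by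
    refine (coe_toT h _).trans ?_
    rw [map_alt]; simp
  obtain ⟨w, hw⟩ := reg_a0_a3 m n (⟨_, h2⟩ : T) ⟨_, h1⟩ (Subtype.ext (by
    simp only [MulMemClass.coe_mul, SubmonoidClass.coe_pow, e]
    exact mul_left_comm _ _ _))
  have := congrArg Subtype.val hw
  simp only [MulMemClass.coe_mul, SubmonoidClass.coe_pow, e] at this
  rw [mul_left_cancel₀ (pow_ne_zero n (alp_ne hi 2)) this]
  exact w.2

theorem Ot_le_mul (h : SemiLoc b O T t) :
    T.toSubmodule ≤ O.toSubmodule * (Pm t).toSubmodule := fun x hx => by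
  have := h.mem_span_range hx
  clear hx
  induction this using Submodule.span_induction with
  | mem y hy =>
    rw [← one_mul y]
    exact Submodule.mul_mem_mul (one_mem O) (show y ∈ Pm t from Pm_eq_range t ▸ hy)
  | zero => exact zero_mem _
  | add _ _ _ _ h1 h2 => exact add_mem h1 h2
  | smul a y _ hy => exact mul_mem_self a.2 hy

/-- local data at `b` from equivariant coordinates -/
def kumLoc {g : M} (hg : g ∈ (kum hA hs).Sig b 1) (ht : Crd A b t) : (kum hA hs).Loc b where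
  g := g
  g_mem := hg
  t := t
  equi := ht.equi
  indep := algebraicIndependent_iff_injective_aeval.2 (crd_inj ht)
  t_mem i := by rw [kum_Yw hA hs hg]; exact ht.mem i
  gen := by rw [kum_Yw hA hs hg, kum_Ow]; exact Ot_le_mul (semiLoc hA ht)
  Ai_le := by rw [kum_Ow]; exact Ai_le_of (semiLoc hA ht)
  flat := by
    have : ∀ O, O = Ow A b → ∀ le : Ai t ≤ O, (Subalgebra.inclusion le).toRingHom.Flat := by
      rintro _ rfl
      exact flat_Ai _ (crd_inj ht) (flat_Ow hA ht (semiLoc hA ht))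
    exact this _ (kum_Ow hA hs b) _
  reg m z := by
    rw [kum_Yw hA hs hg]
    exact reg_of _ (crd_inj ht) (flat_Ot hA ht (semiLoc hA ht)) m m z

theorem nonempty_kumLoc (b : V) : Nonempty ((kum hA hs).Loc b) := by
  obtain ⟨u, hu, hb⟩ := hA.bpf b
  obtain ⟨t, ht⟩ := exists_crd hA.bpf b
  exact ⟨kumLoc hA hs ⟨u, by rwa [pow_one], hb, rfl⟩ ht⟩

end Loc

end

end Pool.Agent.Lib.MP_d3d358_ag.K
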