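import Pool.Agent.Lib.MP_d3d358_ag.K.LocD
import Pool.Agent.Lib.MP_d3d358_ag.K.KumX
import Pool.Agent.Lib.MP_d3d358_ag.K.Glue

/-! The functor of invariant sections is full on the twists of the regular object. -/

set_option autoImplicit false

open CategoryTheory

namespace Pool.Agent.Lib.MP_d3d358_ag.K

open Pool.Agent.Lib.MP_cd184e_ag.T Pool.Agent.Lib.MP_cd184e_ag.T.Coh Cy
open Pool.Agent.Lib.MP_d3d358_ag.Var (G M V Good emb Ent)
open Pool.Agent.Lib.MP_d3d358_ag.G (Sf lat3)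
open Pool.Agent.Lib.MP_d3d358_ag.Bkr
open Pool.Agent.Lib.MP_d3d358_ag.Th (Obj twObj F0 Theta)

variable {A : Sf} (hA : Good A)
  (hs : ∀ j ∈ (Var.X hA).J, Algebra.Smooth ℂ ((Var.X hA).A {j}))

/-- Elements of degree `n` that are regular at every point are theta functions. -/
theorem kum_glue {n : ℤ} {c : M}
    (h : ∀ w, ∃ y ∈ (kum hA hs).Sig w 1, c / y ^ n ∈ (kum hA hs).Yw w y (kum hA hs).R) :
    ∃ C : Ent, c = emb C ∧ C.1 ∈ Theta (lat3 A.toLat) (n * A.k) := glue n fun w => by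
  obtain ⟨y, hy, hc⟩ := h w
  rw [kum_Yw hA hs hy] at hc
  obtain ⟨u, hu, hb, rfl⟩ := hy
  rw [pow_one] at hu
  exact ⟨u, hu.1, hb, Ot_le_locN w hc⟩

theorem exists_iso_EP {N : Coh (Var.X hA)} (E : Emb N M) (a : ℤ)
    (im : ∀ s (z : M), z ∈ E.Im s ↔ z ∈ Sec ((Var.R A 1).map emb.toLinearMap) (kum hA hs).Tg
      ((kum hA hs).Tg ^ a) s) :
    ∃ ι : N ≅ (twc ((kum hA hs).cy 0 a)).obj (kum hA hs).P,
      ∀ s x, ((kum hA hs).EP 0 a).e s (ι.hom.app s x) = E.e s x :=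
  exists_iso E ((kum hA hs).EP 0 a) fun s => AddSubgroup.ext fun z => by
    rw [im, Kum.mem_E, Kum.cy, zpow_zero, one_mul]; rfl

/-- `B1` for a functor whose values on the twists of the regular object are the twists of the rank
six bundle. -/
theorem full_of_B1 (α : Obj A.cr ⥤ Coh (Var.X hA))
    (E : ∀ a : ℤ, Emb (α.obj (twObj a (F0 A.cr))) M)
    (im : ∀ (a : ℤ) (s) (z : M), z ∈ (E a).Im s ↔
      z ∈ Sec ((Var.R A 1).map emb.toLinearMap) (kum hA hs).Tg ((kum hA hs).Tg ^ a) s)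
    (map_G : ∀ (a b : ℤ) (c : G → Ent),
      (∀ g, (c g).1 ∈ Theta A.cr.toLat ((b - a : ℤ) * A.cr.k)) →
      ∃ u : twObj a (F0 A.cr) ⟶ twObj b (F0 A.cr), ∀ s x,
        (E b).e s ((α.map u).app s x) = sumG (fun g => emb (c g)) ((E a).e s x))
    (a b : ℤ)
    (h1 : ∀ φ : (twc ((kum hA hs).cy 0 a)).obj (kum hA hs).P ⟶
        (twc ((kum hA hs).cy 0 b)).obj (kum hA hs).P,
      ∃ c : G → M, (∀ g w, ∃ y ∈ (kum hA hs).Sig w 1,
        c g / y ^ (b - a) ∈ (kum hA hs).Yw w y (kum hA hs).R) ∧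
        ∀ s x, ((kum hA hs).EP 0 b).e s (φ.app s x) = sumG c (((kum hA hs).EP 0 a).e s x)) :
    Function.Surjective (α.map : (twObj a (F0 A.cr) ⟶ twObj b (F0 A.cr)) →
      (α.obj (twObj a (F0 A.cr)) ⟶ α.obj (twObj b (F0 A.cr)))) := fun φ => by
  obtain ⟨ιa, ha⟩ := exists_iso_EP hA hs (E a) a (im a)
  obtain ⟨ιb, hb⟩ := exists_iso_EP hA hs (E b) b (im b)
  obtain ⟨c, hc, e⟩ := h1 (ιa.inv ≫ φ ≫ ιb.hom)
  choose C hC hT using fun g => kum_glue hA hs (hc g)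
  obtain ⟨u, hu⟩ := map_G a b C hT
  refine ⟨u, hom_ext fun s x => (E b).inj s ?_⟩
  have e1 : (ιa.inv ≫ φ ≫ ιb.hom).app s (ιa.hom.app s x) = ιb.hom.app s (φ.app s x) := by
    rw [← comp_app, ιa.hom_inv_id_assoc, comp_app]
  rw [hu, ← ha, ← hb, ← e1, e, show (fun g => emb (C g)) = c from funext fun g => (hC g).symm]

end Pool.Agent.Lib.MP_d3d358_ag.K
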