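import Pool.Agent.Lib.MP_cd184e_ag.T.Kill

set_option autoImplicit false

open CategoryTheory Limits Abelian

namespace Pool.Agent.Lib.MP_d3d358_ag.K

open Pool.Agent.Lib.MP_cd184e_ag.T Pool.Agent.Lib.MP_cd184e_ag.T.Coh

variable {k K : Type} [Field k] [Field K] [Algebra k K] {X : ProjVar k K}

/-- A line bundle inside the field `K`, given by a generator on each chart. -/
@[ext] structure Cy (X : ProjVar k K) where
  l : X.J → K
  ne : ∀ j, l j ≠ 0
  reg : ∀ (i j : X.J) (s : X.Idx), i.1 ∈ s.1 → j.1 ∈ s.1 → l i / l j ∈ X.A s.1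

namespace Cy

instance : One (Cy X) := ⟨⟨fun _ => 1, fun _ => one_ne_zero, fun _ _ _ _ _ => by simp⟩⟩

instance : Mul (Cy X) := ⟨fun a b => ⟨fun j => a.l j * b.l j, fun j => mul_ne_zero (a.ne j) (b.ne j),
  fun i j s hi hj => by
    rw [← div_mul_div_comm]; exact mul_mem (a.reg i j s hi hj) (b.reg i j s hi hj)⟩⟩

instance : Inv (Cy X) := ⟨fun a => ⟨fun j => (a.l j)⁻¹, fun j => inv_ne_zero (a.ne j),
  fun i j s hi hj => by
    rw [inv_div_inv]; exact a.reg j i s hj hi⟩⟩

@[simp] theorem one_l (j : X.J) : (1 : Cy X).l j = 1 := rfl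
@[simp] theorem mul_l (a b : Cy X) (j : X.J) : (a * b).l j = a.l j * b.l j := rfl
@[simp] theorem inv_l (a : Cy X) (j : X.J) : a⁻¹.l j = (a.l j)⁻¹ := rfl

noncomputable instance : CommGroup (Cy X) where
  mul_assoc a b c := by ext j; simp [mul_assoc]
  one_mul a := by ext j; simp
  mul_one a := by ext j; simp
  inv_mul_cancel a := by ext j; simp [a.ne j]
  mul_comm a b := by ext j; simp [mul_comm]

@[simp] theorem pow_l (a : Cy X) (n : ℕ) (j : X.J) : (a ^ n).l j = a.l j ^ n := by
  induction n with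
  | zero => simp
  | succ n ih => rw [pow_succ, pow_succ, mul_l, ih]

@[simp] theorem zpow_l (a : Cy X) (n : ℤ) (j : X.J) : (a ^ n).l j = a.l j ^ n := by
  obtain ⟨m, rfl | rfl⟩ := Int.eq_nat_or_neg n <;> simp

/-- The generator on the open set of index `s`. -/
noncomputable def fp (a : Cy X) (s : X.Idx) : K := a.l (X.pt s)

theorem fp_ne (a : Cy X) (s : X.Idx) : a.fp s ≠ 0 := a.ne _

@[simp] theorem fp_one (a : Cy X) (j : X.J) : a.fp (X.one j) = a.l j := by
  rw [fp, ProjVar.pt_one]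

@[simp] theorem one_fp (s : X.Idx) : (1 : Cy X).fp s = 1 := rfl
@[simp] theorem mul_fp (a b : Cy X) (s : X.Idx) : (a * b).fp s = a.fp s * b.fp s := rfl
@[simp] theorem inv_fp (a : Cy X) (s : X.Idx) : a⁻¹.fp s = (a.fp s)⁻¹ := rfl
@[simp] theorem pow_fp (a : Cy X) (n : ℕ) (s : X.Idx) : (a ^ n).fp s = a.fp s ^ n := pow_l _ _ _
@[simp] theorem zpow_fp (a : Cy X) (n : ℤ) (s : X.Idx) : (a ^ n).fp s = a.fp s ^ n := zpow_l _ _ _

/-- Transition function. -/
noncomputable def tr (a : Cy X) {s t : X.Idx} (h : s ≤ t) : X.A t.1 :=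
  ⟨a.fp s / a.fp t, a.reg _ _ t (h (X.pt_mem s)) (X.pt_mem t)⟩

@[simp] theorem coe_tr (a : Cy X) {s t : X.Idx} (h : s ≤ t) : (a.tr h : K) = a.fp s / a.fp t := rfl

theorem isUnit_tr (a : Cy X) {s t : X.Idx} (h : s ≤ t) : IsUnit (a.tr h) :=
  IsUnit.of_mul_eq_one (a⁻¹.tr h) (Subtype.ext (by
    have := a.fp_ne s
    have := a.fp_ne t
    simp only [MulMemClass.coe_mul, coe_tr, inv_fp, OneMemClass.coe_one]
    field_simp))

theorem tr_mul (a b : Cy X) {s t : X.Idx} (h : s ≤ t) : (a * b).tr h = b.tr h * a.tr h :=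
  Subtype.ext (by simp [div_mul_div_comm, mul_comm])

theorem tr_one {s t : X.Idx} (h : s ≤ t) : (1 : Cy X).tr h = 1 := Subtype.ext (by simp)

/-- The bundle `O(1)`. -/
def O1 (X : ProjVar k K) : Cy X :=
  ⟨fun j => X.f j.1, fun j => X.ne _ j.2, fun i _ _ _ hj => X.div_mem i.1 hj⟩

@[simp] theorem O1_fp (s : X.Idx) : (O1 X).fp s = X.fp s := rfl

/-- Multiplication by `r` sends the bundle `a` into the bundle `b`. -/
def Reg (r : K) (a b : Cy X) : Prop := ∀ s : X.Idx, r * a.fp s / b.fp s ∈ X.A s.1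

theorem Reg.of_one {r : K} {a b : Cy X} (h : ∀ j : X.J, r * a.l j / b.l j ∈ X.A {j.1}) :
    Reg r a b := fun s => X.A_mono (X.one_le (X.pt_mem s)) (h (X.pt s))

theorem Reg.refl (a : Cy X) : Reg 1 a a := fun s => by
  rw [one_mul, div_self (a.fp_ne s)]; exact one_mem _

theorem Reg.mul {r r' : K} {a b c : Cy X} (h : Reg r a b) (h' : Reg r' b c) : Reg (r * r') a c :=
  fun s => by
    have := b.fp_ne s
    have := c.fp_ne s
    rw [show r * r' * a.fp s / c.fp s = r * a.fp s / b.fp s * (r' * b.fp s / c.fp s) by field_simp]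
    exact mul_mem (h s) (h' s)

theorem Reg.shift {r : K} {a b : Cy X} (h : Reg r a b) (c : Cy X) : Reg r (c * a) (c * b) :=
  fun s => by
    have := b.fp_ne s
    have := c.fp_ne s
    rw [mul_fp, mul_fp, show r * (c.fp s * a.fp s) / (c.fp s * b.fp s) = r * a.fp s / b.fp s by
      field_simp]
    exact h s

theorem Reg.add {r r' : K} {a b : Cy X} (h : Reg r a b) (h' : Reg r' a b) : Reg (r + r') a b :=
  fun s => by rw [add_mul, add_div]; exact add_mem (h s) (h' s)

theorem Reg.smul {r : K} {a b : Cy X} (h : Reg r a b) (c : k) : Reg (c • r) a b :=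
  fun s => by rw [smul_mul_assoc, smul_div_assoc]; exact Subalgebra.smul_mem _ (h s) c

theorem Reg.zero (a b : Cy X) : Reg 0 a b := fun s => by simp

theorem Reg.of_Rd {r : K} {t : ℕ} (hr : r ∈ X.Rd t) (a : Cy X) : Reg r a (a * O1 X ^ t) :=
  fun s => by
    have := a.fp_ne s
    have := X.fp_ne s
    have h := X.Rd_le_Deg t hr s
    rw [zpow_natCast] at h
    rw [mul_fp, pow_fp, O1_fp, show r * a.fp s / (a.fp s * X.fp s ^ t) = r / X.fp s ^ t by
      field_simp]
    exact h

/-- The function that gives multiplication by `r` on the open set of index `s`. -/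
noncomputable def Reg.sec {r : K} {a b : Cy X} (h : Reg r a b) (s : X.Idx) : X.A s.1 :=
  ⟨r * a.fp s / b.fp s, h s⟩

@[simp] theorem Reg.coe_sec {r : K} {a b : Cy X} (h : Reg r a b) (s : X.Idx) :
    (h.sec s : K) = r * a.fp s / b.fp s := rfl

end Cy

open Cy

/-- The twist of `N` by the line bundle `a`. -/
@[reducible] noncomputable def twcObj (a : Cy X) (N : Coh X) : Coh X where
  obj := N.obj
  res h := (DistribSMul.toAddMonoidHom _ (a.tr h)).comp (N.res h)
  res_smul h c x := by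
    change a.tr h • N.res h (c • x) = X.inc h c • a.tr h • N.res h x
    rw [N.res_smul, smul_comm]
  res_refl {s} x := by
    change a.tr (le_rfl : s ≤ s) • N.res le_rfl x = x
    have : a.tr (le_rfl : s ≤ s) = 1 := Subtype.ext (by simp [a.fp_ne s])
    rw [this, one_smul, N.res_refl]
  res_res {s t u} h h' x := by
    change a.tr h' • N.res h' (a.tr h • N.res h x) = a.tr (h.trans h') • N.res _ x
    have : a.tr h' * X.inc h' (a.tr h) = a.tr (h.trans h') := Subtype.ext (by
      have := a.fp_ne t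
      have := a.fp_ne u
      simp only [MulMemClass.coe_mul, ProjVar.coe_inc, coe_tr]
      field_simp)
    rw [N.res_smul, N.res_res, ← mul_smul, this]
  fg := N.fg
  surj h y := by
    obtain ⟨a', x, ha, e⟩ := N.surj h ((a.isUnit_tr h).unit⁻¹ • y)
    refine ⟨a', x, ha, ?_⟩
    change _ = a.tr h • N.res h x
    rw [← e, smul_comm, Units.smul_def, ← mul_smul (a.tr h), IsUnit.mul_val_inv, one_smul]
  inj h x hx := N.inj h x ((a.isUnit_tr h).smul_eq_zero.1 hx)

theorem twcObj_res (a : Cy X) (N : Coh X) {s t : X.Idx} (h : s ≤ t) (x : N.obj s) :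
    (twcObj a N).res h x = a.tr h • N.res h x := rfl

/-- The twist functor. -/
@[reducible] noncomputable def twc (a : Cy X) : Coh X ⥤ Coh X where
  obj := twcObj a
  map φ := ⟨φ.app, fun h x => by
    rw [twcObj_res, twcObj_res]; exact ((φ.app _).map_smul _ _).trans (by rw [φ.nat])⟩

theorem twc_map_app (a : Cy X) {M N : Coh X} (φ : M ⟶ N) (s : X.Idx) (x : M.obj s) :
    ((twc a).map φ).app s x = φ.app s x := rfl

instance (a : Cy X) : (twc a).Additive where

instance (a : Cy X) : PreservesFiniteLimits (twc a) :=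
  (exact_functor _ fun _ _ h1 h2 h3 => ⟨h1, h2, h3⟩).1

instance (a : Cy X) : PreservesFiniteColimits (twc a) :=
  (exact_functor _ fun _ _ h1 h2 h3 => ⟨h1, h2, h3⟩).2

/-- Multiplication `N ⊗ a ⟶ N ⊗ b` by `r`. -/
noncomputable def muc (N : Coh X) {r : K} {a b : Cy X} (hr : Reg r a b) :
    (twc a).obj N ⟶ (twc b).obj N where
  app s := LinearMap.lsmul (X.A s.1) (N.obj s) (hr.sec s)
  nat {s t} h x := by
    change hr.sec t • a.tr h • N.res h x = b.tr h • N.res h (hr.sec s • x)
    rw [N.res_smul, ← mul_smul, ← mul_smul]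
    congr 1
    have := a.fp_ne t
    have := b.fp_ne s
    have := b.fp_ne t
    refine Subtype.ext ?_
    simp only [MulMemClass.coe_mul, ProjVar.coe_inc, coe_tr, Reg.coe_sec]
    field_simp

theorem muc_app (N : Coh X) {r : K} {a b : Cy X} (hr : Reg r a b) (s : X.Idx) (x : N.obj s) :
    (muc N hr).app s x = hr.sec s • x := rfl

theorem muc_muc (N : Coh X) {r r' : K} {a b c : Cy X} (hr : Reg r a b) (hr' : Reg r' b c) :
    muc N hr ≫ muc N hr' = muc N (hr.mul hr') := by
  refine hom_ext fun s x => ?_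
  rw [comp_app, muc_app, muc_app, muc_app, ← mul_smul]
  refine congrArg (· • x) (Subtype.ext ?_)
  have := b.fp_ne s
  have := c.fp_ne s
  simp only [MulMemClass.coe_mul, Reg.coe_sec]
  field_simp

theorem muc_congr (N : Coh X) {r r' : K} {a b : Cy X} (hr : Reg r a b) (hr' : Reg r' a b)
    (e : r = r') : muc N hr = muc N hr' := by subst e; rfl

theorem muc_nat {M N : Coh X} (φ : M ⟶ N) {r : K} {a b : Cy X} (hr : Reg r a b) :
    (twc a).map φ ≫ muc N hr = muc M hr ≫ (twc b).map φ :=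
  hom_ext fun s x => ((φ.app s).map_smul _ x).symm

theorem muc_refl (N : Coh X) (a : Cy X) : muc N (Reg.refl a) = 𝟙 _ := by
  refine hom_ext fun s x => ?_
  rw [muc_app, show (Reg.refl a).sec s = 1 from Subtype.ext (by simp [a.fp_ne s]), one_smul]
  rfl

theorem muc_add (N : Coh X) {r r' : K} {a b : Cy X} (hr : Reg r a b) (hr' : Reg r' a b) :
    muc N (hr.add hr') = muc N hr + muc N hr' := by
  refine hom_ext fun s x => ?_
  rw [add_app, muc_app, muc_app, muc_app, ← add_smul]
  exact congrArg (· • x) (Subtype.ext (by simp [add_mul, add_div]))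

theorem muc_zero (N : Coh X) (a b : Cy X) : muc N (Reg.zero a b) = 0 := by
  refine hom_ext fun s x => ?_
  rw [muc_app, show (Reg.zero a b).sec s = 0 from Subtype.ext (by simp), zero_smul]
  rfl

/-- `N ⊗ 1 = N`. -/
noncomputable def twc1 (N : Coh X) : (twc 1).obj N ≅ N where
  hom := ⟨fun _ => LinearMap.id, fun h x => by
    change (1 : Cy X).tr h • N.res h x = N.res h x
    rw [tr_one, one_smul]⟩
  inv := ⟨fun _ => LinearMap.id, fun h x => by
    change N.res h x = (1 : Cy X).tr h • N.res h x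
    rw [tr_one, one_smul]⟩

/-- `N ⊗ a ⊗ b = N ⊗ (a * b)`. -/
noncomputable def twctwc (N : Coh X) (a b c : Cy X) (h : a * b = c) :
    (twc b).obj ((twc a).obj N) ≅ (twc c).obj N where
  hom := ⟨fun _ => LinearMap.id, fun h' x => by
    change b.tr h' • a.tr h' • N.res h' x = c.tr h' • N.res h' x
    rw [← h, tr_mul, mul_smul]⟩
  inv := ⟨fun _ => LinearMap.id, fun h' x => by
    change c.tr h' • N.res h' x = b.tr h' • a.tr h' • N.res h' x
    rw [← h, tr_mul, mul_smul]⟩

/-- The old twist is the twist by a power of `O1`. -/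
noncomputable def twO (N : Coh X) (t : ℤ) : (tw t).obj N ≅ (twc (O1 X ^ t)).obj N :=
  have e : ∀ {s u : X.Idx} (h : s ≤ u), X.tr h t = (O1 X ^ t).tr h := fun h =>
    Subtype.ext (by simp [div_zpow])
  { hom := ⟨fun _ => LinearMap.id, fun h x => by
      change X.tr h t • N.res h x = (O1 X ^ t).tr h • N.res h x
      rw [e]⟩
    inv := ⟨fun _ => LinearMap.id, fun h x => by
      change (O1 X ^ t).tr h • N.res h x = X.tr h t • N.res h x
      rw [e]⟩ }

theorem locProj_twc {G : Coh X} (hG : LocProj G) (a : Cy X) : LocProj ((twc a).obj G) := hG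

/-- The action of `r` on extension classes. -/
noncomputable def act {G N : Coh X} {i : ℕ} {r : K} {a b : Cy X} (x : Ext G ((twc a).obj N) i)
    (hr : Reg r a b) : Ext G ((twc b).obj N) i :=
  x.comp (Ext.mk₀ (muc N hr)) (add_zero _)

theorem act_act {G N : Coh X} {i : ℕ} {r r' : K} {a b c : Cy X} (x : Ext G ((twc a).obj N) i)
    (hr : Reg r a b) (hr' : Reg r' b c) : act (act x hr) hr' = act x (hr.mul hr') := by
  rw [act, act, act, Ext.comp_assoc_of_third_deg_zero, Ext.mk₀_comp_mk₀, muc_muc]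

theorem act_congr {G N : Coh X} {i : ℕ} {r r' : K} {a b : Cy X} (x : Ext G ((twc a).obj N) i)
    (hr : Reg r a b) (hr' : Reg r' a b) (e : r = r') : act x hr = act x hr' := by subst e; rfl

theorem act_refl {G N : Coh X} {i : ℕ} {a : Cy X} (x : Ext G ((twc a).obj N) i) :
    act x (Reg.refl a) = x := by rw [act, muc_refl, Ext.comp_mk₀_id]

/-- Classes of positive degree are killed by all forms of some degree. -/
theorem killc {G : Coh X} (hG : LocProj G) {N : Coh X} {a : Cy X} {i : ℕ}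
    (x : Ext G ((twc a).obj N) (i + 1)) :
    ∃ t : ℕ, ∀ (r : K) (hr : r ∈ X.Rd t), act x (Reg.of_Rd hr a) = 0 := by
  obtain ⟨t, ht⟩ := kill hG ((twc a).obj N) 0
    (x.comp (Ext.mk₀ (tw0 _).inv) (add_zero _))
  refine ⟨t, fun r hr => ?_⟩
  have e : muc N (Reg.of_Rd hr a) = ((tw0 _).inv ≫
      mu ((twc a).obj N) 0 (0 + t) r (X.Rd_le_Deg t hr) rfl) ≫ (twO _ _).hom ≫
        (twctwc N a _ _ (by simp)).hom := by
    refine hom_ext fun s z => ?_
    have := a.fp_ne s
    have := X.fp_ne s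
    change (Reg.of_Rd hr a).sec s • (show N.obj s from z) =
      X.sec r (X.Rd_le_Deg t hr) s • (show N.obj s from z)
    refine congrArg (· • (show N.obj s from z)) (Subtype.ext ?_)
    simp only [Reg.coe_sec, mul_fp, pow_fp, O1_fp, ProjVar.coe_sec, zpow_natCast]
    field_simp
  rw [act, e, ← Ext.mk₀_comp_mk₀, ← Ext.mk₀_comp_mk₀, ← Ext.comp_assoc_of_third_deg_zero,
    ← Ext.comp_assoc_of_third_deg_zero, ht r hr, Ext.zero_comp]

end Pool.Agent.Lib.MP_d3d358_ag.K
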