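import Pool.Agent.Lib.MP_9ff3e7_ag.F.XEtA
import Pool.Agent.Lib.MP_9ff3e7_ag.F.XEtC

/-! An unramified domain, essentially of finite type over a normal domain, is flat. -/

set_option autoImplicit false

namespace Pool.Agent.Lib.MP_d3d358_ag.K

open IsLocalRing MvPolynomial

section

variable {R L : Type} [CommRing R] [CommRing L] [Algebra R L] [IsLocalRing L]
  [Algebra.EssFiniteType R L]

/-- The prime of the finite type model below the maximal ideal. -/
noncomputable abbrev modelPrime (R L : Type) [CommRing R] [CommRing L] [Algebra R L]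
    [IsLocalRing L] [Algebra.EssFiniteType R L] : Ideal (Algebra.EssFiniteType.subalgebra R L) :=
  (maximalIdeal L).comap (algebraMap _ L)

theorem atPrime_modelPrime : IsLocalization.AtPrime L (modelPrime R L) := by
  have e : (modelPrime R L).primeCompl = Algebra.EssFiniteType.submonoid R L := by
    ext x
    exact notMem_maximalIdeal
  rw [IsLocalization.AtPrime, e]
  infer_instance

theorem flat_of_unram_local [IsDomain R] [IsIntegrallyClosed R] [IsDomain L] [FaithfulSMul R L]
    [Algebra.FormallyUnramified R L] : Module.Flat R L := by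
  let B := Algebra.EssFiniteType.subalgebra R L
  let Q := modelPrime R L
  have := atPrime_modelPrime (R := R) (L := L)
  have : FaithfulSMul R B := (faithfulSMul_iff_algebraMap_injective R B).2 fun a b h =>
    FaithfulSMul.algebraMap_injective R L (congrArg Subtype.val h)
  have : Algebra.IsUnramifiedAt R Q := Algebra.FormallyUnramified.of_equiv
    ((IsLocalization.algEquiv Q.primeCompl L (Localization.AtPrime Q)).restrictScalars R)
  obtain ⟨f, hf, -, H⟩ := MP_9ff3e7_ag.F.std_of_unram (R := R) Q 1
    (fun h => (inferInstance : Q.IsPrime).ne_top ((Ideal.eq_top_iff_one _).2 h))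
  obtain ⟨E, -⟩ := H (Localization.Away f)
  have : Algebra.IsStandardEtale R (Localization.Away f) := ⟨⟨E⟩⟩
  have hle : Submonoid.powers f ≤ Q.primeCompl := Submonoid.powers_le.2 hf
  let := IsLocalization.localizationAlgebraOfSubmonoidLe (Localization.Away f) L _ _ hle
  have := IsLocalization.localization_isScalarTower_of_submonoid_le (Localization.Away f) L _ _ hle
  have := IsLocalization.isLocalization_of_submonoid_le (Localization.Away f) L _ _ hle
  have : IsScalarTower R (Localization.Away f) L := IsScalarTower.of_algebraMap_eq fun r => by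
    rw [IsScalarTower.algebraMap_apply R B (Localization.Away f), ← IsScalarTower.algebraMap_apply,
      ← IsScalarTower.algebraMap_apply]
  have : Module.Flat (Localization.Away f) L :=
    IsLocalization.flat L (Q.primeCompl.map (algebraMap B (Localization.Away f)))
  exact Module.Flat.trans R (Localization.Away f) L

end

/-- The same without the assumption that the ring is local. -/
theorem flat_of_unram_at {R B : Type} [CommRing R] [CommRing B] [Algebra R B] [IsDomain R]
    [IsIntegrallyClosed R] [IsDomain B] [FaithfulSMul R B] [Algebra.EssFiniteType R B]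
    (h : ∀ (Q : Ideal B) [Q.IsMaximal], Algebra.IsUnramifiedAt R Q) : Module.Flat R B := by
  refine Module.flat_of_isLocalized_maximal B B (fun Q _ => Localization.AtPrime Q)
    (fun Q _ => Algebra.linearMap B _) fun Q _ => ?_
  have := h Q
  have : FaithfulSMul R (Localization.AtPrime Q) :=
    (faithfulSMul_iff_algebraMap_injective _ _).2 (by
      rw [IsScalarTower.algebraMap_eq R B]
      exact (IsLocalization.injective _ Q.primeCompl_le_nonZeroDivisors).comp
        (FaithfulSMul.algebraMap_injective R B))
  exact flat_of_unram_local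

/-- A local ring with residue field `ℂ` whose cotangent space is spanned by the coordinates. -/
theorem unram_local {L : Type} [CommRing L] [IsLocalRing L] [Algebra ℂ L]
    [Algebra.EssFiniteType ℂ L] {n : ℕ} [Algebra (MvPolynomial (Fin n) ℂ) L]
    [IsScalarTower ℂ (MvPolynomial (Fin n) ℂ) L] (c : Fin n → ℂ)
    (hres : ∀ x : L, ∃ a : ℂ, x - algebraMap ℂ L a ∈ maximalIdeal L)
    (hc : ∀ i, algebraMap (MvPolynomial (Fin n) ℂ) L (X i - C (c i)) ∈ maximalIdeal L)
    (h : maximalIdeal L ≤ Ideal.span (Set.range fun i =>
      algebraMap (MvPolynomial (Fin n) ℂ) L (X i - C (c i))) ⊔ maximalIdeal L ^ 2) :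
    Algebra.FormallyUnramified (MvPolynomial (Fin n) ℂ) L := by
  have : Algebra.EssFiniteType (MvPolynomial (Fin n) ℂ) L := .of_comp ℂ _ _
  let B := Algebra.EssFiniteType.subalgebra (MvPolynomial (Fin n) ℂ) L
  let Q := modelPrime (MvPolynomial (Fin n) ℂ) L
  have := atPrime_modelPrime (R := MvPolynomial (Fin n) ℂ) (L := L)
  have : Algebra.FiniteType ℂ B := .trans (S := MvPolynomial (Fin n) ℂ) inferInstance inferInstance
  have : Q.IsMaximal := by
    refine Ideal.isMaximal_iff.2 ⟨fun h => (inferInstance : Q.IsPrime).ne_top
      ((Ideal.eq_top_iff_one _).2 h), fun J x hJ hx hxJ => ?_⟩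
    obtain ⟨a, ha⟩ := hres x.1
    have h1 : x - algebraMap ℂ B a ∈ Q := ha
    have h0 : a ≠ 0 := by
      rintro rfl
      rw [map_zero, sub_zero] at h1
      exact hx h1
    have h2 : algebraMap ℂ B a ∈ J := by simpa using J.sub_mem hxJ (hJ h1)
    exact (Ideal.eq_top_iff_one J).1 (J.eq_top_of_isUnit_mem h2 ((IsUnit.mk0 a h0).map _))
  have := MP_9ff3e7_ag.F.unram_of_gens Q L c hc h
  exact Algebra.FormallyUnramified.of_equiv (A := Localization.AtPrime Q)
    ((IsLocalization.algEquiv Q.primeCompl (Localization.AtPrime Q) L).restrictScalars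
      (MvPolynomial (Fin n) ℂ))

end Pool.Agent.Lib.MP_d3d358_ag.K
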