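import Pool.Agent.Lib.MP_d3d358_ag.K.Flat
import Pool.Agent.Lib.MP_d3d358_ag.K.EtLoc
import Pool.Agent.Lib.MP_d3d358_ag.Var.Q2M

/-! The semilocal ring is flat over the polynomial ring, the local ring of the quotient is flat over
the invariant polynomials. -/

set_option autoImplicit false

namespace Pool.Agent.Lib.MP_d3d358_ag.K

open MvPolynomial Pool.Agent.Lib.MP_d3d358_ag.Var

noncomputable section

theorem mem_span_X_sub {σ : Type} (c : σ → ℂ) (p : MvPolynomial σ ℂ) :
    p - C (aeval c p) ∈ Ideal.span (Set.range fun i => (X i - C (c i) : MvPolynomial σ ℂ)) := by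
  induction p using MvPolynomial.induction_on with
  | C a => simp
  | add p q hp hq =>
    rw [map_add, map_add, add_sub_add_comm]; exact add_mem hp hq
  | mul_X p i hp =>
    have : p * X i - C (aeval c (p * X i)) =
        p * (X i - C (c i)) + C (c i) * (p - C (aeval c p)) := by
      rw [map_mul, aeval_X, map_mul]; ring
    rw [this]
    exact add_mem (Ideal.mul_mem_left _ _ (Ideal.subset_span ⟨i, rfl⟩)) (Ideal.mul_mem_left _ _ hp)

section

variable {T : Type} [CommRing T] [Algebra ℂ T] [MulSemiringAction G T] [SMulCommClass G ℂ T]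
  {ev : T →ₐ[ℂ] ℂ} {t : Fin 4 → T}

omit [SMulCommClass G ℂ T] in
theorem coord_maximal (h : Coord ev t) [SMulCommClass G ℂ T] (Q : Ideal T) [hQ : Q.IsMaximal] :
    ∃ g : G, ∀ x, x ∈ Q ↔ ev (g • x) = 0 := by
  have : (Q : Set T) ⊆ ⋃ g ∈ (↑(Finset.univ : Finset G) : Set G),
      ↑(RingHom.ker (ev.comp (MulSemiringAction.toAlgHom ℂ T g))) := fun s hs => by
    by_contra hs'
    exact hQ.ne_top (Q.eq_top_of_isUnit_mem hs (h.isUnit fun g e => hs' (by
      simp only [Set.mem_iUnion]; exact ⟨g, by simp, e⟩)))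
  obtain ⟨g, -, hg⟩ := (Ideal.subset_union_prime (1 : G) 1
    fun g _ _ _ => RingHom.ker_isPrime _).1 this
  have e := hQ.eq_of_le (RingHom.ker_ne_top _) hg
  exact ⟨g, fun x => by rw [e]; exact RingHom.mem_ker⟩

theorem coord_gen (h : Coord ev t) (g : G) {x : T} (hx : ev (g • x) = 0) :
    ∃ s, ev (g • s) ≠ 0 ∧ s * x ∈ Ideal.span (Set.range fun i =>
      aeval t (X i - C (gv g⁻¹ (fun i => ev (t i)) i) : P4)) := by
  obtain ⟨s, hs, hm⟩ := h.gen _ hx
  refine ⟨g⁻¹ • s, by rwa [smul_inv_smul], ?_⟩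
  obtain ⟨c, hc⟩ := Ideal.mem_span_range_iff_exists_fun.1 hm
  have e : g⁻¹ • s * x = ∑ i, g⁻¹ • c i * aeval t (rho g (X i - C (ev (t i)))) := by
    have := congrArg (g⁻¹ • ·) hc
    simp only [smul_mul', inv_smul_smul, Finset.smul_sum] at this
    rw [← this]
    refine Finset.sum_congr rfl fun i _ => ?_
    have e2 := h.smul_aeval g⁻¹ (X i - C (ev (t i)))
    rw [inv_inv] at e2
    rw [← e2]; simp
  rw [e]
  refine sum_mem fun i _ => Ideal.mul_mem_left _ _ ?_
  have h1 := mem_span_X_sub (gv g⁻¹ fun i => ev (t i)) (rho g (X i - C (ev (t i))))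
  rw [aeval_rho, gv_gv_inv, show aeval (fun i => ev (t i)) (X i - C (ev (t i)) : P4) = 0 by simp,
    map_zero, sub_zero] at h1
  have h2 := Ideal.mem_map_of_mem (aeval t : P4 →ₐ[ℂ] T) h1
  rwa [Ideal.map_span, ← Set.range_comp] at h2

/-- the semilocal ring is flat over the polynomial ring in the coordinates -/
theorem coord_flat (h : Coord ev t) [IsDomain T] [Algebra.EssFiniteType ℂ T]
    (hi : Function.Injective (aeval t : P4 →ₐ[ℂ] T)) :
    (aeval t : P4 →ₐ[ℂ] T).toRingHom.Flat := by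
  let : Algebra P4 T := (aeval t : P4 →ₐ[ℂ] T).toRingHom.toAlgebra
  have : IsScalarTower ℂ P4 T := IsScalarTower.of_algebraMap_eq fun a =>
    ((aeval t : P4 →ₐ[ℂ] T).commutes a).symm
  have : FaithfulSMul P4 T := (faithfulSMul_iff_algebraMap_injective _ _).2 hi
  have : Algebra.EssFiniteType P4 T := .of_comp ℂ _ _
  refine flat_of_unram_at fun Q _ => ?_
  obtain ⟨g, hg⟩ := coord_maximal h Q
  let L := Localization.AtPrime Q
  have hm : ∀ x : T, algebraMap T L x ∈ IsLocalRing.maximalIdeal L ↔ ev (g • x) = 0 := fun x =>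
    (IsLocalization.AtPrime.to_map_mem_maximal_iff L Q x).trans (hg x)
  have hu : ∀ s : T, ev (g • s) ≠ 0 → IsUnit (algebraMap T L s) := fun s hs =>
    IsLocalRing.notMem_maximalIdeal.1 fun e => hs ((hm s).1 e)
  refine unram_local (gv g⁻¹ fun i => ev (t i)) (fun x => ?_) (fun i => ?_) ?_
  · obtain ⟨⟨a, s⟩, e⟩ := IsLocalization.surj Q.primeCompl x
    have hs : ev (g • s.1) ≠ 0 := fun c => s.2 ((hg _).2 c)
    refine ⟨ev (g • a) / ev (g • s.1), (Ideal.mul_unit_mem_iff_mem _ (hu _ hs)).1 ?_⟩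
    rw [sub_mul, e, IsScalarTower.algebraMap_apply ℂ T L, ← map_mul, ← map_sub, hm, smul_sub,
      smul_mul', map_sub, map_mul, smul_algebraMap, AlgHom.commutes]
    simp [hs]
  · rw [IsScalarTower.algebraMap_apply P4 T L, hm]
    change ev (g • aeval t _) = 0
    rw [h.ev_smul_aeval]; simp
  · refine le_sup_of_le_left ?_
    rw [← Localization.AtPrime.map_eq_maximalIdeal, Ideal.map_le_iff_le_comap]
    intro x hx
    obtain ⟨s, hs, hsx⟩ := coord_gen h g ((hg x).1 hx)
    have h2 := Ideal.mem_map_of_mem (algebraMap T L) hsx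
    rw [map_mul, Ideal.unit_mul_mem_iff_mem _ (hu s hs), Ideal.map_span, ← Set.range_comp] at h2
    exact h2

end

/-- the invariant polynomials -/
def A0 : Subalgebra ℂ P4 where
  carrier := {p | ∀ g, rho g p = p}
  mul_mem' hp hq g := by rw [map_mul, hp g, hq g]
  add_mem' hp hq g := by rw [map_add, hp g, hq g]
  algebraMap_mem' c g := (rho g).commutes c

theorem mem_A0 {p : P4} : p ∈ A0 ↔ ∀ g, rho g p = p := Iff.rfl

/-- the Reynolds operator on polynomials -/
def rey : P4 →ₗ[A0] A0 where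
  toFun p := ⟨(6 : ℂ)⁻¹ • ∑ g : G, rho g⁻¹ p, fun k => by
    rw [map_smul, map_sum]
    congr 1
    exact Fintype.sum_equiv (Equiv.mulLeft k⁻¹) _ _ fun g => by simp [rho_rho]⟩
  map_add' p q := Subtype.ext (by simp [Finset.sum_add_distrib])
  map_smul' a p := Subtype.ext (by
    have : ∀ g, rho g (a.1 * p) = a.1 * rho g p := fun g => by rw [map_mul, a.2 g]
    change (6 : ℂ)⁻¹ • ∑ g : G, rho g⁻¹ (a.1 * p) = a.1 * (6 : ℂ)⁻¹ • ∑ g : G, rho g⁻¹ p
    simp only [this, ← Finset.mul_sum, mul_smul_comm])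

theorem coe_rey (p : P4) : (rey p : P4) = (6 : ℂ)⁻¹ • ∑ g : G, rho g⁻¹ p := rfl

theorem rey_coe (a : A0) : rey a.1 = a := Subtype.ext (by
  have : ∀ g, rho g a.1 = a.1 := a.2
  rw [coe_rey]
  simp only [this, Finset.sum_const, Finset.card_univ, DihedralGroup.card]
  rw [← Nat.cast_smul_eq_nsmul ℂ, smul_smul]
  norm_num)

theorem rho_one (p : P4) : rho 1 p = p := by rw [rho, gv_one, aeval_X_left_apply]

theorem rho_ne {p : P4} (hp : p ≠ 0) (g : G) : rho g p ≠ 0 := fun e => hp (by
  rw [← rho_one p, ← mul_inv_cancel g, ← rho_rho, e, map_zero])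

theorem prod_rho_mem (p : P4) : ∏ g, rho g p ∈ A0 := fun h => by
  rw [map_prod]
  simp only [rho_rho]
  exact Fintype.prod_equiv (Equiv.mulRight h) _ _ fun _ => rfl

theorem rey_nondeg (p : P4) (h : ∀ q, rey (p * q) = 0) : p = 0 := by
  classical
  by_contra hp
  have e : p * ∏ g ∈ Finset.univ.erase 1, rho g p = ∏ g, rho g p := by
    rw [← Finset.mul_prod_erase _ _ (Finset.mem_univ (1 : G)), rho_one]
  have := h (∏ g ∈ Finset.univ.erase 1, rho g p)
  rw [e, rey_coe ⟨_, prod_rho_mem p⟩] at this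
  have h0 : ∏ g, rho g p = 0 := congrArg Subtype.val this
  exact Finset.prod_ne_zero_iff.2 (fun g _ => rho_ne hp g) h0

variable {b : V} {O T : Subalgebra ℂ M} {t : Fin 4 → M}

/-- the coordinates as a map to the semilocal ring -/
def toT (h : SemiLoc b O T t) : P4 →ₐ[ℂ] T := aeval fun i => (⟨t i, h.mem i⟩ : T)

theorem coe_toT (h : SemiLoc b O T t) (p : P4) : (toT h p : M) = aeval t p := h.aeval_coe p

theorem smul_aeval (h : SemiLoc b O T t) (g : G) (p : P4) :
    g • aeval t p = aeval t (rho g⁻¹ p) := by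
  let _ := subAct T h.stab
  have : SMulCommClass G ℂ T := ⟨fun g c x => Subtype.ext (smul_comm g c x.1)⟩
  rw [← h.aeval_coe, ← h.aeval_coe]
  exact congrArg Subtype.val (h.coord.smul_aeval g p)

theorem aeval_mem_O (h : SemiLoc b O T t) {p : P4} (hp : p ∈ A0) : aeval t p ∈ O :=
  (h.inv _).2 ⟨h.aeval_mem p, fun g => by rw [smul_aeval h, hp]⟩

/-- the invariant polynomials in the coordinates lie in the local ring of the quotient -/
def toO (h : SemiLoc b O T t) : A0 →ₐ[ℂ] O :=
  ((aeval t : P4 →ₐ[ℂ] M).comp A0.val).codRestrict O fun p => aeval_mem_O h p.2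

theorem coe_toO (h : SemiLoc b O T t) (p : A0) : (toO h p : M) = aeval t p.1 := rfl

theorem flat_toT (h : SemiLoc b O T t) [Algebra.EssFiniteType ℂ T]
    (hi : Function.Injective (aeval t : P4 →ₐ[ℂ] M)) : (toT h).toRingHom.Flat := by
  let _ := subAct T h.stab
  have : SMulCommClass G ℂ T := ⟨fun g c x => Subtype.ext (smul_comm g c x.1)⟩
  exact coord_flat h.coord fun p q e => hi (by
    rw [← h.aeval_coe, ← h.aeval_coe]; exact congrArg Subtype.val e)

/-- the Reynolds operator on the semilocal ring -/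
theorem exists_reyT (h : SemiLoc b O T t) : ∃ R : T →+ O,
    (∀ x, (R x : M) = (6 : ℂ)⁻¹ • ∑ g : G, g • x.1) := by
  have hm : ∀ x : T, (6 : ℂ)⁻¹ • ∑ g : G, g • x.1 ∈ O := fun x => (h.inv _).2
    ⟨T.smul_mem (sum_mem fun g _ => h.stab g _ x.2) _, fun k => by
      rw [smul_comm, Finset.smul_sum]
      congr 1
      exact Fintype.sum_equiv (Equiv.mulLeft k) _ _ fun g => by simp [mul_smul]⟩
  exact ⟨⟨⟨fun x => ⟨_, hm x⟩, Subtype.ext (by simp)⟩, fun x y => Subtype.ext (by
    simp [Finset.sum_add_distrib])⟩, fun _ => rfl⟩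

/-- the local ring of the quotient is flat over the invariant polynomials -/
theorem flat_toO (h : SemiLoc b O T t) [Algebra.EssFiniteType ℂ T]
    (hi : Function.Injective (aeval t : P4 →ₐ[ℂ] M)) : (toO h).toRingHom.Flat := by
  let : Algebra P4 T := (toT h).toRingHom.toAlgebra
  let : Algebra A0 O := (toO h).toRingHom.toAlgebra
  let : Algebra O T := (Subalgebra.inclusion h.le).toRingHom.toAlgebra
  have : IsScalarTower A0 O T := IsScalarTower.of_algebraMap_eq fun a => Subtype.ext (coe_toT h _)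
  have : Module.Flat P4 T := flat_toT h hi
  obtain ⟨R, hR⟩ := exists_reyT h
  let R' : T →ₗ[O] O :=
    { R with
      map_smul' := fun o x => Subtype.ext (by
        have ho := ((h.inv _).1 o.2).2
        change (R (o • x) : M) = o.1 * R x
        rw [hR, hR]
        change (6 : ℂ)⁻¹ • ∑ g : G, g • (o.1 * x.1) = _
        simp only [smul_mul', ho, ← Finset.mul_sum, mul_smul_comm]) }
  refine flat_of_reynolds (A := A0) (P := P4) (O := O) (B := T) rey (rey_coe 1) R'
    (fun p => Subtype.ext ?_) ?_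
  · change (R (toT h p) : M) = aeval t (rey p).1
    rw [hR, coe_rey, coe_toT, map_smul, map_sum]
    simp only [smul_aeval h]
  · let ι : T →ₗ[O] M :=
      { toFun := Subtype.val, map_add' := fun _ _ => rfl, map_smul' := fun _ _ => rfl }
    refine Submodule.map_injective_of_injective (f := ι) Subtype.val_injective ?_
    rw [Submodule.map_span, ← Set.range_comp]
    refine le_antisymm (Submodule.span_le.2 ?_) ?_
    · rintro _ ⟨p, rfl⟩; exact ⟨_, trivial, rfl⟩
    · rintro _ ⟨x, -, rfl⟩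
      have e : (ι ∘ algebraMap P4 T) = (aeval t : P4 →ₐ[ℂ] M) := funext (coe_toT h)
      rw [e]
      exact h.mem_span_range x.2

end

end Pool.Agent.Lib.MP_d3d358_ag.K
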