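import Mathlib

/-! Flatness descends along a Reynolds operator. -/

set_option autoImplicit false

open TensorProduct

namespace Pool.Agent.Lib.MP_d3d358_ag.K

section

variable {A P O B : Type*} [CommRing A] [CommRing P] [CommRing O] [CommRing B]
  [Algebra A P] [Algebra A O] [Algebra P B] [Algebra O B] [Algebra A B]
  [IsScalarTower A P B] [IsScalarTower A O B]

theorem trivialRelation_of_fintype {M ι κ : Type*} [AddCommGroup M] [Module A M] [Fintype ι]
    [Fintype κ] {f : ι → A} {x : ι → M} (a : ι → κ → A) (y : κ → M)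
    (h1 : ∀ i, x i = ∑ j, a i j • y j) (h2 : ∀ j, ∑ i, f i * a i j = 0) :
    Module.IsTrivialRelation f x :=
  ⟨Fintype.card κ, fun i j => a i ((Fintype.equivFin κ).symm j),
    fun j => y ((Fintype.equivFin κ).symm j),
    fun i => (h1 i).trans ((Fintype.equivFin κ).symm.sum_comp fun j => a i j • y j).symm,
    fun _ => h2 _⟩

/-- `B = O · P` flat over `P`, with compatible retractions `ρ : P → A` and `R : B → O`: then `O`
is flat over `A`. -/
theorem flat_of_reynolds [Module.Flat P B] (ρ : P →ₗ[A] A) (h1 : ρ 1 = 1) (R : B →ₗ[O] O)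
    (hR : ∀ p, R (algebraMap P B p) = algebraMap A O (ρ p))
    (hs : Submodule.span O (Set.range (algebraMap P B)) = ⊤) : Module.Flat A O := by
  refine Module.Flat.of_forall_isTrivialRelation fun {l f x} h => ?_
  have hB : ∑ i, algebraMap A P (f i) • algebraMap O B (x i) = 0 := by
    have := congrArg (algebraMap O B) h
    rw [map_sum, map_zero] at this
    rw [← this]
    refine Finset.sum_congr rfl fun i _ => ?_
    rw [algebraMap_smul, Algebra.smul_def, Algebra.smul_def, map_mul,
      ← IsScalarTower.algebraMap_apply]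
  obtain ⟨k, a, Y, ha, hf⟩ := Module.Flat.isTrivialRelation_of_sum_smul_eq_zero (R := P) (M := B)
    (f := fun i => algebraMap A P (f i)) (x := fun i => algebraMap O B (x i)) hB
  dsimp only at ha hf
  have hY : ∀ j, ∃ (n : ℕ) (y : Fin n → O) (q : Fin n → P),
      Y j = ∑ m, y m • algebraMap P B (q m) := fun j => by
    obtain ⟨n, y, g, e⟩ := Submodule.mem_span_set'.1 (hs ▸ Submodule.mem_top (x := Y j))
    choose q hq using fun m => (g m).2
    exact ⟨n, y, q, by simp only [hq, e]⟩
  choose n y q hY using hY
  refine trivialRelation_of_fintype (κ := Σ j, Fin (n j)) (fun i s => ρ (a i s.1 * q s.1 s.2))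
    (fun s => y s.1 s.2) (fun i => ?_) fun s => ?_
  · have e : R (algebraMap O B (x i)) = x i := by
      rw [Algebra.algebraMap_eq_smul_one, map_smul, ← (algebraMap P B).map_one, hR, h1, map_one,
        smul_eq_mul, mul_one]
    rw [← e, ha, map_sum, Fintype.sum_sigma]
    refine Finset.sum_congr rfl fun j _ => ?_
    rw [hY, Finset.smul_sum, map_sum]
    refine Finset.sum_congr rfl fun m _ => ?_
    rw [smul_comm, map_smul, Algebra.smul_def (a i j), ← map_mul, hR, smul_eq_mul, mul_comm,
      Algebra.smul_def]
  · have := congrArg (fun z => ρ (z * q s.1 s.2)) (hf s.1)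
    simp only [Finset.sum_mul, map_sum, zero_mul, map_zero] at this
    rw [← this]
    refine Finset.sum_congr rfl fun i _ => ?_
    rw [mul_assoc, ← Algebra.smul_def, map_smul, smul_eq_mul]

/-- The multiplication `O ⊗ P → B`. -/
noncomputable def muT (A P O B : Type*) [CommRing A] [CommRing P] [CommRing O] [CommRing B]
    [Algebra A P] [Algebra A O] [Algebra P B] [Algebra O B] [Algebra A B]
    [IsScalarTower A P B] [IsScalarTower A O B] : O ⊗[A] P →ₐ[O] B :=
  Algebra.TensorProduct.lift (Algebra.ofId O B) (IsScalarTower.toAlgHom A P B)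
    fun _ _ => Commute.all _ _

@[simp] theorem muT_tmul (y : O) (p : P) :
    muT A P O B (y ⊗ₜ p) = algebraMap O B y * algebraMap P B p := rfl

theorem muT_injective [Module.Flat A O] [Module.Finite A P] (ρ : P →ₗ[A] A) (R : B →ₗ[O] O)
    (hR : ∀ p, R (algebraMap P B p) = algebraMap A O (ρ p))
    (hn : ∀ p, (∀ q, ρ (p * q) = 0) → p = 0) : Function.Injective (muT A P O B) := by
  obtain ⟨n, q, hq⟩ := Module.Finite.exists_fin (R := A) (M := P)
  let φ : P →ₗ[A] (Fin n → A) := LinearMap.pi fun l => ρ ∘ₗ LinearMap.mulRight A (q l)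
  have hφ : Function.Injective φ := by
    rw [injective_iff_map_eq_zero]
    intro p hp
    refine hn p fun r => ?_
    have : ρ ∘ₗ LinearMap.mulLeft A p = 0 := by
      refine LinearMap.ext_on_range hq fun l => ?_
      exact congrFun hp l
    exact LinearMap.congr_fun this r
  have hi := Module.Flat.lTensor_preserves_injective_linearMap (M := O) φ hφ
  rw [injective_iff_map_eq_zero] at hi ⊢
  intro z hz
  refine hi z ((TensorProduct.piScalarRight A A O (Fin n)).injective ?_)
  rw [map_zero]
  funext l
  have key : ∀ z : O ⊗[A] P, TensorProduct.piScalarRight A A O (Fin n) (φ.lTensor O z) l =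
      R (muT A P O B z * algebraMap P B (q l)) := fun z => by
    induction z with
    | zero => simp
    | add a b ha hb => simp only [map_add, Pi.add_apply, ha, hb, add_mul]
    | tmul y p =>
      rw [muT_tmul, mul_assoc, ← map_mul, ← Algebra.smul_def, map_smul, hR]
      simp [φ, Algebra.smul_def, mul_comm]
  rw [key, hz, zero_mul, map_zero, Pi.zero_apply]

theorem muT_surjective (hs : Submodule.span O (Set.range (algebraMap P B)) = ⊤) :
    Function.Surjective (muT A P O B) := by
  intro b
  have hb : b ∈ Submodule.span O (Set.range (algebraMap P B)) := hs ▸ Submodule.mem_top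
  refine (Submodule.span_le (p := LinearMap.range (muT A P O B).toLinearMap)).2 ?_ hb
  rintro _ ⟨p, rfl⟩
  exact ⟨1 ⊗ₜ p, by simp⟩

end

end Pool.Agent.Lib.MP_d3d358_ag.K
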