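import Mathlib

/-! Base change of linear systems along a flat algebra. -/

set_option autoImplicit false

namespace Pool.Agent.Lib.MP_d3d358_ag.K

section Rel

variable {A O K : Type} [CommRing A] [CommRing O] [Field K] [Algebra A O] [Algebra O K]
  [Algebra A K] [IsScalarTower A O K]

variable (A) in
/-- `x` is a fraction of elements of `A`. -/
def IsFr (x : K) : Prop := ∃ d a : A, algebraMap A K d ≠ 0 ∧ algebraMap A K d * x = algebraMap A K a

theorem IsFr.algebraMap (a : A) : IsFr A (algebraMap A K a) := ⟨1, a, by simp, by simp⟩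

theorem IsFr.mul {x y : K} (hx : IsFr A x) (hy : IsFr A y) : IsFr A (x * y) := by
  obtain ⟨d, a, hd, e⟩ := hx
  obtain ⟨d', a', hd', e'⟩ := hy
  exact ⟨d * d', a * a', by rw [map_mul]; exact mul_ne_zero hd hd', by
    rw [map_mul, map_mul, ← e, ← e']; ring⟩

theorem IsFr.add {x y : K} (hx : IsFr A x) (hy : IsFr A y) : IsFr A (x + y) := by
  obtain ⟨d, a, hd, e⟩ := hx
  obtain ⟨d', a', hd', e'⟩ := hy
  exact ⟨d * d', d' * a + d * a', by rw [map_mul]; exact mul_ne_zero hd hd', by
    rw [map_add, map_mul, map_mul, map_mul, ← e, ← e']; ring⟩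

theorem IsFr.inv {x : K} (hx : IsFr A x) : IsFr A x⁻¹ := by
  obtain ⟨d, a, hd, e⟩ := hx
  by_cases h0 : x = 0
  · exact ⟨1, 0, by simp, by simp [h0]⟩
  · exact ⟨a, d, e ▸ mul_ne_zero hd h0, by rw [← e, mul_assoc, mul_inv_cancel₀ h0, mul_one]⟩

theorem IsFr.neg {x : K} (hx : IsFr A x) : IsFr A (-x) := by
  obtain ⟨d, a, hd, e⟩ := hx
  exact ⟨d, -a, hd, by rw [map_neg, ← e, mul_neg]⟩

variable (A K) in
/-- The field of fractions of the image of `A`. -/
def frF : Subfield K where
  carrier := {x | IsFr A x}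
  mul_mem' := IsFr.mul
  one_mem' := ⟨1, 1, by simp, by simp⟩
  add_mem' := IsFr.add
  zero_mem' := ⟨1, 0, by simp, by simp⟩
  neg_mem' := IsFr.neg
  inv_mem' _ := IsFr.inv

theorem mem_frF {x : K} : x ∈ frF A K ↔ IsFr A x := Iff.rfl

variable [Module.Flat A O] (hO : Function.Injective (algebraMap O K))
include hO

/-- Relations over `O` between fractions of `A` come from relations over `A`. -/
theorem rel_triv {ι : Type} [Fintype ι] {m : ι → K} (hm : ∀ i, IsFr A (m i)) {o : ι → O}
    (h : ∑ i, o i • m i = 0) : ∃ (k : ℕ) (a : ι → Fin k → A) (y : Fin k → O),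
      (∀ i, o i = ∑ j, a i j • y j) ∧ ∀ j, ∑ i, a i j • m i = 0 := by
  classical
  choose d c hd e using hm
  have hD : algebraMap A K (∏ i, d i) ≠ 0 := by
    rw [map_prod]; exact Finset.prod_ne_zero_iff.2 fun i _ => hd i
  have key : ∀ i, algebraMap A K ((∏ j ∈ Finset.univ.erase i, d j) * c i) =
      algebraMap A K (∏ i, d i) * m i := fun i => by
    rw [← Finset.prod_erase_mul _ d (Finset.mem_univ i), map_mul, map_mul, ← e, mul_assoc]
  have h' : ∑ i, ((∏ j ∈ Finset.univ.erase i, d j) * c i) • o i = 0 := by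
    refine hO ?_
    rw [map_sum, map_zero, ← mul_zero (algebraMap A K (∏ i, d i)), ← h, Finset.mul_sum]
    refine Finset.sum_congr rfl fun i _ => ?_
    rw [Algebra.smul_def, map_mul, ← IsScalarTower.algebraMap_apply, key, Algebra.smul_def]
    ring
  obtain ⟨k, a, y, e1, e2⟩ := Module.Flat.isTrivialRelation_of_sum_smul_eq_zero
    (f := fun i => (∏ j ∈ Finset.univ.erase i, d j) * c i) (x := o) h'
  refine ⟨k, a, y, e1, fun j => mul_left_cancel₀ hD ?_⟩
  have := congrArg (algebraMap A K) (e2 j)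
  rw [map_sum, map_zero] at this
  rw [mul_zero, ← this, Finset.mul_sum]
  refine Finset.sum_congr rfl fun i _ => ?_
  rw [map_mul, key, Algebra.smul_def]
  ring

variable {V : Type} [AddCommGroup V] [Module O V] [Module A V] [IsScalarTower A O V]

/-- Base change of the kernel of a functional. -/
theorem span_ker (N : Submodule A V) (l : V →ₗ[O] K) (hl : ∀ v ∈ N, IsFr A (l v)) {v : V}
    (hv : v ∈ Submodule.span O (N : Set V)) (h0 : l v = 0) :
    v ∈ Submodule.span O {n | n ∈ N ∧ l n = 0} := by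
  obtain ⟨n, o, g, rfl⟩ := Submodule.mem_span_set'.1 hv
  rw [map_sum] at h0
  simp_rw [map_smul] at h0
  obtain ⟨k, a, y, e1, e2⟩ := rel_triv hO (fun i => hl _ (g i).2) h0
  have : ∑ i, o i • (g i : V) = ∑ j, y j • ∑ i, a i j • (g i : V) := by
    simp_rw [Finset.smul_sum]
    rw [Finset.sum_comm]
    refine Finset.sum_congr rfl fun i _ => ?_
    rw [e1 i, Finset.sum_smul]
    exact Finset.sum_congr rfl fun j _ => by rw [smul_assoc, smul_comm]
  rw [this]
  refine Submodule.sum_mem _ fun j _ => Submodule.smul_mem _ _ (Submodule.subset_span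
    ⟨N.sum_mem fun i _ => N.smul_mem _ (g i).2, ?_⟩)
  rw [map_sum, ← e2 j]
  exact Finset.sum_congr rfl fun i _ => l.map_smul_of_tower _ _

/-- Base change of the common kernel of finitely many functionals. -/
theorem span_kers {κ : Type} [Finite κ] (N : Submodule A V) (l : κ → V →ₗ[O] K)
    (hl : ∀ k, ∀ v ∈ N, IsFr A (l k v)) {v : V} (hv : v ∈ Submodule.span O (N : Set V))
    (h0 : ∀ k, l k v = 0) : v ∈ Submodule.span O {n | n ∈ N ∧ ∀ k, l k n = 0} := by
  classical
  have := Fintype.ofFinite κ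
  have key : ∀ s : Finset κ, v ∈ Submodule.span O {n | n ∈ N ∧ ∀ k ∈ s, l k n = 0} := by
    intro s
    induction s using Finset.induction_on with
    | empty => simpa using hv
    | insert k s _ ih =>
      let N' : Submodule A V := N ⊓ ⨅ j ∈ s, LinearMap.ker ((l j).restrictScalars A)
      have hN : ∀ n, n ∈ N' ↔ n ∈ N ∧ ∀ k ∈ s, l k n = 0 := fun n => by simp [N']
      refine Submodule.span_mono ?_ (span_ker hO N' (l k) (fun n hn => hl k n ((hN n).1 hn).1)
        (Submodule.span_mono (fun n hn => (hN n).2 hn) ih) (h0 k))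
      rintro n ⟨h1, h2⟩
      exact ⟨((hN n).1 h1).1, by simpa using ⟨h2, ((hN n).1 h1).2⟩⟩
  simpa using key Finset.univ

omit hO [Module.Flat A O] [Algebra A O] [IsScalarTower A O V] in
/-- A tuple of elements of spans lies in the span of the tuples. -/
theorem mem_span_pi {ι : Type} [Finite ι] (M : ι → Submodule A V) {h : ι → V}
    (hh : ∀ i, h i ∈ Submodule.span O (M i : Set V)) :
    h ∈ Submodule.span O ((Submodule.pi Set.univ M : Submodule A (ι → V)) : Set (ι → V)) := by
  classical
  have := Fintype.ofFinite ι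
  rw [← Finset.univ_sum_single h]
  refine Submodule.sum_mem _ fun i _ => ?_
  have := Submodule.apply_mem_span_image_of_mem_span (LinearMap.single O (fun _ : ι => V) i) (hh i)
  refine Submodule.span_mono ?_ this
  rintro _ ⟨m, hm, rfl⟩ j _
  by_cases e : j = i
  · subst e; simpa using hm
  · simp [e]

/-- Base change of a linear system with coefficients in the fraction field of `A`. -/
theorem span_sys {ι κ : Type} [Fintype ι] [Finite κ] (M : ι → Submodule A K)
    (hM : ∀ i, ∀ m ∈ M i, IsFr A m) (c : κ → ι → K) (hc : ∀ k i, IsFr A (c k i)) {h : ι → K}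
    (hh : ∀ i, h i ∈ Submodule.span O (M i : Set K)) (h0 : ∀ k, ∑ i, c k i * h i = 0) :
    h ∈ Submodule.span O {m : ι → K | (∀ i, m i ∈ M i) ∧ ∀ k, ∑ i, c k i * m i = 0} := by
  let l : κ → (ι → K) →ₗ[O] K := fun k =>
    ∑ i, (LinearMap.mulLeft O (c k i)).comp (LinearMap.proj i)
  have hl : ∀ k m, l k m = ∑ i, c k i * m i := fun k m => by simp [l]
  refine Submodule.span_mono ?_ (span_kers hO (Submodule.pi Set.univ M) l (fun k v hv => ?_)
    (mem_span_pi M hh) fun k => (hl k h).trans (h0 k))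
  · exact fun m hm => ⟨fun i => hm.1 i trivial, fun k => (hl k m).symm.trans (hm.2 k)⟩
  · rw [hl]
    exact (frF A K).sum_mem fun i _ => (hc k i).mul (hM i _ (hv i trivial))

/-- Base change of one relation `f x = g y`, as an induction principle. -/
theorem span_pair (M N : Submodule A K) (hM : ∀ m ∈ M, IsFr A m) (hN : ∀ m ∈ N, IsFr A m)
    {f g : K} (hf : IsFr A f) (hg : IsFr A g) (S : Submodule O K)
    (h : ∀ u ∈ M, ∀ v ∈ N, f * u = g * v → u ∈ S) {x y : K}
    (hx : x ∈ Submodule.span O (M : Set K)) (hy : y ∈ Submodule.span O (N : Set K))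
    (e : f * x = g * y) : x ∈ S := by
  have := span_sys hO ![M, N] (Fin.forall_fin_two.2 ⟨hM, hN⟩) (fun _ : Unit => ![f, -g])
    (fun _ => Fin.forall_fin_two.2 ⟨hf, hg.neg⟩) (h := ![x, y]) (Fin.forall_fin_two.2 ⟨hx, hy⟩)
    fun _ => by simp [e]
  refine (Submodule.span_le (p := S.comap (LinearMap.proj 0))).2 (fun m hm => ?_) this
  refine h (m 0) (hm.1 0) (m 1) (hm.1 1) ?_
  have := hm.2 ()
  simp only [Fin.sum_univ_two, Matrix.cons_val_zero, Matrix.cons_val_one] at this
  linear_combination this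

/-- Base change of an intersection. -/
theorem span_inf (M N : Submodule A K) (hM : ∀ m ∈ M, IsFr A m) (hN : ∀ m ∈ N, IsFr A m) {x : K}
    (hx : x ∈ Submodule.span O (M : Set K)) (hy : x ∈ Submodule.span O (N : Set K)) :
    x ∈ Submodule.span O ((M ⊓ N : Submodule A K) : Set K) :=
  span_pair hO M N hM hN (frF A K).one_mem (frF A K).one_mem _ (fun u hu v hv e =>
    Submodule.subset_span (Submodule.mem_inf.2 ⟨hu, by rwa [show u = v by simpa using e]⟩))
    hx hy rfl

/-- Base change of a regular pair. -/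
theorem span_reg (M : Submodule A K) (hM : ∀ m ∈ M, IsFr A m) {f g : K} (hf : IsFr A f)
    (hg : IsFr A g) (h : ∀ u ∈ M, ∀ v ∈ M, f * u = g * v → ∃ w ∈ M, u = g * w) {x y : K}
    (hx : x ∈ Submodule.span O (M : Set K)) (hy : y ∈ Submodule.span O (M : Set K))
    (e : f * x = g * y) : ∃ z ∈ Submodule.span O (M : Set K), x = g * z := by
  obtain ⟨z, hz, e⟩ := span_pair hO M M hM hM hf hg
    ((Submodule.span O (M : Set K)).map (LinearMap.mulLeft O g)) (fun u hu v hv e => by
      obtain ⟨w, hw, rfl⟩ := h u hu v hv e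
      exact ⟨w, Submodule.subset_span hw, rfl⟩) hx hy e
  exact ⟨z, hz, e.symm⟩

end Rel

/-- A regular pair stays regular after a flat extension. -/
theorem reg_of_flat {B T : Type} [CommRing B] [CommRing T] [Algebra B T] [Module.Flat B T]
    {f g : B} (h : ∀ u v : B, f * u = g * v → ∃ w, u = g * w) (x y : T)
    (e : algebraMap B T f * x = algebraMap B T g * y) : ∃ z, x = algebraMap B T g * z := by
  obtain ⟨k, a, z, e1, e2⟩ := Module.Flat.isTrivialRelation_of_sum_smul_eq_zero
    (f := ![f, -g]) (x := ![x, y]) (by simp [Algebra.smul_def, e])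
  choose w hw using fun j => h (a 0 j) (a 1 j) (by
    have := e2 j
    simp only [Fin.sum_univ_two, Matrix.cons_val_zero, Matrix.cons_val_one] at this
    linear_combination this)
  refine ⟨∑ j, w j • z j, (e1 0).trans ?_⟩
  rw [Finset.mul_sum]
  exact Finset.sum_congr rfl fun j _ => by rw [hw, mul_smul, Algebra.smul_def]

end Pool.Agent.Lib.MP_d3d358_ag.K
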