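import Pool.Agent.Lib.MP_d3d358_ag.K.Model

/-! The frame `1, u₁, v₁, v₁², u₁², a₀` of a field with an action of `S₃` over its invariants. -/

set_option autoImplicit false
set_option linter.unusedSectionVars false

namespace Pool.Agent.Lib.MP_d3d358_ag.K

open Pool.Agent.Lib.MP_d3d358_ag.Var

variable {K : Type} [Field K] [Algebra ℂ K] [MulSemiringAction G K] [SMulCommClass G ℂ K]

variable (K) in
/-- The invariant elements. -/
abbrev Fx : Subfield K := FixedPoints.subfield G K

omit [Algebra ℂ K] [SMulCommClass G ℂ K] in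
theorem mem_Fx {c : K} : c ∈ Fx K ↔ ∀ g : G, g • c = c := Iff.rfl

/-- The projection to the alternating elements. -/
noncomputable def Alt : K →ₗ[Fx K] K where
  toFun x := (6 : ℂ)⁻¹ • ∑ g : G, sg g • g • x
  map_add' x y := by simp only [smul_add, Finset.sum_add_distrib]
  map_smul' c x := by
    change (6 : ℂ)⁻¹ • ∑ g : G, sg g • g • (c.1 * x) = c.1 * (6 : ℂ)⁻¹ • ∑ g : G, sg g • g • x
    rw [mul_smul_comm, Finset.mul_sum]
    refine congrArg _ (Finset.sum_congr rfl fun g _ => ?_)
    rw [smul_mul', c.2 g, mul_smul_comm (sg g)]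

theorem Alt_apply (x : K) : Alt x = (6 : ℂ)⁻¹ • ∑ g : G, sg g • g • x := rfl

theorem lin_mul (ψ : K →ₗ[Fx K] K) {c : K} (hc : ∀ g : G, g • c = c) (x : K) :
    ψ (c * x) = c * ψ x := ψ.map_smul (⟨c, hc⟩ : Fx K) x

theorem smul_Alt (h : G) (x : K) : h • Alt x = sg h • Alt x := by
  rw [Alt_apply, smul_comm h, smul_comm (sg h), Finset.smul_sum (r := h),
    Finset.smul_sum (r := sg h)]
  refine congrArg _ (Fintype.sum_equiv (Equiv.mulLeft h) _ _ fun g => ?_)
  rw [Equiv.coe_mulLeft, smul_comm h, ← mul_smul h, smul_smul (sg h), sg_mul, ← mul_assoc,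
    sg_mul_self, one_mul]

/-- The frame. -/
def fr (t : Fin 4 → K) : Fin 6 → K := ![1, t 0, t 2, t 2 ^ 2, t 0 ^ 2, alt t 1]

/-- The dual frame. -/
def fs (t : Fin 4 → K) : Fin 6 → K := ![alt t 1, 2 * t 0 ^ 2, -2 * t 2 ^ 2, -2 * t 2, 2 * t 0, 1]

/-- The degrees of the members of the frame. -/
def dgr : Fin 6 → ℕ := ![0, 1, 1, 2, 2, 3]

theorem dgr_le (i : Fin 6) : dgr i ≤ 3 := by fin_cases i <;> simp [dgr]

variable {t : Fin 4 → K} (ht : Equi t)
include ht

theorem sum_fr_fs (g : G) : ∑ i, fr t i * g • fs t i = if g = 1 then 6 * alt t 1 else 0 := by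
  have h2 : g • (2 : K) = 2 := map_ofNat (MulSemiringAction.toRingHom G K g) 2
  have h0 := ht g 0
  have h1 := ht g 2
  have ha := ht.smul_alt g 1
  simp only [Fin.sum_univ_succ, fr, fs, Matrix.cons_val_zero, Matrix.cons_val_succ,
    Finset.univ_eq_empty, Finset.sum_empty, smul_mul', smul_pow', smul_neg, neg_mul, h2, smul_one,
    h0, h1, ha]
  rcases g with k | k
  · by_cases hk : k = 0
    · subst hk
      rw [if_pos (show (DihedralGroup.r 0 : G) = 1 from rfl)]
      simp [alt]
      ring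
    · rw [if_neg fun h : (DihedralGroup.r k : G) = 1 => hk (DihedralGroup.r.inj h)]
      have q : algebraMap ℂ K (chi k) ^ 2 + algebraMap ℂ K (chi k) + 1 = 0 := by
        rw [← map_pow, ← map_one (algebraMap ℂ K), ← map_add, ← map_add, chi_quad hk, map_zero]
      have c : algebraMap ℂ K (chi k) ^ 3 = 1 := by rw [← map_pow, chi_cube, map_one]
      simp [gv_r, alt, chi_neg, Algebra.smul_def]
      linear_combination (2 * (t 0 ^ 3 - t 2 ^ 3)) * q + (2 * algebraMap ℂ K (chi k) * t 0 ^ 3) * c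
  · rw [if_neg fun h : (DihedralGroup.sr k : G) = 1 => by cases h]
    have c : algebraMap ℂ K (chi k) ^ 3 = 1 := by rw [← map_pow, chi_cube, map_one]
    simp [gv_sr, alt, chi_neg, Algebra.smul_def]
    linear_combination (2 * algebraMap ℂ K (chi k) * t 0 * t 2 ^ 2) * c

/-- Every element in terms of the frame. -/
theorem sum_fr_Alt (x : K) : ∑ i, Alt (fs t i * x) * fr t i = alt t 1 * x := by
  have : ∑ i, Alt (fs t i * x) * fr t i =
      (6 : ℂ)⁻¹ • ∑ g : G, sg g • ((∑ i, fr t i * g • fs t i) * g • x) := by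
    simp only [Alt_apply, smul_mul_assoc, ← Finset.smul_sum, Finset.sum_mul, smul_mul']
    rw [Finset.sum_comm]
    refine congrArg _ (Finset.sum_congr rfl fun g _ => ?_)
    rw [Finset.smul_sum]
    exact Finset.sum_congr rfl fun i _ => congrArg _ (by ring)
  rw [this, Finset.sum_eq_single 1 (fun g _ hg => by rw [sum_fr_fs ht, if_neg hg]; simp)
    (by simp), sum_fr_fs ht, if_pos rfl, sg_one, one_smul, one_smul, mul_assoc, Algebra.smul_def,
    ← mul_assoc, map_inv₀, map_ofNat, inv_mul_cancel₀, one_mul]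
  rw [← map_ofNat (algebraMap ℂ K) 6]
  exact (map_ne_zero _).2 (by norm_num)

omit ht in
variable (t) in
/-- The coordinates with respect to the frame. -/
noncomputable def lam (i : Fin 6) (x : K) : K := Alt (fs t i * x) / alt t 1

theorem alt_div_inv {x : K} (hx : ∀ g : G, g • x = sg g • x) (ν : Fin 5) (g : G) :
    g • (x / alt t ν) = x / alt t ν := by
  have : algebraMap ℂ K (sg g) ≠ 0 := (map_ne_zero _).2 (left_ne_zero_of_mul_eq_one (sg_mul_self g))
  rw [smul_div₀', hx, ht.smul_alt, Algebra.smul_def, Algebra.smul_def, mul_div_mul_left _ _ this]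

theorem lam_inv (i : Fin 6) (x : K) (g : G) : g • lam t i x = lam t i x :=
  alt_div_inv ht (fun g => smul_Alt g _) 1 g

omit ht in
theorem lam_add (i : Fin 6) (x y : K) : lam t i (x + y) = lam t i x + lam t i y := by
  rw [lam, mul_add, map_add, add_div]; rfl

omit ht in
theorem lam_mul {c : K} (hc : ∀ g : G, g • c = c) (i : Fin 6) (x : K) :
    lam t i (c * x) = c * lam t i x := by
  rw [lam, mul_left_comm, lin_mul _ hc, mul_div_assoc]; rfl

theorem sum_lam (h : alt t 1 ≠ 0) (x : K) : ∑ i, lam t i x * fr t i = x := by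
  simp only [lam, div_mul_eq_mul_div, ← Finset.sum_div, sum_fr_Alt ht]
  exact mul_div_cancel_left₀ x h

/-- A linear map is determined by its values on the frame. -/
theorem map_eq_sum (h : alt t 1 ≠ 0) (ψ : K →ₗ[Fx K] K) (x : K) :
    ψ x = ∑ i, lam t i x * ψ (fr t i) := by
  conv_lhs => rw [← sum_lam ht h x, map_sum]
  exact Finset.sum_congr rfl fun i _ => lin_mul ψ (lam_inv ht i x) _

/-- A linear map as an element of the twisted group ring. -/
theorem map_eq_sum_smul (h : alt t 1 ≠ 0) (ψ : K →ₗ[Fx K] K) (x : K) :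
    ψ x = ∑ g : G, ((6 : ℂ)⁻¹ • sg g • ∑ i, g • fs t i * ψ (fr t i)) / alt t 1 * g • x := by
  rw [map_eq_sum ht h]
  simp only [lam, Alt_apply, div_mul_eq_mul_div, ← Finset.sum_div, smul_mul_assoc,
    ← Finset.smul_sum, Finset.sum_mul, smul_mul']
  rw [Finset.sum_comm]
  refine congrArg (· / _) (congrArg _ (Finset.sum_congr rfl fun g _ => ?_))
  rw [Finset.smul_sum]
  exact Finset.sum_congr rfl fun i _ => congrArg _ (by ring)

omit [SMulCommClass G ℂ K] in
theorem equi_swp : Equi (swp t) := fun g i => by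
  have h := ht g
  cases g <;> fin_cases i <;> simp [swp, h, gv_r, gv_sr]

end Pool.Agent.Lib.MP_d3d358_ag.K
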