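import Pool.Agent.Lib.MP_d3d358_ag.K.Model
import Pool.Agent.Lib.MP_d3d358_ag.K.L1

/-! The chart rings over a flat algebra of invariants, and sections on the curve `d = 0`. -/

set_option autoImplicit false
set_option linter.unusedSectionVars false

namespace Pool.Agent.Lib.MP_d3d358_ag.K.Lf

open Pool.Agent.Lib.MP_d3d358_ag.Var L1

variable {K : Type} [Field K] [Algebra ℂ K]

/-- Congruence modulo `s B`. -/
def Cg (B : Subalgebra ℂ K) (s x y : K) : Prop := ∃ r ∈ B, x = y + s * r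

namespace Cg

variable {B B' : Subalgebra ℂ K} {s x y z x' y' c : K}

theorem refl (x : K) : Cg B s x x := ⟨0, zero_mem _, by simp⟩

theorem of_eq (h : x = y) : Cg B s x y := h ▸ refl x

theorem symm (h : Cg B s x y) : Cg B s y x := by
  obtain ⟨r, hr, rfl⟩ := h
  exact ⟨-r, neg_mem hr, by ring⟩

theorem trans (h : Cg B s x y) (h' : Cg B s y z) : Cg B s x z := by
  obtain ⟨r, hr, rfl⟩ := h
  obtain ⟨r', hr', rfl⟩ := h'
  exact ⟨r' + r, add_mem hr' hr, by ring⟩

theorem mono (h : Cg B s x y) (le : B ≤ B') : Cg B' s x y := by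
  obtain ⟨r, hr, e⟩ := h
  exact ⟨r, le hr, e⟩

theorem add (h : Cg B s x y) (h' : Cg B s x' y') : Cg B s (x + x') (y + y') := by
  obtain ⟨r, hr, rfl⟩ := h
  obtain ⟨r', hr', rfl⟩ := h'
  exact ⟨r + r', add_mem hr hr', by ring⟩

theorem mul_left (hc : c ∈ B) (h : Cg B s x y) : Cg B s (c * x) (c * y) := by
  obtain ⟨r, hr, rfl⟩ := h
  exact ⟨c * r, mul_mem hc hr, by ring⟩

theorem mul_right (h : Cg B s x y) (hc : c ∈ B) : Cg B s (x * c) (y * c) := by
  rw [mul_comm x, mul_comm y]; exact h.mul_left hc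

theorem mul (h : Cg B s x y) (h' : Cg B s x' y') (hx : x ∈ B) (hy : y' ∈ B) :
    Cg B s (x * x') (y * y') := (h'.mul_left hx).trans (h.mul_right hy)

theorem sum {ι : Type} {S : Finset ι} {f g : ι → K} (h : ∀ i ∈ S, Cg B s (f i) (g i)) :
    Cg B s (∑ i ∈ S, f i) (∑ i ∈ S, g i) := by
  classical
  induction S using Finset.induction_on with
  | empty => exact refl _
  | insert i S hi ih =>
    rw [Finset.sum_insert hi, Finset.sum_insert hi]
    exact (h i (Finset.mem_insert_self _ _)).add (ih fun j hj => h j (Finset.mem_insert_of_mem hj))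

theorem pow (h : Cg B s x y) (hx : x ∈ B) (hy : y ∈ B) (n : ℕ) : Cg B s (x ^ n) (y ^ n) := by
  induction n with
  | zero => rw [pow_zero, pow_zero]; exact refl _
  | succ n ih => rw [pow_succ, pow_succ]; exact ih.mul h (pow_mem hx _) hy

/-- Cancellation of an element that is invertible modulo `s`. -/
theorem cancel {b b' : K} (hb : Cg B s (b' * b) 1) (hb0 : b ∈ B) (hb' : b' ∈ B)
    (hx : x ∈ B) (hy : y ∈ B) (n : ℕ) (h : Cg B s (b ^ n * x) (b ^ n * y)) : Cg B s x y := by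
  have h1 : Cg B s (b' ^ n * b ^ n) 1 := by
    simpa [mul_pow] using hb.pow (mul_mem hb' hb0) (one_mem _) n
  have h2 := h.mul_left (pow_mem hb' n)
  rw [← mul_assoc, ← mul_assoc] at h2
  have h3 := h1.mul_right hx
  have h4 := h1.mul_right hy
  rw [one_mul] at h3 h4
  exact h3.symm.trans (h2.trans h4)

end Cg

theorem mem_sup_iff {O C : Subalgebra ℂ K} {x : K} :
    x ∈ O ⊔ C ↔ x ∈ Submodule.span O (C : Set K) := by
  let T : Subalgebra ℂ K :=
    { carrier := Submodule.span O (C : Set K)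
      mul_mem' := mul_mem_span
      add_mem' := add_mem
      algebraMap_mem' := fun c => Submodule.subset_span (C.algebraMap_mem c) }
  refine ⟨fun h => (sup_le (fun a ha => ?_) fun a ha => Submodule.subset_span ha : O ⊔ C ≤ T) h,
    fun h => ?_⟩
  · have := Submodule.smul_mem _ (⟨a, ha⟩ : O) (Submodule.subset_span (R := O) C.one_mem)
    rwa [Algebra.smul_def, mul_one] at this
  · induction h using Submodule.span_induction with
    | mem y hy => exact (le_sup_right : C ≤ O ⊔ C) hy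
    | zero => exact zero_mem _
    | add y z _ _ hy hz => exact add_mem hy hz
    | smul a y _ hy => exact mul_mem ((le_sup_left : O ≤ O ⊔ C) a.2) hy

theorem latP_eq (O : Subalgebra ℂ K) (c : Fin 4 → K) :
    latP O c = O ⊔ Algebra.adjoin ℂ (Set.range c) :=
  le_antisymm (latP_le le_sup_left fun i =>
    (le_sup_right : _ ≤ O ⊔ _) (Algebra.subset_adjoin ⟨i, rfl⟩))
    (sup_le le_latP (Algebra.adjoin_le (by rintro _ ⟨i, rfl⟩; exact t_mem_latP i)))

theorem latP_mono {O O' : Subalgebra ℂ K} (h : O ≤ O') (c : Fin 4 → K) : latP O c ≤ latP O' c :=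
  latP_le (h.trans le_latP) t_mem_latP

theorem latP_swp (O : Subalgebra ℂ K) (t : Fin 4 → K) : latP O (swp t) = latP O t := by
  have : ∀ t : Fin 4 → K, latP O (swp t) ≤ latP O t := fun t => latP_le le_latP fun i => by
    fin_cases i
    exacts [t_mem_latP 1, t_mem_latP 0, t_mem_latP 3, t_mem_latP 2]
  exact le_antisymm (this t) (by simpa [swp_swp] using this (swp t))

section Defs

variable (O : Subalgebra ℂ K) (t : Fin 4 → K)

/-- The coordinate `b = a₁ / a₀`. -/
abbrev bb : K := alt t 2 / alt t 1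
/-- The coordinate `s = d / a₀`. -/
abbrev ss : K := alt t 0 / alt t 1
/-- The transition function `a₃ / a₀`. -/
abbrev ee : K := alt t 4 / alt t 1

/-- The ring of the chart `ν`. -/
def On (ν : Fin 3) : Subalgebra ℂ K := latP O (crd ν t)
/-- The ring of the overlap of the charts `1` and `2`. -/
def O12 : Subalgebra ℂ K := On O t 1 ⊔ On O t 2
/-- The lattice of the chart `ν`. -/
def Ln (ν : Fin 3) : Subalgebra ℂ K := latP (On O t ν) t
/-- The lattice of the overlap. -/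
def L12 : Subalgebra ℂ K := latP (O12 O t) t

/-- The model ring of the first chart. -/
noncomputable abbrev D1 : Subalgebra ℂ K := C1 ℂ (ivt t 0) (ivt t 3) (bb t) (ss t)
/-- The model ring of the overlap. -/
noncomputable abbrev D12 : Subalgebra ℂ K := C12 ℂ (ivt t 0) (ivt t 3) (bb t) (ss t) (ee t)

end Defs

variable {O : Subalgebra ℂ K} {t : Fin 4 → K}

theorem le_On (ν : Fin 3) : O ≤ On O t ν := le_latP

theorem ivt_mem_On {ν : Fin 3} (h : alt t (cix ν) ≠ 0) (i : Fin 7) : ivt t i ∈ On O t ν := by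
  rw [ivt_eq ν h]; exact ivC_mem _ ν t_mem_latP i

theorem alt_div_mem_On {ν : Fin 3} (h : alt t (cix ν) ≠ 0) (i : Fin 5) :
    alt t i / alt t (cix ν) ∈ On O t ν := by
  rw [alt_div_eq ν h]; exact alC_mem _ ν t_mem_latP i

theorem On_le {ν : Fin 3} {T : Subalgebra ℂ K} (h1 : O ≤ T) (h2 : ∀ i, ivt t i ∈ T)
    (h3 : ∀ i, alt t i / alt t (cix ν) ∈ T) : On O t ν ≤ T :=
  latP_le h1 fun k => by
    rcases crd_cases (K := K) ν k with ⟨i, hi⟩ | ⟨i, hi⟩ <;> rw [hi]
    exacts [h2 i, h3 i]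

theorem On_one : On O t 1 = O ⊔ D1 t := by rw [On, latP_eq, ← adjoin_co]; rfl

theorem On_swp_one : On O (swp t) 1 = On O t 2 := by
  rw [On, On, latP_eq, latP_eq, ← adjoin_co, adjoin_co_swp]

theorem On_swp_two : On O (swp t) 2 = On O t 1 := by rw [← On_swp_one, swp_swp]

theorem On_swp_zero : On O (swp t) 0 = On O t 0 := by
  have : ∀ t : Fin 4 → K, On O (swp t) 0 ≤ On O t 0 := fun t => latP_le le_latP fun i => by
    have h : ∀ k, -crd 0 t k ∈ On O t 0 := fun k => neg_mem (t_mem_latP k)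
    fin_cases i
    exacts [by simpa [crd, al_swp, div_neg] using h 1, by simpa [crd, al_swp, div_neg] using h 0,
      by simpa [crd, al_swp, div_neg] using h 3, by simpa [crd, al_swp, div_neg] using h 2]
  exact le_antisymm (this t) (by simpa [swp_swp] using this (swp t))

theorem O12_swp : O12 O (swp t) = O12 O t := by rw [O12, O12, On_swp_one, On_swp_two, sup_comm]

theorem Ln_swp_zero : Ln O (swp t) 0 = Ln O t 0 := by rw [Ln, Ln, On_swp_zero, latP_swp]
theorem Ln_swp_one : Ln O (swp t) 1 = Ln O t 2 := by rw [Ln, Ln, On_swp_one, latP_swp]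
theorem Ln_swp_two : Ln O (swp t) 2 = Ln O t 1 := by rw [Ln, Ln, On_swp_two, latP_swp]
theorem L12_swp : L12 O (swp t) = L12 O t := by rw [L12, L12, O12_swp, latP_swp]

theorem invAlg_swp : invAlg ℂ (swp t) = invAlg ℂ t := by
  have : ∀ t : Fin 4 → K, invAlg ℂ (swp t) ≤ invAlg ℂ t := fun t => Algebra.adjoin_mono (by
    rintro _ ⟨i, rfl⟩
    rw [iv_swp]
    fin_cases i
    exacts [⟨2, rfl⟩, ⟨1, rfl⟩, ⟨0, rfl⟩, ⟨6, rfl⟩, ⟨5, rfl⟩, ⟨4, rfl⟩, ⟨3, rfl⟩])
  exact le_antisymm (this t) (by simpa [swp_swp] using this (swp t))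

theorem D1_eq : D1 t = Algebra.adjoin ℂ (Set.range (crd 1 t)) := adjoin_co t ℂ

theorem crd_mem (ν : Fin 3) (k : Fin 4) : crd ν t k ∈ Algebra.adjoin ℂ (Set.range (crd ν t)) :=
  Algebra.subset_adjoin ⟨k, rfl⟩

theorem ivt_mem_D1 (h : alt t 1 ≠ 0) (i : Fin 7) : ivt t i ∈ D1 t := by
  rw [D1_eq, ivt_eq 1 h]; exact ivC_mem _ 1 (crd_mem 1) i

theorem alt_div_mem_D1 (h : alt t 1 ≠ 0) (i : Fin 5) : alt t i / alt t 1 ∈ D1 t := by
  rw [D1_eq]
  exact (alt_div_eq 1 h i).symm ▸ alC_mem _ 1 (crd_mem 1) i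

theorem inv_mem_D12 : (ee t)⁻¹ ∈ D12 t := Algebra.subset_adjoin (Set.mem_insert _ _)

theorem O12_eq (h1 : alt t 1 ≠ 0) (h4 : alt t 4 ≠ 0) : O12 O t = O ⊔ D12 t := by
  have hr : D12 t ≤ O ⊔ D12 t := le_sup_right
  refine le_antisymm (sup_le (On_one.trans_le (sup_le_sup_left C1_le _)) (On_le le_sup_left
    (fun i => hr (C1_le (ivt_mem_D1 h1 i))) fun i => ?_))
    (sup_le ((le_On 1).trans le_sup_left) (Algebra.adjoin_le ?_))
  · rw [show alt t i / alt t (cix 2) = alt t i / alt t 1 * (ee t)⁻¹ by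
      change _ / alt t 4 = _; unfold ee; field_simp]
    exact hr (mul_mem (C1_le (alt_div_mem_D1 h1 i)) inv_mem_D12)
  · rintro _ (rfl | h)
    · rw [inv_div]
      exact (le_sup_right : _ ≤ O12 O t) (alt_div_mem_On (ν := 2) h4 1)
    · refine (le_sup_left : _ ≤ O12 O t) ?_
      rw [On_one]
      exact (le_sup_right : _ ≤ O ⊔ D1 t) (Algebra.subset_adjoin h)

theorem cg_ee (h : alt t 1 ≠ 0) : Cg (D1 t) (ss t) (ee t) (bb t ^ 3) := by
  have := @q_mem ℂ K _ _ _ (ivt t 0) (ivt t 3) (bb t) (ss t)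
  have := @p_mem ℂ K _ _ _ (ivt t 0) (ivt t 3) (bb t) (ss t)
  have := @b_mem ℂ K _ _ _ (ivt t 0) (ivt t 3) (bb t) (ss t)
  have := @s_mem ℂ K _ _ _ (ivt t 0) (ivt t 3) (bb t) (ss t)
  refine ⟨-(3 * bb t * ss t * ivt t 0) - ss t ^ 2 * ivt t 3, (by
    repeat' first
      | assumption | exact one_mem _ | exact ofNat_mem _ _ | exact zero_mem _ | apply add_mem
      | apply sub_mem | apply neg_mem | apply mul_mem | apply pow_mem), ?_⟩
  have := alt_div_eq 1 h 4
  simp only [alC, crd, cix, Matrix.cons_val] at this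
  linear_combination this

theorem cg_alt (h : alt t 1 ≠ 0) {l : ℕ} (hl : l ≤ 3) :
    ∃ i, Cg (D1 t) (ss t) (alt t i / alt t 1) (bb t ^ l) := by
  have := @q_mem ℂ K _ _ _ (ivt t 0) (ivt t 3) (bb t) (ss t)
  have := @s_mem ℂ K _ _ _ (ivt t 0) (ivt t 3) (bb t) (ss t)
  interval_cases l
  · exact ⟨1, .of_eq (by rw [div_self h, pow_zero])⟩
  · exact ⟨2, .of_eq (pow_one _).symm⟩
  · refine ⟨3, -(ss t * ivt t 0), (by
    repeat' first
      | assumption | exact one_mem _ | exact ofNat_mem _ _ | exact zero_mem _ | apply add_mem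
      | apply sub_mem | apply neg_mem | apply mul_mem | apply pow_mem), ?_⟩
    have := alt_div_eq 1 h 3
    simp only [alC, crd, cix, Matrix.cons_val] at this
    linear_combination this
  · exact ⟨4, cg_ee h⟩

theorem cg_q2 (h : alt t 1 ≠ 0) : Cg (D1 t) (ss t) (ivt t 2) (bb t ^ 2 * ivt t 0) := by
  have := @q_mem ℂ K _ _ _ (ivt t 0) (ivt t 3) (bb t) (ss t)
  have := @p_mem ℂ K _ _ _ (ivt t 0) (ivt t 3) (bb t) (ss t)
  have := @b_mem ℂ K _ _ _ (ivt t 0) (ivt t 3) (bb t) (ss t)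
  have := @s_mem ℂ K _ _ _ (ivt t 0) (ivt t 3) (bb t) (ss t)
  refine ⟨bb t * ivt t 3 + ss t * ivt t 0 ^ 2, (by
    repeat' first
      | assumption | exact one_mem _ | exact ofNat_mem _ _ | exact zero_mem _ | apply add_mem
      | apply sub_mem | apply neg_mem | apply mul_mem | apply pow_mem), ?_⟩
  have := ivt_eq 1 h 2
  simp only [ivC, crd, Matrix.cons_val] at this
  linear_combination this

theorem cg_p3 (h : alt t 1 ≠ 0) : Cg (D1 t) (ss t) (ivt t 6) (bb t ^ 3 * ivt t 3) := by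
  have := @q_mem ℂ K _ _ _ (ivt t 0) (ivt t 3) (bb t) (ss t)
  have := @p_mem ℂ K _ _ _ (ivt t 0) (ivt t 3) (bb t) (ss t)
  have := @b_mem ℂ K _ _ _ (ivt t 0) (ivt t 3) (bb t) (ss t)
  have := @s_mem ℂ K _ _ _ (ivt t 0) (ivt t 3) (bb t) (ss t)
  refine ⟨6 * bb t ^ 2 * ivt t 0 ^ 2 + 3 * bb t * ss t * ivt t 0 * ivt t 3
    + ss t ^ 2 * (ivt t 3 ^ 2 - 2 * ivt t 0 ^ 3), (by
    repeat' first
      | assumption | exact one_mem _ | exact ofNat_mem _ _ | exact zero_mem _ | apply add_mem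
      | apply sub_mem | apply neg_mem | apply mul_mem | apply pow_mem), ?_⟩
  have := ivt_eq 1 h 6
  simp only [ivC, crd, Matrix.cons_val] at this
  linear_combination this

theorem cg_q (h : alt t 1 ≠ 0) {l : ℕ} (hl : l ≤ 2) :
    ∃ a ∈ invAlg ℂ t, Cg (D1 t) (ss t) a (bb t ^ l * ivt t 0) := by
  interval_cases l
  · exact ⟨_, ivt_mem t 0, .of_eq (by simp)⟩
  · refine ⟨(2 : ℂ)⁻¹ • ivt t 1, Subalgebra.smul_mem _ (ivt_mem t 1) _, (2 : ℂ)⁻¹ • ivt t 3,
      Subalgebra.smul_mem _ p_mem _, ?_⟩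
    have := ivt_eq 1 h 1
    simp only [ivC, crd, Matrix.cons_val] at this
    have h2 : (2 : K) ≠ 0 := fun e => six_ne (K := K) (by linear_combination 3 * e)
    simp only [Algebra.smul_def, map_inv₀, map_ofNat, this]
    field_simp
  · exact ⟨_, ivt_mem t 2, cg_q2 h⟩

theorem cg_p (h : alt t 1 ≠ 0) {l : ℕ} (hl : l ≤ 3) :
    ∃ a ∈ invAlg ℂ t, Cg (D1 t) (ss t) a (bb t ^ l * ivt t 3) := by
  have := @q_mem ℂ K _ _ _ (ivt t 0) (ivt t 3) (bb t) (ss t)
  have := @p_mem ℂ K _ _ _ (ivt t 0) (ivt t 3) (bb t) (ss t)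
  have := @b_mem ℂ K _ _ _ (ivt t 0) (ivt t 3) (bb t) (ss t)
  have := @s_mem ℂ K _ _ _ (ivt t 0) (ivt t 3) (bb t) (ss t)
  interval_cases l
  · exact ⟨_, ivt_mem t 3, .of_eq (by simp)⟩
  · refine ⟨_, ivt_mem t 4, 2 * ivt t 0 ^ 2, (by
    repeat' first
      | assumption | exact one_mem _ | exact ofNat_mem _ _ | exact zero_mem _ | apply add_mem
      | apply sub_mem | apply neg_mem | apply mul_mem | apply pow_mem), ?_⟩
    have := ivt_eq 1 h 4
    simp only [ivC, crd, Matrix.cons_val] at this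
    linear_combination this
  · refine ⟨_, ivt_mem t 5, 4 * bb t * ivt t 0 ^ 2 + ss t * ivt t 0 * ivt t 3, (by
    repeat' first
      | assumption | exact one_mem _ | exact ofNat_mem _ _ | exact zero_mem _ | apply add_mem
      | apply sub_mem | apply neg_mem | apply mul_mem | apply pow_mem), ?_⟩
    have := ivt_eq 1 h 5
    simp only [ivC, crd, Matrix.cons_val] at this
    linear_combination this
  · exact ⟨_, ivt_mem t 6, cg_p3 h⟩

theorem cg_b' (h1 : alt t 1 ≠ 0) (h4 : alt t 4 ≠ 0) :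
    Cg (D12 t) (ss t) (alt t 3 / alt t 4 * bb t) 1 := by
  obtain ⟨r, hr, e⟩ := cg_ee h1
  have hq : ivt t 0 ∈ D12 t := C1_le q_mem
  have hb : bb t ∈ D12 t := C1_le b_mem
  have hs : ss t ∈ D12 t := C1_le s_mem
  have hr' : r ∈ D12 t := C1_le hr
  have hi := inv_mem_D12 (t := t)
  refine ⟨-(bb t * ss t * ivt t 0 + r) * (ee t)⁻¹, (by
    repeat' first
      | assumption | exact one_mem _ | exact ofNat_mem _ _ | exact zero_mem _ | apply add_mem
      | apply sub_mem | apply neg_mem | apply mul_mem | apply pow_mem), ?_⟩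
  have := alt_div_eq 1 h1 3
  simp only [alC, crd, cix, Matrix.cons_val] at this
  have he : ee t ≠ 0 := div_ne_zero h4 h1
  rw [show alt t 3 / alt t 4 = alt t 3 / alt t 1 * (ee t)⁻¹ by unfold ee; field_simp, this]
  linear_combination (-(ee t)⁻¹) * e + mul_inv_cancel₀ he

end Pool.Agent.Lib.MP_d3d358_ag.K.Lf
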