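import Pool.Agent.Lib.MP_d3d358_ag.K.Lift1

/-! Lattices of rank six on the two charts along the curve `d = 0`. -/

set_option autoImplicit false
set_option linter.unusedSectionVars false

namespace Pool.Agent.Lib.MP_d3d358_ag.K.Lf

open Pool.Agent.Lib.MP_d3d358_ag.Var L1

variable {K : Type} [Field K] [Algebra ℂ K] [MulSemiringAction G K] [SMulCommClass G ℂ K]

/-- `O` is a ring of invariants that is flat over the invariants of the model. -/
structure Mdl (O : Subalgebra ℂ K) (t : Fin 4 → K) : Prop where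
  equi : Equi t
  inv : ∀ g : G, ∀ a ∈ O, g • a = a
  ind1 : AlgebraicIndependent ℂ (co t)
  ind2 : AlgebraicIndependent ℂ (co (swp t))
  flat : ∃ (A : Type) (_ : CommRing A) (_ : Algebra ℂ A) (φ : A →ₐ[ℂ] O),
    φ.toRingHom.Flat ∧ (O.val.comp φ).range = invAlg ℂ t

theorem equi_swp' {t : Fin 4 → K} (ht : Equi t) : Equi (swp t) := fun g i => by
  have h := ht g
  cases g <;> fin_cases i <;> simp [swp, h, gv_r, gv_sr]

namespace Mdl

variable {O : Subalgebra ℂ K} {t : Fin 4 → K} (H : Mdl O t)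
include H

theorem swap : Mdl O (swp t) :=
  ⟨equi_swp' H.equi, H.inv, H.ind2, (swp_swp t).symm ▸ H.ind1, invAlg_swp (t := t) ▸ H.flat⟩

theorem ss_ne : ss t ≠ 0 := fun h => H.ind1.transcendental 3 (show IsAlgebraic ℂ (ss t) from
  h ▸ isAlgebraic_zero)

theorem a0_ne : alt t 1 ≠ 0 := fun h => H.ss_ne (by rw [ss, h, div_zero])

theorem d_ne : alt t 0 ≠ 0 := fun h => H.ss_ne (by rw [ss, h, zero_div])

theorem a3_ne : alt t 4 ≠ 0 := by simpa [al_swp] using H.swap.a0_ne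

theorem al_ne (ν : Fin 3) : alt t (cix ν) ≠ 0 := by
  fin_cases ν
  exacts [H.d_ne, H.a0_ne, H.a3_ne]

theorem invAlg_le : invAlg ℂ t ≤ O := by
  obtain ⟨A, _, _, φ, -, h⟩ := H.flat
  rw [← h]
  rintro _ ⟨a, rfl⟩
  exact (φ a).2

theorem ivt_mem (i : Fin 7) : ivt t i ∈ O := H.invAlg_le (Var.ivt_mem t i)

theorem On_inv (ν : Fin 3) (g : G) : ∀ a ∈ On O t ν, g • a = a := fun _ ha =>
  On_le (T := FixedPoints.subalgebra ℂ K G) (fun a ha g => H.inv g a ha)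
    (fun i g => H.equi.smul_ivt g i)
    (fun i g => smul_div_alt (fun g => H.equi.smul_alt g i) (fun g => H.equi.smul_alt g _) g) ha g

theorem O12_inv (g : G) : ∀ a ∈ O12 O t, g • a = a := fun _ ha =>
  (sup_le (fun a ha g => H.On_inv 1 g a ha) fun a ha g => H.On_inv 2 g a ha :
    O12 O t ≤ FixedPoints.subalgebra ℂ K G) ha g

theorem isFr {A : Type} [CommRing A] [Algebra A K]
    (hA : ∀ x ∈ invAlg ℂ t, ∃ a : A, algebraMap A K a = x) (i : Fin 4) : IsFr A (co t i) := by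
  have h : ∀ x ∈ invAlg ℂ t, IsFr A x := fun x hx => by
    obtain ⟨a, rfl⟩ := hA x hx; exact IsFr.algebraMap a
  have h1 := H.a0_ne
  have h2 : ∀ j, IsFr A (alt t j / alt t 1) := fun j => by
    rw [show alt t j / alt t 1 = alt t j * alt t 1 * (alt t 1 * alt t 1)⁻¹ by field_simp]
    exact (h _ (alt_mul_alt t _ _)).mul (h _ (alt_mul_alt t _ _)).inv
  fin_cases i
  exacts [h _ (Var.ivt_mem t 0), h _ (Var.ivt_mem t 3), h2 2, h2 0]

theorem invAlg_le_D1 : invAlg ℂ t ≤ D1 t :=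
  Algebra.adjoin_le (by rintro _ ⟨i, rfl⟩; exact ivt_mem_D1 H.a0_ne i)

/-- The pair `s, a₃ / a₀` is regular on the first chart ring. -/
theorem reg_On {r : K} (hr : r ∈ O12 O t) (hx : ss t * r ∈ On O t 1) : r ∈ On O t 1 := by
  obtain ⟨A, _, _, φ, hφ, hA⟩ := H.flat
  let : Algebra A O := φ.toRingHom.toAlgebra
  let : Algebra A K := (O.val.comp φ).toRingHom.toAlgebra
  have : IsScalarTower A O K := IsScalarTower.of_algebraMap_eq fun _ => rfl
  have : IsScalarTower ℂ A K :=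
    IsScalarTower.of_algebraMap_eq fun c => ((O.val.comp φ).commutes c).symm
  have : Module.Flat A O := hφ
  obtain ⟨r0, hr0, he⟩ := cg_ee H.a0_ne
  rw [O12_eq H.a0_ne H.a3_ne, mem_sup_iff] at hr
  rw [On_one, mem_sup_iff] at hx ⊢
  exact mem_of_mod_base (A := A) Subtype.val_injective H.ind1 hr0 he
    (H.isFr fun x hx => (hA ▸ hx : x ∈ (O.val.comp φ).range))
    (fun a => H.invAlg_le_D1 (hA ▸ ⟨a, rfl⟩)) hx hr rfl

/-- Sections of `O(m)` on the curve `s = 0`. -/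
theorem p_On {m : ℕ} {x y : K} (hx : x ∈ On O t 1) (hy : y ∈ On O t 2)
    (h : Cg (O12 O t) (ss t) x (bb t ^ m * y)) :
    ∃ c : ℕ → K, (∀ l, c l ∈ O) ∧
      Cg (On O t 1) (ss t) x (∑ l ∈ Finset.range (m + 1), c l * bb t ^ l) := by
  obtain ⟨A, _, _, φ, hφ, hA⟩ := H.flat
  let : Algebra A O := φ.toRingHom.toAlgebra
  let : Algebra A K := (O.val.comp φ).toRingHom.toAlgebra
  have : IsScalarTower A O K := IsScalarTower.of_algebraMap_eq fun _ => rfl
  have : IsScalarTower ℂ A K :=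
    IsScalarTower.of_algebraMap_eq fun c => ((O.val.comp φ).commutes c).symm
  have : Module.Flat A O := hφ
  have hs : ∀ x ∈ invAlg ℂ t, ∃ a : A, algebraMap A K a = x := fun x hx =>
    (hA ▸ hx : x ∈ (O.val.comp φ).range)
  have h1 := H.a0_ne
  have h4 := H.a3_ne
  obtain ⟨r0, hr0, he⟩ := cg_ee h1
  obtain ⟨z, hz, h⟩ := h
  rw [O12_eq h1 h4, mem_sup_iff] at hz
  rw [On_one, mem_sup_iff] at hx
  rw [← On_swp_one, On_one, mem_sup_iff] at hy
  obtain ⟨c, r, hr, e⟩ := p_one_base (A := A) Subtype.val_injective H.ind1 hr0 he (H.isFr hs)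
    (fun a => H.invAlg_le_D1 (hA ▸ ⟨a, rfl⟩)) (q' := ivt (swp t) 0) (p' := ivt (swp t) 3)
    (b' := bb (swp t)) (s' := ss (swp t))
    (by rw [iv_swp]; exact (cg_q2 h1).mono C1_le) (by rw [iv_swp]; exact (cg_p3 h1).mono C1_le)
    (by rw [bb, al_swp]; exact cg_b' h1 h4)
    ⟨-(ee t)⁻¹, neg_mem inv_mem_D12, by simp only [ss, ee, al_swp, Matrix.cons_val]; field_simp⟩
    (H.swap.isFr fun x hx => hs x (invAlg_swp (t := t) ▸ hx))
    (fun a => H.swap.invAlg_le_D1 (invAlg_swp (t := t) ▸ hA ▸ ⟨a, rfl⟩))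
    (fun i hi => by
      obtain ⟨x, hx, h⟩ := cg_q h1 hi
      obtain ⟨a, rfl⟩ := hs x hx
      exact ⟨a, h⟩)
    (fun i hi => by
      obtain ⟨x, hx, h⟩ := cg_p h1 hi
      obtain ⟨a, rfl⟩ := hs x hx
      exact ⟨a, h⟩) hx hy hz h
  refine ⟨fun l => if h : l < m + 1 then c ⟨l, h⟩ else 0, fun l => ?_, r, ?_, ?_⟩
  · dsimp only
    split_ifs
    exacts [(c _).2, zero_mem _]
  · rwa [On_one, mem_sup_iff]
  · rw [e, Finset.sum_range]
    exact congrArg (· + _) (Finset.sum_congr rfl fun i _ => by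
      dsimp only; rw [dif_pos i.2]; rfl)

end Mdl

/-- The frame of the first chart. -/
noncomputable abbrev f1 (t : Fin 4 → K) : Fin 6 → K := fr (fq 1 t)
/-- The dual frame of the first chart. -/
noncomputable abbrev g1 (t : Fin 4 → K) : Fin 6 → K := du (fq 1 t)
/-- The coordinates in the frame of the first chart. -/
noncomputable def lm (t : Fin 4 → K) (j : Fin 6) (x : K) : K := altP (g1 t j * x) / alt t 1
/-- The degrees of the members of the frame. -/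
def dg : Fin 6 → ℕ := ![0, 1, 2, 1, 2, 3]

theorem dg_le (j : Fin 6) : dg j ≤ 3 := by fin_cases j <;> simp [dg]

variable {O : Subalgebra ℂ K} {t : Fin 4 → K}

theorem f1_eq : f1 t = ![1, t 0, t 2 ^ 2, t 2, t 0 ^ 2, alt t 1] := by
  rw [show alt t 1 = alt (fq 1 t) 0 from (alt_fq 1 t).symm]; rfl

theorem g1_eq : g1 t = ![alt t 1, 2 * t 0 ^ 2, -(2 * t 2), -(2 * t 2 ^ 2), 2 * t 0, 1] := by
  rw [show alt t 1 = alt (fq 1 t) 0 from (alt_fq 1 t).symm]; rfl

theorem f1_mem (j : Fin 6) : f1 t j ∈ latP O t := fr_mem (fq_mem t_mem_latP 1) j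

theorem g1_mem (j : Fin 6) : g1 t j ∈ latP O t := du_mem (fq_mem t_mem_latP 1) j

theorem lm_add (j : Fin 6) (x y : K) : lm t j (x + y) = lm t j x + lm t j y := by
  rw [lm, mul_add, altP_add, add_div]; rfl

theorem lm_mul {c : K} (hc : ∀ g : G, g • c = c) (j : Fin 6) (x : K) :
    lm t j (c * x) = c * lm t j x := by
  rw [lm, mul_left_comm, altP_mul hc, mul_div_assoc]; rfl

theorem P_le_Ln (ν : Fin 3) : latP O t ≤ Ln O t ν := latP_mono (le_On ν) t
theorem On_le_Ln (ν : Fin 3) : On O t ν ≤ Ln O t ν := le_latP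
theorem L1_le : Ln O t 1 ≤ L12 O t := latP_mono le_sup_left t
theorem L2_le : Ln O t 2 ≤ L12 O t := latP_mono le_sup_right t
theorem O12_le : O12 O t ≤ L12 O t := le_latP
theorem D1_le_On : D1 t ≤ On O t 1 := On_one (O := O) (t := t) ▸ le_sup_right
theorem bb_mem : bb t ∈ On O t 1 := D1_le_On b_mem
theorem ss_mem : ss t ∈ On O t 1 := D1_le_On s_mem

theorem alt_mem_P (i : Fin 5) : alt t i ∈ latP O t := by
  have := map_alt (latP O t).val (fun k => ⟨t k, t_mem_latP k⟩) i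
  exact this ▸ (alt (fun k => (⟨t k, t_mem_latP k⟩ : latP O t)) i).2

/-- Low powers of `b` times powers of a coordinate are polynomials modulo `s`. -/
theorem cg_pow {x y : K} (hx : x ∈ latP O t) (hy : y ∈ latP O t)
    (h : Cg (Ln O t 1) (ss t) y (bb t * x)) {l w : ℕ} (hl : l ≤ w) :
    ∃ φ ∈ latP O t, Cg (Ln O t 1) (ss t) φ (bb t ^ l * x ^ w) := by
  obtain ⟨n, rfl⟩ := Nat.exists_eq_add_of_le hl
  refine ⟨y ^ l * x ^ n, mul_mem (pow_mem hy _) (pow_mem hx _), ?_⟩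
  have := (h.pow (P_le_Ln 1 hy) (mul_mem (On_le_Ln 1 bb_mem) (P_le_Ln 1 hx)) l).mul_right
    (P_le_Ln 1 (pow_mem hx n))
  rwa [mul_pow, mul_assoc, ← pow_add] at this

theorem cg_u (h : alt t 1 ≠ 0) : Cg (Ln O t 1) (ss t) (t 1) (bb t * t 0) :=
  ⟨_, pow_mem (t_mem_latP 2) 2, u2_eq h⟩

theorem cg_v (h : alt t 1 ≠ 0) : Cg (Ln O t 1) (ss t) (t 3) (bb t * t 2) :=
  ⟨_, pow_mem (t_mem_latP 0) 2, v2_eq h⟩

theorem cg_a (h : alt t 1 ≠ 0) {l : ℕ} (hl : l ≤ 3) :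
    ∃ i, Cg (Ln O t 1) (ss t) (alt t i) (bb t ^ l * alt t 1) := by
  obtain ⟨i, hi⟩ := cg_alt h hl
  have := (hi.mono (D1_le_On.trans (On_le_Ln (O := O) 1))).mul_right (P_le_Ln 1 (alt_mem_P 1))
  exact ⟨i, by rwa [div_mul_cancel₀ _ h] at this⟩

theorem cg_f1 (h : alt t 1 ≠ 0) (j : Fin 6) {l : ℕ} (hl : l ≤ dg j) :
    ∃ φ ∈ latP O t, Cg (Ln O t 1) (ss t) φ (bb t ^ l * f1 t j) := by
  have hu := fun w (hw : l ≤ w) => cg_pow (t_mem_latP 0) (t_mem_latP 1) (cg_u (O := O) h) hw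
  have hv := fun w (hw : l ≤ w) => cg_pow (t_mem_latP 2) (t_mem_latP 3) (cg_v (O := O) h) hw
  rw [f1_eq]
  fin_cases j
  · simpa using hu 0 hl
  · simpa using hu 1 hl
  · exact hv 2 hl
  · simpa using hv 1 hl
  · exact hu 2 hl
  · obtain ⟨i, hi⟩ := cg_a (O := O) h hl
    exact ⟨_, alt_mem_P i, hi⟩

theorem cg_g1 (h : alt t 1 ≠ 0) (j : Fin 6) {l : ℕ} (hl : l + dg j ≤ 3) :
    ∃ φ ∈ latP O t, Cg (Ln O t 1) (ss t) φ (bb t ^ l * g1 t j) := by
  have key : ∀ (i : Fin 6) (c : ℤ), l ≤ dg i →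
      ∃ φ ∈ latP O t, Cg (Ln O t 1) (ss t) φ (bb t ^ l * (c * f1 t i)) := fun i c hi => by
    obtain ⟨φ, h1, h2⟩ := cg_f1 (O := O) h i hi
    exact ⟨c * φ, mul_mem (intCast_mem _ c) h1,
      mul_left_comm (bb t ^ l) _ _ ▸ h2.mul_left (intCast_mem _ c)⟩
  rw [g1_eq]
  rw [f1_eq] at key
  fin_cases j <;> simp only [dg, Fin.reduceFinMk, Matrix.cons_val] at hl
  · simpa using key 5 1 (by simp [dg]; omega)
  · simpa using key 4 2 (by simp [dg]; omega)
  · simpa using key 3 (-2) (by simp [dg]; omega)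
  · simpa using key 2 (-2) (by simp [dg]; omega)
  · simpa using key 1 2 (by simp [dg]; omega)
  · simpa using key 0 1 (by simp [dg]; omega)

/-- The frames of the two charts agree modulo `s` up to powers of `b`. -/
theorem cg_f2 (h : alt t 1 ≠ 0) (j : Fin 6) :
    Cg (Ln O t 1) (ss t) (f1 (swp t) j) (bb t ^ dg j * f1 t j) := by
  have hb : bb t ∈ Ln O t 1 := On_le_Ln 1 bb_mem
  have hu := fun w => (cg_u (O := O) h).pow (t_mem_latP 1) (mul_mem hb (t_mem_latP 0)) w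
  have hv := fun w => (cg_v (O := O) h).pow (t_mem_latP 3) (mul_mem hb (t_mem_latP 2)) w
  rw [f1_eq, f1_eq, al_swp]
  fin_cases j
  · simpa [dg] using Cg.refl 1
  · simpa [dg, swp] using hu 1
  · simpa [dg, swp, mul_pow] using hv 2
  · simpa [dg, swp] using hv 1
  · simpa [dg, swp, mul_pow] using hu 2
  · have := ((cg_ee h).mono (D1_le_On.trans (On_le_Ln (O := O) 1))).mul_right
      (P_le_Ln 1 (alt_mem_P 1))
    rw [div_mul_cancel₀ _ h] at this
    simpa [dg] using this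

variable (O t) in
/-- Combinations of `1, b, …, bⁿ` over the polynomials, modulo `s`. -/
def Sec (n : ℕ) : AddSubmonoid K := AddSubmonoid.closure
  ({x | ∃ l ≤ n, ∃ φ ∈ latP O t, x = bb t ^ l * φ} ∪ {x | ∃ r ∈ Ln O t 1, x = ss t * r})

theorem gen_mem_Sec {l n : ℕ} (h : l ≤ n) {φ : K} (hφ : φ ∈ latP O t) :
    bb t ^ l * φ ∈ Sec O t n := AddSubmonoid.subset_closure (.inl ⟨l, h, φ, hφ, rfl⟩)

theorem mem_Sec_of_cg {n : ℕ} {x y : K} (h : Cg (Ln O t 1) (ss t) x y) (hy : y ∈ Sec O t n) :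
    x ∈ Sec O t n := by
  obtain ⟨r, hr, rfl⟩ := h
  exact add_mem hy (AddSubmonoid.subset_closure (.inr ⟨r, hr, rfl⟩))

theorem Sec_mono {m n : ℕ} (h : m ≤ n) : Sec O t m ≤ Sec O t n :=
  AddSubmonoid.closure_mono (Set.union_subset_union_left _ fun _ ⟨l, hl, e⟩ => ⟨l, hl.trans h, e⟩)

namespace Mdl

variable (H : Mdl O t)
include H

theorem lm_inv (j : Fin 6) (x : K) (g : G) : g • lm t j x = lm t j x :=
  smul_div_alt (fun g => smul_altP g _) (fun g => H.equi.smul_alt g 1) g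

theorem sum_lm (x : K) : x = ∑ j, lm t j x * f1 t j := by
  have := expand' (equi_fq H.equi 1) ((alt_fq 1 t).symm ▸ H.a0_ne) x
  rwa [alt_fq] at this

theorem lm_sum {a : Fin 6 → K} (ha : ∀ i, ∀ g : G, g • a i = a i) (j : Fin 6) :
    lm t j (∑ i, a i * f1 t i) = a j := by
  have := coef_sum (equi_fq H.equi 1) ((alt_fq 1 t).symm ▸ H.a0_ne) ha j
  rwa [alt_fq] at this

theorem lm_mem {x : K} (hx : x ∈ Ln O t 1) (j : Fin 6) : lm t j x ∈ On O t 1 :=
  coef_mem H.equi (H.On_inv 1) (ivt_mem_On H.a0_ne) 1 (alt_div_mem_On H.a0_ne) hx j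

theorem lm_mem' {x : K} (hx : x ∈ L12 O t) (j : Fin 6) : lm t j x ∈ O12 O t :=
  coef_mem H.equi H.O12_inv (fun i => (le_sup_left : _ ≤ O12 O t) (ivt_mem_On H.a0_ne i)) 1
    (fun i => (le_sup_left : _ ≤ O12 O t) (alt_div_mem_On H.a0_ne i)) hx j

theorem ss_inv (g : G) : g • ss t = ss t := H.On_inv 1 g _ ss_mem

/-- The pair `s, a₃ / a₀` is regular on the first lattice. -/
theorem reg_Ln {r : K} (hr : r ∈ L12 O t) (hx : ss t * r ∈ Ln O t 1) : r ∈ Ln O t 1 := by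
  rw [H.sum_lm r]
  refine sum_mem fun j _ => mul_mem (On_le_Ln 1 (H.reg_On (H.lm_mem' hr j) ?_)) (f1_mem j)
  rw [← lm_mul H.ss_inv]
  exact H.lm_mem hx j

theorem cg_b : Cg (L12 O t) (ss t) (alt t 3 / alt t 4 * bb t) 1 :=
  (cg_b' H.a0_ne H.a3_ne).mono
    ((le_sup_right.trans (O12_eq H.a0_ne H.a3_ne).ge).trans O12_le)

theorem b'_mem : alt t 3 / alt t 4 ∈ L12 O t :=
  L2_le (On_le_Ln 2 (alt_div_mem_On (ν := 2) H.a3_ne 3))

end Mdl

end Pool.Agent.Lib.MP_d3d358_ag.K.Lf
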