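import Pool.Agent.Lib.MP_d3d358_ag.Bkr.B1K
import Pool.Agent.Lib.MP_d3d358_ag.K.EmbS
import Pool.Agent.Lib.MP_d3d358_ag.K.Nrm

/-! Maps that keep the rank six lattices are combinations of the group elements. -/

set_option autoImplicit false

open CategoryTheory

namespace Pool.Agent.Lib.MP_d3d358_ag.K

open Pool.Agent.Lib.MP_cd184e_ag.T Pool.Agent.Lib.MP_cd184e_ag.T.Coh Cy
open Pool.Agent.Lib.MP_d3d358_ag.Var (G sg chi ivt alt cix crd Equi)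
open Pool.Agent.Lib.MP_d3d358_ag.Bkr

variable {F : Type} [Field F] [Algebra ℂ F] [MulSemiringAction G F] [SMulCommClass G ℂ F]
  {Q : Kum F} {w : Q.Pt}

namespace Kum.Loc

variable (L : Q.Loc w)

theorem Lt_le_Gen (ν : Fin 3) (m : ℤ) {z : F} (hz : z ∈ L.Lt Q.R ν 0 m) : z ∈ Q.Gen m := by
  obtain ⟨n⟩ := L.nonempty_nrm
  rw [mem_Lt, gam, zpow_zero, one_mul, Yw_R_eq] at hz
  exact L.mem_Gen_iff.2 (mul_le_mul_left (show (L.O ν).toSubmodule ≤ (RatA Q).toSubmodule from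
    fun _ hx => n.O_le_Rat ν hx) _ hz)

theorem b_one {m m' : ℤ} (ψ : F →+ F) (hψ : RLin Q.X ψ)
    (h : ∀ ν, ∀ z ∈ L.Lt Q.R ν 0 m, ψ z ∈ L.Lt Q.R ν 0 m') :
    ∃ c : G → F, (∀ g, c g / L.g ^ (m' - m) ∈ Q.Yw w L.g Q.R) ∧
      ∀ z ∈ L.Lt Q.R 1 0 m, ψ z = sumG c z := by
  obtain ⟨n⟩ := L.nonempty_nrm
  obtain ⟨c, hc⟩ := n.exists_coef m hψ
  exact ⟨c, fun g => L.mem_Yw_iff.2 (L.coef_mem_Ot hc h g), fun z hz => hc z (L.Lt_le_Gen 1 m hz)⟩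

end Kum.Loc

namespace Kum

theorem EP_mem_Gen (a : ℤ) (s : Q.X.Idx) (x : ((twc (Q.cy 0 a)).obj Q.P).obj s) :
    (Q.EP 0 a).e s x ∈ Q.Gen a := by
  have h := mem_Sec.1 (Q.mem_E.1 ((Q.EP 0 a).e_mem s x))
  exact mem_Gen_of_sec (by rwa [show (Q.cy 0 a).fp s = Q.Tg.fp s ^ a by simp [cy]] at h)

/-- `B1` from the description of the lattices. -/
theorem B1_of_link (hL : ∀ w, Nonempty (Q.Loc w)) [Nonempty Q.Pt]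
    (link : ∀ (w : Q.Pt) (L : Q.Loc w) (n : L.Nrm) (ν : Fin 3) (m : ℤ) (z : F),
      z ∈ (Q.EP 0 m).Lat (Q.mon w) (n.fm ν) ↔ z ∈ L.Lt Q.R ν 0 m) (a b : ℤ)
    (φ : (twc (Q.cy 0 a)).obj Q.P ⟶ (twc (Q.cy 0 b)).obj Q.P) :
    ∃ c : G → F, (∀ g w, ∃ y ∈ Q.Sig w 1, c g / y ^ (b - a) ∈ Q.Yw w y Q.R) ∧
      ∀ s x, (Q.EP 0 b).e s (φ.app s x) = sumG c ((Q.EP 0 a).e s x) := by
  obtain ⟨ψ, hψ, e⟩ := (Q.EP 0 a).exists_hat (Q.EP 0 b) φ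
  obtain ⟨w₀⟩ := ‹Nonempty Q.Pt›
  obtain ⟨L₀⟩ := hL w₀
  obtain ⟨n₀⟩ := L₀.nonempty_nrm
  obtain ⟨c, hc, h⟩ := b1_gen n₀ a b hψ
  refine ⟨c, fun g w => ?_, fun s x => (e s x).symm.trans (hc _ (EP_mem_Gen a s x))⟩
  obtain ⟨L⟩ := hL w
  obtain ⟨n⟩ := L.nonempty_nrm
  exact ⟨L.g, L.g_mem, L.mem_Yw_iff.2 (h w L (fun ν z hz => (link w L n ν b _).1
    (Emb.hat_mem hψ e ((link w L n ν a z).2 hz))) g)⟩

end Kum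

end Pool.Agent.Lib.MP_d3d358_ag.K
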