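import Pool.Agent.Lib.MP_d3d358_ag.K.EmbS
import Pool.Agent.Lib.MP_d3d358_ag.K.Nrm

/-! The direct summands of the rank six bundle. -/

set_option autoImplicit false

open CategoryTheory

namespace Pool.Agent.Lib.MP_d3d358_ag.K

open Pool.Agent.Lib.MP_cd184e_ag.T Pool.Agent.Lib.MP_cd184e_ag.T.Coh Cy
open Pool.Agent.Lib.MP_d3d358_ag.Var (G sg chi)
open Pool.Agent.Lib.MP_d3d358_ag.Bkr

theorem mem_embLat {k K : Type} [Field k] [Field K] [Algebra k K] {X : ProjVar k K}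
    {Y : Submodule k K} {hY : Y.FG} {g : Cy X} {s : X.Idx} {z : K} :
    z ∈ (embLat Y hY g).Im s ↔ z * g.fp s ∈ (X.A s.1).toSubmodule * Y := by
  constructor
  · rintro ⟨x, rfl⟩
    exact mem_latM.1 (show latM Y g s from x).2
  · intro h
    exact ⟨(⟨z, mem_latM.2 h⟩ : latM Y g s), latE_apply Y g s _⟩

variable {F : Type} [Field F] [Algebra ℂ F] [MulSemiringAction G F] [SMulCommClass G ℂ F]

namespace Kum

variable (Q : Kum F)

theorem inv_Tg_fp (s : Q.X.Idx) (g : G) : g • Q.Tg.fp s = Q.Tg.fp s :=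
  ((Q.g_mem _).2 g).trans (one_smul _ _)

/-- A map that is linear over the invariants and sends `Y` to `Y'` gives a map of sheaves. -/
theorem exists_S_map {Y Y' : Submodule ℂ F} (h : Y ≤ Q.R) (h' : Y' ≤ Q.R) (ψ : F →+ F)
    (hψ : ∀ a : F, (∀ g : G, g • a = a) → ∀ x, ψ (a * x) = a * ψ x) (hY : ∀ y ∈ Y, ψ y ∈ Y') :
    ∃ φ : Q.S Y h ⟶ Q.S Y' h', ∀ s x, (embLat Y' (Q.fg_of_le h') Q.Tg).e s (φ.app s x) =
      ψ ((embLat Y (Q.fg_of_le h) Q.Tg).e s x) := by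
  refine Emb.exists_hom _ _ (fun c hc v => hψ c (Q.inv_Rat hc) v) fun s x => mem_embLat.2 ?_
  have hx := mem_embLat.1 ((embLat Y (Q.fg_of_le h) Q.Tg).e_mem s x)
  generalize (embLat Y (Q.fg_of_le h) Q.Tg).e s x = z at hx ⊢
  rw [mul_comm (ψ z), ← hψ _ (Q.inv_Tg_fp s), mul_comm _ z]
  refine Submodule.mul_induction_on (C := fun z => ψ z ∈ (Q.X.A s.1).toSubmodule * Y') hx
    (fun a ha y hy => ?_) fun y z hy hz => ?_
  · rw [hψ a (Q.inv_Rat (mem_Rat ha))]; exact Submodule.mul_mem_mul ha (hY y hy)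
  · rw [map_add]; exact add_mem hy hz

/-- A projection of `R` onto `Y` makes `S Y` a direct summand. -/
theorem retract_S {Y : Submodule ℂ F} (h : Y ≤ Q.R) (ψ : F →+ F)
    (hψ : ∀ a : F, (∀ g : G, g • a = a) → ∀ x, ψ (a * x) = a * ψ x)
    (h1 : ∀ y ∈ Q.R, ψ y ∈ Y) (h2 : ∀ y ∈ Y, ψ y = y) : Nonempty (Retract (Q.S Y h) Q.P) := by
  obtain ⟨a, ha⟩ := Q.exists_S_map h le_rfl (AddMonoidHom.id F) (fun _ _ _ => rfl) h
  obtain ⟨b, hb⟩ := Q.exists_S_map le_rfl h ψ hψ h1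
  refine ⟨⟨a, b, hom_ext fun s x => (embLat Y (Q.fg_of_le h) Q.Tg).inj s ?_⟩⟩
  rw [comp_app, hb, ha, AddMonoidHom.id_apply, id_app]
  have hx := mem_embLat.1 ((embLat Y (Q.fg_of_le h) Q.Tg).e_mem s x)
  generalize (embLat Y (Q.fg_of_le h) Q.Tg).e s x = z at hx ⊢
  refine mul_right_cancel₀ (Q.Tg.fp_ne s) ?_
  rw [mul_comm, ← hψ _ (Q.inv_Tg_fp s), mul_comm]
  refine Submodule.mul_induction_on (C := fun z => ψ z = z) hx (fun a ha y hy => ?_)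
    fun y z hy hz => ?_
  · rw [hψ a (Q.inv_Rat (mem_Rat ha)), h2 y hy]
  · rw [map_add, hy, hz]

theorem Im_S_U (s : Q.X.Idx) :
    (embLat Q.U (Q.fg_of_le Q.U_le) Q.Tg).Im s = (Emb.unit Q.X).Im s := by
  ext z
  rw [mem_embLat, Emb.mem_unit]
  refine ⟨fun h => ?_, fun h => Submodule.mul_mem_mul h (Q.g_mem _)⟩
  rw [← mul_div_cancel_right₀ z (Q.Tg.fp_ne s)]
  refine Submodule.mul_induction_on (C := fun z => z / Q.Tg.fp s ∈ Q.X.A s.1) h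
    (fun a ha y hy => ?_) fun y z hy hz => ?_
  · rw [mul_div_assoc]; exact mul_mem ha (Q.U_div_mem hy _ (Q.X.pt_mem s))
  · rw [add_div]; exact add_mem hy hz

theorem Im_S_V (s : Q.X.Idx) : (embLat Q.V (Q.fg_of_le Q.V_le) Q.Tg).Im s =
    ((Emb.unit Q.X).tw Q.Lr 1 one_ne_zero).Im s := by
  have hf := Q.f_ne (Q.X.pt s)
  have hg := Q.g_ne (Q.X.pt s)
  have e1 : Q.Tg.fp s = Q.g (Q.X.pt s) := rfl
  have e2 : Q.Lr.fp s = Q.f (Q.X.pt s) / Q.g (Q.X.pt s) := rfl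
  ext z
  rw [mem_embLat]
  constructor
  · intro h
    have : z * Q.Tg.fp s / Q.f (Q.X.pt s) ∈ Q.X.A s.1 := by
      refine Submodule.mul_induction_on (C := fun z => z / Q.f (Q.X.pt s) ∈ Q.X.A s.1) h
        (fun a ha y hy => ?_) fun y z hy hz => ?_
      · rw [mul_div_assoc]; exact mul_mem ha (Q.V_div_mem hy _ (Q.X.pt_mem s))
      · rw [add_div]; exact add_mem hy hz
    obtain ⟨x, hx⟩ := Emb.mem_unit.2 this
    refine ⟨x, (Emb.tw_e _ _ _ s x).trans ?_⟩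
    rw [hx, e1, e2, smul_eq_mul]
    field_simp
  · rintro ⟨x, rfl⟩
    have hx := Emb.mem_unit.1 ((Emb.unit Q.X).e_mem s x)
    rw [Emb.tw_e]
    generalize (Emb.unit Q.X).e s x = z at hx ⊢
    rw [show (Q.Lr.fp s / 1) • z * Q.Tg.fp s = z * Q.f (Q.X.pt s) by
      rw [e1, e2, smul_eq_mul]; field_simp]
    exact Submodule.mul_mem_mul hx (Q.f_mem _)

theorem iso_S_U : Nonempty (Q.S Q.U Q.U_le ≅ unit Q.X) :=
  let ⟨e, _⟩ := exists_iso _ _ Q.Im_S_U; ⟨e⟩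

theorem iso_S_V : Nonempty (Q.S Q.V Q.V_le ≅ (twc Q.Lr).obj (unit Q.X)) :=
  let ⟨e, _⟩ := exists_iso _ _ Q.Im_S_V; ⟨e⟩

/-- The three kinds of direct summands of the rank six bundle. -/
theorem parts (Q : Kum F) : Nonempty (Retract (unit Q.X) Q.P) ∧
    Nonempty (Retract ((twc Q.Lr).obj (unit Q.X)) Q.P) ∧
    Nonempty (Retract (Q.S Q.W Q.W_le) Q.P) := by
  obtain ⟨e⟩ := Q.iso_S_U
  obtain ⟨e'⟩ := Q.iso_S_V
  obtain ⟨a⟩ := Q.retract_S Q.U_le (prC 1).toAddMonoidHom (fun _ => prC_mul 1)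
    (fun _ => prC_mem_eig (by simp) (by simp) Q.gR) fun y hy => prC_eq (by simp) hy.2
  obtain ⟨b⟩ := Q.retract_S Q.V_le (prC sg).toAddMonoidHom (fun _ => prC_mul sg)
    (fun _ => prC_mem_eig Var.sg_mul Var.sg_mul_self Q.gR) fun y hy => prC_eq Var.sg_mul_self hy.2
  exact ⟨⟨(Retract.ofIso e.symm).trans a⟩, ⟨(Retract.ofIso e'.symm).trans b⟩,
    Q.retract_S Q.W_le prW.toAddMonoidHom (fun _ => prW_mul) (fun _ => prW_mem_wt Q.gR)
      fun y hy => prW_eq hy.2⟩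

end Kum

end Pool.Agent.Lib.MP_d3d358_ag.K
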